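import Pool.Agent.LibSchG.G6b

/-! **G7e.**  The row identities and the defect inequality at a minimiser. -/

open Matrix Filter Topology
open scoped ComplexOrder

namespace Pool.Agent.LibSchG

open Pool.Agent.LibSchP Pool.Agent.LibSchA
open Pool.Agent.LibSchTw (tw outer RSym tw_posDef rp_rp' ud_rot ud_rot_re RSym_rot FF_trace
  trace_ud_re twist_compare)

section tools

variable {m : Type} [Fintype m] [DecidableEq m]

/-- `1 ⊕ (-1)` as a function -/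
def sgf (m : Type) : m ⊕ m → ℝ := Sum.elim (fun _ => 1) (fun _ => -1)

theorem sg_eq : sg m = dg (sgf m) := by
  ext i j
  rcases i with i | i <;> rcases j with j | j
  · simp [sg, dg, sgf, Matrix.one_apply, Matrix.diagonal_apply]
  · simp [sg, dg, sgf, Matrix.diagonal_apply]
  · simp [sg, dg, sgf, Matrix.diagonal_apply]
  · by_cases h : i = j <;>
      simp [sg, dg, sgf, Matrix.one_apply, Matrix.diagonal_apply, h]

theorem kk_dd (a x y : ℝ) (ha : 0 < a) (ha' : 2 * a < 1) (hx : 0 ≤ x) (hy : 0 ≤ y) :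
    kk a x y = (x ^ (2 * a) + y ^ (2 * a)) * dd (1 / a) (x ^ (2 * a)) (y ^ (2 * a)) := by
  have h2 : ∀ u : ℝ, 0 ≤ u → (u ^ (2 * a)) ^ (1 / a) = u ^ 2 := by
    intro u hu
    rw [← Real.rpow_mul hu, ← Real.rpow_natCast u 2]
    congr 1
    field_simp
    norm_num
  unfold kk dd
  split_ifs with h h' h'
  · subst h
    rcases hx.eq_or_lt with h0 | h0
    · rw [← h0, Real.zero_rpow (by positivity)]
      norm_num
    · have h3 : x ^ (2 * a) * (x ^ (2 * a)) ^ (1 / a - 1) = x ^ 2 := by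
        have h4 : 0 < x ^ (2 * a) := Real.rpow_pos_of_pos h0 _
        rw [mul_comm, ← Real.rpow_add_one h4.ne', sub_add_cancel, h2 x hx]
      calc 2 / a * x ^ 2 = 2 / a * (x ^ (2 * a) * (x ^ (2 * a)) ^ (1 / a - 1)) := by rw [h3]
        _ = _ := by ring
  · exact absurd (by rw [h]) h'
  · exfalso
    apply h
    have h5 := Real.rpow_left_injOn (x := 2 * a) (by positivity) hx hy h'
    exact h5
  · rw [h2 x hx, h2 y hy]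
    ring

theorem G2_eq (a : ℝ) (ha : 0 < a) (ha' : 2 * a < 1) (W : Matrix (m ⊕ m) (m ⊕ m) ℂ)
    (μ : m ⊕ m → ℝ) (hμ : ∀ i, 0 ≤ μ i) :
    LibSchTw.G2 (1 / a) (sgf m) W (fun i => μ i ^ (2 * a)) = G2 a W μ := by
  unfold LibSchTw.G2 G2
  refine Finset.sum_congr rfl fun i _ => Finset.sum_congr rfl fun j _ => ?_
  rw [sg_eq, kk_dd a _ _ ha ha' (hμ i) (hμ j)]

theorem rot_sg (c s : ℝ) : (Rot c s)ᴴ * dg ![1, -1] * Rot c s =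
    !![((c ^ 2 - s ^ 2 : ℝ) : ℂ), ((-(2 * (c * s)) : ℝ) : ℂ);
      ((-(2 * (c * s)) : ℝ) : ℂ), ((s ^ 2 - c ^ 2 : ℝ) : ℂ)] := by
  have h1 : dg ![(1 : ℝ), -1] = !![(1 : ℂ), 0; 0, -1] := by
    ext i j
    fin_cases i <;> fin_cases j <;> simp [dg]
  have h2 : (Rot c s)ᴴ = !![(c : ℂ), (s : ℂ); -(s : ℂ), (c : ℂ)] := by
    ext i j
    fin_cases i <;> fin_cases j <;> simp [Rot]
  rw [h1, h2, Rot, Matrix.mul_fin_two, Matrix.mul_fin_two]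
  ext i j
  fin_cases i <;> fin_cases j <;> simp <;> ring

theorem G2_mod (a : ℝ) (ha : 0 < a) (ha' : 2 * a < 1) (c s e₁ e₂ : ℝ) (h : c ^ 2 + s ^ 2 = 1)
    (he₁ : 0 ≤ e₁) (he₂ : 0 ≤ e₂) :
    LibSchTw.G2 (1 / a) ![1, -1] (Rot c s) ![e₁ ^ (2 * a), e₂ ^ (2 * a)] =
      2 / a * (e₁ ^ 2 + e₂ ^ 2) - Dm a e₁ e₂ c s := by
  unfold LibSchTw.G2
  rw [rot_sg, Fin.sum_univ_two, Fin.sum_univ_two, Fin.sum_univ_two]
  have n1 : ‖(!![((c ^ 2 - s ^ 2 : ℝ) : ℂ), ((-(2 * (c * s)) : ℝ) : ℂ);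
      ((-(2 * (c * s)) : ℝ) : ℂ), ((s ^ 2 - c ^ 2 : ℝ) : ℂ)] : Matrix (Fin 2) (Fin 2) ℂ) 0 0‖ ^ 2 =
      (c ^ 2 - s ^ 2) ^ 2 := by
    show ‖((c ^ 2 - s ^ 2 : ℝ) : ℂ)‖ ^ 2 = _
    rw [Complex.norm_real, Real.norm_eq_abs, sq_abs]
  have n2 : ‖(!![((c ^ 2 - s ^ 2 : ℝ) : ℂ), ((-(2 * (c * s)) : ℝ) : ℂ);
      ((-(2 * (c * s)) : ℝ) : ℂ), ((s ^ 2 - c ^ 2 : ℝ) : ℂ)] : Matrix (Fin 2) (Fin 2) ℂ) 0 1‖ ^ 2 =
      4 * (c * s) ^ 2 := by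
    show ‖((-(2 * (c * s)) : ℝ) : ℂ)‖ ^ 2 = _
    rw [Complex.norm_real, Real.norm_eq_abs, sq_abs]
    ring
  have n3 : ‖(!![((c ^ 2 - s ^ 2 : ℝ) : ℂ), ((-(2 * (c * s)) : ℝ) : ℂ);
      ((-(2 * (c * s)) : ℝ) : ℂ), ((s ^ 2 - c ^ 2 : ℝ) : ℂ)] : Matrix (Fin 2) (Fin 2) ℂ) 1 0‖ ^ 2 =
      4 * (c * s) ^ 2 := by
    show ‖((-(2 * (c * s)) : ℝ) : ℂ)‖ ^ 2 = _
    rw [Complex.norm_real, Real.norm_eq_abs, sq_abs]
    ring
  have n4 : ‖(!![((c ^ 2 - s ^ 2 : ℝ) : ℂ), ((-(2 * (c * s)) : ℝ) : ℂ);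
      ((-(2 * (c * s)) : ℝ) : ℂ), ((s ^ 2 - c ^ 2 : ℝ) : ℂ)] : Matrix (Fin 2) (Fin 2) ℂ) 1 1‖ ^ 2 =
      (c ^ 2 - s ^ 2) ^ 2 := by
    show ‖((s ^ 2 - c ^ 2 : ℝ) : ℂ)‖ ^ 2 = _
    rw [Complex.norm_real, Real.norm_eq_abs, sq_abs]
    ring
  rw [n1, n2, n3, n4]
  show (c ^ 2 - s ^ 2) ^ 2 * ((e₁ ^ (2 * a) + e₁ ^ (2 * a)) * dd (1 / a) (e₁ ^ (2 * a)) (e₁ ^ (2 * a)))
      + 4 * (c * s) ^ 2 * ((e₁ ^ (2 * a) + e₂ ^ (2 * a)) * dd (1 / a) (e₁ ^ (2 * a)) (e₂ ^ (2 * a)))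
      + (4 * (c * s) ^ 2 * ((e₂ ^ (2 * a) + e₁ ^ (2 * a)) *
        dd (1 / a) (e₂ ^ (2 * a)) (e₁ ^ (2 * a)))
      + (c ^ 2 - s ^ 2) ^ 2 * ((e₂ ^ (2 * a) + e₂ ^ (2 * a)) *
        dd (1 / a) (e₂ ^ (2 * a)) (e₂ ^ (2 * a)))) = _
  rw [← kk_dd a e₁ e₁ ha ha' he₁ he₁, ← kk_dd a e₁ e₂ ha ha' he₁ he₂,
    ← kk_dd a e₂ e₁ ha ha' he₂ he₁, ← kk_dd a e₂ e₂ ha ha' he₂ he₂]
  have k1 : ∀ u, kk a u u = 2 / a * u ^ 2 := fun u => by rw [kk, if_pos rfl]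
  have k2 : kk a e₂ e₁ = kk a e₁ e₂ := by
    unfold kk
    by_cases h1 : e₁ = e₂
    · rw [if_pos h1.symm, if_pos h1, h1]
    · rw [if_neg (Ne.symm h1), if_neg h1, ← neg_sub (e₁ ^ (2 * a)) (e₂ ^ (2 * a)),
        ← neg_sub (e₁ ^ 2) (e₂ ^ 2), neg_mul, neg_div_neg_eq, add_comm (e₂ ^ (2 * a))]
  have k3 : (c ^ 2 - s ^ 2) ^ 2 = 1 - 4 * (c * s) ^ 2 := by
    have : (c ^ 2 - s ^ 2) ^ 2 = (c ^ 2 + s ^ 2) ^ 2 - 4 * (c * s) ^ 2 := by ring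
    rw [this, h]
    ring
  rw [k1, k1, k2, k3, Dm]
  ring

theorem fr_blocks (E : Matrix (m ⊕ m) (m ⊕ m) ℂ) (hE : E.IsHermitian) :
    (trace (dg (sgf m) * (E * E))).re = (fr E.toBlocks₁₁ + fr E.toBlocks₁₂) -
        (fr E.toBlocks₁₂ + fr E.toBlocks₂₂) ∧
    (trace (E * E)).re = (fr E.toBlocks₁₁ + fr E.toBlocks₁₂) +
        (fr E.toBlocks₁₂ + fr E.toBlocks₂₂) := by
  have hd : ∀ i, (E * E) i i = ((∑ j, ‖E i j‖ ^ 2 : ℝ) : ℂ) := by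
    intro i
    rw [Matrix.mul_apply]
    push_cast
    refine Finset.sum_congr rfl fun j _ => ?_
    have h1 : E j i = star (E i j) := (hE.apply j i).symm
    rw [h1]
    exact Complex.mul_conj' _
  have h21 : ∑ i : m, ∑ j : m, ‖E (Sum.inr i) (Sum.inl j)‖ ^ 2 = fr E.toBlocks₁₂ := by
    rw [Finset.sum_comm]
    unfold fr
    refine Finset.sum_congr rfl fun i _ => Finset.sum_congr rfl fun j _ => ?_
    have h1 : E (Sum.inr j) (Sum.inl i) = star (E (Sum.inl i) (Sum.inr j)) :=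
      (hE.apply _ _).symm
    rw [h1, norm_star]
    rfl
  have hA : ∑ i : m, ∑ j : m ⊕ m, ‖E (Sum.inl i) j‖ ^ 2 = fr E.toBlocks₁₁ + fr E.toBlocks₁₂ := by
    simp only [Fintype.sum_sum_type]
    rw [Finset.sum_add_distrib]
    rfl
  have hB : ∑ i : m, ∑ j : m ⊕ m, ‖E (Sum.inr i) j‖ ^ 2 = fr E.toBlocks₁₂ + fr E.toBlocks₂₂ := by
    simp only [Fintype.sum_sum_type]
    rw [Finset.sum_add_distrib, h21]
    rfl
  constructor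
  · have h1 : trace (dg (sgf m) * (E * E)) =
        (((∑ i : m, ∑ j : m ⊕ m, ‖E (Sum.inl i) j‖ ^ 2) -
          ∑ i : m, ∑ j : m ⊕ m, ‖E (Sum.inr i) j‖ ^ 2 : ℝ) : ℂ) := by
      rw [Matrix.trace, Fintype.sum_sum_type]
      have e1 : ∀ i, (dg (sgf m) * (E * E)).diag i = (sgf m i : ℂ) * (E * E) i i := by
        intro i
        rw [Matrix.diag_apply, dg, Matrix.diagonal_mul]
      simp only [e1, hd]
      rw [Complex.ofReal_sub, sub_eq_add_neg]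
      congr 1
      · push_cast
        refine Finset.sum_congr rfl fun i _ => ?_
        simp [sgf]
      · push_cast
        rw [← Finset.sum_neg_distrib]
        refine Finset.sum_congr rfl fun i _ => ?_
        simp [sgf]
    rw [h1, Complex.ofReal_re, hA, hB]
  · have h1 : trace (E * E) =
        (((∑ i : m, ∑ j : m ⊕ m, ‖E (Sum.inl i) j‖ ^ 2) +
          ∑ i : m, ∑ j : m ⊕ m, ‖E (Sum.inr i) j‖ ^ 2 : ℝ) : ℂ) := by
      rw [Matrix.trace, Fintype.sum_sum_type]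
      simp only [Matrix.diag_apply, hd]
      push_cast
      rfl
    rw [h1, Complex.ofReal_re, hA, hB]

/-- `Fp a W μ t = tr (D_t E^(2a) D_t)^(1/a)` -/
theorem Fp_tw (a : ℝ) (ha : 0 < a) (W : Matrix (m ⊕ m) (m ⊕ m) ℂ)
    (hW : W ∈ unitaryGroup (m ⊕ m) ℂ) (μ : m ⊕ m → ℝ) (hμ : ∀ i, 0 ≤ μ i) (t : ℝ) :
    Fp a W μ t = (trace (rp (1 / a) (tw (sgf m) (ud W fun i => μ i ^ (2 * a)) t))).re := by
  have h2 : (0 : ℝ) < 2 / a := by positivity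
  have h3 : Dt m t = dg (fun k => Real.exp (t * sgf m k / 2)) := by
    unfold Dt
    congr 1
    funext k
    rcases k with k | k <;> simp [sgf]
  have h4 : ud W (fun i => μ i ^ a) * ud W (fun i => μ i ^ a) = ud W fun i => μ i ^ (2 * a) := by
    rw [ud_mul W hW]
    congr 1
    funext i
    rcases (hμ i).eq_or_lt with h | h
    · rw [← h, Real.zero_rpow ha.ne', Real.zero_rpow (by positivity), mul_zero]
    · rw [← Real.rpow_add h]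
      congr 1
      ring
  have h5 := LibSchTw.pw_eq_trace_rp (2 / a) h2 (ud W (fun i => μ i ^ a) * Dt m t)
  have e1 : 2 / a / 2 = 1 / a := by ring
  rw [Fp, h5, e1]
  congr 3
  rw [LibSchTw.tw_eq, ← h3, conjTranspose_mul, (ud_isHermitian W _).eq, ← h4]
  have h6 : (Dt m t)ᴴ = Dt m t := by
    rw [h3]
    exact dg_conjTranspose _
  rw [h6]
  simp only [Matrix.mul_assoc]

end tools

variable {N : ℕ} {m : Type} [Fintype m] [DecidableEq m] {p a ρ c s x z : ℝ}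
    {A B : Fin N → Matrix m m ℂ} {X Z : Fin N → ℝ} {W : Matrix (m ⊕ m) (m ⊕ m) ℂ}
    {ν : m ⊕ m → ℝ}

/-- `key_p`, `key_zero` and `LibSchTw.twist_compare` -/
theorem stat (H : Min p a ρ c s x z A B X Z W ν) (i j k : Fin N)
    (hij : LibSch.sn p (A i) * LibSch.sn p (B j) ≠ LibSch.sn p (A j) * LibSch.sn p (B i))
    (hik : LibSch.sn p (A i) * LibSch.sn p (B k) ≠ LibSch.sn p (A k) * LibSch.sn p (B i))
    (hjk : LibSch.sn p (A j) * LibSch.sn p (B k) ≠ LibSch.sn p (A k) * LibSch.sn p (B j)) :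
    fr (ud W fun i => ν i ^ (p / 4)).toBlocks₁₁ + fr (ud W fun i => ν i ^ (p / 4)).toBlocks₁₂ =
        ρ * (c ^ 2 * (x ^ (p / 4)) ^ 2 + s ^ 2 * (z ^ (p / 4)) ^ 2) ∧
      fr (ud W fun i => ν i ^ (p / 4)).toBlocks₁₂ + fr (ud W fun i => ν i ^ (p / 4)).toBlocks₂₂ =
        ρ * (s ^ 2 * (x ^ (p / 4)) ^ 2 + c ^ 2 * (z ^ (p / 4)) ^ 2) ∧
      DefE a W (fun i => ν i ^ (p / 4)) ≤ ρ * Dm a (x ^ (p / 4)) (z ^ (p / 4)) c s := by
  have ha := H.ha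
  have ha' := H.ha'
  have hz := H.hz
  have hx : 0 < x := hz.trans H.hzx
  have hcs := H.D.hcs
  have hU := rot_mem c s hcs
  have hW := H.hW
  obtain ⟨e₁, he₁⟩ : ∃ e₁, e₁ = x ^ (p / 4) := ⟨_, rfl⟩
  obtain ⟨e₂, he₂⟩ : ∃ e₂, e₂ = z ^ (p / 4) := ⟨_, rfl⟩
  obtain ⟨μ, hμ⟩ : ∃ μ : m ⊕ m → ℝ, μ = fun i => ν i ^ (p / 4) := ⟨_, rfl⟩
  have hμ0 : ∀ i, 0 ≤ μ i := fun i => by rw [hμ]; exact Real.rpow_nonneg (H.hν i) _
  have he₁0 : 0 < e₁ := he₁ ▸ Real.rpow_pos_of_pos hx _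
  have he₂0 : 0 < e₂ := he₂ ▸ Real.rpow_pos_of_pos hz _
  have hkey := key_p H i j k hij hik hjk
  have hzero := key_zero H
  rw [← he₁, ← he₂, ← hμ] at hkey hzero ⊢
  have h1a : (0 : ℝ) < 1 / a := by positivity
  have h2a : (2 : ℝ) ≤ 1 / a := by
    rw [le_div_iff₀ ha]
    linarith
  have hpow : ∀ u : ℝ, 0 ≤ u → (u ^ (2 * a)) ^ (1 / a) = u ^ 2 := by
    intro u hu
    rw [← Real.rpow_mul hu, ← Real.rpow_natCast u 2]
    congr 1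
    field_simp
    norm_num
  -- the model
  have hfm : ∀ t, fm a e₁ e₂ c s t =
      (trace (rp (1 / a) (tw ![1, -1] (ud (Rot c s) ![e₁ ^ (2 * a), e₂ ^ (2 * a)]) t))).re := by
    intro t
    have hPD : (ud (Rot c s) ![e₁ ^ (2 * a), e₂ ^ (2 * a)]).PosDef := by
      refine ud_posDef _ hU _ fun k => ?_
      fin_cases k
      · exact Real.rpow_pos_of_pos he₁0 _
      · exact Real.rpow_pos_of_pos he₂0 _
    have hexp1 : t * ((![(1 : ℝ), -1] 0 + ![(1 : ℝ), -1] 0) / 2) = t := by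
      simp
    have hexp2 : t * ((![(1 : ℝ), -1] 1 + ![(1 : ℝ), -1] 1) / 2) = -t := by
      simp
    have hexp3 : t * ((![(1 : ℝ), -1] 0 + ![(1 : ℝ), -1] 1) / 2) = 0 := by
      simp
    rw [← FF_trace (1 / a) h1a _ ((RSym_rot _ _ _ _).tw _ t) (tw_posDef _ _ hPD t).posSemidef, fm,
      tw, Matrix.of_apply, Matrix.of_apply, Matrix.of_apply, hexp1, hexp2, hexp3,
      Complex.re_ofReal_mul, Complex.re_ofReal_mul, Complex.re_ofReal_mul, Real.exp_zero, one_mul,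
      (ud_rot_re _ _ _ _).1, (ud_rot_re _ _ _ _).2.1, (ud_rot_re _ _ _ _).2.2]
  have hx0 : ∀ k : Fin 2, 0 ≤ ![e₁ ^ (2 * a), e₂ ^ (2 * a)] k := by
    intro k
    fin_cases k
    · exact Real.rpow_nonneg he₁0.le _
    · exact Real.rpow_nonneg he₂0.le _
  have hq0 : ∀ i, 0 ≤ μ i ^ (2 * a) := fun i => Real.rpow_nonneg (hμ0 i) _
  have hF0 : (trace (rp (1 / a) (ud W fun i => μ i ^ (2 * a)))).re = ρ * (trace (rp (1 / a)
      (ud (Rot c s) ![e₁ ^ (2 * a), e₂ ^ (2 * a)]))).re := by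
    rw [hfm, Fp_tw a ha W hW μ hμ0, LibSchTw.tw_zero, LibSchTw.tw_zero] at hzero
    exact hzero.symm
  have hcmp := twist_compare (1 / a) ρ h2a (sgf m) ![1, -1] (ud W fun i => μ i ^ (2 * a))
    (ud (Rot c s) ![e₁ ^ (2 * a), e₂ ^ (2 * a)]) W hW (fun i => μ i ^ (2 * a)) hq0 rfl (Rot c s) hU
    ![e₁ ^ (2 * a), e₂ ^ (2 * a)] hx0 rfl hF0 (by
      filter_upwards [hkey] with t ht
      rw [← Fp_tw a ha W hW μ hμ0, ← hfm]
      exact ht)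
  obtain ⟨hlin, hG⟩ := hcmp
  rw [G2_eq a ha ha' W μ hμ0, G2_mod a ha ha' c s e₁ e₂ hcs he₁0.le he₂0.le] at hG
  -- powers
  have r1 : rp (1 / a) (ud W fun i => μ i ^ (2 * a)) = ud W μ * ud W μ := by
    rw [rp_ud _ W hW, ud_mul W hW]
    congr 1
    funext i
    rw [hpow _ (hμ0 i), sq]
  have r2 : rp (1 / a) (ud (Rot c s) ![e₁ ^ (2 * a), e₂ ^ (2 * a)]) =
      ud (Rot c s) ![e₁ ^ 2, e₂ ^ 2] := by
    rw [rp_ud _ _ hU]
    congr 1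
    funext k
    fin_cases k
    · exact hpow _ he₁0.le
    · exact hpow _ he₂0.le
  obtain ⟨b1, b2⟩ := fr_blocks (ud W μ) (ud_isHermitian W μ)
  have t1 : (trace (ud (Rot c s) ![e₁ ^ 2, e₂ ^ 2])).re = e₁ ^ 2 + e₂ ^ 2 := by
    rw [trace_ud_re _ hU, Complex.ofReal_re, Fin.sum_univ_two]
    rfl
  have t2 : (trace (dg ![1, -1] * ud (Rot c s) ![e₁ ^ 2, e₂ ^ 2])).re =
      (c ^ 2 - s ^ 2) * (e₁ ^ 2 - e₂ ^ 2) := by
    rw [Matrix.trace_fin_two, dg, Matrix.diagonal_mul, Matrix.diagonal_mul, Complex.add_re,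
      Complex.re_ofReal_mul, Complex.re_ofReal_mul, (ud_rot_re _ _ _ _).1, (ud_rot_re _ _ _ _).2.1]
    simp
    ring
  rw [r1, r2, b2, t1] at hF0
  rw [r1, r2, b1, t2] at hlin
  have hsum : ∑ i, μ i ^ 2 = ρ * (e₁ ^ 2 + e₂ ^ 2) := by
    rw [← hF0, ← b2, ud_mul W hW, trace_ud_re _ hW, Complex.ofReal_re]
    exact Finset.sum_congr rfl fun i _ => sq _
  refine ⟨?_, ?_, ?_⟩
  · have : ρ * (c ^ 2 * e₁ ^ 2 + s ^ 2 * e₂ ^ 2) =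
        (ρ * (e₁ ^ 2 + e₂ ^ 2) * (c ^ 2 + s ^ 2) + ρ * ((c ^ 2 - s ^ 2) * (e₁ ^ 2 - e₂ ^ 2))) / 2 := by
      ring
    rw [this, hcs, ← hlin, mul_one, ← hF0]
    ring
  · have : ρ * (s ^ 2 * e₁ ^ 2 + c ^ 2 * e₂ ^ 2) =
        (ρ * (e₁ ^ 2 + e₂ ^ 2) * (c ^ 2 + s ^ 2) - ρ * ((c ^ 2 - s ^ 2) * (e₁ ^ 2 - e₂ ^ 2))) / 2 := by
      ring
    rw [this, hcs, ← hlin, mul_one, ← hF0]
    ring
  · rw [DefE, hsum]
    linarith

end Pool.Agent.LibSchG
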