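import Pool.Agent.LibSchP.T2
import Pool.Agent.LibSchP.C1
import Pool.Agent.LibSchP.E1a
import Pool.Agent.LibSch.Two
import Pool.Agent.LibSch.Calc
import Pool.Agent.LibSchA.C1

/-! **G0.**  Definitions for the single column inequality (`MP_9d9785_an`, all `N`).
`a = 2/p - 1`, `p = 2/(1+a)`, `q = 2/(1-a)` the conjugate exponent, `E = ud W μ ≥ 0` on `m ⊕ m`. -/

open Matrix
open scoped ComplexOrder

namespace Pool.Agent.LibSchG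

open Pool.Agent.LibSchP Pool.Agent.LibSchA

/-- the symbol of the second derivative of `t ↦ tr (D_t E^(2a) D_t)^(1/a)` -/
noncomputable def kk (a x y : ℝ) : ℝ :=
  if x = y then 2 / a * x ^ 2
  else (x ^ 2 - y ^ 2) * (x ^ (2 * a) + y ^ (2 * a)) / (x ^ (2 * a) - y ^ (2 * a))

/-- `1 ⊕ (-1)` -/
def sg (m : Type) [DecidableEq m] : Matrix (m ⊕ m) (m ⊕ m) ℂ := fromBlocks 1 0 0 (-1)

/-- `diag (e^(t/2), e^(-t/2))` -/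
noncomputable def Dt (m : Type) [DecidableEq m] (t : ℝ) : Matrix (m ⊕ m) (m ⊕ m) ℂ :=
  dg (Sum.elim (fun _ => Real.exp (t / 2)) (fun _ => Real.exp (-t / 2)))

/-- `⟨σ, k(L_E, R_E) σ⟩` for `E = ud W μ` -/
noncomputable def G2 {m : Type} [Fintype m] [DecidableEq m] (a : ℝ)
    (W : Matrix (m ⊕ m) (m ⊕ m) ℂ) (μ : m ⊕ m → ℝ) : ℝ :=
  ∑ i, ∑ j, ‖(Wᴴ * sg m * W) i j‖ ^ 2 * kk a (μ i) (μ j)

/-- the defect `(2/a) tr E² - G2` -/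
noncomputable def DefE {m : Type} [Fintype m] [DecidableEq m] (a : ℝ)
    (W : Matrix (m ⊕ m) (m ⊕ m) ℂ) (μ : m ⊕ m → ℝ) : ℝ :=
  2 / a * ∑ i, μ i ^ 2 - G2 a W μ

/-- the defect of the `2 × 2` matrix `ε = R diag(e₁, e₂) Rᵀ`, `R = !![c, -s; s, c]` -/
noncomputable def Dm (a e₁ e₂ c s : ℝ) : ℝ :=
  4 * (c * s) ^ 2 * (2 / a * (e₁ ^ 2 + e₂ ^ 2) - 2 * kk a e₁ e₂)

/-- half the derivative of `⟨y, Ψ^a y⟩` with respect to `Ψ₁₂`, `Ψ = ε²`, `y = X u₁ + Z u₂` -/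
noncomputable def L12 (a e₁ e₂ c s X Z : ℝ) : ℝ :=
  c * s * (a * e₁ ^ (2 * a - 2) * X ^ 2) - c * s * (a * e₂ ^ (2 * a - 2) * Z ^ 2) +
    (c ^ 2 - s ^ 2) * ((e₁ ^ (2 * a) - e₂ ^ (2 * a)) / (e₁ ^ 2 - e₂ ^ 2) * (X * Z))

/-- `⟨S, E^(2a) S⟩` for the column `S = (A; B)` if `κ = μ^(2a)` -/
noncomputable def cE {m n : Type} [Fintype m] [DecidableEq m] [Fintype n]
    (W : Matrix (m ⊕ m) (m ⊕ m) ℂ) (κ : m ⊕ m → ℝ) (A B : Matrix m n ℂ) : ℝ :=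
  (trace ((fromRows A B)ᴴ * ud W κ * fromRows A B)).re

/-- **the single column inequality** at the `2 × 2` matrix `ε` for the column `y = X u₁ + Z u₂` -/
def SCol (a e₁ e₂ c s X Z : ℝ) : Prop :=
  ∀ (q : ℝ) (m : Type) [Fintype m] [DecidableEq m], q = 2 / (1 - a) → ∀ (A B : Matrix m m ℂ),
    LibSch.pw q A = (c * X - s * Z) ^ q → LibSch.pw q B = (s * X + c * Z) ^ q →
    ∀ (W : Matrix (m ⊕ m) (m ⊕ m) ℂ), W ∈ unitaryGroup (m ⊕ m) ℂ → ∀ (μ : m ⊕ m → ℝ),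
    (∀ i, 0 ≤ μ i) →
    fr (ud W μ).toBlocks₁₁ + fr (ud W μ).toBlocks₁₂ = c ^ 2 * e₁ ^ 2 + s ^ 2 * e₂ ^ 2 →
    fr (ud W μ).toBlocks₁₂ + fr (ud W μ).toBlocks₂₂ = s ^ 2 * e₁ ^ 2 + c ^ 2 * e₂ ^ 2 →
    DefE a W μ ≤ Dm a e₁ e₂ c s →
    cE W (fun i => μ i ^ (2 * a)) A B ≤ X ^ 2 * e₁ ^ (2 * a) + Z ^ 2 * e₂ ^ (2 * a)

/-- **(G\*)**: the single column inequality for all increasing columns, `a = 2/p - 1 = 1 - 2/q` -/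
def SColAll (a : ℝ) : Prop :=
  ∀ e₁ e₂ c s X Z : ℝ, 0 < e₂ → e₂ < e₁ → 0 < c → 0 < s →
    c ^ 2 + s ^ 2 = 1 → 0 < c * X - s * Z → 0 < s * X + c * Z → 0 ≤ L12 a e₁ e₂ c s X Z →
    SCol a e₁ e₂ c s X Z

/-- the model function `tr (D_t ε^(2a) D_t)^(1/a)` -/
noncomputable def fm (a e₁ e₂ c s t : ℝ) : ℝ :=
  LibSch.FF (1 / a) (Real.exp t * (c ^ 2 * e₁ ^ (2 * a) + s ^ 2 * e₂ ^ (2 * a)))
    (Real.exp (-t) * (s ^ 2 * e₁ ^ (2 * a) + c ^ 2 * e₂ ^ (2 * a)))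
    (c * s * (e₁ ^ (2 * a) - e₂ ^ (2 * a)))

/-- the function `tr (D_t E^(2a) D_t)^(1/a)`, `E = ud W μ` -/
noncomputable def Fp {m : Type} [Fintype m] [DecidableEq m] (a : ℝ)
    (W : Matrix (m ⊕ m) (m ⊕ m) ℂ) (μ : m ⊕ m → ℝ) (t : ℝ) : ℝ :=
  LibSch.pw (2 / a) (ud W (fun i => μ i ^ a) * Dt m t)

/-- the value `⟨v, ε^(-2a) v⟩` -/
noncomputable def vi (a e₁ e₂ X Z : ℝ) : ℝ := X ^ 2 / e₁ ^ (2 * a) + Z ^ 2 / e₂ ^ (2 * a)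

/-- the data of a minimiser, `4/3 < p < 2`: `T Tᴴ = ud W ν`, `C_p(T) C_p(T)ᵀ = R diag(x, z) Rᵀ`. -/
structure Min {N : ℕ} {m : Type} [Fintype m] [DecidableEq m] (p a ρ c s x z : ℝ)
    (A B : Fin N → Matrix m m ℂ) (X Z : Fin N → ℝ) (W : Matrix (m ⊕ m) (m ⊕ m) ℂ)
    (ν : m ⊕ m → ℝ) : Prop where
  ha : 0 < a
  ha' : 2 * a < 1
  hp : p = 2 / (1 + a)
  hρ : 0 < ρ
  hmin : ∀ A' B' : Fin N → Matrix m m ℂ,
    ρ * LibSch.pw p (LibSch.comp p A' B') ≤ LibSch.pw p (LibSch.blk A' B')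
  heq : LibSch.pw p (LibSch.blk A B) = ρ * LibSch.pw p (LibSch.comp p A B)
  D : RDat c s x z (fun k => LibSch.sn p (A k)) (fun k => LibSch.sn p (B k)) X Z
  hc : 0 < c
  hs : 0 < s
  hz : 0 < z
  hzx : z < x
  hW : W ∈ unitaryGroup (m ⊕ m) ℂ
  hν : ∀ i, 0 ≤ ν i
  hT : LibSch.blk A B * (LibSch.blk A B)ᴴ = ud W ν

/-- the column `Y_k = P^(-1/2) V_k`, `P = (T Tᴴ)^(1 - p/2)` -/
noncomputable def Yc {m n : Type} [Fintype m] [DecidableEq m] [Fintype n] (p : ℝ)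
    (W : Matrix (m ⊕ m) (m ⊕ m) ℂ) (ν : m ⊕ m → ℝ) (A B : Matrix m n ℂ) : Matrix (m ⊕ m) n ℂ :=
  ud W (fun i => ν i ^ ((p - 2) / 4)) * fromRows A B

end Pool.Agent.LibSchG
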