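import Pool.Agent.LibSchG.H0

/-! **G9f.**  Duality: the inequality for `p` implies the inequality for `q = p/(p-1)`. -/

open Matrix
open scoped ComplexOrder

namespace Pool.Agent.LibSchG

open Pool.Agent.LibSchP Pool.Agent.LibSchA

/-- `T = blk A B`, `t = sn q T`.  `LibSchA.norming'` for `T` gives a matrix `S`, `pw p S ≤ 1`,
`Re tr (Sᴴ T) = sn q T`; its blocks `A' k`, `B' k` (`S = blk A' B'`), `LibSchA.trace_blk'` and
Hoelder for each block (`trace_holder`), then
`∑ (sn p (A' k) sn q (A k) + …) = Re tr ((comp p A' B')ᴴ comp q A B) ≤ sn p (comp p A' B') *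
sn q (comp q A B) ≤ sn p S * sn q (comp q A B) = sn q (comp q A B)`. -/
theorem duality {p q : ℝ} (hpq : p.HolderConjugate q) {N : ℕ} {m₁ m₂ : Type} {n : Fin N → Type}
    [Fintype m₁] [DecidableEq m₁] [Fintype m₂]
    [DecidableEq m₂] [∀ k, Fintype (n k)] [∀ k, DecidableEq (n k)]
    (hp : ∀ (A : ∀ k, Matrix m₁ (n k) ℂ) (B : ∀ k, Matrix m₂ (n k) ℂ),
      LibSch.sn p (LibSch.comp p A B) ≤ LibSch.sn p (LibSch.blk A B))
    (A : ∀ k, Matrix m₁ (n k) ℂ) (B : ∀ k, Matrix m₂ (n k) ℂ) :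
    LibSch.sn q (LibSch.blk A B) ≤ LibSch.sn q (LibSch.comp q A B) := by
  have hp0 := hpq.pos
  obtain ⟨S, hS, hST⟩ := norming' q p hpq.symm (LibSch.blk A B) 1 zero_le_one
  rw [one_mul] at hST
  rw [Real.one_rpow] at hS
  set A' : ∀ k, Matrix m₁ (n k) ℂ := fun k => Matrix.of fun i j => S (Sum.inl i) ⟨k, j⟩ with hA'
  set B' : ∀ k, Matrix m₂ (n k) ℂ := fun k => Matrix.of fun i j => S (Sum.inr i) ⟨k, j⟩ with hB'
  have hSb : S = LibSch.blk A' B' := by
    ext i c
    rcases i with i | i <;> rfl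
  have hsnS : LibSch.sn p S ≤ 1 := by
    rw [LibSch.sn]
    exact Real.rpow_le_one (LibSch.pw_nonneg p S) hS (by positivity)
  have hq0 : 0 ≤ LibSch.sn q (LibSch.comp q A B) := sn_nonneg' _ _
  rw [hSb, trace_blk'] at hST
  have h1 : LibSch.sn q (LibSch.blk A B) ≤
      ∑ k, (LibSch.sn p (A' k) * LibSch.sn q (A k) + LibSch.sn p (B' k) * LibSch.sn q (B k)) := by
    rw [← hST]
    exact Finset.sum_le_sum fun k _ =>
      add_le_add (trace_holder p q hpq _ _) (trace_holder p q hpq _ _)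
  have h2 : (trace ((LibSch.comp p A' B')ᴴ * LibSch.comp q A B)).re =
      ∑ k, (LibSch.sn p (A' k) * LibSch.sn q (A k) + LibSch.sn p (B' k) * LibSch.sn q (B k)) := by
    rw [Matrix.trace, Complex.re_sum]
    refine Finset.sum_congr rfl fun k _ => ?_
    rw [Matrix.diag_apply, Matrix.mul_apply, Fin.sum_univ_two]
    simp only [Matrix.conjTranspose_apply, LibSch.comp, Matrix.of_apply, Matrix.cons_val_zero,
      Matrix.cons_val_one, Complex.star_def, Complex.conj_ofReal]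
    rw [← Complex.ofReal_mul, ← Complex.ofReal_mul, ← Complex.ofReal_add, Complex.ofReal_re]
  rw [← h2] at h1
  calc LibSch.sn q (LibSch.blk A B) ≤ _ := h1
    _ ≤ LibSch.sn p (LibSch.comp p A' B') * LibSch.sn q (LibSch.comp q A B) :=
        trace_holder p q hpq _ _
    _ ≤ LibSch.sn p S * LibSch.sn q (LibSch.comp q A B) := by
        rw [hSb]
        exact mul_le_mul_of_nonneg_right (hp A' B') hq0
    _ ≤ 1 * LibSch.sn q (LibSch.comp q A B) := mul_le_mul_of_nonneg_right hsnS hq0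
    _ = _ := one_mul _

end Pool.Agent.LibSchG
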