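import Pool.Agent.LibSchG.G9e

/-! **G9g.**  From square blocks to all sizes. -/

open Matrix Filter Topology
open scoped ComplexOrder

namespace Pool.Agent.LibSchG

open Pool.Agent.LibSchP Pool.Agent.LibSchA

/-- the extension of the first blocks -/
noncomputable def G9g_A {N : ℕ} {m₁ m₂ : Type} {n : Fin N → Type}
    (A : ∀ k, Matrix m₁ (n k) ℂ) (k : Fin N) :
    Matrix ((m₁ ⊕ m₂) ⊕ (Σ k, n k)) ((m₁ ⊕ m₂) ⊕ (Σ k, n k)) ℂ :=
  fun i j => match i, j with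
    | Sum.inl (Sum.inl r), Sum.inr c => if h : c.1 = k then A k r (h ▸ c.2) else 0
    | _, _ => 0

/-- the extension of the second blocks -/
noncomputable def G9g_B {N : ℕ} {m₁ m₂ : Type} {n : Fin N → Type}
    (B : ∀ k, Matrix m₂ (n k) ℂ) (k : Fin N) :
    Matrix ((m₁ ⊕ m₂) ⊕ (Σ k, n k)) ((m₁ ⊕ m₂) ⊕ (Σ k, n k)) ℂ :=
  fun i j => match i, j with
    | Sum.inl (Sum.inr r), Sum.inr c => if h : c.1 = k then B k r (h ▸ c.2) else 0
    | _, _ => 0

lemma G9g_A_apply {N : ℕ} {m₁ m₂ : Type} {n : Fin N → Type}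
    (A : ∀ k, Matrix m₁ (n k) ℂ) (k : Fin N) (r : m₁) (c : n k) :
    G9g_A (m₂ := m₂) A k (Sum.inl (Sum.inl r)) (Sum.inr ⟨k, c⟩) = A k r c := by
  simp [G9g_A]

lemma G9g_B_apply {N : ℕ} {m₁ m₂ : Type} {n : Fin N → Type}
    (B : ∀ k, Matrix m₂ (n k) ℂ) (k : Fin N) (r : m₂) (c : n k) :
    G9g_B (m₁ := m₁) B k (Sum.inl (Sum.inr r)) (Sum.inr ⟨k, c⟩) = B k r c := by
  simp [G9g_B]

lemma G9g_A_zero_left {N : ℕ} {m₁ m₂ : Type} {n : Fin N → Type}
    (A : ∀ k, Matrix m₁ (n k) ℂ) (k : Fin N) (i j : (m₁ ⊕ m₂) ⊕ (Σ k, n k))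
    (hi : ∀ r : m₁, Sum.inl (Sum.inl r) ≠ i) : G9g_A A k i j = 0 := by
  rcases i with (r | r) | c
  · exact absurd rfl (hi r)
  · rfl
  · rfl

lemma G9g_B_zero_left {N : ℕ} {m₁ m₂ : Type} {n : Fin N → Type}
    (B : ∀ k, Matrix m₂ (n k) ℂ) (k : Fin N) (i j : (m₁ ⊕ m₂) ⊕ (Σ k, n k))
    (hi : ∀ r : m₂, Sum.inl (Sum.inr r) ≠ i) : G9g_B B k i j = 0 := by
  rcases i with (r | r) | c
  · rfl
  · exact absurd rfl (hi r)
  · rfl

lemma G9g_A_zero_right {N : ℕ} {m₁ m₂ : Type} {n : Fin N → Type}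
    (A : ∀ k, Matrix m₁ (n k) ℂ) (k : Fin N) (i j : (m₁ ⊕ m₂) ⊕ (Σ k, n k))
    (hj : ∀ c : n k, Sum.inr ⟨k, c⟩ ≠ j) : G9g_A A k i j = 0 := by
  rcases i with (r | r) | c
  · rcases j with j | ⟨k', c⟩
    · rfl
    · by_cases h : k' = k
      · subst h
        exact absurd rfl (hj c)
      · simp [G9g_A, h]
  · rfl
  · rfl

lemma G9g_B_zero_right {N : ℕ} {m₁ m₂ : Type} {n : Fin N → Type}
    (B : ∀ k, Matrix m₂ (n k) ℂ) (k : Fin N) (i j : (m₁ ⊕ m₂) ⊕ (Σ k, n k))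
    (hj : ∀ c : n k, Sum.inr ⟨k, c⟩ ≠ j) : G9g_B B k i j = 0 := by
  rcases i with (r | r) | c
  · rfl
  · rcases j with j | ⟨k', c⟩
    · rfl
    · by_cases h : k' = k
      · subst h
        exact absurd rfl (hj c)
      · simp [G9g_B, h]
  · rfl

/-- `m = (m₁ ⊕ m₂) ⊕ Σ k, n k`; `A' k`, `B' k` the extensions of `A k`, `B k` by zeros,
`pw_extend` for them and for `blk A' B'` (`Sum.map`, `Sigma.map`). -/
theorem all_sizes {p : ℝ} (hp : 0 < p)
    (hsq : ∀ (N : ℕ) (m : Type) [Fintype m] [DecidableEq m] (A B : Fin N → Matrix m m ℂ),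
      LibSch.pw p (LibSch.comp p A B) ≤ LibSch.pw p (LibSch.blk A B))
    {N : ℕ} {m₁ m₂ : Type} {n : Fin N → Type} [Fintype m₁] [DecidableEq m₁] [Fintype m₂]
    [DecidableEq m₂] [∀ k, Fintype (n k)] [∀ k, DecidableEq (n k)] (A : ∀ k, Matrix m₁ (n k) ℂ)
    (B : ∀ k, Matrix m₂ (n k) ℂ) :
    LibSch.sn p (LibSch.comp p A B) ≤ LibSch.sn p (LibSch.blk A B) := by
  have hA : ∀ k, LibSch.pw p (G9g_A (m₂ := m₂) A k) = LibSch.pw p (A k) := by
    intro k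
    refine pw_extend p hp (A k) (G9g_A A k) (fun r => Sum.inl (Sum.inl r))
      (fun c => Sum.inr ⟨k, c⟩) ?_ ?_ (fun r c => G9g_A_apply A k r c) ?_ ?_
    · intro a b h
      exact Sum.inl.inj (Sum.inl.inj h)
    · intro a b h
      have h2 := Sum.inr.inj h
      simpa using h2
    · intro i j hi
      exact G9g_A_zero_left A k i j fun r h => hi ⟨r, h⟩
    · intro i j hj
      exact G9g_A_zero_right A k i j fun c h => hj ⟨c, h⟩
  have hB : ∀ k, LibSch.pw p (G9g_B (m₁ := m₁) B k) = LibSch.pw p (B k) := by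
    intro k
    refine pw_extend p hp (B k) (G9g_B B k) (fun r => Sum.inl (Sum.inr r))
      (fun c => Sum.inr ⟨k, c⟩) ?_ ?_ (fun r c => G9g_B_apply B k r c) ?_ ?_
    · intro a b h
      exact Sum.inr.inj (Sum.inl.inj h)
    · intro a b h
      have h2 := Sum.inr.inj h
      simpa using h2
    · intro i j hi
      exact G9g_B_zero_left B k i j fun r h => hi ⟨r, h⟩
    · intro i j hj
      exact G9g_B_zero_right B k i j fun c h => hj ⟨c, h⟩
  have hcomp : LibSch.comp p (fun k => G9g_A (m₂ := m₂) A k) (fun k => G9g_B (m₁ := m₁) B k) =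
      LibSch.comp p A B := by
    unfold LibSch.comp LibSch.sn
    simp only [hA, hB]
  have hblk : LibSch.pw p (LibSch.blk (fun k => G9g_A (m₂ := m₂) A k)
      (fun k => G9g_B (m₁ := m₁) B k)) = LibSch.pw p (LibSch.blk A B) := by
    refine pw_extend p hp (LibSch.blk A B) _
      (Sum.elim (fun r => Sum.inl (Sum.inl (Sum.inl r))) (fun r => Sum.inr (Sum.inl (Sum.inr r))))
      (fun c => ⟨c.1, Sum.inr c⟩) ?_ ?_ ?_ ?_ ?_
    · rintro (a | a) (b | b) h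
      · simpa using h
      · simp at h
      · simp at h
      · simpa using h
    · rintro ⟨k, c⟩ ⟨k', c'⟩ h
      simp only [Sigma.mk.injEq] at h
      obtain ⟨h1, h2⟩ := h
      subst h1
      have h3 := Sum.inr.inj (eq_of_heq h2)
      exact h3
    · rintro (r | r) ⟨k, c⟩
      · exact G9g_A_apply (m₂ := m₂) A k r c
      · exact G9g_B_apply (m₁ := m₁) B k r c
    · rintro (i | i) ⟨k, j⟩ hi
      · refine G9g_A_zero_left A k i j fun r h => hi ⟨Sum.inl r, ?_⟩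
        simp [h]
      · refine G9g_B_zero_left B k i j fun r h => hi ⟨Sum.inr r, ?_⟩
        simp [h]
    · rintro (i | i) ⟨k, j⟩ hj
      · refine G9g_A_zero_right A k i j fun c h => hj ⟨⟨k, c⟩, ?_⟩
        simp [h]
      · refine G9g_B_zero_right B k i j fun c h => hj ⟨⟨k, c⟩, ?_⟩
        simp [h]
  have hmain := hsq N ((m₁ ⊕ m₂) ⊕ (Σ k, n k)) (fun k => G9g_A (m₂ := m₂) A k)
    (fun k => G9g_B (m₁ := m₁) B k)
  rw [hcomp, hblk] at hmain
  unfold LibSch.sn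
  exact Real.rpow_le_rpow (LibSch.pw_nonneg _ _) hmain (by positivity)

end Pool.Agent.LibSchG
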