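import Pool.Agent.LibSchG.G9d
import Pool.Agent.LibSchG.G9g
import Pool.Agent.LibSchG.G9f
import Pool.Agent.LibSchN.F3
import Pool.Agent.LibSchQ.H1

/-! **G10.**  All `N`, all exponents. -/

open Matrix
open scoped ComplexOrder

namespace Pool.Agent.LibSchG

open Pool.Agent.LibSchP Pool.Agent.LibSchA

variable {N : ℕ} {m₁ m₂ : Type} {n : Fin N → Type} [Fintype m₁] [DecidableEq m₁] [Fintype m₂]
    [DecidableEq m₂] [∀ k, Fintype (n k)] [∀ k, DecidableEq (n k)]

/-- `4/3 < p < 2` -/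
theorem all_p {p : ℝ} (h1 : 4 / 3 < p) (h2 : p < 2) (hG : SColAll (2 / p - 1))
    (A : ∀ k, Matrix m₁ (n k) ℂ) (B : ∀ k, Matrix m₂ (n k) ℂ) :
    LibSch.sn p (LibSch.comp p A B) ≤ LibSch.sn p (LibSch.blk A B) := by
  have hp0 : 0 < p := by linarith
  have ha : 0 < 2 / p - 1 := by
    rw [sub_pos, lt_div_iff₀ hp0]; linarith
  have ha' : 2 * (2 / p - 1) < 1 := by
    have : 2 / p < 3 / 2 := by rw [div_lt_div_iff₀ hp0 (by norm_num)]; linarith
    linarith
  refine all_sizes hp0 (fun N m _ _ A B => square_p ha ha' ?_ hG A B) A B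
  field_simp
  ring

/-- **all `N`, all `p ≥ 1`** -/
theorem all_N (hG : ∀ a : ℝ, 0 < a → 2 * a < 1 → SColAll a) (p : ℝ)
    (A : ∀ k, Matrix m₁ (n k) ℂ) (B : ∀ k, Matrix m₂ (n k) ℂ) : LibSch.Holds p A B := by
  have hp : ∀ p : ℝ, 1 ≤ p → p < 2 → ∀ (A : ∀ k, Matrix m₁ (n k) ℂ)
      (B : ∀ k, Matrix m₂ (n k) ℂ),
      LibSch.sn p (LibSch.comp p A B) ≤ LibSch.sn p (LibSch.blk A B) := by
    intro p h1 h2 A B
    rcases le_or_gt p (4 / 3) with h | h
    · exact LibSchN.final p h1 h A B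
    · have hp0 : 0 < p := by linarith
      refine all_p h h2 (hG _ ?_ ?_) A B
      · rw [sub_pos, lt_div_iff₀ hp0]; linarith
      · have : 2 / p < 3 / 2 := by rw [div_lt_div_iff₀ hp0 (by norm_num)]; linarith
        linarith
  rcases lt_trichotomy p 2 with h2 | h2 | h2
  · exact ⟨fun h1 _ => hp p h1 h2 A B, fun h3 => absurd h3 (not_le.2 h2)⟩
  · subst h2
    exact LibSchQ.h1_holds_two A B
  · refine ⟨fun _ h3 => absurd h3 (not_le.2 h2), fun _ => ?_⟩
    have h3 : 1 < p := by linarith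
    have h4 := Real.HolderConjugate.conjExponent h3
    have h5 : p.conjExponent < 2 := by
      unfold Real.conjExponent
      rw [div_lt_iff₀ (by linarith)]
      linarith
    exact duality h4.symm (fun A B => hp _ h4.symm.lt.le h5 A B) A B

end Pool.Agent.LibSchG
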