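import Pool.Agent.LibSchG.G10

/-! **G11.**  All `N`, part of the range of exponents: if the single column inequality holds for
`a₀ ≤ a < 1/2` then the compression inequality holds for `1 ≤ p ≤ 2/(1+a₀)` and `q ≥ 2/(1-a₀)`. -/

open Matrix
open scoped ComplexOrder

namespace Pool.Agent.LibSchG

open Pool.Agent.LibSchP Pool.Agent.LibSchA

variable {N : ℕ} {m₁ m₂ : Type} {n : Fin N → Type} [Fintype m₁] [DecidableEq m₁] [Fintype m₂]
    [DecidableEq m₂] [∀ k, Fintype (n k)] [∀ k, DecidableEq (n k)]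

theorem range_p {a₀ : ℝ} (h0 : 0 < a₀) (hG : ∀ a : ℝ, a₀ ≤ a → 2 * a < 1 → SColAll a) {p : ℝ}
    (h1 : 1 ≤ p) (h2 : p ≤ 2 / (1 + a₀)) (A : ∀ k, Matrix m₁ (n k) ℂ)
    (B : ∀ k, Matrix m₂ (n k) ℂ) :
    LibSch.sn p (LibSch.comp p A B) ≤ LibSch.sn p (LibSch.blk A B) := by
  have hp0 : 0 < p := by linarith
  have h3 : p * (1 + a₀) ≤ 2 := (le_div_iff₀ (by linarith)).1 h2
  rcases le_or_gt p (4 / 3) with h | h
  · exact LibSchN.final p h1 h A B
  · refine all_p h ?_ (hG _ ?_ ?_) A B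
    · nlinarith
    · rw [le_sub_iff_add_le, le_div_iff₀ hp0]; linarith
    · have : 2 / p < 3 / 2 := by rw [div_lt_div_iff₀ hp0 (by norm_num)]; linarith
      linarith

theorem range_q {a₀ : ℝ} (h0 : 0 < a₀) (h1 : a₀ < 1)
    (hG : ∀ a : ℝ, a₀ ≤ a → 2 * a < 1 → SColAll a) {q : ℝ}
    (h2 : 2 / (1 - a₀) ≤ q) (A : ∀ k, Matrix m₁ (n k) ℂ) (B : ∀ k, Matrix m₂ (n k) ℂ) :
    LibSch.sn q (LibSch.blk A B) ≤ LibSch.sn q (LibSch.comp q A B) := by
  have h5 : 0 < 1 - a₀ := by linarith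
  have h3 : 2 ≤ q * (1 - a₀) := (div_le_iff₀ h5).1 h2
  have hq : 1 < q := by nlinarith
  have h4 := Real.HolderConjugate.conjExponent hq
  refine duality h4.symm (fun A B => range_p h0 hG h4.symm.lt.le ?_ A B) A B
  unfold Real.conjExponent
  rw [div_le_div_iff₀ (by linarith) (by linarith)]
  linarith

end Pool.Agent.LibSchG
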