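import Pool.Agent.LibSchG.G10

/-! **G12.**  The statement in explicit form. -/

open Matrix
open scoped ComplexOrder

namespace Pool.Agent.LibSchG

theorem explicit (hG : ∀ a : ℝ, 0 < a → 2 * a < 1 → SColAll a) :
  ∀ (p : ℝ) (N m₁ m₂ : ℕ) (n : Fin N → ℕ)
    (T : Matrix (Fin m₁ ⊕ Fin m₂) (Σ k : Fin N, Fin (n k)) ℂ)
    (a b : Fin N → ℝ) (nT nC : ℝ),
    (∀ k : Fin N, a k =
      (∑ j, ((Matrix.isHermitian_conjTranspose_mul_self
        (Matrix.of fun (r : Fin m₁) (c : Fin (n k)) => T (Sum.inl r) ⟨k, c⟩)).eigenvalues j)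
          ^ (p / 2)) ^ (1 / p)) →
    (∀ k : Fin N, b k =
      (∑ j, ((Matrix.isHermitian_conjTranspose_mul_self
        (Matrix.of fun (r : Fin m₂) (c : Fin (n k)) => T (Sum.inr r) ⟨k, c⟩)).eigenvalues j)
          ^ (p / 2)) ^ (1 / p)) →
    nT = (∑ j, ((Matrix.isHermitian_conjTranspose_mul_self T).eigenvalues j) ^ (p / 2)) ^ (1 / p) →
    nC = (∑ j, ((Matrix.isHermitian_conjTranspose_mul_self
        (Matrix.of fun (i : Fin 2) (k : Fin N) => ((![a k, b k] i : ℝ) : ℂ))).eigenvalues j)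
          ^ (p / 2)) ^ (1 / p) →
    ((1 ≤ p → p ≤ 2 → nC ≤ nT) ∧ (2 ≤ p → nT ≤ nC)) := by
  intro p N m₁ m₂ n T a b nT nC ha hb hT hC
  set A : ∀ k, Matrix (Fin m₁) (Fin (n k)) ℂ := fun k => Matrix.of fun r c => T (Sum.inl r) ⟨k, c⟩
    with hA
  set B : ∀ k, Matrix (Fin m₂) (Fin (n k)) ℂ := fun k => Matrix.of fun r c => T (Sum.inr r) ⟨k, c⟩
    with hB
  have hTb : LibSch.blk A B = T := by
    ext i c
    rcases i with i | i <;> rfl
  have ha' : ∀ k, a k = LibSch.sn p (A k) := ha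
  have hb' : ∀ k, b k = LibSch.sn p (B k) := hb
  have hT' : nT = LibSch.sn p (LibSch.blk A B) := by rw [hTb]; exact hT
  have hCb : (Matrix.of fun (i : Fin 2) (k : Fin N) => ((![a k, b k] i : ℝ) : ℂ)) =
      LibSch.comp p A B := by
    ext i k
    simp only [LibSch.comp, Matrix.of_apply, ha', hb']
  have hC' : nC = LibSch.sn p (LibSch.comp p A B) := by
    rw [← hCb]; exact hC
  have h := all_N hG p A B
  rw [hT', hC']
  exact h

end Pool.Agent.LibSchG
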