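import Pool.Agent.LibSchG.N0
import Pool.Agent.LibSchA.A8

/-! **N1.**  The trial function inequality for one (non-commuting) column, own shapes. -/

open MeasureTheory Set Matrix
open scoped ComplexOrder

namespace Pool.Agent.LibSchG

open Pool.Agent.LibSchP Pool.Agent.LibSchA Pool.Agent.LibSchE

section resolvent

/-- the resolvent inequality for an arbitrary `T` -/
theorem resolvent_gen {m n : Type} [Fintype m] [DecidableEq m] [Fintype n] (W : Matrix m m ℂ)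
    (hW : W ∈ unitaryGroup m ℂ) (μ : m → ℝ) (hμ : ∀ k, 0 ≤ μ k) (T G : Matrix m n ℂ)
    (r : ℝ) (hr : 0 < r) :
    ∑ k, (∑ l, ‖(Wᴴ * T) k l‖ ^ 2) * (μ k / (r + μ k)) ≤
      fr (T - G) + r⁻¹ * (trace (Gᴴ * ud W μ * G)).re := by
  have hWc : Wᴴ ∈ unitaryGroup m ℂ := by
    have := Unitary.star_mem hW
    rwa [star_eq_conjTranspose] at this
  set τ := Wᴴ * T with hτ
  set γ := Wᴴ * G with hγ
  have e3 : fr (T - G) = ∑ k, ∑ l, ‖τ k l - γ k l‖ ^ 2 := by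
    have h1 : fr (T - G) = fr (τ - γ) := by
      rw [← nf_sq, ← nf_sq, hτ, hγ, ← Matrix.mul_sub, nf_unitary_mul _ hWc]
    rw [h1]
    rfl
  have e4 : (trace (Gᴴ * ud W μ * G)).re = ∑ k, ∑ l, μ k * ‖γ k l‖ ^ 2 := by
    have h1 : Gᴴ * ud W μ * G = γᴴ * (dg μ * γ) := by
      rw [hγ, conjTranspose_mul, conjTranspose_conjTranspose]
      unfold ud
      simp only [Matrix.mul_assoc]
    rw [h1, a1_trace, Complex.re_sum]
    refine Finset.sum_congr rfl fun k _ => ?_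
    rw [Complex.re_sum]
    refine Finset.sum_congr rfl fun l _ => ?_
    have h2 : (dg μ * γ) k l = (μ k : ℂ) * γ k l := by
      unfold dg
      rw [diagonal_mul]
    rw [h2, Complex.star_def]
    have h3 : (starRingEnd ℂ) (γ k l) * ((μ k : ℂ) * γ k l) = ((μ k * ‖γ k l‖ ^ 2 : ℝ) : ℂ) := by
      have h4 : (starRingEnd ℂ) (γ k l) * ((μ k : ℂ) * γ k l)
          = (μ k : ℂ) * ((starRingEnd ℂ) (γ k l) * γ k l) := by ring
      rw [h4, ← Complex.normSq_eq_conj_mul_self, Complex.normSq_eq_norm_sq]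
      push_cast
      rfl
    rw [h3, Complex.ofReal_re]
  rw [e3, e4, Finset.mul_sum, ← Finset.sum_add_distrib]
  refine Finset.sum_le_sum fun k _ => ?_
  rw [Finset.sum_mul, Finset.mul_sum, ← Finset.sum_add_distrib]
  exact Finset.sum_le_sum fun l _ => res_scalar _ _ _ _ (hμ k) hr

/-- `⟨T, f(E) T⟩` in the eigenbasis -/
theorem trace_ud_eq {m n : Type} [Fintype m] [DecidableEq m] [Fintype n] (W : Matrix m m ℂ)
    (κ : m → ℝ) (T : Matrix m n ℂ) :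
    (trace (Tᴴ * ud W κ * T)).re = ∑ k, κ k * ∑ l, ‖(Wᴴ * T) k l‖ ^ 2 := by
  set γ := Wᴴ * T with hγ
  have h1 : Tᴴ * ud W κ * T = γᴴ * (dg κ * γ) := by
    rw [hγ, conjTranspose_mul, conjTranspose_conjTranspose]
    unfold ud
    simp only [Matrix.mul_assoc]
  rw [h1, a1_trace, Complex.re_sum]
  refine Finset.sum_congr rfl fun k _ => ?_
  rw [Complex.re_sum, Finset.mul_sum]
  refine Finset.sum_congr rfl fun l _ => ?_
  have h2 : (dg κ * γ) k l = (κ k : ℂ) * γ k l := by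
    unfold dg
    rw [diagonal_mul]
  rw [h2, Complex.star_def]
  have h3 : (starRingEnd ℂ) (γ k l) * ((κ k : ℂ) * γ k l) = ((κ k * ‖γ k l‖ ^ 2 : ℝ) : ℂ) := by
    have h4 : (starRingEnd ℂ) (γ k l) * ((κ k : ℂ) * γ k l)
        = (κ k : ℂ) * ((starRingEnd ℂ) (γ k l) * γ k l) := by ring
    rw [h4, ← Complex.normSq_eq_conj_mul_self, Complex.normSq_eq_norm_sq]
    push_cast
    rfl
  rw [h3, Complex.ofReal_re]

end resolvent

section rows

variable {m₁ m₂ n : Type} [Fintype m₁] [Fintype m₂] [Fintype n]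

theorem fr_fromRows_sub (A A' : Matrix m₁ n ℂ) (B B' : Matrix m₂ n ℂ) :
    fr (fromRows A B - fromRows A' B') = fr (A - A') + fr (B - B') := by
  unfold fr
  rw [Fintype.sum_sum_type]
  rfl

theorem trace_fromRows (A : Matrix m₁ n ℂ) (B : Matrix m₂ n ℂ)
    (E : Matrix (m₁ ⊕ m₂) (m₁ ⊕ m₂) ℂ) (hE : E.IsHermitian) :
    (trace ((fromRows A B)ᴴ * E * fromRows A B)).re =
      (trace (Aᴴ * E.toBlocks₁₁ * A)).re + (trace (Bᴴ * E.toBlocks₂₂ * B)).re +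
        2 * (trace (Aᴴ * E.toBlocks₁₂ * B)).re := by
  have hE21 : E.toBlocks₂₁ = (E.toBlocks₁₂)ᴴ := by
    ext i j
    have h := hE.apply (Sum.inr i) (Sum.inl j)
    simpa [Matrix.toBlocks₂₁, Matrix.toBlocks₁₂] using h.symm
  have h1 : (fromRows A B)ᴴ * E * fromRows A B =
      Aᴴ * E.toBlocks₁₁ * A + Bᴴ * E.toBlocks₂₁ * A +
        (Aᴴ * E.toBlocks₁₂ * B + Bᴴ * E.toBlocks₂₂ * B) := by
    rw [Matrix.conjTranspose_fromRows_eq_fromCols_conjTranspose]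
    conv_lhs => rw [← Matrix.fromBlocks_toBlocks E]
    rw [Matrix.fromCols_mul_fromBlocks, Matrix.fromCols_mul_fromRows, Matrix.add_mul,
      Matrix.add_mul]
  have h2 : trace (Bᴴ * E.toBlocks₂₁ * A) = star (trace (Aᴴ * E.toBlocks₁₂ * B)) := by
    rw [← Matrix.trace_conjTranspose, Matrix.conjTranspose_mul, Matrix.conjTranspose_mul,
      Matrix.conjTranspose_conjTranspose, hE21, Matrix.mul_assoc]
  rw [h1, Matrix.trace_add, Matrix.trace_add, Matrix.trace_add]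
  simp only [Complex.add_re]
  have h3 : (trace (Bᴴ * E.toBlocks₂₁ * A)).re = (trace (Aᴴ * E.toBlocks₁₂ * B)).re := by
    rw [h2]
    exact Complex.conj_re _
  rw [h3]
  ring

end rows

/-- the residual constants of one column: `(1-2a) φ` -/
theorem res_col {a e₁ e₂ c s X Z : ℝ} (he₁ : 0 < e₁) (he₂ : 0 < e₂) (hcs : c ^ 2 + s ^ 2 = 1) :
    res a e₁ e₂ (c * X) (-(s * Z)) + res a e₁ e₂ (s * X) (c * Z) =
      (1 - 2 * a) * (X ^ 2 * e₁ ^ (2 * a) + Z ^ 2 * e₂ ^ (2 * a)) := by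
  have p : ∀ e : ℝ, 0 < e → e ^ 2 * e ^ (2 * a - 1 - 1) = e ^ (2 * a) := by
    intro e he
    rw [← Real.rpow_two, ← Real.rpow_add he]
    congr 1
    ring
  have p1 := p e₁ he₁
  have p2 := p e₂ he₂
  unfold res
  rw [A3_dd_self, A3_dd_self]
  linear_combination (-(X ^ 2 * e₁ ^ 2 * ((2 * a - 1) * e₁ ^ (2 * a - 1 - 1)))
      - Z ^ 2 * e₂ ^ 2 * ((2 * a - 1) * e₂ ^ (2 * a - 1 - 1))) * hcs +
      ((1 - 2 * a) * X ^ 2) * p1 + ((1 - 2 * a) * Z ^ 2) * p2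

section main

variable {m : Type} [Fintype m] [DecidableEq m]

/-- **T-G inequality for one column with its own shapes.** -/
theorem tg_one {a e₁ e₂ c s X Z : ℝ} (h0 : 0 < a) (h1 : 2 * a < 1) (he₁ : 0 < e₁)
    (he₂ : 0 < e₂) (hcs : c ^ 2 + s ^ 2 = 1) (U U' : Matrix m m ℂ)
    (hU : U ∈ unitaryGroup m ℂ) (hU' : U' ∈ unitaryGroup m ℂ) (θ θ' : m → ℝ)
    (hθ : ∀ j, 0 < θ j) (hθ' : ∀ j, 0 < θ' j) (hs : ∑ j, θ j ^ 2 = 1) (hs' : ∑ j, θ' j ^ 2 = 1)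
    (W : Matrix (m ⊕ m) (m ⊕ m) ℂ) (hW : W ∈ unitaryGroup (m ⊕ m) ℂ) (μ : m ⊕ m → ℝ)
    (hμ : ∀ i, 0 ≤ μ i) :
    cE W (fun i => μ i ^ (2 * a)) (U * (dg fun j => (c * X - s * Z) * θ j ^ (1 - a)) * Uᴴ)
      (U' * (dg fun j => (s * X + c * Z) * θ' j ^ (1 - a)) * U'ᴴ) ≤
      (1 - 2 * a) * (X ^ 2 * e₁ ^ (2 * a) + Z ^ 2 * e₂ ^ (2 * a)) +
        (r1 a e₁ e₂ c s X Z * pr U θ (ud W μ).toBlocks₁₁ +
          r2 a e₁ e₂ c s X Z * pr U' θ' (ud W μ).toBlocks₂₂ +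
          2 * cx (kF a e₁ e₂ c s X Z) U U θ U' U' θ' (ud W μ).toBlocks₁₂) := by
  have hUU : Uᴴ * U = 1 := by
    have := mem_unitaryGroup_iff'.mp hU
    rwa [star_eq_conjTranspose] at this
  have hUU' : U'ᴴ * U' = 1 := by
    have := mem_unitaryGroup_iff'.mp hU'
    rwa [star_eq_conjTranspose] at this
  have hb0 : 0 < 2 * a := by linarith
  have hcst := cst_pos (2 * a) hb0 h1
  set A : Matrix m m ℂ := U * (dg fun j => (c * X - s * Z) * θ j ^ (1 - a)) * Uᴴ with hAe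
  set B : Matrix m m ℂ := U' * (dg fun j => (s * X + c * Z) * θ' j ^ (1 - a)) * U'ᴴ with hBe
  have hA : BlkD a (c * X - s * Z) A U U θ := ⟨hUU, hUU, hθ, rfl, hs.le⟩
  have hB : BlkD a (s * X + c * Z) B U' U' θ' := ⟨hUU', hUU', hθ', rfl, hs'.le⟩
  set E := ud W μ with hE
  set T : Matrix (m ⊕ m) m ℂ := fromRows A B with hT
  set x : m ⊕ m → ℝ := fun k => ∑ l, ‖(Wᴴ * T) k l‖ ^ 2 with hx
  -- left side
  have iL : Itg (fun r => ∑ i, x i * (r ^ (2 * a - 1) * (μ i / (r + μ i))))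
      (∑ i, x i * (cst (2 * a) * μ i ^ (2 * a))) :=
    Itg.sum _ fun i _ => (itg_base (2 * a) (μ i) hb0 h1 (hμ i)).const_mul _
  -- right side
  have iR := col_itg (p₁ := c * X) (p₂ := -(s * Z)) (q₁ := s * X) (q₂ := c * Z) h0 h1 he₁ he₂
    hA hB (by ring) rfl E.toBlocks₁₁ E.toBlocks₂₂ E.toBlocks₁₂
  have h2 := iL.mono iR (by
    intro r hr
    have h3 := resolvent_gen W hW μ hμ T
      (fromRows (tri a e₁ e₂ (c * X) (-(s * Z)) U U θ r) (tri a e₁ e₂ (s * X) (c * Z) U' U' θ' r))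
      r hr
    rw [hT, fr_fromRows_sub, trace_fromRows _ _ _ (ud_isHermitian W μ)] at h3
    have h4 := mul_le_mul_of_nonneg_left h3 (Real.rpow_nonneg hr.le (2 * a - 1))
    rw [Finset.mul_sum] at h4
    refine le_trans (le_of_eq ?_) h4
    exact Finset.sum_congr rfl fun i _ => by rw [hx]; ring)
  have h3 : cE W (fun i => μ i ^ (2 * a)) A B ≤
      colV a e₁ e₂ (c * X) (-(s * Z)) (s * X) (c * Z) U U θ U' U' θ' E.toBlocks₁₁ E.toBlocks₂₂
        E.toBlocks₁₂ := by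
    have e1 : ∑ i, x i * (cst (2 * a) * μ i ^ (2 * a)) =
        cst (2 * a) * cE W (fun i => μ i ^ (2 * a)) A B := by
      unfold cE
      rw [trace_ud_eq, Finset.mul_sum]
      exact Finset.sum_congr rfl fun i _ => by rw [hx, hT]; ring
    rw [e1] at h2
    exact le_of_mul_le_mul_left h2 hcst
  refine h3.trans (le_of_eq ?_)
  have k1 : ∑ j, ((Uᴴ * E.toBlocks₁₁ * U) j j).re *
      ker a e₁ e₂ (c * X) (-(s * Z)) (c * X) (-(s * Z)) (θ j) (θ j) =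
      r1 a e₁ e₂ c s X Z * pr U θ E.toBlocks₁₁ := by
    unfold pr r1
    rw [Finset.mul_sum]
    refine Finset.sum_congr rfl fun j _ => ?_
    rw [ker_diag a e₁ e₂ _ _ _ _ (θ j) he₁ he₂ (hθ j)]
    ring
  have k2 : ∑ j, ((U'ᴴ * E.toBlocks₂₂ * U') j j).re *
      ker a e₁ e₂ (s * X) (c * Z) (s * X) (c * Z) (θ' j) (θ' j) =
      r2 a e₁ e₂ c s X Z * pr U' θ' E.toBlocks₂₂ := by
    unfold pr r2
    rw [Finset.mul_sum]
    refine Finset.sum_congr rfl fun j _ => ?_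
    rw [ker_diag a e₁ e₂ _ _ _ _ (θ' j) he₁ he₂ (hθ' j)]
    ring
  have k3 : ∑ j, ∑ l, ((Uᴴ * E.toBlocks₁₂ * U') j l * (U'ᴴ * U) l j).re *
      ker a e₁ e₂ (c * X) (-(s * Z)) (s * X) (c * Z) (θ j) (θ' l) =
      cx (kF a e₁ e₂ c s X Z) U U θ U' U' θ' E.toBlocks₁₂ := by
    unfold cx kF
    exact Finset.sum_congr rfl fun j _ => Finset.sum_congr rfl fun l _ => by ring
  unfold colV
  rw [k1, k2, k3, ← Finset.sum_mul, ← Finset.sum_mul, hs, hs', one_mul, one_mul,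
    res_col he₁ he₂ hcs]

end main

end Pool.Agent.LibSchG
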