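import Pool.Agent.LibSchG.N9
import Pool.Agent.LibSchG.N1

/-! **N10.**  The single column inequality from the scalar statement `ColOK`. -/

open Matrix
open scoped ComplexOrder

namespace Pool.Agent.LibSchG

open Pool.Agent.LibSchP Pool.Agent.LibSchA Pool.Agent.LibSchE

theorem tg_all {a e₁ e₂ c s X Z : ℝ} (I : Inc a e₁ e₂ c s X Z) : TG a e₁ e₂ c s X Z := by
  intro m _ _ W hW μ hμ U U' hU hU' θ θ' hθ hθ' hs hs'
  have h := tg_one (X := X) (Z := Z) I.ha I.ha' (I.he₂.trans I.he) I.he₂ I.hcs U U' hU hU' θ θ'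
    hθ hθ' hs hs' W hW μ hμ
  linarith

/-- **`SColAll` from `ColOK`** -/
theorem SColAll_of_colOK {a : ℝ} (ha : 0 < a) (ha' : 2 * a < 1)
    (hC : ∀ e₁ e₂ c s X Z : ℝ, Inc a e₁ e₂ c s X Z → ColOK a e₁ e₂ c s X Z) : SColAll a :=
  scolAll_of ha ha' (fun _ _ _ _ _ _ I => tg_all I) hC

/-- **`SCol` from `ColOK`** (one column) -/
theorem scol_of_colOK {a e₁ e₂ c s X Z : ℝ} (I : Inc a e₁ e₂ c s X Z)
    (H : ColOK a e₁ e₂ c s X Z) : SCol a e₁ e₂ c s X Z :=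
  own_to_scol I (own_gauge I H (tg_all I))

end Pool.Agent.LibSchG
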