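import Pool.Agent.LibSchG.G11
import Pool.Agent.LibSchG.N10
import Pool.Agent.LibSchW.W9

/-! **G13.**  All `N`, `1 ≤ p ≤ 80/49` and `q ≥ 80/31`. -/

open Matrix
open scoped ComplexOrder

namespace Pool.Agent.LibSchG

theorem scolAll_A {a : ℝ} (h : 9 / 40 ≤ a) (ha' : 2 * a < 1) : SColAll a :=
  SColAll_of_colOK (by linarith) ha' fun _ _ _ _ _ _ I => SchW.colOK_A (by linarith) I

variable {N : ℕ} {m₁ m₂ : Type} {n : Fin N → Type} [Fintype m₁] [DecidableEq m₁] [Fintype m₂]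
    [DecidableEq m₂] [∀ k, Fintype (n k)] [∀ k, DecidableEq (n k)]

theorem all_N_p {p : ℝ} (h1 : 1 ≤ p) (h2 : p ≤ 80 / 49) (A : ∀ k, Matrix m₁ (n k) ℂ)
    (B : ∀ k, Matrix m₂ (n k) ℂ) :
    LibSch.sn p (LibSch.comp p A B) ≤ LibSch.sn p (LibSch.blk A B) :=
  range_p (a₀ := 9 / 40) (by norm_num) (fun _ h h' => scolAll_A h h') h1
    (h2.trans (by norm_num)) A B

theorem all_N_q {q : ℝ} (h2 : 80 / 31 ≤ q) (A : ∀ k, Matrix m₁ (n k) ℂ)
    (B : ∀ k, Matrix m₂ (n k) ℂ) :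
    LibSch.sn q (LibSch.blk A B) ≤ LibSch.sn q (LibSch.comp q A B) :=
  range_q (a₀ := 9 / 40) (by norm_num) (by norm_num) (fun _ h h' => scolAll_A h h')
    (le_trans (by norm_num) h2) A B

end Pool.Agent.LibSchG
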