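import Pool.Agent.LibSchG.G0

/-! **G1a.**  Young`s inequality for products, and column sums. -/

open Matrix
open scoped ComplexOrder

namespace Pool.Agent.LibSchG

open Pool.Agent.LibSchP Pool.Agent.LibSchA

theorem G1a_ud_conj {n : Type} [Fintype n] [DecidableEq n] (U : Matrix n n ℂ) (x : n → ℝ) :
    (ud U x)ᴴ = ud U x := ud_isHermitian U x

/-- `tr Zᴴ (ud W τ) Z ≤ fr Z` for `τ ≤ 1` -/
theorem G1a_le_fr {l n : Type} [Fintype l] [DecidableEq l] [Fintype n] (W : Matrix l l ℂ)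
    (hW : W ∈ unitaryGroup l ℂ) (τ : l → ℝ) (hτ : ∀ i, τ i ≤ 1) (Z : Matrix l n ℂ) :
    (trace (Zᴴ * ud W τ * Z)).re ≤ fr Z := by
  classical
  have h1 : (ud W fun i => 1 - τ i).PosSemidef :=
    ud_posSemidef W _ fun k => by linarith [hτ k]
  have h2 : (Zᴴ * (ud W fun i => 1 - τ i) * Z).PosSemidef := h1.conjTranspose_mul_mul_same Z
  have h3 : 0 ≤ (trace (Zᴴ * (ud W fun i => 1 - τ i) * Z)).re := by
    have := h2.trace_nonneg
    exact (Complex.le_def.1 this).1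
  have h4 : (ud W fun i => 1 - τ i) = 1 - ud W τ := by
    have h5 : ud W (fun _ => (1:ℝ)) = 1 := by
      unfold ud
      rw [a2_dg_one, Matrix.mul_one, a2_uu' W hW]
    rw [← h5]
    unfold ud
    rw [← Matrix.sub_mul, ← Matrix.mul_sub]
    congr 2
    unfold dg
    rw [diagonal_sub]
    congr 1
    funext k
    push_cast
    rfl
  rw [h4, Matrix.mul_sub, Matrix.sub_mul, trace_sub, Matrix.mul_one, Complex.sub_re] at h3
  rw [fr_eq_trace]
  linarith

theorem G1a_cyc {l m n : Type} [Fintype l] [Fintype m] [Fintype n] (M : Matrix l m ℂ)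
    (Y : Matrix m n ℂ) (Q : Matrix l l ℂ) (hQ : Qᴴ = Q) :
    trace (M * Y * (M * Y)ᴴ * (Q * Q)) = trace ((Q * M * Y)ᴴ * (Q * M * Y)) := by
  rw [trace_mul_comm (Q * M * Y)ᴴ, Matrix.mul_assoc Q M Y, conjTranspose_mul Q (M * Y), hQ]
  calc trace (M * Y * (M * Y)ᴴ * (Q * Q)) = trace ((M * Y * (M * Y)ᴴ * Q) * Q) := by
        simp only [Matrix.mul_assoc]
    _ = trace (Q * (M * Y * (M * Y)ᴴ * Q)) := trace_mul_comm _ _
    _ = trace (Q * (M * Y) * ((M * Y)ᴴ * Q)) := by simp only [Matrix.mul_assoc]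

/-- a contraction -/
theorem G1a_contr {l m n : Type} [Fintype l] [DecidableEq l] [Fintype m] [Fintype n]
    (W : Matrix l l ℂ) (hW : W ∈ unitaryGroup l ℂ) (τ : l → ℝ) (hτ : ∀ i, τ i ≤ 1)
    (P : Matrix l m ℂ) (hP : P * Pᴴ = ud W τ) (Y : Matrix m n ℂ) : fr (P * Y) ≤ fr Y := by
  have h1 : fr (Pᴴ * (P * Y)) ≤ fr (P * Y) := by
    have h2 := G1a_le_fr W hW τ hτ (P * Y)
    rw [← hP] at h2
    rw [fr_eq_trace (Pᴴ * (P * Y))]
    refine le_trans (le_of_eq ?_) h2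
    congr 2
    rw [conjTranspose_mul Pᴴ, conjTranspose_conjTranspose]
    simp only [Matrix.mul_assoc]
  have h3 : fr (P * Y) ≤ nf (Pᴴ * (P * Y)) * nf Y := by
    have h4 := re_trace_le (Pᴴ * (P * Y)) Y
    have h5 := (le_abs_self _).trans h4
    refine le_trans (le_of_eq ?_) h5
    rw [fr_eq_trace]
    congr 2
    rw [conjTranspose_mul Pᴴ, conjTranspose_conjTranspose]
    simp only [Matrix.mul_assoc]
  rw [← nf_sq, ← nf_sq] at h1
  have h6 : nf (Pᴴ * (P * Y)) ≤ nf (P * Y) := by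
    exact (le_abs_self _).trans (abs_le_of_sq_le_sq h1 (nf_nonneg _))
  rw [← nf_sq] at h3 ⊢
  rw [← nf_sq]
  have h7 := nf_nonneg (P * Y)
  have h8 := nf_nonneg Y
  have h9 : nf (P * Y) * nf (P * Y) ≤ nf (P * Y) * nf Y := by
    nlinarith [mul_le_mul_of_nonneg_right h6 h8]
  rcases eq_or_lt_of_le h7 with h10 | h10
  · rw [← h10, zero_pow two_ne_zero]
    exact sq_nonneg _
  · have h11 := le_of_mul_le_mul_left h9 h10
    exact pow_le_pow_left₀ h7 h11 2

/-- `tr |M Y|^p ≤ (1 - p/2) tr |M|^(2/a) + (p/2) |Y|₂²`, `p = 2/(1+a)`.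
Proof: `LibSchP.young` for `X = (M Y)ᴴ`, `M Mᴴ = ud W κ`, `b = (κ + ε)^(1/a)`, so that
`b^(1-2/p) = (κ+ε)⁻¹`; `tr Yᴴ Mᴴ (M Mᴴ + ε)⁻¹ M Y ≤ fr Y`; then `ε → 0`
(`∑ (κ_i + ε)^(1/a)` is continuous in `ε`).  `pw p Xᴴ = pw p X`: `LibSch` file `Star`. -/
theorem young_p {l m n : Type} [Fintype l] [DecidableEq l] [Fintype m] [DecidableEq m] [Fintype n]
    [DecidableEq n] {a p : ℝ} (h0 : 0 < a) (hp : p = 2 / (1 + a)) (M : Matrix l m ℂ)
    (Y : Matrix m n ℂ) :
    LibSch.pw p (M * Y) ≤ (1 - p / 2) * LibSch.pw (2 / a) M + p / 2 * fr Y := by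
  have h1a : 0 < 1 + a := by linarith
  have hp0 : 0 < p := by rw [hp]; positivity
  have hp2 : p < 2 := by
    rw [hp, div_lt_iff₀ h1a]
    linarith
  have hpa : 1 - 2 / p = -a := by
    rw [hp]
    field_simp
    ring
  obtain ⟨W, hW, κ, hκ, hWκ⟩ := ud_exists_nonneg (M * Mᴴ) (posSemidef_self_mul_conjTranspose M)
  have hMpw : LibSch.pw (2 / a) M = ∑ i, κ i ^ (1 / a) := by
    rw [← LibSch.pw_conjTranspose (2 / a) (by positivity) M,
      pw_ud (2 / a) Mᴴ W hW κ (by rw [conjTranspose_conjTranspose]; exact hWκ)]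
    refine Finset.sum_congr rfl fun i _ => ?_
    congr 1
    ring
  have key : ∀ ε : ℝ, 0 < ε →
      LibSch.pw p (M * Y) ≤ (1 - p / 2) * ∑ i, (κ i + ε) ^ (1 / a) + p / 2 * fr Y := by
    intro ε hε
    have hκε : ∀ i, 0 < κ i + ε := fun i => by linarith [hκ i]
    have hy := young p hp0 hp2 (M * Y)ᴴ W hW (fun i => (κ i + ε) ^ (1 / a))
      (fun i => Real.rpow_pos_of_pos (hκε i) _)
    rw [LibSch.pw_conjTranspose p hp0 (M * Y), conjTranspose_conjTranspose] at hy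
    have e1 : (fun i => ((κ i + ε) ^ (1 / a)) ^ (1 - 2 / p)) = fun i => (κ i + ε)⁻¹ := by
      funext i
      rw [hpa, ← Real.rpow_mul (hκε i).le]
      have : 1 / a * -a = -1 := by field_simp
      rw [this, Real.rpow_neg_one]
    rw [e1] at hy
    -- the contraction
    have hcontr : (trace (M * Y * (M * Y)ᴴ * ud W fun i => (κ i + ε)⁻¹)).re ≤ fr Y := by
      have hs : (ud W fun i => √((κ i + ε)⁻¹)) * (ud W fun i => √((κ i + ε)⁻¹)) =
          ud W fun i => (κ i + ε)⁻¹ := by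
        rw [ud_mul W hW]
        congr 1
        funext i
        exact Real.mul_self_sqrt (inv_nonneg.2 (hκε i).le)
      have h2 := G1a_contr W hW (fun i => κ i * (κ i + ε)⁻¹) (fun i => by
        rw [← div_eq_mul_inv, div_le_one (hκε i)]
        linarith) ((ud W fun i => √((κ i + ε)⁻¹)) * M) (by
        rw [conjTranspose_mul, G1a_ud_conj]
        have : (ud W fun i => √((κ i + ε)⁻¹)) * M * (Mᴴ * ud W fun i => √((κ i + ε)⁻¹)) =
            (ud W fun i => √((κ i + ε)⁻¹)) * (M * Mᴴ) * ud W fun i => √((κ i + ε)⁻¹) := by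
          simp only [Matrix.mul_assoc]
        rw [this, hWκ, ud_mul W hW, ud_mul W hW]
        congr 1
        funext i
        have h3 : √((κ i + ε)⁻¹) * √((κ i + ε)⁻¹) = (κ i + ε)⁻¹ :=
          Real.mul_self_sqrt (inv_nonneg.2 (hκε i).le)
        calc √((κ i + ε)⁻¹) * κ i * √((κ i + ε)⁻¹)
            = κ i * (√((κ i + ε)⁻¹) * √((κ i + ε)⁻¹)) := by ring
          _ = κ i * (κ i + ε)⁻¹ := by rw [h3]) Y
      refine le_trans (le_of_eq ?_) h2
      rw [fr_eq_trace]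
      congr 1
      rw [← hs]
      have hQ := G1a_ud_conj W fun i => √((κ i + ε)⁻¹)
      exact G1a_cyc M Y _ hQ
    have h7 : p / 2 * (trace (M * Y * (M * Y)ᴴ * ud W fun i => (κ i + ε)⁻¹)).re ≤ p / 2 * fr Y :=
      mul_le_mul_of_nonneg_left hcontr (by positivity)
    linarith
  rw [hMpw]
  have hlim : Filter.Tendsto (fun ε : ℝ => (1 - p / 2) * ∑ i, (κ i + ε) ^ (1 / a) + p / 2 * fr Y)
      (nhdsWithin 0 (Set.Ioi 0)) (nhds ((1 - p / 2) * ∑ i, (κ i + 0) ^ (1 / a) + p / 2 * fr Y)) := by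
    have hc : Continuous fun ε : ℝ => (1 - p / 2) * ∑ i, (κ i + ε) ^ (1 / a) + p / 2 * fr Y := by
      refine (continuous_const.mul (continuous_finsetSum _ fun i _ => ?_)).add continuous_const
      exact (continuous_const.add continuous_id).rpow_const fun x => Or.inr (by positivity)
    exact (hc.tendsto 0).mono_left nhdsWithin_le_nhds
  simp only [add_zero] at hlim
  refine ge_of_tendsto hlim ?_
  filter_upwards [self_mem_nhdsWithin] with ε hε
  exact key ε hε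

/-- `fr (ud W (μ^a) * S) = ⟨S, E^(2a) S⟩` -/
theorem fr_root {m n : Type} [Fintype m] [DecidableEq m] [Fintype n] (a : ℝ)
    (W : Matrix (m ⊕ m) (m ⊕ m) ℂ) (hW : W ∈ unitaryGroup (m ⊕ m) ℂ) (μ : m ⊕ m → ℝ)
    (hμ : ∀ i, 0 ≤ μ i) (A B : Matrix m n ℂ) :
    fr (ud W (fun i => μ i ^ a) * fromRows A B) = cE W (fun i => μ i ^ (2 * a)) A B := by
  unfold cE
  rw [fr_eq_trace]
  congr 2
  rw [conjTranspose_mul, G1a_ud_conj]
  have h1 : (ud W fun i => μ i ^ (2 * a)) = (ud W fun i => μ i ^ a) * ud W fun i => μ i ^ a := by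
    rw [ud_mul W hW]
    congr 1
    funext i
    rw [mul_comm 2 a, Real.rpow_mul (hμ i), Real.rpow_two, pow_two]
  rw [h1]
  simp only [Matrix.mul_assoc]

/-- the columns of `M * blk A B` -/
theorem fr_mul_blk {N : ℕ} {l m : Type} [Fintype l] [Fintype m]
    [DecidableEq m] (M : Matrix l (m ⊕ m) ℂ) (A B : Fin N → Matrix m m ℂ) :
    fr (M * LibSch.blk A B) = ∑ k, fr (M * fromRows (A k) (B k)) := by
  unfold fr
  rw [Finset.sum_comm]
  rw [Fintype.sum_sigma]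
  refine Finset.sum_congr rfl fun k _ => ?_
  rw [Finset.sum_comm]
  refine Finset.sum_congr rfl fun i _ => Finset.sum_congr rfl fun c _ => ?_
  congr 2
  rw [Matrix.mul_apply, Matrix.mul_apply]
  refine Finset.sum_congr rfl fun r _ => ?_
  congr 1
  cases r <;> rfl

end Pool.Agent.LibSchG
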