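import Pool.Agent.LibSchG.G0

/-! **G1b.**  Continuity and homogeneity of `pw`. -/

open Matrix
open scoped ComplexOrder

namespace Pool.Agent.LibSchG

open Pool.Agent.LibSchP Pool.Agent.LibSchA

/-- for `p < 2`: `LibSchP.pw_cont`; (`Metric.continuous_iff` as in `LibSchP.pw_continuous`) -/
theorem continuous_pw {m n : Type} [Fintype m] [DecidableEq m] [Fintype n] [DecidableEq n]
    (p : ℝ) (h0 : 0 < p) (h2 : p < 2) : Continuous fun T : Matrix m n ℂ => LibSch.pw p T := by
  rw [continuous_iff_continuousAt]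
  intro T₀
  rw [ContinuousAt, Metric.tendsto_nhds]
  intro ε hε
  obtain ⟨C, hC, hcont⟩ := pw_cont (m := m) (n := n) p h0 h2 (ε / 2) (by linarith)
  have hM : Continuous fun T : Matrix m n ℂ => Tᴴ * T - T₀ᴴ * T₀ :=
    (continuous_id.matrix_conjTranspose.matrix_mul continuous_id).sub continuous_const
  have hfr : Continuous fun T : Matrix m n ℂ => C * fr (Tᴴ * T - T₀ᴴ * T₀) := by
    unfold fr
    refine continuous_const.mul (continuous_finsetSum _ fun i _ =>
      continuous_finsetSum _ fun j _ => ?_)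
    exact (hM.matrix_elem i j).norm.pow 2
  have h3 := hfr.tendsto T₀
  rw [Metric.tendsto_nhds] at h3
  filter_upwards [h3 (ε / 2) (by linarith)] with T hT
  rw [Real.dist_eq, sub_self, t2_fr_zero, mul_zero, sub_zero] at hT
  have h4 := le_abs_self (C * fr (Tᴴ * T - T₀ᴴ * T₀))
  have h5 := hcont T T₀
  rw [Real.dist_eq]
  linarith

/-- eigenvalues of `(t T)ᴴ (t T) = t² Tᴴ T` (`LibSchP.pw_ud`) -/
theorem pw_smul' {m n : Type} [Fintype m] [DecidableEq m] [Fintype n] [DecidableEq n]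
    (p : ℝ) (hp : 0 < p) (t : ℝ) (ht : 0 ≤ t) (T : Matrix m n ℂ) :
    LibSch.pw p ((t : ℂ) • T) = t ^ p * LibSch.pw p T := by
  obtain ⟨V, hV, z, hz, hVz⟩ := ud_exists_nonneg (Tᴴ * T) (posSemidef_conjTranspose_mul_self T)
  have h1 : ((t : ℂ) • T)ᴴ * ((t : ℂ) • T) = ud V fun k => t ^ 2 * z k := by
    rw [conjTranspose_smul, Matrix.smul_mul, Matrix.mul_smul, smul_smul, hVz]
    have h2 : (star (t : ℂ)) * (t : ℂ) = ((t ^ 2 : ℝ) : ℂ) := by
      rw [Complex.star_def, Complex.conj_ofReal]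
      push_cast
      ring
    rw [h2]
    unfold ud
    have h3 : dg (fun k => t ^ 2 * z k) = ((t ^ 2 : ℝ) : ℂ) • dg z := by
      unfold dg
      ext i j
      rw [Matrix.smul_apply, diagonal_apply, diagonal_apply]
      split_ifs
      · push_cast
        rw [smul_eq_mul]
      · rw [smul_zero]
    rw [h3, Matrix.mul_smul, Matrix.smul_mul]
  rw [pw_ud p _ V hV _ h1, pw_ud p T V hV z hVz, Finset.mul_sum]
  refine Finset.sum_congr rfl fun k _ => ?_
  rw [Real.mul_rpow (sq_nonneg t) (hz k)]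
  congr 1
  rw [← Real.rpow_natCast t 2, ← Real.rpow_mul ht]
  congr 1
  push_cast
  ring

theorem sn_smul' {m n : Type} [Fintype m] [DecidableEq m] [Fintype n] [DecidableEq n]
    (p : ℝ) (hp : 0 < p) (t : ℝ) (ht : 0 ≤ t) (T : Matrix m n ℂ) :
    LibSch.sn p ((t : ℂ) • T) = t * LibSch.sn p T := by
  unfold LibSch.sn
  rw [pw_smul' p hp t ht T, Real.mul_rpow (Real.rpow_nonneg ht p) (LibSch.pw_nonneg p T),
    ← Real.rpow_mul ht, mul_one_div_cancel hp.ne', Real.rpow_one]

theorem pw_eq_zero' {m n : Type} [Fintype m] [DecidableEq m] [Fintype n] [DecidableEq n]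
    (p : ℝ) (hp : 0 < p) (T : Matrix m n ℂ) : LibSch.pw p T = 0 ↔ T = 0 := by
  obtain ⟨V, hV, z, hz, hVz⟩ := ud_exists_nonneg (Tᴴ * T) (posSemidef_conjTranspose_mul_self T)
  rw [pw_ud p T V hV z hVz]
  constructor
  · intro h
    rw [Finset.sum_eq_zero_iff_of_nonneg (fun k _ => Real.rpow_nonneg (hz k) _)] at h
    have h1 : z = fun _ => 0 := by
      funext k
      have h2 := h k (Finset.mem_univ k)
      rcases (Real.rpow_eq_zero_iff_of_nonneg (hz k)).1 h2 with h3
      exact h3.1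
    rw [← conjTranspose_mul_self_eq_zero, hVz, h1]
    unfold ud dg
    simp
  · intro h
    have h1 : ud V z = ud V (fun _ => (0:ℝ)) := by
      rw [← hVz, h]
      unfold ud dg
      simp
    have h2 := ud_fun V V hV hV z (fun _ => (0:ℝ)) h1 (fun x => x)
    have h3 : dg z = dg (fun _ : n => (0:ℝ)) := by
      have h4 : Vᴴ * ud V z * V = Vᴴ * ud V (fun _ => (0:ℝ)) * V := by rw [h1]
      rwa [a2_back V hV, a2_back V hV] at h4
    refine Finset.sum_eq_zero fun k _ => ?_
    have h4 := congrFun (congrFun h3 k) k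
    unfold dg at h4
    rw [diagonal_apply_eq, diagonal_apply_eq] at h4
    have h5 : z k = 0 := by exact_mod_cast h4
    rw [h5, Real.zero_rpow (by linarith)]

end Pool.Agent.LibSchG
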