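import Pool.Agent.LibSchG.G1b

/-! **G1c.**  Existence of a minimiser. -/

open Matrix
open scoped ComplexOrder

namespace Pool.Agent.LibSchG

open Pool.Agent.LibSchP Pool.Agent.LibSchA

private abbrev G1cE (N : ℕ) (m : Type) : Type := Fin 2 → Fin N → m → m → ℂ

private noncomputable def G1cF {N : ℕ} {m : Type} [Fintype m] [DecidableEq m] (p : ℝ)
    (x : G1cE N m) : ℝ :=
  LibSch.pw p (LibSch.blk (n := fun _ : Fin N => m) (fun k => (Matrix.of (x 0 k) : Matrix m m ℂ))
    (fun k => (Matrix.of (x 1 k) : Matrix m m ℂ)))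

private noncomputable def G1cG {N : ℕ} {m : Type} [Fintype m] [DecidableEq m] (p : ℝ)
    (x : G1cE N m) : ℝ :=
  LibSch.pw p (LibSch.comp (n := fun _ : Fin N => m) p
    (fun k => (Matrix.of (x 0 k) : Matrix m m ℂ))
    (fun k => (Matrix.of (x 1 k) : Matrix m m ℂ)))

private theorem G1c_sn_nonneg {m n : Type} [Fintype m] [Fintype n] [DecidableEq n] (p : ℝ)
    (T : Matrix m n ℂ) : 0 ≤ LibSch.sn p T := by
  unfold LibSch.sn
  apply Real.rpow_nonneg
  unfold LibSch.pw
  refine Finset.sum_nonneg fun j _ => Real.rpow_nonneg ?_ _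
  exact (Matrix.posSemidef_conjTranspose_mul_self T).eigenvalues_nonneg j

private theorem G1c_pw_nonneg {m n : Type} [Fintype m] [Fintype n] [DecidableEq n] (p : ℝ)
    (T : Matrix m n ℂ) : 0 ≤ LibSch.pw p T := by
  unfold LibSch.pw
  refine Finset.sum_nonneg fun j _ => Real.rpow_nonneg ?_ _
  exact (Matrix.posSemidef_conjTranspose_mul_self T).eigenvalues_nonneg j

private theorem G1c_F_cont {N : ℕ} {m : Type} [Fintype m] [DecidableEq m] (p : ℝ) (h1 : 1 < p)
    (h2 : p < 2) : Continuous (G1cF (N := N) (m := m) p) := by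
  unfold G1cF
  refine (continuous_pw p (by linarith) h2).comp ?_
  refine continuous_matrix ?_
  rintro i ⟨k, j⟩
  rcases i with i | i
  · show Continuous fun x : G1cE N m => x 0 k i j
    fun_prop
  · show Continuous fun x : G1cE N m => x 1 k i j
    fun_prop

private theorem G1c_sn_cont {N : ℕ} {m : Type} [Fintype m] [DecidableEq m] (p : ℝ) (h1 : 1 < p)
    (h2 : p < 2) (a : Fin 2) (k : Fin N) :
    Continuous fun x : G1cE N m => LibSch.sn p (Matrix.of (x a k) : Matrix m m ℂ) := by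
  unfold LibSch.sn
  refine Continuous.rpow_const ?_ (fun x => Or.inr (by positivity))
  refine (continuous_pw p (by linarith) h2).comp ?_
  refine continuous_matrix ?_
  intro i j
  show Continuous fun x : G1cE N m => x a k i j
  fun_prop

private theorem G1c_G_cont {N : ℕ} {m : Type} [Fintype m] [DecidableEq m] (p : ℝ) (h1 : 1 < p)
    (h2 : p < 2) : Continuous (G1cG (N := N) (m := m) p) := by
  unfold G1cG
  refine (continuous_pw p (by linarith) h2).comp ?_
  refine continuous_matrix ?_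
  intro i k
  fin_cases i
  · show Continuous fun x : G1cE N m =>
      ((LibSch.sn p (Matrix.of (x 0 k) : Matrix m m ℂ) : ℝ) : ℂ)
    exact Complex.continuous_ofReal.comp (G1c_sn_cont p h1 h2 0 k)
  · show Continuous fun x : G1cE N m =>
      ((LibSch.sn p (Matrix.of (x 1 k) : Matrix m m ℂ) : ℝ) : ℂ)
    exact Complex.continuous_ofReal.comp (G1c_sn_cont p h1 h2 1 k)

private theorem G1c_F_smul {N : ℕ} {m : Type} [Fintype m] [DecidableEq m] (p : ℝ) (h1 : 1 < p)
    (t : ℝ) (ht : 0 ≤ t) (x : G1cE N m) : G1cF p (t • x) = t ^ p * G1cF p x := by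
  unfold G1cF
  rw [← pw_smul' p (by linarith) t ht]
  congr 1
  ext i ⟨k, j⟩
  rcases i with i | i
  · show ((t • x) 0 k i j) = (t : ℂ) • (x 0 k i j)
    simp
  · show ((t • x) 1 k i j) = (t : ℂ) • (x 1 k i j)
    simp

private theorem G1c_G_smul {N : ℕ} {m : Type} [Fintype m] [DecidableEq m] (p : ℝ) (h1 : 1 < p)
    (t : ℝ) (ht : 0 ≤ t) (x : G1cE N m) : G1cG p (t • x) = t ^ p * G1cG p x := by
  unfold G1cG
  rw [← pw_smul' p (by linarith) t ht]
  congr 1
  have key : ∀ (a : Fin 2) (k : Fin N), LibSch.sn p (Matrix.of ((t • x) a k) : Matrix m m ℂ) =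
      t * LibSch.sn p (Matrix.of (x a k) : Matrix m m ℂ) := by
    intro a k
    rw [← sn_smul' p (by linarith) t ht]
    congr 1
  ext i k
  fin_cases i
  · show ((LibSch.sn p (Matrix.of ((t • x) 0 k) : Matrix m m ℂ) : ℝ) : ℂ) =
      (t : ℂ) • ((LibSch.sn p (Matrix.of (x 0 k) : Matrix m m ℂ) : ℝ) : ℂ)
    rw [key]
    push_cast
    rfl
  · show ((LibSch.sn p (Matrix.of ((t • x) 1 k) : Matrix m m ℂ) : ℝ) : ℂ) =
      (t : ℂ) • ((LibSch.sn p (Matrix.of (x 1 k) : Matrix m m ℂ) : ℝ) : ℂ)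
    rw [key]
    push_cast
    rfl

private theorem G1c_F_pos {N : ℕ} {m : Type} [Fintype m] [DecidableEq m] (p : ℝ) (h1 : 1 < p)
    (x : G1cE N m) (hx : x ≠ 0) : 0 < G1cF p x := by
  refine lt_of_le_of_ne (G1c_pw_nonneg p _) ?_
  intro h0
  apply hx
  unfold G1cF at h0
  have h3 := (pw_eq_zero' p (by linarith) _).1 h0.symm
  funext a k i j
  fin_cases a
  · exact congrFun (congrFun h3 (Sum.inl i)) ⟨k, j⟩
  · exact congrFun (congrFun h3 (Sum.inr i)) ⟨k, j⟩

private theorem G1c_G_pos {N : ℕ} {m : Type} [Fintype m] [DecidableEq m] (p : ℝ) (h1 : 1 < p)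
    (x : G1cE N m) (hx : x ≠ 0) : 0 < G1cG p x := by
  refine lt_of_le_of_ne (G1c_pw_nonneg p _) ?_
  intro h0
  apply hx
  unfold G1cG at h0
  have h3 := (pw_eq_zero' p (by linarith) _).1 h0.symm
  have key : ∀ (a : Fin 2) (k : Fin N),
      LibSch.sn p (Matrix.of (x a k) : Matrix m m ℂ) = 0 → x a k = 0 := by
    intro a k h4
    have h5 : LibSch.pw p (Matrix.of (x a k) : Matrix m m ℂ) = 0 := by
      unfold LibSch.sn at h4
      exact (Real.rpow_eq_zero (G1c_pw_nonneg p _) (by positivity)).1 h4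
    have h6 := (pw_eq_zero' p (by linarith) _).1 h5
    funext i j
    exact congrFun (congrFun h6 i) j
  funext a k
  fin_cases a
  · apply key 0 k
    have h7 := congrFun (congrFun h3 (0 : Fin 2)) k
    exact Complex.ofReal_eq_zero.1 h7
  · apply key 1 k
    have h7 := congrFun (congrFun h3 (1 : Fin 2)) k
    exact Complex.ofReal_eq_zero.1 h7

/-- **existence of a minimiser** -/
theorem exists_min {N : ℕ} {m : Type} [Fintype m] [DecidableEq m] (p : ℝ) (h1 : 1 < p)
    (h2 : p < 2) (A₀ B₀ : Fin N → Matrix m m ℂ)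
    (h : LibSch.pw p (LibSch.blk A₀ B₀) < LibSch.pw p (LibSch.comp p A₀ B₀)) :
    ∃ (A B : Fin N → Matrix m m ℂ) (ρ : ℝ), 0 < ρ ∧ ρ < 1 ∧
      0 < LibSch.pw p (LibSch.comp p A B) ∧
      LibSch.pw p (LibSch.blk A B) = ρ * LibSch.pw p (LibSch.comp p A B) ∧
      ∀ A' B' : Fin N → Matrix m m ℂ,
        ρ * LibSch.pw p (LibSch.comp p A' B') ≤ LibSch.pw p (LibSch.blk A' B') := by
  have hp0 : 0 < p := by linarith
  let mk : (Fin N → Matrix m m ℂ) → (Fin N → Matrix m m ℂ) → G1cE N m :=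
    fun A B a k i j => if a = 0 then A k i j else B k i j
  have hF : ∀ A B, G1cF p (mk A B) = LibSch.pw p (LibSch.blk A B) := fun A B => rfl
  have hG : ∀ A B, G1cG p (mk A B) = LibSch.pw p (LibSch.comp p A B) := fun A B => rfl
  have hF0 : G1cF p (0 : G1cE N m) = 0 := by
    have := G1c_F_smul p h1 0 le_rfl (0 : G1cE N m)
    rw [zero_smul, Real.zero_rpow (by linarith), zero_mul] at this
    exact this
  have hG0 : G1cG p (0 : G1cE N m) = 0 := by
    have := G1c_G_smul p h1 0 le_rfl (0 : G1cE N m)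
    rw [zero_smul, Real.zero_rpow (by linarith), zero_mul] at this
    exact this
  have hx0 : mk A₀ B₀ ≠ 0 := by
    intro h3
    rw [← hF, ← hG, h3, hF0, hG0] at h
    exact lt_irrefl _ h
  have hnorm : 0 < ‖mk A₀ B₀‖ := norm_pos_iff.2 hx0
  obtain ⟨u, hu, hmin⟩ := (isCompact_sphere (0 : G1cE N m) 1).exists_isMinOn
    (f := fun x => G1cF p x / G1cG p x)
    ⟨(‖mk A₀ B₀‖)⁻¹ • mk A₀ B₀, by
      rw [mem_sphere_zero_iff_norm, norm_smul, norm_inv, norm_norm, inv_mul_cancel₀ hnorm.ne']⟩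
    (by
      intro x hx
      have hx' : x ≠ 0 := by
        rintro rfl
        simp at hx
      exact ((G1c_F_cont p h1 h2).continuousAt.div (G1c_G_cont p h1 h2).continuousAt
        (G1c_G_pos p h1 x hx').ne').continuousWithinAt)
  have hu0 : u ≠ 0 := by
    rintro rfl
    simp at hu
  have hFu := G1c_F_pos p h1 u hu0
  have hGu := G1c_G_pos p h1 u hu0
  have hall : ∀ x : G1cE N m, G1cF p u / G1cG p u * G1cG p x ≤ G1cF p x := by
    intro x
    by_cases hx : x = 0
    · rw [hx, hF0, hG0, mul_zero]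
    · have hn : 0 < ‖x‖ := norm_pos_iff.2 hx
      have hs : (‖x‖)⁻¹ • x ∈ Metric.sphere (0 : G1cE N m) 1 := by
        rw [mem_sphere_zero_iff_norm, norm_smul, norm_inv, norm_norm, inv_mul_cancel₀ hn.ne']
      have h5 : G1cF p u / G1cG p u ≤ G1cF p ((‖x‖)⁻¹ • x) / G1cG p ((‖x‖)⁻¹ • x) := hmin hs
      rw [G1c_F_smul p h1 _ (by positivity), G1c_G_smul p h1 _ (by positivity),
        mul_div_mul_left _ _ (by positivity)] at h5
      rwa [le_div_iff₀ (G1c_G_pos p h1 x hx)] at h5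
  refine ⟨fun k => Matrix.of (u 0 k), fun k => Matrix.of (u 1 k), G1cF p u / G1cG p u,
    div_pos hFu hGu, ?_, hGu, ?_, fun A' B' => hall (mk A' B')⟩
  · have h6 := hall (mk A₀ B₀)
    have h7 := G1c_G_pos p h1 _ hx0
    rw [← hF, ← hG] at h
    by_contra hcon
    push Not at hcon
    nlinarith [mul_le_mul_of_nonneg_right hcon h7.le]
  · exact (div_mul_cancel₀ _ hGu.ne').symm

end Pool.Agent.LibSchG
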