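import Pool.Agent.LibSchG.G0

/-! **G3.**  The derivative of `FF r` along `m + t v vᵀ`, `m = R diag(x, z) Rᵀ`, `v = X u₁ + Z u₂`. -/

open Matrix
open scoped ComplexOrder

namespace Pool.Agent.LibSchG

open Pool.Agent.LibSchP Pool.Agent.LibSchA

/-- `LibSch.hasDerivAt_FF` (or directly: at `t = 0` the eigenvalues `lamP`, `lamM` of the matrix are
`x > z > 0`, the square root `√((x₁₁-x₂₂)² + 4x₁₂²)` is `x - z > 0`, and the derivatives of
`lamP`, `lamM` are `X²`, `Z²`; use `c² + s² = 1`). -/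
theorem deriv_col {r c s x z X Z : ℝ} (hc : 0 < c) (hs : 0 < s) (hcs : c ^ 2 + s ^ 2 = 1)
    (hz : 0 < z) (hzx : z < x) :
    HasDerivAt (fun t : ℝ => LibSch.FF r (c ^ 2 * x + s ^ 2 * z + t * (c * X - s * Z) ^ 2)
      (s ^ 2 * x + c ^ 2 * z + t * (s * X + c * Z) ^ 2)
      (c * s * (x - z) + t * ((c * X - s * Z) * (s * X + c * Z))))
      (r * (X ^ 2 * x ^ (r - 1) + Z ^ 2 * z ^ (r - 1))) 0 := by
  have hx : 0 < x := hz.trans hzx
  have hd : 0 < x - z := sub_pos.mpr hzx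
  have hlin : ∀ u v : ℝ, HasDerivAt (fun t : ℝ => u + t * v) v 0 := by
    intro u v
    have h1 := ((hasDerivAt_id (0 : ℝ)).mul_const v).const_add u
    simpa using h1
  have hw : 0 < c * s * (x - z) + 0 * ((c * X - s * Z) * (s * X + c * Z)) := by
    rw [zero_mul, add_zero]; positivity
  have hg0 : 0 < c ^ 2 * x + s ^ 2 * z + 0 * (c * X - s * Z) ^ 2 := by
    rw [zero_mul, add_zero]; positivity
  have hh0 : 0 < s ^ 2 * x + c ^ 2 * z + 0 * (s * X + c * Z) ^ 2 := by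
    rw [zero_mul, add_zero]; positivity
  have hdet : (c * s * (x - z) + 0 * ((c * X - s * Z) * (s * X + c * Z))) ^ 2 <
      (c ^ 2 * x + s ^ 2 * z + 0 * (c * X - s * Z) ^ 2) *
        (s ^ 2 * x + c ^ 2 * z + 0 * (s * X + c * Z) ^ 2) := by
    have h1 : (c ^ 2 * x + s ^ 2 * z + 0 * (c * X - s * Z) ^ 2) *
        (s ^ 2 * x + c ^ 2 * z + 0 * (s * X + c * Z) ^ 2) -
        (c * s * (x - z) + 0 * ((c * X - s * Z) * (s * X + c * Z))) ^ 2 =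
        (c ^ 2 + s ^ 2) ^ 2 * (x * z) := by ring
    rw [hcs] at h1
    have h2 : 0 < x * z := mul_pos hx hz
    linarith
  refine (LibSch.hasDerivAt_FF r 0 (fun t => c ^ 2 * x + s ^ 2 * z + t * (c * X - s * Z) ^ 2)
    (fun t => s ^ 2 * x + c ^ 2 * z + t * (s * X + c * Z) ^ 2)
    (fun t => c * s * (x - z) + t * ((c * X - s * Z) * (s * X + c * Z))) _ _ _ hw hdet hg0 hh0
    (hlin _ _) (hlin _ _) (hlin _ _)).congr_deriv ?_
  have hrad : √((c ^ 2 * x + s ^ 2 * z + 0 * (c * X - s * Z) ^ 2 -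
      (s ^ 2 * x + c ^ 2 * z + 0 * (s * X + c * Z) ^ 2)) ^ 2 +
      4 * (c * s * (x - z) + 0 * ((c * X - s * Z) * (s * X + c * Z))) ^ 2) = x - z := by
    have h1 : (c ^ 2 * x + s ^ 2 * z + 0 * (c * X - s * Z) ^ 2 -
      (s ^ 2 * x + c ^ 2 * z + 0 * (s * X + c * Z) ^ 2)) ^ 2 +
      4 * (c * s * (x - z) + 0 * ((c * X - s * Z) * (s * X + c * Z))) ^ 2 =
      (c ^ 2 + s ^ 2) ^ 2 * (x - z) ^ 2 := by ring
    rw [h1, hcs, one_pow, one_mul]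
    exact Real.sqrt_sq hd.le
  have hsum : c ^ 2 * x + s ^ 2 * z + 0 * (c * X - s * Z) ^ 2 +
      (s ^ 2 * x + c ^ 2 * z + 0 * (s * X + c * Z) ^ 2) = x + z := by
    have h1 : c ^ 2 * x + s ^ 2 * z + 0 * (c * X - s * Z) ^ 2 +
      (s ^ 2 * x + c ^ 2 * z + 0 * (s * X + c * Z) ^ 2) = (c ^ 2 + s ^ 2) * (x + z) := by ring
    rw [h1, hcs, one_mul]
  have hP1 : LibSch.lamP (c ^ 2 * x + s ^ 2 * z + 0 * (c * X - s * Z) ^ 2)
      (s ^ 2 * x + c ^ 2 * z + 0 * (s * X + c * Z) ^ 2)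
      (c * s * (x - z) + 0 * ((c * X - s * Z) * (s * X + c * Z))) = x := by
    unfold LibSch.lamP
    rw [hrad, hsum]; ring
  have hM1 : LibSch.lamM (c ^ 2 * x + s ^ 2 * z + 0 * (c * X - s * Z) ^ 2)
      (s ^ 2 * x + c ^ 2 * z + 0 * (s * X + c * Z) ^ 2)
      (c * s * (x - z) + 0 * ((c * X - s * Z) * (s * X + c * Z))) = z := by
    unfold LibSch.lamM
    rw [hrad, hsum]; ring
  have hquot : ((c ^ 2 * x + s ^ 2 * z + 0 * (c * X - s * Z) ^ 2 -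
      (s ^ 2 * x + c ^ 2 * z + 0 * (s * X + c * Z) ^ 2)) *
      ((c * X - s * Z) ^ 2 - (s * X + c * Z) ^ 2) +
      4 * (c * s * (x - z) + 0 * ((c * X - s * Z) * (s * X + c * Z))) *
      ((c * X - s * Z) * (s * X + c * Z))) / (x - z) = X ^ 2 - Z ^ 2 := by
    rw [div_eq_iff hd.ne']
    have h1 : (c ^ 2 * x + s ^ 2 * z + 0 * (c * X - s * Z) ^ 2 -
      (s ^ 2 * x + c ^ 2 * z + 0 * (s * X + c * Z) ^ 2)) *
      ((c * X - s * Z) ^ 2 - (s * X + c * Z) ^ 2) +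
      4 * (c * s * (x - z) + 0 * ((c * X - s * Z) * (s * X + c * Z))) *
      ((c * X - s * Z) * (s * X + c * Z)) = (c ^ 2 + s ^ 2) ^ 2 * ((X ^ 2 - Z ^ 2) * (x - z)) := by
      ring
    rw [h1, hcs, one_pow, one_mul]
  have hsum2 : (c * X - s * Z) ^ 2 + (s * X + c * Z) ^ 2 = X ^ 2 + Z ^ 2 := by
    have h1 : (c * X - s * Z) ^ 2 + (s * X + c * Z) ^ 2 = (c ^ 2 + s ^ 2) * (X ^ 2 + Z ^ 2) := by
      ring
    rw [h1, hcs, one_mul]
  unfold LibSch.D1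
  rw [hP1, hM1]
  unfold LibSch.hP LibSch.hM
  rw [hrad, hquot, hsum2]
  ring

end Pool.Agent.LibSchG
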