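import Pool.Agent.LibSchG.G1a
import Pool.Agent.LibSchG.G1b

/-! **G4a.**  The column `Y = P^(-1/2) T`, `P = (T Tᴴ)^(1 - p/2)`, also for singular `T Tᴴ`
(in Lean `0 ^ (negative) = 0`). -/

open Matrix
open scoped ComplexOrder

namespace Pool.Agent.LibSchG

open Pool.Agent.LibSchP Pool.Agent.LibSchA

variable {l n : Type} [Fintype l] [DecidableEq l] [Fintype n]

theorem G4a_trace_ud (W : Matrix l l ℂ) (hW : W ∈ unitaryGroup l ℂ) (x : l → ℝ) :
    (trace (ud W x)).re = ∑ i, x i := by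
  unfold ud
  rw [Matrix.mul_assoc, trace_mul_comm, Matrix.mul_assoc, a2_uu W hW, Matrix.mul_one]
  unfold dg
  rw [trace_diagonal, Complex.re_sum]
  simp

/-- If `T Tᴴ = ud W ν` then the rows of `Wᴴ T` with `ν i = 0` vanish (the diagonal entry
`(Wᴴ T Tᴴ W)_ii = ν i` is the squared norm of the row). -/
theorem row_zero (T : Matrix l n ℂ) (W : Matrix l l ℂ) (hW : W ∈ unitaryGroup l ℂ) (ν : l → ℝ)
    (hT : T * Tᴴ = ud W ν) (i : l) (hi : ν i = 0) (j : n) : (Wᴴ * T) i j = 0 := by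
  have h1 : (Wᴴ * T) * (Wᴴ * T)ᴴ = dg ν := by
    rw [conjTranspose_mul, conjTranspose_conjTranspose, ← a2_back W hW ν, ← hT]
    simp only [Matrix.mul_assoc]
  have h2 := congrFun (congrFun h1 i) i
  rw [mul_apply] at h2
  unfold dg at h2
  rw [diagonal_apply_eq, hi] at h2
  have h3 : ∑ j, ‖(Wᴴ * T) i j‖ ^ 2 = 0 := by
    have h4 : ((∑ j, ‖(Wᴴ * T) i j‖ ^ 2 : ℝ) : ℂ) = 0 := by
      rw [Complex.ofReal_zero] at h2
      rw [← h2]
      push_cast
      refine Finset.sum_congr rfl fun j _ => ?_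
      rw [conjTranspose_apply, Complex.star_def, Complex.mul_conj, Complex.normSq_eq_norm_sq]
      push_cast
      ring
    exact_mod_cast h4
  have h5 := (Finset.sum_eq_zero_iff_of_nonneg (fun j _ => by positivity)).1 h3 j
    (Finset.mem_univ j)
  have h6 : ‖(Wᴴ * T) i j‖ = 0 := by
    rcases pow_eq_zero_iff (two_ne_zero) |>.1 h5 with h
    exact h
  exact norm_eq_zero.1 h6

/-- `P^(1/2) P^(-1/2) T = T`: `ud W f * ud W g * T = T` if `f i * g i = 1` whenever `ν i ≠ 0`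
(`ud_mul`, `row_zero`). -/
theorem ud_ud_mul (T : Matrix l n ℂ) (W : Matrix l l ℂ) (hW : W ∈ unitaryGroup l ℂ) (ν f g : l → ℝ)
    (hT : T * Tᴴ = ud W ν) (h : ∀ i, ν i ≠ 0 → f i * g i = 1) :
    ud W f * (ud W g * T) = T := by
  rw [← Matrix.mul_assoc, ud_mul W hW]
  have h1 : (dg fun k => f k * g k) * (Wᴴ * T) = Wᴴ * T := by
    ext i j
    unfold dg
    rw [diagonal_mul]
    by_cases hi : ν i = 0
    · rw [row_zero T W hW ν hT i hi j, mul_zero]
    · show ((f i * g i : ℝ) : ℂ) * (Wᴴ * T) i j = (Wᴴ * T) i j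
      rw [h i hi, Complex.ofReal_one, one_mul]
  unfold ud
  calc W * (dg fun k => f k * g k) * Wᴴ * T = W * ((dg fun k => f k * g k) * (Wᴴ * T)) := by
        simp only [Matrix.mul_assoc]
    _ = (W * Wᴴ) * T := by rw [h1, Matrix.mul_assoc]
    _ = T := by rw [a2_uu' W hW, Matrix.one_mul]

/-- `fr (ud W g * T) = ∑ g² ν`: `tr (ud W g * T Tᴴ * ud W g)`, `ud_mul`, `fr_eq_trace`. -/
theorem fr_ud_mul (T : Matrix l n ℂ) (W : Matrix l l ℂ) (hW : W ∈ unitaryGroup l ℂ) (ν g : l → ℝ)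
    (hT : T * Tᴴ = ud W ν) : fr (ud W g * T) = ∑ i, g i ^ 2 * ν i := by
  rw [fr_eq_trace, trace_mul_comm, conjTranspose_mul, (ud_isHermitian W g).eq]
  have h1 : ud W g * T * (Tᴴ * ud W g) = ud W fun i => g i * ν i * g i := by
    calc ud W g * T * (Tᴴ * ud W g) = ud W g * (T * Tᴴ) * ud W g := by
          simp only [Matrix.mul_assoc]
      _ = _ := by rw [hT, ud_mul W hW, ud_mul W hW]
  rw [h1, G4a_trace_ud W hW]
  refine Finset.sum_congr rfl fun i _ => ?_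
  ring

/-- `pw p T = ∑ ν^(p/2)` for `T Tᴴ = ud W ν` (`LibSch.pw_conjTranspose`, `pw_ud`). -/
theorem pw_left [DecidableEq n] (p : ℝ) (hp : 0 < p) (T : Matrix l n ℂ) (W : Matrix l l ℂ)
    (hW : W ∈ unitaryGroup l ℂ) (ν : l → ℝ) (hν : ∀ i, 0 ≤ ν i) (hT : T * Tᴴ = ud W ν) :
    LibSch.pw p T = ∑ i, ν i ^ (p / 2) := by
  rw [← LibSch.pw_conjTranspose p hp T]
  exact pw_ud p Tᴴ W hW ν (by rw [conjTranspose_conjTranspose, hT])

/-- `pw r (ud W g) = ∑ g^r` for `g ≥ 0`. -/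
theorem pw_udg (r : ℝ) (hr : 0 < r) (W : Matrix l l ℂ) (hW : W ∈ unitaryGroup l ℂ) (g : l → ℝ)
    (hg : ∀ i, 0 ≤ g i) : LibSch.pw r (ud W g) = ∑ i, g i ^ r := by
  rw [pw_ud r (ud W g) W hW (fun i => g i * g i)
    (by rw [(ud_isHermitian W g).eq, ud_mul W hW])]
  refine Finset.sum_congr rfl fun i _ => ?_
  rw [← sq, ← Real.rpow_natCast, ← Real.rpow_mul (hg i)]
  congr 1
  push_cast
  ring

/-- the affine lower bound of the squared norm: `fr (ud W g * T) ≥ 2 Re tr(Sᴴ T) - fr (ud W f * S)`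
if `f i * g i = 1` for `ν i ≠ 0`: `Re tr (Sᴴ T) = Re tr ((ud W f * S)ᴴ (ud W g * T))` by `ud_ud_mul`;
Cauchy-Schwarz (`re_trace_le`).  -/
theorem col_affine (T S : Matrix l n ℂ) (W : Matrix l l ℂ)
    (hW : W ∈ unitaryGroup l ℂ) (f g : l → ℝ) (h : ud W f * (ud W g * T) = T) :
    2 * (trace (Sᴴ * T)).re - fr (ud W f * S) ≤ fr (ud W g * T) := by
  have h1 : Sᴴ * T = (ud W f * S)ᴴ * (ud W g * T) := by
    rw [conjTranspose_mul, (ud_isHermitian W f).eq, Matrix.mul_assoc, h]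
  rw [h1]
  have h2 := (abs_le.1 (re_trace_le (ud W f * S) (ud W g * T))).2
  have h3 := nf_sq (ud W f * S)
  have h4 := nf_sq (ud W g * T)
  nlinarith [sq_nonneg (nf (ud W f * S) - nf (ud W g * T))]

end Pool.Agent.LibSchG
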