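import Pool.Agent.LibSchG.G3
import Pool.Agent.LibSchG.G4a

/-! **G4b.**  The column identity at a minimiser. -/

open Matrix
open scoped ComplexOrder

namespace Pool.Agent.LibSchG

open Pool.Agent.LibSchP Pool.Agent.LibSchA

variable {N : ℕ} {m : Type} [Fintype m] [DecidableEq m] {p a ρ c s x z : ℝ}
    {A B : Fin N → Matrix m m ℂ} {X Z : Fin N → ℝ} {W : Matrix (m ⊕ m) (m ⊕ m) ℂ}
    {ν : m ⊕ m → ℝ}

theorem g4b_hp (H : Min p a ρ c s x z A B X Z W ν) : 4 / 3 < p ∧ p < 2 ∧ 2 - p = p * a := by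
  have h1 : 0 < 1 + a := by linarith [H.ha]
  have ha := H.ha
  have ha' := H.ha'
  rw [H.hp]
  refine ⟨?_, ?_, ?_⟩
  · rw [div_lt_div_iff₀ (by norm_num) h1]; linarith
  · rw [div_lt_iff₀ h1]; linarith
  · field_simp
    ring

theorem g4b_fromRows_smul (w : ℂ) (A₁ A₂ : Matrix m m ℂ) :
    fromRows (w • A₁) (w • A₂) = w • fromRows A₁ A₂ := by
  ext i j
  rcases i with i | i <;> rfl

/-- `V_k = M Y_k`, `M = ud W (ν^((2-p)/4))` (`ud_ud_mul` for the matrix `T = blk A B`, then its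
columns: `T Tᴴ = ud W ν`, so that also the rows of `Wᴴ (A k; B k)` with `ν i = 0` vanish). -/
theorem mul_Yc (H : Min p a ρ c s x z A B X Z W ν) (k : Fin N) :
    ud W (fun i => ν i ^ ((2 - p) / 4)) * Yc p W ν (A k) (B k) = fromRows (A k) (B k) := by
  have h := ud_ud_mul (LibSch.blk A B) W H.hW ν (fun i => ν i ^ ((2 - p) / 4))
    (fun i => ν i ^ ((p - 2) / 4)) H.hT (fun i hi => by
      have h0 : 0 < ν i := lt_of_le_of_ne (H.hν i) (Ne.symm hi)
      rw [← Real.rpow_add h0]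
      have : (2 - p) / 4 + (p - 2) / 4 = 0 := by ring
      rw [this, Real.rpow_zero])
  ext i j
  have h2 := congrFun (congrFun h i) ⟨k, j⟩
  have h3 : ∀ i j, fromRows (A k) (B k) i j = LibSch.blk A B i ⟨k, j⟩ := by
    intro i j
    rcases i with i | i <;> rfl
  have h4 : ∀ i, (ud W (fun i => ν i ^ ((p - 2) / 4)) * LibSch.blk A B) i ⟨k, j⟩ =
      Yc p W ν (A k) (B k) i j := by
    intro i
    unfold Yc
    rw [Matrix.mul_apply, Matrix.mul_apply]
    exact Finset.sum_congr rfl fun l _ => by rw [h3]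
  rw [h3, ← h2, Matrix.mul_apply, Matrix.mul_apply]
  exact Finset.sum_congr rfl fun l _ => by rw [h4]

/-- `∑ fr Y_k = pw p T` (`fr_ud_mul`, `fr_mul_blk`, `pw_left`): `ν^((p-2)/2) ν = ν^(p/2)`. -/
theorem sum_Yc (H : Min p a ρ c s x z A B X Z W ν) :
    ∑ k, fr (Yc p W ν (A k) (B k)) = ∑ i, ν i ^ (p / 2) := by
  have hp := g4b_hp H
  have h1 := fr_mul_blk (ud W (fun i => ν i ^ ((p - 2) / 4))) A B
  rw [fr_ud_mul (LibSch.blk A B) W H.hW ν _ H.hT] at h1
  unfold Yc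
  rw [← h1]
  refine Finset.sum_congr rfl fun i _ => ?_
  rcases (H.hν i).eq_or_lt with h0 | h0
  · rw [← h0, mul_zero, Real.zero_rpow]
    have := hp.1
    positivity
  · rw [← Real.rpow_natCast, ← Real.rpow_mul h0.le]
    nth_rw 2 [← Real.rpow_one (ν i)]
    rw [← Real.rpow_add h0]
    congr 1
    push_cast
    ring

/-- Young's inequality for the matrix with the scaled columns `w_k T_k`, multiplied by `L`. -/
theorem young_w {l : Type} [Fintype l] [DecidableEq l] (H : Min p a ρ c s x z A B X Z W ν)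
    (L : Matrix l (m ⊕ m) ℂ) (w : Fin N → ℝ) :
    LibSch.pw p (L * LibSch.blk (fun k => (w k : ℂ) • A k) (fun k => (w k : ℂ) • B k)) ≤
      (1 - p / 2) * LibSch.pw (2 / a) (L * ud W (fun i => ν i ^ ((2 - p) / 4))) +
        p / 2 * ∑ k, w k ^ 2 * fr (Yc p W ν (A k) (B k)) := by
  set M := ud W (fun i => ν i ^ ((2 - p) / 4)) with hM
  set G := ud W (fun i => ν i ^ ((p - 2) / 4)) with hGd
  set T' := LibSch.blk (fun k => (w k : ℂ) • A k) (fun k => (w k : ℂ) • B k) with hT'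
  have h1 : M * (G * T') = T' := by
    ext i c
    obtain ⟨k, j⟩ := c
    have h2 := congrFun (congrFun (mul_Yc H k) i) j
    have h3 : ∀ i, T' i ⟨k, j⟩ = (w k : ℂ) * fromRows (A k) (B k) i j := by
      intro i
      rcases i with i | i <;> rfl
    have h4 : ∀ i, (G * T') i ⟨k, j⟩ = (w k : ℂ) * Yc p W ν (A k) (B k) i j := by
      intro i
      unfold Yc
      rw [Matrix.mul_apply, Matrix.mul_apply, Finset.mul_sum]
      exact Finset.sum_congr rfl fun l _ => by rw [h3]; ring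
    rw [h3, ← h2, Matrix.mul_apply, Matrix.mul_apply, Finset.mul_sum]
    exact Finset.sum_congr rfl fun l _ => by rw [h4]; ring
  have h5 : fr (G * T') = ∑ k, w k ^ 2 * fr (Yc p W ν (A k) (B k)) := by
    rw [hT', fr_mul_blk]
    refine Finset.sum_congr rfl fun k _ => ?_
    unfold Yc
    rw [g4b_fromRows_smul, Matrix.mul_smul, ← nf_sq, nf_smul, mul_pow, nf_sq, ← hGd]
    congr 1
    rw [Complex.norm_real, Real.norm_eq_abs, sq_abs]
  have h6 := young_p (p := p) H.ha H.hp (L * M) (G * T')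
  rw [Matrix.mul_assoc, h1, h5] at h6
  exact h6

theorem g4b_comp (p : ℝ) (hp : 0 < p) (A B : Fin N → Matrix m m ℂ) (w : Fin N → ℝ)
    (hw : ∀ k, 0 ≤ w k) :
    LibSch.pw p (LibSch.comp p (fun k => (w k : ℂ) • A k) (fun k => (w k : ℂ) • B k)) =
      LibSch.FF (p / 2) (∑ k, w k ^ 2 * LibSch.sn p (A k) ^ 2)
        (∑ k, w k ^ 2 * LibSch.sn p (B k) ^ 2)
        (∑ k, w k ^ 2 * (LibSch.sn p (A k) * LibSch.sn p (B k))) := by
  unfold LibSch.comp
  rw [LibSch.pw_two p hp]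
  congr 1
  · exact Finset.sum_congr rfl fun k _ => by rw [sn_smul' p hp _ (hw k)]; ring
  · exact Finset.sum_congr rfl fun k _ => by rw [sn_smul' p hp _ (hw k)]; ring
  · exact Finset.sum_congr rfl fun k _ => by
      rw [sn_smul' p hp _ (hw k), sn_smul' p hp _ (hw k)]; ring

/-- the Gram matrix of the rows -/
theorem g4b_gram {y₁ y₂ : Fin N → ℝ} (D : RDat c s x z y₁ y₂ X Z) :
    ∑ k, y₁ k ^ 2 = c ^ 2 * x + s ^ 2 * z ∧ ∑ k, y₂ k ^ 2 = s ^ 2 * x + c ^ 2 * z ∧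
      ∑ k, y₁ k * y₂ k = c * s * (x - z) := by
  have e1 : ∑ k, y₁ k ^ 2 = c ^ 2 * ∑ k, X k ^ 2 + s ^ 2 * ∑ k, Z k ^ 2 -
      2 * (c * s) * ∑ k, X k * Z k := by
    rw [Finset.mul_sum, Finset.mul_sum, Finset.mul_sum, ← Finset.sum_add_distrib,
      ← Finset.sum_sub_distrib]
    exact Finset.sum_congr rfl fun k _ => by rw [D.hy₁]; ring
  have e2 : ∑ k, y₂ k ^ 2 = s ^ 2 * ∑ k, X k ^ 2 + c ^ 2 * ∑ k, Z k ^ 2 +
      2 * (c * s) * ∑ k, X k * Z k := by
    rw [Finset.mul_sum, Finset.mul_sum, Finset.mul_sum, ← Finset.sum_add_distrib,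
      ← Finset.sum_add_distrib]
    exact Finset.sum_congr rfl fun k _ => by rw [D.hy₂]; ring
  have e3 : ∑ k, y₁ k * y₂ k = c * s * ∑ k, X k ^ 2 - c * s * ∑ k, Z k ^ 2 +
      (c ^ 2 - s ^ 2) * ∑ k, X k * Z k := by
    rw [Finset.mul_sum, Finset.mul_sum, Finset.mul_sum, ← Finset.sum_sub_distrib,
      ← Finset.sum_add_distrib]
    exact Finset.sum_congr rfl fun k _ => by rw [D.hy₁, D.hy₂]; ring
  rw [D.hX, D.hZ, D.hXZ] at e1 e2 e3
  exact ⟨by rw [e1]; ring, by rw [e2]; ring, by rw [e3]; ring⟩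

/-- **column identity.**  Multiply the column `k` by `√(1+t)`, `|t| < 1`: `T_t = M Y_t` with
`fr Y_t = ∑ fr Y_k + t fr Y_k`, hence by `young_p` (`M = ud W (ν^((2-p)/4))`,
`pw (2/a) M = ∑ ν^(p/2)` by `pw_udg`, `(2-p)/4 * 2/a = p/2`)
`pw p T_t ≤ pw p T + (p/2) t fr Y_k`; on the other side `pw p (comp T_t) = FF (p/2) (…)` by
`LibSch.pw_two`, `sn_smul'`, whose derivative at `0` is given by `deriv_col` (`r = p/2`; the Gram
matrix of the rows of `comp` is `(c² x + s² z, s² x + c² z, c s (x - z))` by `D`).  So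
`t ↦ pw p T + (p/2) t fr Y_k - ρ FF(t)` is `≥ 0` and vanishes at `0`
(`IsLocalMin.hasDerivAt_eq_zero`). -/
theorem col_p (H : Min p a ρ c s x z A B X Z W ν) (k : Fin N) :
    fr (Yc p W ν (A k) (B k)) =
      ρ * (X k ^ 2 * x ^ (p / 2 - 1) + Z k ^ 2 * z ^ (p / 2 - 1)) := by
  obtain ⟨hp1, hp2, hpa⟩ := g4b_hp H
  have hp0 : 0 < p := by linarith
  have ha := H.ha
  obtain ⟨g1, g2, g3⟩ := g4b_gram H.D
  have hM : LibSch.pw (2 / a) (ud W (fun i => ν i ^ ((2 - p) / 4))) = ∑ i, ν i ^ (p / 2) := by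
    rw [pw_udg (2 / a) (by positivity) W H.hW _ fun i => Real.rpow_nonneg (H.hν i) _]
    refine Finset.sum_congr rfl fun i _ => ?_
    rw [← Real.rpow_mul (H.hν i)]
    congr 1
    rw [hpa]
    field_simp
    ring
  have hT0 : LibSch.pw p (LibSch.blk A B) = ∑ i, ν i ^ (p / 2) :=
    pw_left p hp0 _ W H.hW ν H.hν H.hT
  set φ : ℝ → ℝ := fun t => ∑ i, ν i ^ (p / 2) + p / 2 * (t * fr (Yc p W ν (A k) (B k))) -
    ρ * LibSch.FF (p / 2) (c ^ 2 * x + s ^ 2 * z + t * (c * X k - s * Z k) ^ 2)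
      (s ^ 2 * x + c ^ 2 * z + t * (s * X k + c * Z k) ^ 2)
      (c * s * (x - z) + t * ((c * X k - s * Z k) * (s * X k + c * Z k))) with hφ
  have hφd : HasDerivAt φ (p / 2 * fr (Yc p W ν (A k) (B k)) -
      ρ * (p / 2 * (X k ^ 2 * x ^ (p / 2 - 1) + Z k ^ 2 * z ^ (p / 2 - 1)))) 0 := by
    have d1 := deriv_col (r := p / 2) (X := X k) (Z := Z k) H.hc H.hs H.D.hcs H.hz H.hzx
    have d2 : HasDerivAt (fun t : ℝ => ∑ i, ν i ^ (p / 2) +
        p / 2 * (t * fr (Yc p W ν (A k) (B k)))) (p / 2 * fr (Yc p W ν (A k) (B k))) 0 := by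
      have := (((hasDerivAt_id (0 : ℝ)).mul_const (fr (Yc p W ν (A k) (B k)))).const_mul
        (p / 2)).const_add (∑ i, ν i ^ (p / 2))
      simpa using this
    exact d2.sub (d1.const_mul ρ)
  have hF : ∀ t : ℝ, -1 < t → ∀ w : Fin N → ℝ, w = (fun l => if l = k then √(1 + t) else 1) →
      LibSch.pw p (LibSch.comp p (fun k => (w k : ℂ) • A k) (fun k => (w k : ℂ) • B k)) =
        LibSch.FF (p / 2) (c ^ 2 * x + s ^ 2 * z + t * (c * X k - s * Z k) ^ 2)
          (s ^ 2 * x + c ^ 2 * z + t * (s * X k + c * Z k) ^ 2)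
          (c * s * (x - z) + t * ((c * X k - s * Z k) * (s * X k + c * Z k))) := by
    intro t ht w hw
    have hw0 : ∀ l, 0 ≤ w l := by
      intro l
      rw [hw]
      dsimp only
      split_ifs
      · exact Real.sqrt_nonneg _
      · exact zero_le_one
    have hw2 : ∀ l, w l ^ 2 = 1 + if l = k then t else 0 := by
      intro l
      rw [hw]
      dsimp only
      split_ifs
      · rw [Real.sq_sqrt (by linarith)]
      · ring
    have hsum : ∀ f : Fin N → ℝ, ∑ l, w l ^ 2 * f l = ∑ l, f l + t * f k := by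
      intro f
      simp only [hw2, add_mul, one_mul, Finset.sum_add_distrib, ite_mul, zero_mul,
        Finset.sum_ite_eq', Finset.mem_univ, if_true]
    rw [g4b_comp p hp0 A B w hw0, hsum, hsum, hsum, g1, g2, g3, H.D.hy₁ k, H.D.hy₂ k]
  have h00 : φ 0 = 0 := by
    have h := hF 0 (by norm_num) _ rfl
    have hw : ∀ l : Fin N, (((if l = k then √(1 + (0 : ℝ)) else 1 : ℝ)) : ℂ) = 1 := by
      intro l
      split_ifs <;> simp
    simp only [hw, one_smul] at h
    show ∑ i, ν i ^ (p / 2) + p / 2 * (0 * fr (Yc p W ν (A k) (B k))) - ρ * _ = 0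
    rw [← h, ← H.heq, hT0]
    ring
  have hmin : IsLocalMin φ 0 := by
    have : ∀ᶠ t in nhds (0 : ℝ), -1 < t := lt_mem_nhds (by norm_num)
    filter_upwards [this] with t ht
    rw [h00]
    have h := hF t ht _ rfl
    set w : Fin N → ℝ := fun l => if l = k then √(1 + t) else 1 with hw
    have y1 := young_w H (1 : Matrix (m ⊕ m) (m ⊕ m) ℂ) w
    rw [Matrix.one_mul, Matrix.one_mul, hM] at y1
    have y2 := H.hmin (fun k => (w k : ℂ) • A k) (fun k => (w k : ℂ) • B k)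
    rw [h] at y2
    have hw2 : ∀ l, w l ^ 2 = 1 + if l = k then t else 0 := by
      intro l
      rw [hw]
      dsimp only
      split_ifs
      · rw [Real.sq_sqrt (by linarith)]
      · ring
    have hsum : ∀ f : Fin N → ℝ, ∑ l, w l ^ 2 * f l = ∑ l, f l + t * f k := by
      intro f
      simp only [hw2, add_mul, one_mul, Finset.sum_add_distrib, ite_mul, zero_mul,
        Finset.sum_ite_eq', Finset.mem_univ, if_true]
    rw [hsum, sum_Yc H] at y1
    show 0 ≤ ∑ i, ν i ^ (p / 2) + p / 2 * (t * fr (Yc p W ν (A k) (B k))) - ρ * _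
    linarith
  have hz := hmin.hasDerivAt_eq_zero hφd
  have hp2 : p / 2 ≠ 0 := by positivity
  have : p / 2 * (fr (Yc p W ν (A k) (B k)) -
      ρ * (X k ^ 2 * x ^ (p / 2 - 1) + Z k ^ 2 * z ^ (p / 2 - 1))) = 0 := by
    rw [← hz]; ring
  have := (mul_eq_zero.1 this).resolve_left hp2
  linarith

end Pool.Agent.LibSchG
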