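import Pool.Agent.LibSchG.G0

/-! **G5d.**  At most two directions. -/

open Matrix Filter Topology
open scoped ComplexOrder

namespace Pool.Agent.LibSchG

open Pool.Agent.LibSchP Pool.Agent.LibSchA

variable {N : ℕ}

/-- Otherwise (and if `∑ u² ∑ w² ≠ (∑ u w)²`) all vectors are parallel to one of two of them. -/
theorem cone_two (u w : Fin N → ℝ) (h : (∑ l, u l * w l) ^ 2 < (∑ l, u l ^ 2) * ∑ l, w l ^ 2)
    (h3 : ∀ i j k : Fin N, u i * w j ≠ u j * w i → u i * w k ≠ u k * w i →
      u j * w k ≠ u k * w j → False) :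
    ∃ (i j : Fin N) (α β : ℝ), 0 ≤ α ∧ 0 ≤ β ∧ ∑ l, u l ^ 2 = α * u i ^ 2 + β * u j ^ 2 ∧
      ∑ l, w l ^ 2 = α * w i ^ 2 + β * w j ^ 2 ∧
      ∑ l, u l * w l = α * (u i * w i) + β * (u j * w j) := by
  classical
  obtain ⟨i, j, hij⟩ : ∃ i j : Fin N, u i * w j ≠ u j * w i := by
    by_contra hcon
    push Not at hcon
    apply absurd h
    rw [not_lt, pow_two, Finset.sum_mul_sum, Finset.sum_mul_sum]
    apply le_of_eq
    refine Finset.sum_congr rfl fun l _ => Finset.sum_congr rfl fun k _ => ?_
    have := hcon l k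
    linear_combination (u l * w k) * this
  have hD : u i * w j - u j * w i ≠ 0 := sub_ne_zero.2 hij
  have hall : ∀ l : Fin N, ∃ c d : ℝ, 0 ≤ c ∧ 0 ≤ d ∧ u l ^ 2 = c * u i ^ 2 + d * u j ^ 2 ∧
      w l ^ 2 = c * w i ^ 2 + d * w j ^ 2 ∧ u l * w l = c * (u i * w i) + d * (u j * w j) := by
    intro l
    by_cases hi : u i * w l = u l * w i
    · have e1 : u l = (u l * w j - u j * w l) / (u i * w j - u j * w i) * u i := by
        rw [div_mul_eq_mul_div, eq_div_iff hD]
        linear_combination u j * hi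
      have e2 : w l = (u l * w j - u j * w l) / (u i * w j - u j * w i) * w i := by
        rw [div_mul_eq_mul_div, eq_div_iff hD]
        linear_combination w j * hi
      set c : ℝ := (u l * w j - u j * w l) / (u i * w j - u j * w i)
      refine ⟨c ^ 2, 0, sq_nonneg _, le_rfl, ?_, ?_, ?_⟩
      · rw [e1]; ring
      · rw [e2]; ring
      · rw [e1, e2]; ring
    · have hj : u j * w l = u l * w j := by
        by_contra hj
        exact h3 i j l hij hi hj
      have e1 : u l = (u i * w l - u l * w i) / (u i * w j - u j * w i) * u j := by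
        rw [div_mul_eq_mul_div, eq_div_iff hD]
        linear_combination -u i * hj
      have e2 : w l = (u i * w l - u l * w i) / (u i * w j - u j * w i) * w j := by
        rw [div_mul_eq_mul_div, eq_div_iff hD]
        linear_combination -w i * hj
      set c : ℝ := (u i * w l - u l * w i) / (u i * w j - u j * w i)
      refine ⟨0, c ^ 2, le_rfl, sq_nonneg _, ?_, ?_, ?_⟩
      · rw [e1]; ring
      · rw [e2]; ring
      · rw [e1, e2]; ring
  choose c d hc hd h1 h2 h4 using hall
  refine ⟨i, j, ∑ l, c l, ∑ l, d l, Finset.sum_nonneg fun l _ => hc l, Finset.sum_nonneg fun l _ => hd l,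
    ?_, ?_, ?_⟩
  · rw [Finset.sum_mul, Finset.sum_mul, ← Finset.sum_add_distrib]
    exact Finset.sum_congr rfl fun l _ => h1 l
  · rw [Finset.sum_mul, Finset.sum_mul, ← Finset.sum_add_distrib]
    exact Finset.sum_congr rfl fun l _ => h2 l
  · rw [Finset.sum_mul, Finset.sum_mul, ← Finset.sum_add_distrib]
    exact Finset.sum_congr rfl fun l _ => h4 l

end Pool.Agent.LibSchG
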