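import Pool.Agent.LibSchG.G4b

/-! **G6a.**  Young's inequality for the scaled matrix `D_t T diag(√al)`. -/

open Matrix Filter Topology
open scoped ComplexOrder

namespace Pool.Agent.LibSchG

open Pool.Agent.LibSchP Pool.Agent.LibSchA

variable {N : ℕ} {m : Type} [Fintype m] [DecidableEq m] {p a ρ c s x z : ℝ}
    {A B : Fin N → Matrix m m ℂ} {X Z : Fin N → ℝ} {W : Matrix (m ⊕ m) (m ⊕ m) ℂ}
    {ν : m ⊕ m → ℝ}

theorem g6a_Dt_mul (t : ℝ) (A B : Fin N → Matrix m m ℂ) :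
    Dt m t * LibSch.blk A B =
      LibSch.blk (fun k => ((Real.exp (t / 2) : ℝ) : ℂ) • A k)
        (fun k => ((Real.exp (-t / 2) : ℝ) : ℂ) • B k) := by
  ext i c
  unfold Dt dg
  rw [Matrix.diagonal_mul]
  rcases i with i | i <;> simp [LibSch.blk, Matrix.smul_apply]

theorem g6a_Fp (W : Matrix (m ⊕ m) (m ⊕ m) ℂ) (μ : m ⊕ m → ℝ) (ha : 0 < a) (t : ℝ) :
    LibSch.pw (2 / a) (Dt m t * ud W (fun i => μ i ^ a)) = Fp a W μ t := by
  unfold Fp
  rw [← LibSch.pw_conjTranspose (2 / a) (by positivity) (ud W (fun i => μ i ^ a) * Dt m t),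
    conjTranspose_mul]
  have h1 : (Dt m t)ᴴ = Dt m t := dg_conjTranspose _
  have h2 : (ud W (fun i => μ i ^ a))ᴴ = ud W (fun i => μ i ^ a) := ud_isHermitian _ _
  rw [h1, h2]

/-- For `al ≥ 0` and any `t`: `T̂ = D_t (√al_k A_k; √al_k B_k) = (D_t M) Ŷ`,
`M = ud W (ν^((2-p)/4)) = ud W (μ^a)`, `μ = ν^(p/4)`, `Ŷ_k = √al_k Y_k` (`mul_Yc`);
`young_p` (`LibSch.pw_conjTranspose`: `pw (2/a) (D_t M) = pw (2/a) (M D_t) = Fp`) and
`col_p` give `pw p T̂ ≤ (1 - p/2) Fp t + (p/2) ρ ∑ al_k (…)`.  On the other side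
`ρ pw p (comp T̂) ≤ pw p T̂` (`H.hmin`) and `pw p (comp T̂)` is `FF (p/2) …` by `LibSch.pw_two`,
`sn_smul'` (`LibSchA.comp_eq`). -/
theorem young_al (H : Min p a ρ c s x z A B X Z W ν) (al : Fin N → ℝ) (hal : ∀ k, 0 ≤ al k)
    (t : ℝ) :
    ρ * LibSch.FF (p / 2) (Real.exp t * ∑ k, al k * LibSch.sn p (A k) ^ 2)
        (Real.exp (-t) * ∑ k, al k * LibSch.sn p (B k) ^ 2)
        (∑ k, al k * (LibSch.sn p (A k) * LibSch.sn p (B k))) ≤
      (1 - p / 2) * Fp a W (fun i => ν i ^ (p / 4)) t +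
        p / 2 * (ρ * ∑ k, al k * (X k ^ 2 * x ^ (p / 2 - 1) + Z k ^ 2 * z ^ (p / 2 - 1))) := by
  obtain ⟨hp1, hp2, hpa⟩ := g4b_hp H
  have hp0 : 0 < p := by linarith
  have ha := H.ha
  have h1 := young_w H (Dt m t) (fun k => √(al k))
  rw [g6a_Dt_mul] at h1
  have h2 := H.hmin (fun k => ((Real.exp (t / 2) : ℝ) : ℂ) • ((√(al k) : ℝ) : ℂ) • A k)
    (fun k => ((Real.exp (-t / 2) : ℝ) : ℂ) • ((√(al k) : ℝ) : ℂ) • B k)
  have h3 : LibSch.pw p (LibSch.comp p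
      (fun k => ((Real.exp (t / 2) : ℝ) : ℂ) • ((√(al k) : ℝ) : ℂ) • A k)
      (fun k => ((Real.exp (-t / 2) : ℝ) : ℂ) • ((√(al k) : ℝ) : ℂ) • B k)) =
      LibSch.FF (p / 2) (Real.exp t * ∑ k, al k * LibSch.sn p (A k) ^ 2)
        (Real.exp (-t) * ∑ k, al k * LibSch.sn p (B k) ^ 2)
        (∑ k, al k * (LibSch.sn p (A k) * LibSch.sn p (B k))) := by
    unfold LibSch.comp
    rw [LibSch.pw_two p hp0]
    have e1 : Real.exp (t / 2) ^ 2 = Real.exp t := by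
      rw [← Real.exp_nat_mul]; congr 1; push_cast; ring
    have e2 : Real.exp (-t / 2) ^ 2 = Real.exp (-t) := by
      rw [← Real.exp_nat_mul]; congr 1; push_cast; ring
    have e3 : Real.exp (t / 2) * Real.exp (-t / 2) = 1 := by
      rw [← Real.exp_add]
      have : t / 2 + -t / 2 = 0 := by ring
      rw [this, Real.exp_zero]
    have hA : ∀ k, LibSch.sn p (((Real.exp (t / 2) : ℝ) : ℂ) • ((√(al k) : ℝ) : ℂ) • A k) =
        Real.exp (t / 2) * (√(al k) * LibSch.sn p (A k)) := by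
      intro k
      rw [sn_smul' p hp0 _ (Real.exp_pos _).le, sn_smul' p hp0 _ (Real.sqrt_nonneg _)]
    have hB : ∀ k, LibSch.sn p (((Real.exp (-t / 2) : ℝ) : ℂ) • ((√(al k) : ℝ) : ℂ) • B k) =
        Real.exp (-t / 2) * (√(al k) * LibSch.sn p (B k)) := by
      intro k
      rw [sn_smul' p hp0 _ (Real.exp_pos _).le, sn_smul' p hp0 _ (Real.sqrt_nonneg _)]
    congr 1
    · rw [Finset.mul_sum]
      refine Finset.sum_congr rfl fun k _ => ?_
      rw [hA, mul_pow, mul_pow, e1, Real.sq_sqrt (hal k)]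
    · rw [Finset.mul_sum]
      refine Finset.sum_congr rfl fun k _ => ?_
      rw [hB, mul_pow, mul_pow, e2, Real.sq_sqrt (hal k)]
    · refine Finset.sum_congr rfl fun k _ => ?_
      rw [hA, hB]
      calc _ = (Real.exp (t / 2) * Real.exp (-t / 2)) * √(al k) ^ 2 *
            (LibSch.sn p (A k) * LibSch.sn p (B k)) := by ring
        _ = _ := by rw [e3, Real.sq_sqrt (hal k), one_mul]
  rw [h3] at h2
  have h4 : LibSch.pw (2 / a) (Dt m t * ud W (fun i => ν i ^ ((2 - p) / 4))) =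
      Fp a W (fun i => ν i ^ (p / 4)) t := by
    rw [← g6a_Fp W (fun i => ν i ^ (p / 4)) ha t]
    have : (fun i => ν i ^ ((2 - p) / 4)) = fun i => (ν i ^ (p / 4)) ^ a := by
      funext i
      rw [← Real.rpow_mul (H.hν i)]
      congr 1
      rw [hpa]
      ring
    rw [this]
  have h5 : ∑ k, √(al k) ^ 2 * fr (Yc p W ν (A k) (B k)) =
      ρ * ∑ k, al k * (X k ^ 2 * x ^ (p / 2 - 1) + Z k ^ 2 * z ^ (p / 2 - 1)) := by
    rw [Finset.mul_sum]
    refine Finset.sum_congr rfl fun k _ => ?_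
    rw [Real.sq_sqrt (hal k), col_p H k]
    ring
  rw [h4, h5] at h1
  exact h2.trans h1

end Pool.Agent.LibSchG
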