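import Pool.Agent.LibSchG.G6a
import Pool.Agent.LibSchTw.F1
import Pool.Agent.LibSchTw.L1

/-! **G6b.**  The key inequality at a minimiser: `ρ tr (D_t ε^(2a) D_t)^(1/a) ≤ tr (D_t P D_t)^(1/a)`. -/

open Matrix Filter Topology
open scoped ComplexOrder

namespace Pool.Agent.LibSchG

open Pool.Agent.LibSchP Pool.Agent.LibSchA
open Pool.Agent.LibSchTw (tw outer RSym cone_near tw_tw trace_tw tw_mul_inv tw_posDef rp_rp' ud_rot_re
  RSym_rot FF_trace trace_outer_rot)

variable {N : ℕ} {m : Type} [Fintype m] [DecidableEq m] {p a ρ c s x z : ℝ}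
    {A B : Fin N → Matrix m m ℂ} {X Z : Fin N → ℝ} {W : Matrix (m ⊕ m) (m ⊕ m) ℂ}
    {ν : m ⊕ m → ℝ}

/-- **key inequality.**  `e₁ = x^(p/4)`, `e₂ = z^(p/4)`; so `x = e₁^(2+2a)`, `e₁^(2a) = x^(1-p/2)`.
Three pairwise non-parallel columns: `npath_p`, `exists_al` (`D.hX` etc. give
`∑ sn(A_k)² = c² x + s² z`, …), `young_al` for `al = al(t)`;
`∑ al_k (X_k² x^(p/2-1) + …) = vform (n(t)) = fm t` by `vform_sq`.  Hence
`ρ fm ≤ (1 - p/2) Fp + (p/2) ρ fm`. -/
theorem key_p (H : Min p a ρ c s x z A B X Z W ν) (i j k : Fin N)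
    (hij : LibSch.sn p (A i) * LibSch.sn p (B j) ≠ LibSch.sn p (A j) * LibSch.sn p (B i))
    (hik : LibSch.sn p (A i) * LibSch.sn p (B k) ≠ LibSch.sn p (A k) * LibSch.sn p (B i))
    (hjk : LibSch.sn p (A j) * LibSch.sn p (B k) ≠ LibSch.sn p (A k) * LibSch.sn p (B j)) :
    ∀ᶠ t in 𝓝 (0 : ℝ), ρ * fm a (x ^ (p / 4)) (z ^ (p / 4)) c s t ≤
      Fp a W (fun i => ν i ^ (p / 4)) t := by
  have ha := H.ha
  have ha' := H.ha'
  have hp := H.hp
  have hz := H.hz
  have hx : 0 < x := hz.trans H.hzx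
  have hcs := H.D.hcs
  have hp0 : 0 < p := by rw [hp]; positivity
  have hp1 : p < 2 := by rw [hp, div_lt_iff₀ (by linarith)]; linarith
  have hU := rot_mem c s hcs
  have hpa : p * (1 + a) = 2 := by rw [hp]; field_simp
  have ex : (x ^ (p / 4)) ^ (2 * a) = x ^ (1 - p / 2) := by
    rw [← Real.rpow_mul hx.le]; congr 1; linarith
  have ez : (z ^ (p / 4)) ^ (2 * a) = z ^ (1 - p / 2) := by
    rw [← Real.rpow_mul hz.le]; congr 1; linarith
  obtain ⟨P, hP⟩ : ∃ P, P = ud (Rot c s) ![x ^ (1 - p / 2), z ^ (1 - p / 2)] := ⟨_, rfl⟩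
  have hPD : P.PosDef := by
    rw [hP]
    refine ud_posDef _ hU _ fun k => ?_
    fin_cases k
    · exact Real.rpow_pos_of_pos hx _
    · exact Real.rpow_pos_of_pos hz _
  have hPR : RSym P := by rw [hP]; exact RSym_rot _ _ _ _
  have hm : rp (1 / a + 1) P = ∑ j, outer (LibSch.sn p (A j)) (LibSch.sn p (B j)) := by
    have e0 : (1 - p / 2) * (1 / a + 1) = 1 := by
      have h1 : 1 - p / 2 = p * a / 2 := by linarith
      rw [h1]
      field_simp
      linarith
    have e1 : rp (1 / a + 1) P = ud (Rot c s) ![x, z] := by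
      rw [hP, rp_ud _ _ hU]
      congr 1
      funext k
      fin_cases k
      · show (x ^ (1 - p / 2)) ^ (1 / a + 1) = x
        rw [← Real.rpow_mul hx.le, e0, Real.rpow_one]
      · show (z ^ (1 - p / 2)) ^ (1 / a + 1) = z
        rw [← Real.rpow_mul hz.le, e0, Real.rpow_one]
    rw [e1, ← mat_gram H.D]
    ext i j
    rw [Matrix.mul_apply, Matrix.sum_apply]
    refine Finset.sum_congr rfl fun k _ => ?_
    fin_cases i <;> fin_cases j <;>
      simp [mat, outer, mul_comm]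
  have hcone := cone_near (fun k => LibSch.sn p (A k)) (fun k => LibSch.sn p (B k)) i j k
    (fun h => hij (by linarith)) (fun h => hik (by linarith)) (fun h => hjk (by linarith))
    (1 / a + 1) (-1) (by have := one_div_pos.2 ha; linarith) ![1, -1] P hPD.posSemidef hPR hm
  filter_upwards [hcone] with t ht
  obtain ⟨al, hal, ht⟩ := ht
  have hY := young_al H al hal t
  obtain ⟨K, hK⟩ : ∃ K, K = tw ![1, -1] P t := ⟨_, rfl⟩
  have hKD : K.PosDef := by rw [hK]; exact tw_posDef _ _ hPD t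
  have hKR : RSym K := by rw [hK]; exact hPR.tw _ t
  have hexp1 : t * ((![(1 : ℝ), -1] 0 + ![(1 : ℝ), -1] 0) / 2) = t := by
    simp
  have hexp2 : t * ((![(1 : ℝ), -1] 1 + ![(1 : ℝ), -1] 1) / 2) = -t := by
    simp
  have hexp3 : t * ((![(1 : ℝ), -1] 0 + ![(1 : ℝ), -1] 1) / 2) = 0 := by
    simp
  have htw : ∀ M : Matrix (Fin 2) (Fin 2) ℂ,
      (tw ![1, -1] M t 0 0).re = Real.exp t * (M 0 0).re ∧
      (tw ![1, -1] M t 1 1).re = Real.exp (-t) * (M 1 1).re ∧
      (tw ![1, -1] M t 0 1).re = (M 0 1).re := by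
    intro M
    refine ⟨?_, ?_, ?_⟩
    · rw [tw, Matrix.of_apply, hexp1, Complex.re_ofReal_mul]
    · rw [tw, Matrix.of_apply, hexp2, Complex.re_ofReal_mul]
    · rw [tw, Matrix.of_apply, hexp3, Complex.re_ofReal_mul, Real.exp_zero, one_mul]
  have e1 : fm a (x ^ (p / 4)) (z ^ (p / 4)) c s t = (trace (rp (1 / a) K)).re := by
    rw [← FF_trace (1 / a) (one_div_pos.2 ha) K hKR hKD.posSemidef, fm, ex, ez, hK,
      (htw P).1, (htw P).2.1, (htw P).2.2, hP, (ud_rot_re _ _ _ _).1, (ud_rot_re _ _ _ _).2.1,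
      (ud_rot_re _ _ _ _).2.2]
  have hDD : tw ![1, -1] (∑ j, ((al j : ℝ) : ℂ) • outer (LibSch.sn p (A j)) (LibSch.sn p (B j))) t =
      rp (1 / a + 1) K := by
    rw [← ht, tw_tw]
    have : -1 * t + t = 0 := by ring
    rw [this, LibSchTw.tw_zero, hK]
  have hsum : ∀ (f : ℝ → ℝ → ℝ) (i' j' : Fin 2), (∀ y₁ y₂, outer y₁ y₂ i' j' = ((f y₁ y₂ : ℝ) : ℂ)) →
      ((∑ j, ((al j : ℝ) : ℂ) • outer (LibSch.sn p (A j)) (LibSch.sn p (B j))) i' j').re =
        ∑ j, al j * f (LibSch.sn p (A j)) (LibSch.sn p (B j)) := by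
    intro f i' j' hf
    rw [Matrix.sum_apply, Complex.re_sum]
    refine Finset.sum_congr rfl fun l _ => ?_
    rw [Matrix.smul_apply, hf, smul_eq_mul, ← Complex.ofReal_mul, Complex.ofReal_re]
  have e2 : LibSch.FF (p / 2) (Real.exp t * ∑ k, al k * LibSch.sn p (A k) ^ 2)
        (Real.exp (-t) * ∑ k, al k * LibSch.sn p (B k) ^ 2)
        (∑ k, al k * (LibSch.sn p (A k) * LibSch.sn p (B k))) = (trace (rp (1 / a) K)).re := by
    have h2 := FF_trace (p / 2) (by linarith) (rp (1 / a + 1) K) (hKR.rp _)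
      (rp_posSemidef _ _ hKD.posSemidef)
    have e0 : (1 / a + 1) * (p / 2) = 1 / a := by
      have : (1 / a + 1) * (p / 2) = p * (1 + a) / 2 / a := by field_simp
      rw [this, hpa]
      norm_num
    rw [rp_rp' _ _ _ hKD.posSemidef, e0] at h2
    rw [← h2, ← hDD, (htw _).1, (htw _).2.1, (htw _).2.2,
      hsum (fun y₁ _ => y₁ ^ 2) 0 0 LibSchTw.outer_apply00,
      hsum (fun _ y₂ => y₂ ^ 2) 1 1 LibSchTw.outer_apply11,
      hsum (fun y₁ y₂ => y₁ * y₂) 0 1 LibSchTw.outer_apply01]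
  have e3 : ∑ k, al k * (X k ^ 2 * x ^ (p / 2 - 1) + Z k ^ 2 * z ^ (p / 2 - 1)) =
      (trace (rp (1 / a) K)).re := by
    obtain ⟨P', hP'⟩ : ∃ P', P' = ud (Rot c s) ![x ^ (p / 2 - 1), z ^ (p / 2 - 1)] := ⟨_, rfl⟩
    have hPP : P * P' = 1 := by
      rw [hP, hP', ud_mul _ hU]
      have : (fun k => ![x ^ (1 - p / 2), z ^ (1 - p / 2)] k * ![x ^ (p / 2 - 1), z ^ (p / 2 - 1)] k)
          = fun _ => 1 := by
        funext k
        fin_cases k
        · show x ^ (1 - p / 2) * x ^ (p / 2 - 1) = 1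
          rw [← Real.rpow_add hx]
          have : 1 - p / 2 + (p / 2 - 1) = 0 := by ring
          rw [this, Real.rpow_zero]
        · show z ^ (1 - p / 2) * z ^ (p / 2 - 1) = 1
          rw [← Real.rpow_add hz]
          have : 1 - p / 2 + (p / 2 - 1) = 0 := by ring
          rw [this, Real.rpow_zero]
      rw [this, ud]
      have : (dg fun _ : Fin 2 => (1 : ℝ)) = 1 := by
        unfold dg
        rw [← Matrix.diagonal_one]
        simp
      rw [this, Matrix.mul_one, a2_uu' _ hU]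
    have h1 : (trace ((∑ j, ((al j : ℝ) : ℂ) • outer (LibSch.sn p (A j)) (LibSch.sn p (B j))) *
        P')).re = ∑ k, al k * (X k ^ 2 * x ^ (p / 2 - 1) + Z k ^ 2 * z ^ (p / 2 - 1)) := by
      rw [Finset.sum_mul, Matrix.trace_sum, Complex.re_sum]
      refine Finset.sum_congr rfl fun l _ => ?_
      rw [Matrix.smul_mul, Matrix.trace_smul, smul_eq_mul, Complex.re_ofReal_mul, hP',
        trace_outer_rot]
      have e5 : c * LibSch.sn p (A l) + s * LibSch.sn p (B l) = X l := by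
        rw [H.D.hy₁ l, H.D.hy₂ l]
        linear_combination (X l) * hcs
      have e6 : c * LibSch.sn p (B l) - s * LibSch.sn p (A l) = Z l := by
        rw [H.D.hy₁ l, H.D.hy₂ l]
        linear_combination (Z l) * hcs
      rw [e5, e6]
    rw [← h1, ← ht]
    have e4 : -1 * t = -t := by ring
    rw [e4, trace_tw, ← hK]
    have h2 := tw_mul_inv ![1, -1] P P' t hPP
    rw [← hK] at h2
    have h3 : rp (1 / a + 1) K = rp (1 / a) K * K := by
      conv_rhs => rw [← rp_one K hKD.1]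
      rw [rp_one K hKD.1, ← rp_one K hKD.1, rp_rp' _ _ _ hKD.posSemidef, rp_rp' _ _ _ hKD.posSemidef,
        rp_mul _ _ _ hKD]
      congr 1
      ring
    rw [h3, Matrix.mul_assoc, h2, Matrix.mul_one]
  rw [e2, e3] at hY
  rw [e1]
  have h5 : 0 < 1 - p / 2 := by linarith
  have h6 : (1 - p / 2) * (ρ * (trace (rp (1 / a) K)).re) ≤
      (1 - p / 2) * Fp a W (fun i => ν i ^ (p / 4)) t := by
    linarith
  exact le_of_mul_le_mul_left h6 h5

/-- equality at `t = 0`: both sides are `pw p T = ρ pw p (comp T)`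
(`pw_udg`, `pw_left`, `LibSchA.mat_pw`). -/
theorem key_zero (H : Min p a ρ c s x z A B X Z W ν) :
    ρ * fm a (x ^ (p / 4)) (z ^ (p / 4)) c s 0 = Fp a W (fun i => ν i ^ (p / 4)) 0 := by
  have ha := H.ha
  have hp := H.hp
  have hz := H.hz
  have hx : 0 < x := hz.trans H.hzx
  have hcs := H.D.hcs
  have hp0 : 0 < p := by rw [hp]; positivity
  have hpa : p * (1 + a) = 2 := by rw [hp]; field_simp
  have h2a : (0 : ℝ) < 2 / a := by positivity
  have ex : (x ^ (p / 4)) ^ (2 * a) = x ^ (1 - p / 2) := by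
    rw [← Real.rpow_mul hx.le]; congr 1; linarith
  have ez : (z ^ (p / 4)) ^ (2 * a) = z ^ (1 - p / 2) := by
    rw [← Real.rpow_mul hz.le]; congr 1; linarith
  have e0 : (1 - p / 2) * (1 / a) = p / 2 := by
    have h1 : 1 - p / 2 = p / 2 * a := by linarith
    rw [h1]
    field_simp
  have hU := rot_mem c s hcs
  obtain ⟨P, hP⟩ : ∃ P, P = ud (Rot c s) ![x ^ (1 - p / 2), z ^ (1 - p / 2)] := ⟨_, rfl⟩
  have hPD : P.PosDef := by
    rw [hP]
    refine ud_posDef _ hU _ fun k => ?_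
    fin_cases k
    · exact Real.rpow_pos_of_pos hx _
    · exact Real.rpow_pos_of_pos hz _
  have hPR : RSym P := by rw [hP]; exact RSym_rot _ _ _ _
  have h1 : fm a (x ^ (p / 4)) (z ^ (p / 4)) c s 0 = x ^ (p / 2) + z ^ (p / 2) := by
    have h3 := FF_trace (1 / a) (one_div_pos.2 ha) P hPR hPD.posSemidef
    have h4 : (trace (rp (1 / a) P)).re = x ^ (p / 2) + z ^ (p / 2) := by
      rw [hP, rp_ud _ _ hU, LibSchTw.trace_ud_re _ hU, Complex.ofReal_re, Fin.sum_univ_two]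
      show (x ^ (1 - p / 2)) ^ (1 / a) + (z ^ (1 - p / 2)) ^ (1 / a) = _
      rw [← Real.rpow_mul hx.le, ← Real.rpow_mul hz.le, e0]
    rw [h4, hP, (ud_rot_re _ _ _ _).1, (ud_rot_re _ _ _ _).2.1, (ud_rot_re _ _ _ _).2.2] at h3
    rw [fm, ex, ez, neg_zero, Real.exp_zero, one_mul, one_mul]
    exact h3
  have h2 : Fp a W (fun i => ν i ^ (p / 4)) 0 = ∑ i, ν i ^ (p / 2) := by
    have hD : Dt m 0 = 1 := by
      unfold Dt dg
      rw [← Matrix.diagonal_one]
      congr 1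
      funext k
      rcases k with k | k <;> simp
    rw [Fp, hD, Matrix.mul_one, pw_udg (2 / a) h2a W H.hW _
      (fun i => Real.rpow_nonneg (Real.rpow_nonneg (H.hν i) _) _)]
    refine Finset.sum_congr rfl fun i _ => ?_
    rw [← Real.rpow_mul (H.hν i), ← Real.rpow_mul (H.hν i)]
    congr 1
    field_simp
    norm_num
  rw [h1, h2, ← pw_left p hp0 _ W H.hW ν H.hν H.hT, H.heq, comp_eq, mat_pw H.D p hp0]

end Pool.Agent.LibSchG
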