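import Pool.Agent.LibSchG.G0

/-! **G8.**  Existence of an increasing column, homogeneity. -/

open Matrix
open scoped ComplexOrder

namespace Pool.Agent.LibSchG

open Pool.Agent.LibSchP Pool.Agent.LibSchA

theorem G8_pow {a e : ℝ} (he : 0 < e) :
    e ^ (2 * a - 2) * e ^ (2 + 2 * a) / (e ^ (2 * a)) ^ 2 = 1 := by
  have h1 : (e ^ (2 * a)) ^ 2 = e ^ (2 * a - 2) * e ^ (2 + 2 * a) := by
    rw [← Real.rpow_add he, ← Real.rpow_natCast, ← Real.rpow_mul he.le]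
    congr 1
    push_cast
    ring
  rw [← h1]
  exact div_self (pow_ne_zero _ (Real.rpow_pos_of_pos he _).ne')

/-- `∑_k L12(y_k) = 0` for the columns `y_k = π⁻¹ v_k`: `∑ X_k² = x = e₁^(2+2a)`, … -/
theorem sum_L12 {N : ℕ} {a e₁ e₂ c s x z : ℝ} {y₁ y₂ X Z : Fin N → ℝ} (he₁ : 0 < e₁) (he₂ : 0 < e₂)
    (D : RDat c s x z y₁ y₂ X Z) (hx : x = e₁ ^ (2 + 2 * a)) (hz : z = e₂ ^ (2 + 2 * a)) :
    ∑ k, L12 a e₁ e₂ c s (X k / e₁ ^ (2 * a)) (Z k / e₂ ^ (2 * a)) = 0 := by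
  have hp₁ : (e₁ ^ (2 * a)) ≠ 0 := (Real.rpow_pos_of_pos he₁ _).ne'
  have hp₂ : (e₂ ^ (2 * a)) ≠ 0 := (Real.rpow_pos_of_pos he₂ _).ne'
  have h : ∀ k, L12 a e₁ e₂ c s (X k / e₁ ^ (2 * a)) (Z k / e₂ ^ (2 * a)) =
      c * s * a * (e₁ ^ (2 * a - 2) / (e₁ ^ (2 * a)) ^ 2) * X k ^ 2
      - c * s * a * (e₂ ^ (2 * a - 2) / (e₂ ^ (2 * a)) ^ 2) * Z k ^ 2
      + (c ^ 2 - s ^ 2) * ((e₁ ^ (2 * a) - e₂ ^ (2 * a)) / (e₁ ^ 2 - e₂ ^ 2))
        / (e₁ ^ (2 * a) * e₂ ^ (2 * a)) * (X k * Z k) := by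
    intro k
    unfold L12
    field_simp
  rw [Finset.sum_congr rfl fun k _ => h k, Finset.sum_add_distrib, Finset.sum_sub_distrib,
    ← Finset.mul_sum, ← Finset.mul_sum, ← Finset.mul_sum, D.hX, D.hZ, D.hXZ, hx, hz]
  have h1 := G8_pow (a := a) he₁
  have h2 := G8_pow (a := a) he₂
  rw [mul_zero, add_zero]
  linear_combination c * s * a * h1 - c * s * a * h2

theorem G8_conc {a e₁ e₂ : ℝ} (ha : 0 < a) (ha' : a < 1) (he₂ : 0 < e₂) (he : e₂ < e₁) :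
    a * e₁ ^ (2 * a - 2) < (e₁ ^ (2 * a) - e₂ ^ (2 * a)) / (e₁ ^ 2 - e₂ ^ 2) ∧
    (e₁ ^ (2 * a) - e₂ ^ (2 * a)) / (e₁ ^ 2 - e₂ ^ 2) < a * e₂ ^ (2 * a - 2) := by
  have he₁ : 0 < e₁ := he₂.trans he
  have hlt : e₂ ^ 2 < e₁ ^ 2 := by nlinarith
  have hpw : ∀ e : ℝ, 0 < e → e ^ (2 * a) = (e ^ 2) ^ a := by
    intro e h
    rw [← Real.rpow_natCast, ← Real.rpow_mul h.le]
    push_cast
    rfl
  have hpw' : ∀ e : ℝ, 0 < e → e ^ (2 * a - 2) = (e ^ 2) ^ (a - 1) := by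
    intro e h
    rw [← Real.rpow_natCast, ← Real.rpow_mul h.le]
    congr 1
    push_cast
    ring
  rw [hpw _ he₁, hpw _ he₂, hpw' _ he₁, hpw' _ he₂]
  have hc := Real.strictConcaveOn_rpow ha ha'
  have hd : ∀ u : ℝ, 0 < u → HasDerivAt (fun x : ℝ => x ^ a) (a * u ^ (a - 1)) u := by
    intro u hu
    exact Real.hasDerivAt_rpow_const (Or.inl hu.ne')
  have hu : (0:ℝ) < e₁ ^ 2 := by positivity
  have hv : (0:ℝ) < e₂ ^ 2 := by positivity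
  have h1 := StrictConcaveOn.lt_slope_of_hasDerivAt hc (x := e₂ ^ 2) (y := e₁ ^ 2) hv.le hu.le hlt
    (hd _ hu)
  have h2 := StrictConcaveOn.slope_lt_of_hasDerivAt hc (x := e₂ ^ 2) (y := e₁ ^ 2) hv.le hu.le hlt
    (hd _ hv)
  rw [slope_def_field] at h1 h2
  exact ⟨h1, h2⟩

/-- In terms of the entries `y₁ = c X - s Z`, `y₂ = s X + c Z` (`X = c y₁ + s y₂`, `Z = c y₂ - s y₁`),
with `α = a e₁^(2a-2)`, `β = a e₂^(2a-2)`, `γ = (e₁^(2a) - e₂^(2a))/(e₁² - e₂²)`, `α < γ < β`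
(`x ↦ x^a` is strictly concave): the coefficient of `y₁²` is `c s (c² (α - γ) - s² (β - γ)) < 0`, that
of `y₂²` is `c s (s² (α - γ) - c² (β - γ)) < 0`, and that of `y₁ y₂` is
`2 c² s² (α + β) + (c² - s²)² γ > 0`. -/
theorem L12_neg {a e₁ e₂ c s X Z : ℝ} (ha : 0 < a) (ha' : 2 * a < 1) (he₂ : 0 < e₂) (he : e₂ < e₁)
    (hc : 0 < c) (hs : 0 < s) (hcs : c ^ 2 + s ^ 2 = 1)
    (hy : (c * X - s * Z) * (s * X + c * Z) ≤ 0) (h0 : c * X - s * Z ≠ 0 ∨ s * X + c * Z ≠ 0) :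
    L12 a e₁ e₂ c s X Z < 0 := by
  obtain ⟨h1, h2⟩ := G8_conc ha (by linarith) he₂ he
  have he₁ : 0 < e₁ := he₂.trans he
  unfold L12
  set α := a * e₁ ^ (2 * a - 2) with hα
  set β := a * e₂ ^ (2 * a - 2) with hβ
  set γ := (e₁ ^ (2 * a) - e₂ ^ (2 * a)) / (e₁ ^ 2 - e₂ ^ 2) with hγ
  have hα0 : 0 < α := mul_pos ha (Real.rpow_pos_of_pos he₁ _)
  set y₁ := c * X - s * Z with hy₁
  set y₂ := s * X + c * Z with hy₂
  have hX : X = c * y₁ + s * y₂ := by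
    rw [hy₁, hy₂]; linear_combination (-X) * hcs
  have hZ : Z = c * y₂ - s * y₁ := by
    rw [hy₁, hy₂]; linear_combination (-Z) * hcs
  have key : c * s * (α * X ^ 2) - c * s * (β * Z ^ 2) + (c ^ 2 - s ^ 2) * (γ * (X * Z)) =
      c * s * (c ^ 2 * (α - γ) - s ^ 2 * (β - γ)) * y₁ ^ 2 +
      c * s * (s ^ 2 * (α - γ) - c ^ 2 * (β - γ)) * y₂ ^ 2 +
      (2 * c ^ 2 * s ^ 2 * (α + β) + (c ^ 2 - s ^ 2) ^ 2 * γ) * (y₁ * y₂) := by
    rw [hX, hZ]; ring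
  rw [key]
  have hcs' : 0 < c * s := mul_pos hc hs
  have k1 : c * s * (c ^ 2 * (α - γ) - s ^ 2 * (β - γ)) < 0 := by
    apply mul_neg_of_pos_of_neg hcs'
    have : 0 < c ^ 2 * (γ - α) := mul_pos (by positivity) (by linarith)
    have : 0 < s ^ 2 * (β - γ) := mul_pos (by positivity) (by linarith)
    linarith
  have k2 : c * s * (s ^ 2 * (α - γ) - c ^ 2 * (β - γ)) < 0 := by
    apply mul_neg_of_pos_of_neg hcs'
    have : 0 < s ^ 2 * (γ - α) := mul_pos (by positivity) (by linarith)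
    have : 0 < c ^ 2 * (β - γ) := mul_pos (by positivity) (by linarith)
    linarith
  have k3 : 0 ≤ 2 * c ^ 2 * s ^ 2 * (α + β) + (c ^ 2 - s ^ 2) ^ 2 * γ := by
    have : 0 < γ := by linarith
    have : 0 < β := by linarith
    positivity
  have m3 : (2 * c ^ 2 * s ^ 2 * (α + β) + (c ^ 2 - s ^ 2) ^ 2 * γ) * (y₁ * y₂) ≤ 0 :=
    mul_nonpos_of_nonneg_of_nonpos k3 hy
  have m1 : c * s * (c ^ 2 * (α - γ) - s ^ 2 * (β - γ)) * y₁ ^ 2 ≤ 0 :=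
    mul_nonpos_of_nonpos_of_nonneg k1.le (sq_nonneg _)
  have m2 : c * s * (s ^ 2 * (α - γ) - c ^ 2 * (β - γ)) * y₂ ^ 2 ≤ 0 :=
    mul_nonpos_of_nonpos_of_nonneg k2.le (sq_nonneg _)
  rcases h0 with h | h
  · have : c * s * (c ^ 2 * (α - γ) - s ^ 2 * (β - γ)) * y₁ ^ 2 < 0 :=
      mul_neg_of_neg_of_pos k1 (by positivity)
    linarith
  · have : c * s * (s ^ 2 * (α - γ) - c ^ 2 * (β - γ)) * y₂ ^ 2 < 0 :=
      mul_neg_of_neg_of_pos k2 (by positivity)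
    linarith

/-- By `sum_L12` and `L12_neg` there is `k` with `L12 ≥ 0`, `y_k ≠ 0` (if all `y_k = 0` then `X = 0`,
`x = 0`), so that `y₁ y₂ > 0`; both are positive, since `v_k = π y_k`, `π₁₂ > 0` and `v_k ≥ 0`. -/
theorem exists_good {N : ℕ} {a e₁ e₂ c s x z : ℝ} {y₁ y₂ X Z : Fin N → ℝ} (ha : 0 < a)
    (ha' : 2 * a < 1) (he₂ : 0 < e₂) (he : e₂ < e₁) (hc : 0 < c) (hs : 0 < s)
    (D : RDat c s x z y₁ y₂ X Z) (hx : x = e₁ ^ (2 + 2 * a)) (hz : z = e₂ ^ (2 + 2 * a)) :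
    ∃ k, 0 < c * (X k / e₁ ^ (2 * a)) - s * (Z k / e₂ ^ (2 * a)) ∧
      0 < s * (X k / e₁ ^ (2 * a)) + c * (Z k / e₂ ^ (2 * a)) ∧
      0 ≤ L12 a e₁ e₂ c s (X k / e₁ ^ (2 * a)) (Z k / e₂ ^ (2 * a)) := by
  have he₁ : 0 < e₁ := he₂.trans he
  have hP : 0 < e₁ ^ (2 * a) := Real.rpow_pos_of_pos he₁ _
  have hR : 0 < e₂ ^ (2 * a) := Real.rpow_pos_of_pos he₂ _
  have hPR : e₂ ^ (2 * a) < e₁ ^ (2 * a) := Real.rpow_lt_rpow he₂.le he (by linarith)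
  have hsum := sum_L12 (a := a) he₁ he₂ D hx hz
  -- some column is not decreasing
  have hex : ∃ k, (c * (X k / e₁ ^ (2 * a)) - s * (Z k / e₂ ^ (2 * a)) ≠ 0 ∨
      s * (X k / e₁ ^ (2 * a)) + c * (Z k / e₂ ^ (2 * a)) ≠ 0) ∧
      0 ≤ L12 a e₁ e₂ c s (X k / e₁ ^ (2 * a)) (Z k / e₂ ^ (2 * a)) := by
    by_contra hcon
    push Not at hcon
    have hle : ∀ k, L12 a e₁ e₂ c s (X k / e₁ ^ (2 * a)) (Z k / e₂ ^ (2 * a)) ≤ 0 := by
      intro k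
      by_cases h : (c * (X k / e₁ ^ (2 * a)) - s * (Z k / e₂ ^ (2 * a)) ≠ 0 ∨
        s * (X k / e₁ ^ (2 * a)) + c * (Z k / e₂ ^ (2 * a)) ≠ 0)
      · exact (hcon k h).le
      · push Not at h
        obtain ⟨g1, g2⟩ := h
        have gX : X k / e₁ ^ (2 * a) = 0 := by
          linear_combination c * g1 + s * g2 - (X k / e₁ ^ (2 * a)) * D.hcs
        have gZ : Z k / e₂ ^ (2 * a) = 0 := by
          linear_combination c * g2 - s * g1 - (Z k / e₂ ^ (2 * a)) * D.hcs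
        rw [gX, gZ]
        simp [L12]
    have hall := (Finset.sum_eq_zero_iff_of_nonpos fun k _ => hle k).1 hsum
    have hX0 : ∀ k, X k = 0 := by
      intro k
      have hk := hall k (Finset.mem_univ k)
      by_contra hne
      have h : (c * (X k / e₁ ^ (2 * a)) - s * (Z k / e₂ ^ (2 * a)) ≠ 0 ∨
        s * (X k / e₁ ^ (2 * a)) + c * (Z k / e₂ ^ (2 * a)) ≠ 0) := by
        by_contra hno
        push Not at hno
        obtain ⟨g1, g2⟩ := hno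
        have gX : X k / e₁ ^ (2 * a) = 0 := by
          linear_combination c * g1 + s * g2 - (X k / e₁ ^ (2 * a)) * D.hcs
        rw [div_eq_zero_iff] at gX
        rcases gX with g | g
        · exact hne g
        · exact hP.ne' g
      have := hcon k h
      rw [hk] at this
      exact lt_irrefl _ this
    have : x = 0 := by
      rw [← D.hX]
      exact Finset.sum_eq_zero fun k _ => by rw [hX0 k]; ring
    have hx0 : 0 < x := by rw [hx]; exact Real.rpow_pos_of_pos he₁ _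
    linarith
  obtain ⟨k, hk0, hk⟩ := hex
  set x1 := X k / e₁ ^ (2 * a) with hx1
  set z1 := Z k / e₂ ^ (2 * a) with hz1
  have hpos : 0 < (c * x1 - s * z1) * (s * x1 + c * z1) := by
    by_contra hcon
    push Not at hcon
    have := L12_neg ha ha' he₂ he hc hs D.hcs hcon hk0
    linarith
  rcases pos_and_pos_or_neg_and_neg_of_mul_pos hpos with ⟨g1, g2⟩ | ⟨g1, g2⟩
  · exact ⟨k, g1, g2, hk⟩
  · exfalso
    have hv : 0 ≤ c * X k - s * Z k := by rw [← D.hy₁]; exact D.h₁ k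
    have hXk : X k = e₁ ^ (2 * a) * x1 := by rw [hx1]; field_simp
    have hZk : Z k = e₂ ^ (2 * a) * z1 := by rw [hz1]; field_simp
    have e : c * X k - s * Z k =
        (c ^ 2 * e₁ ^ (2 * a) + s ^ 2 * e₂ ^ (2 * a)) * (c * x1 - s * z1) +
        c * s * (e₁ ^ (2 * a) - e₂ ^ (2 * a)) * (s * x1 + c * z1) := by
      rw [hXk, hZk]
      linear_combination (-(c * e₁ ^ (2 * a) * x1) + s * e₂ ^ (2 * a) * z1) * D.hcs
    have m1 : (c ^ 2 * e₁ ^ (2 * a) + s ^ 2 * e₂ ^ (2 * a)) * (c * x1 - s * z1) < 0 :=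
      mul_neg_of_pos_of_neg (by positivity) g1
    have m2 : c * s * (e₁ ^ (2 * a) - e₂ ^ (2 * a)) * (s * x1 + c * z1) < 0 :=
      mul_neg_of_pos_of_neg (mul_pos (mul_pos hc hs) (by linarith)) g2
    linarith

theorem G8_sqrt {r : ℝ} (hr : 0 < r) (b : ℝ) : (√r) ^ (2 * b) = r ^ b := by
  rw [Real.sqrt_eq_rpow, ← Real.rpow_mul hr.le]
  congr 1
  ring

theorem G8_kk {a e₁ e₂ r : ℝ} (he₁ : 0 < e₁) (he₂ : 0 < e₂) (hr : 0 < r) :
    kk a (√r * e₁) (√r * e₂) = r * kk a e₁ e₂ := by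
  have hsr : 0 < √r := Real.sqrt_pos.2 hr
  have hsq : √r ^ 2 = r := Real.sq_sqrt hr.le
  unfold kk
  by_cases h : e₁ = e₂
  · rw [if_pos (by rw [h]), if_pos h, mul_pow, hsq]
    ring
  · rw [if_neg (fun h' => h (mul_left_cancel₀ hsr.ne' h')), if_neg h,
      Real.mul_rpow hsr.le he₁.le, Real.mul_rpow hsr.le he₂.le, G8_sqrt hr, mul_pow, mul_pow, hsq]
    have hra : 0 < r ^ a := Real.rpow_pos_of_pos hr _
    rw [show (r * e₁ ^ 2 - r * e₂ ^ 2) * (r ^ a * e₁ ^ (2 * a) + r ^ a * e₂ ^ (2 * a)) =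
        r ^ a * (r * ((e₁ ^ 2 - e₂ ^ 2) * (e₁ ^ (2 * a) + e₂ ^ (2 * a)))) by ring,
      show r ^ a * e₁ ^ (2 * a) - r ^ a * e₂ ^ (2 * a) =
        r ^ a * (e₁ ^ (2 * a) - e₂ ^ (2 * a)) by ring,
      mul_div_mul_left _ _ hra.ne', mul_div_assoc]

/-- homogeneity: `√r ε` -/
theorem Dm_smul {a e₁ e₂ c s r : ℝ} (ha : 0 < a) (he₁ : 0 < e₁) (he₂ : 0 < e₂) (hr : 0 < r) :
    Dm a (√r * e₁) (√r * e₂) c s = r * Dm a e₁ e₂ c s := by
  have hsq : √r ^ 2 = r := Real.sq_sqrt hr.le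
  unfold Dm
  rw [G8_kk he₁ he₂ hr, mul_pow √r e₁, mul_pow √r e₂, hsq]
  ring

theorem L12_smul {a e₁ e₂ c s X Z r u : ℝ} (ha : 0 < a) (he₂ : 0 < e₂) (he : e₂ < e₁)
    (hr : 0 < r) :
    L12 a (√r * e₁) (√r * e₂) c s (u * X) (u * Z) =
      r ^ (a - 1) * u ^ 2 * L12 a e₁ e₂ c s X Z := by
  have he₁ : 0 < e₁ := he₂.trans he
  have hsr : 0 < √r := Real.sqrt_pos.2 hr
  have hsq : √r ^ 2 = r := Real.sq_sqrt hr.le
  have h2 : (√r) ^ (2 * a - 2) = r ^ (a - 1) := by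
    rw [← G8_sqrt hr (a - 1)]
    congr 1
    ring
  have h3 : r ^ a = r ^ (a - 1) * r := by
    rw [← Real.rpow_add_one hr.ne' (a - 1)]
    congr 1
    ring
  have hd : e₁ ^ 2 - e₂ ^ 2 ≠ 0 := by
    have : 0 < e₁ ^ 2 - e₂ ^ 2 := by nlinarith
    exact this.ne'
  unfold L12
  rw [Real.mul_rpow hsr.le he₁.le, Real.mul_rpow hsr.le he₂.le, Real.mul_rpow hsr.le he₁.le,
    Real.mul_rpow hsr.le he₂.le, G8_sqrt hr, h2, mul_pow, mul_pow, mul_pow, mul_pow, hsq, h3]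
  field_simp

end Pool.Agent.LibSchG
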