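import Pool.Agent.LibSchG.G4a

/-! **H0.**  Hoelder's inequality for the Schatten norms, norming elements with the exact norm. -/

open Matrix
open scoped ComplexOrder

namespace Pool.Agent.LibSchG

open Pool.Agent.LibSchP Pool.Agent.LibSchA

/-- `|Re tr(Gᴴ S)| ≤ ‖G‖_p ‖S‖_q` -/
theorem trace_holder {m n : Type} [Fintype m] [Fintype n] [DecidableEq m] [DecidableEq n]
    (p q : ℝ) (hpq : p.HolderConjugate q) (G S : Matrix m n ℂ) :
    (trace (Gᴴ * S)).re ≤ LibSch.sn p G * LibSch.sn q S := by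
  have hp0 := hpq.pos
  have hq0 := hpq.symm.pos
  rcases (sn_nonneg' p G).eq_or_lt with h | hG
  · have h1 : LibSch.pw p G = 0 := by
      rw [← sn_pow p hp0 G, ← h, Real.zero_rpow hp0.ne']
    have h2 : G = 0 := (pw_eq_zero' p hp0 G).1 h1
    rw [h2, conjTranspose_zero, Matrix.zero_mul, Matrix.trace_zero, Complex.zero_re]
    exact mul_nonneg (sn_nonneg' _ _) (sn_nonneg' _ _)
  rcases (sn_nonneg' q S).eq_or_lt with h | hS
  · have h1 : LibSch.pw q S = 0 := by
      rw [← sn_pow q hq0 S, ← h, Real.zero_rpow hq0.ne']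
    have h2 : S = 0 := (pw_eq_zero' q hq0 S).1 h1
    rw [h2, Matrix.mul_zero, Matrix.trace_zero, Complex.zero_re]
    exact mul_nonneg (sn_nonneg' _ _) (sn_nonneg' _ _)
  set u := LibSch.sn p G with hu
  set v := LibSch.sn q S with hv
  have h := trace_young' p q hpq (((u⁻¹ : ℝ) : ℂ) • G) (((v⁻¹ : ℝ) : ℂ) • S)
  rw [pw_smul' p hp0 _ (inv_pos.2 hG).le, pw_smul' q hq0 _ (inv_pos.2 hS).le,
    ← sn_pow p hp0 G, ← sn_pow q hq0 S, ← hu, ← hv, ← Real.mul_rpow (inv_pos.2 hG).le hG.le,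
    ← Real.mul_rpow (inv_pos.2 hS).le hS.le, inv_mul_cancel₀ hG.ne', inv_mul_cancel₀ hS.ne',
    Real.one_rpow, Real.one_rpow] at h
  have h1 : 1 / p + 1 / q = 1 := by
    rw [one_div, one_div]; exact hpq.inv_add_inv_eq_one
  rw [h1, conjTranspose_smul, Matrix.smul_mul, Matrix.mul_smul, smul_smul, trace_smul,
    smul_eq_mul] at h
  have h2 : star ((u⁻¹ : ℝ) : ℂ) * ((v⁻¹ : ℝ) : ℂ) = ((u⁻¹ * v⁻¹ : ℝ) : ℂ) := by
    rw [Complex.star_def, Complex.conj_ofReal]; push_cast; rfl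
  rw [h2, Complex.re_ofReal_mul] at h
  have h3 : (trace (Gᴴ * S)).re = u * v * (u⁻¹ * v⁻¹ * (trace (Gᴴ * S)).re) := by
    field_simp
  rw [h3]
  calc u * v * (u⁻¹ * v⁻¹ * (trace (Gᴴ * S)).re) ≤ u * v * 1 := by
        apply mul_le_mul_of_nonneg_left h (by positivity)
    _ = u * v := mul_one _

/-- norming element with the exact norm -/
theorem norming_eq {m : Type} [Fintype m] [DecidableEq m] [Nonempty m] (p q : ℝ)
    (hpq : p.HolderConjugate q) (T : Matrix m m ℂ) (y : ℝ) (hy : 0 ≤ y) :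
    ∃ S : Matrix m m ℂ, LibSch.pw q S = y ^ q ∧ (trace (Sᴴ * T)).re = y * LibSch.sn p T := by
  have hp0 := hpq.pos
  have hq0 := hpq.symm.pos
  rcases (sn_nonneg' p T).eq_or_lt with h | hT
  · have h1 : LibSch.pw p T = 0 := by
      rw [← sn_pow p hp0 T, ← h, Real.zero_rpow hp0.ne']
    have h2 : T = 0 := (pw_eq_zero' p hp0 T).1 h1
    obtain ⟨i₀⟩ := ‹Nonempty m›
    refine ⟨ud 1 (fun i => if i = i₀ then y else 0), ?_, ?_⟩
    · rw [pw_udg q hq0 1 (one_mem _) _ (fun i => by split_ifs <;> simp [hy])]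
      rw [Finset.sum_eq_single i₀]
      · simp
      · intro b _ hb
        simp [hb, Real.zero_rpow hq0.ne']
      · intro h; exact absurd (Finset.mem_univ _) h
    · rw [← h, h2, Matrix.mul_zero, Matrix.trace_zero, Complex.zero_re, mul_zero]
  · obtain ⟨S, hS, hST⟩ := norming' p q hpq T y hy
    refine ⟨S, le_antisymm hS ?_, hST⟩
    have h1 := trace_holder q p hpq.symm S T
    rw [hST] at h1
    have h2 : y ≤ LibSch.sn q S := le_of_mul_le_mul_right h1 hT
    rw [← sn_pow q hq0 S]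
    exact Real.rpow_le_rpow hy h2 hq0.le

end Pool.Agent.LibSchG
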