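import Pool.Agent.LibSchG.G7e
import Pool.Agent.LibSchG.G8
import Pool.Agent.LibSchG.H0

/-! **G9a.**  A minimiser with three pairwise non-parallel columns has `ρ ≥ 1`. -/

open Matrix
open scoped ComplexOrder

namespace Pool.Agent.LibSchG

open Pool.Agent.LibSchP Pool.Agent.LibSchA

variable {N : ℕ} {m : Type} [Fintype m] [DecidableEq m] {p a ρ c s x z : ℝ}
    {A B : Fin N → Matrix m m ℂ} {X Z : Fin N → ℝ} {W : Matrix (m ⊕ m) (m ⊕ m) ℂ}
    {ν : m ⊕ m → ℝ}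

/-- Let `e₁ = x^(p/4)`, `e₂ = z^(p/4)` (`x = e₁^(2+2a)`, `z = e₂^(2+2a)`), `k` the column of
`exists_good`, `X' = ρ^(-a) X_k/e₁^(2a)`, `Z' = ρ^(-a) Z_k/e₂^(2a)`, and `A', B'` the matrices of
`LibSchA.norming'` for `A k`, `B k` and the values `c X' - s Z'`, `s X' + c Z'`.  `hG` at
`√ρ e₁, √ρ e₂` (`L12_smul`, `Dm_smul`, `stat`) gives
`cE W (μ^(2a)) A' B' ≤ X'² (√ρ e₁)^(2a) + Z'² (√ρ e₂)^(2a) = ρ^(-a) V₀`,
`V₀ = X_k²/e₁^(2a) + Z_k²/e₂^(2a) > 0`, and `2 Re tr (A'ᴴ A_k) + 2 Re tr (B'ᴴ B_k) = 2 ρ^(-a) V₀`.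
`col_affine` (`f = μ^a = ν^((2-p)/4)`, `mul_Yc`, `fr_root`) and `col_p`:
`2 ρ^(-a) V₀ - ρ^(-a) V₀ ≤ fr Y_k = ρ V₀`, so `1 ≤ ρ^(1+a)`. -/
theorem main_min (hG : SColAll a) (H : Min p a ρ c s x z A B X Z W ν) (i j k : Fin N)
    (hij : LibSch.sn p (A i) * LibSch.sn p (B j) ≠ LibSch.sn p (A j) * LibSch.sn p (B i))
    (hik : LibSch.sn p (A i) * LibSch.sn p (B k) ≠ LibSch.sn p (A k) * LibSch.sn p (B i))
    (hjk : LibSch.sn p (A j) * LibSch.sn p (B k) ≠ LibSch.sn p (A k) * LibSch.sn p (B j)) :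
    1 ≤ ρ := by
  obtain ⟨hp1, hp2, hpa⟩ := g4b_hp H
  have hp0 : 0 < p := by linarith
  have ha := H.ha
  have ha' := H.ha'
  have hz0 := H.hz
  have hx0 : 0 < x := hz0.trans H.hzx
  have hρ := H.hρ
  obtain ⟨r1, r2, r3⟩ := stat H i j k hij hik hjk
  set e₁ := x ^ (p / 4) with he₁
  set e₂ := z ^ (p / 4) with he₂
  have he₁0 : 0 < e₁ := Real.rpow_pos_of_pos hx0 _
  have he₂0 : 0 < e₂ := Real.rpow_pos_of_pos hz0 _
  have he : e₂ < e₁ := Real.rpow_lt_rpow hz0.le H.hzx (by positivity)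
  have hexp : p / 4 * (2 + 2 * a) = 1 := by
    have : p * (1 + a) = 2 := by rw [H.hp]; field_simp
    linear_combination this / 2
  have hx : x = e₁ ^ (2 + 2 * a) := by
    rw [he₁, ← Real.rpow_mul hx0.le, hexp, Real.rpow_one]
  have hz : z = e₂ ^ (2 + 2 * a) := by
    rw [he₂, ← Real.rpow_mul hz0.le, hexp, Real.rpow_one]
  obtain ⟨l, hy1, hy2, hL⟩ := exists_good ha ha' he₂0 he H.hc H.hs H.D hx hz
  have hm : Nonempty m := by
    by_contra hm
    rw [not_nonempty_iff] at hm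
    have h1 : ∀ T : Matrix m m ℂ, LibSch.sn p T = 0 := by
      intro T
      have : LibSch.pw p T = 0 := by
        rw [pw_eq_zero' p hp0]
        ext i
        exact (hm.false i).elim
      rw [LibSch.sn, this, Real.zero_rpow (by positivity)]
    exact hij (by rw [h1, h1, h1, h1])
  set q := p / (p - 1) with hq
  have hpq : p.HolderConjugate q := Real.HolderConjugate.conjExponent (by linarith)
  have hqa : q = 2 / (1 - a) := by
    have h9 : p - 1 ≠ 0 := by linarith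
    have h11 : 1 - a ≠ 0 := by linarith
    rw [hq, div_eq_div_iff h9 h11]
    linear_combination hpa
  set u := ρ ^ (-a) with hu
  have hu0 : 0 < u := Real.rpow_pos_of_pos hρ _
  set X' := u * (X l / e₁ ^ (2 * a)) with hX'
  set Z' := u * (Z l / e₂ ^ (2 * a)) with hZ'
  have hy1' : 0 < c * X' - s * Z' := by
    have : c * X' - s * Z' = u * (c * (X l / e₁ ^ (2 * a)) - s * (Z l / e₂ ^ (2 * a))) := by
      rw [hX', hZ']; ring
    rw [this]; positivity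
  have hy2' : 0 < s * X' + c * Z' := by
    have : s * X' + c * Z' = u * (s * (X l / e₁ ^ (2 * a)) + c * (Z l / e₂ ^ (2 * a))) := by
      rw [hX', hZ']; ring
    rw [this]; positivity
  obtain ⟨A', hA', hAt⟩ := norming_eq p q hpq (A l) (c * X' - s * Z') hy1'.le
  obtain ⟨B', hB', hBt⟩ := norming_eq p q hpq (B l) (s * X' + c * Z') hy2'.le
  have hsρ : 0 < √ρ := Real.sqrt_pos.2 hρ
  have hsq : √ρ ^ 2 = ρ := Real.sq_sqrt hρ.le
  have key := hG (√ρ * e₁) (√ρ * e₂) c s X' Z' (by positivity)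
    (mul_lt_mul_of_pos_left he hsρ) H.hc H.hs H.D.hcs hy1' hy2'
    (by
      rw [hX', hZ', L12_smul ha he₂0 he hρ]
      have := Real.rpow_pos_of_pos hρ (a - 1)
      positivity)
    q m hqa A' B' hA' hB' W H.hW (fun i => ν i ^ (p / 4))
    (fun i => Real.rpow_nonneg (H.hν i) _)
    (by rw [r1, mul_pow, mul_pow, hsq]; ring)
    (by rw [r2, mul_pow, mul_pow, hsq]; ring)
    (by rw [Dm_smul ha he₁0 he₂0 hρ]; exact r3)
  -- the value of the right side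
  have hrpow : ∀ e : ℝ, 0 < e → (√ρ * e) ^ (2 * a) = ρ ^ a * e ^ (2 * a) := by
    intro e he
    rw [Real.mul_rpow hsρ.le he.le]
    congr 1
    rw [Real.sqrt_eq_rpow, ← Real.rpow_mul hρ.le]
    congr 1
    ring
  have huρ : u * ρ ^ a = 1 := by
    rw [hu, ← Real.rpow_add hρ, neg_add_cancel, Real.rpow_zero]
  have hE1 : 0 < e₁ ^ (2 * a) := Real.rpow_pos_of_pos he₁0 _
  have hE2 : 0 < e₂ ^ (2 * a) := Real.rpow_pos_of_pos he₂0 _
  set V₀ := X l ^ 2 / e₁ ^ (2 * a) + Z l ^ 2 / e₂ ^ (2 * a) with hV₀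
  have hval : X' ^ 2 * (√ρ * e₁) ^ (2 * a) + Z' ^ 2 * (√ρ * e₂) ^ (2 * a) = u * V₀ := by
    rw [hrpow e₁ he₁0, hrpow e₂ he₂0, hX', hZ', hV₀]
    have : (u * (X l / e₁ ^ (2 * a))) ^ 2 * (ρ ^ a * e₁ ^ (2 * a)) +
        (u * (Z l / e₂ ^ (2 * a))) ^ 2 * (ρ ^ a * e₂ ^ (2 * a)) =
        (u * ρ ^ a) * u * (X l ^ 2 / e₁ ^ (2 * a) + Z l ^ 2 / e₂ ^ (2 * a)) := by
      field_simp
    rw [this, huρ, one_mul]
  rw [hval] at key
  -- the affine bound
  have hMa : (fun i => (ν i ^ (p / 4)) ^ a) = fun i => ν i ^ ((2 - p) / 4) := by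
    funext i
    rw [← Real.rpow_mul (H.hν i)]
    congr 1
    rw [hpa]
    ring
  have haff := col_affine (fromRows (A l) (B l)) (fromRows A' B') W H.hW
    (fun i => ν i ^ ((2 - p) / 4)) (fun i => ν i ^ ((p - 2) / 4)) (mul_Yc H l)
  have hfr := fr_root a W H.hW (fun i => ν i ^ (p / 4)) (fun i => Real.rpow_nonneg (H.hν i) _) A' B'
  rw [hMa] at hfr
  rw [hfr] at haff
  have htr : (trace ((fromRows A' B')ᴴ * fromRows (A l) (B l))).re =
      (trace (A'ᴴ * A l)).re + (trace (B'ᴴ * B l)).re := by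
    rw [Matrix.conjTranspose_fromRows_eq_fromCols_conjTranspose, Matrix.fromCols_mul_fromRows,
      Matrix.trace_add, Complex.add_re]
  have htr2 : (trace (A'ᴴ * A l)).re + (trace (B'ᴴ * B l)).re = u * V₀ := by
    rw [hAt, hBt, H.D.hy₁ l, H.D.hy₂ l, hX', hZ', hV₀]
    have hcs := H.D.hcs
    field_simp
    linear_combination (X l ^ 2 * e₂ ^ (2 * a) + Z l ^ 2 * e₁ ^ (2 * a)) * hcs
  rw [htr, htr2] at haff
  have hcol := col_p H l
  have hVx : X l ^ 2 * x ^ (p / 2 - 1) + Z l ^ 2 * z ^ (p / 2 - 1) = V₀ := by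
    have h1 : ∀ y : ℝ, 0 < y → y ^ (p / 2 - 1) = ((y ^ (p / 4)) ^ (2 * a))⁻¹ := by
      intro y hy
      rw [← Real.rpow_mul hy.le, ← Real.rpow_neg hy.le]
      congr 1
      linear_combination (-1 / 2) * hpa
    rw [h1 x hx0, h1 z hz0, ← he₁, ← he₂, hV₀]
    simp only [div_eq_mul_inv]
  rw [hVx] at hcol
  have hV₀0 : 0 < V₀ := by
    by_contra hneg
    have h1 : 0 ≤ X l ^ 2 / e₁ ^ (2 * a) := by positivity
    have h2 : 0 ≤ Z l ^ 2 / e₂ ^ (2 * a) := by positivity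
    have h3 : X l ^ 2 / e₁ ^ (2 * a) = 0 := by linarith [not_lt.1 hneg]
    have h4 : Z l ^ 2 / e₂ ^ (2 * a) = 0 := by linarith [not_lt.1 hneg]
    have h5 : X l = 0 := by
      rcases div_eq_zero_iff.1 h3 with h | h
      · exact pow_eq_zero_iff (two_ne_zero) |>.1 h
      · exact absurd h hE1.ne'
    have h6 : Z l = 0 := by
      rcases div_eq_zero_iff.1 h4 with h | h
      · exact pow_eq_zero_iff (two_ne_zero) |>.1 h
      · exact absurd h hE2.ne'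
    rw [h5, h6] at hy1
    simp at hy1
  have hfin : u * V₀ ≤ ρ * V₀ := by
    have h7 : 2 * (u * V₀) - cE W (fun i => (ν i ^ (p / 4)) ^ (2 * a)) A' B' ≤ ρ * V₀ := by
      rw [← hcol]; exact haff
    linarith
  have hur : u ≤ ρ := le_of_mul_le_mul_right hfin hV₀0
  by_contra hlt
  have hlt' : ρ < 1 := not_le.1 hlt
  have h8 : 1 < u := by
    rw [hu]
    exact Real.one_lt_rpow_of_pos_of_lt_one_of_neg hρ hlt' (by linarith)
  linarith

end Pool.Agent.LibSchG
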