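import Pool.Agent.LibSchG.G4b
import Pool.Agent.LibSchG.G5d
import Pool.Agent.LibSchE.F

/-! **G9b.**  A minimiser with at most two directions of columns has `ρ ≥ 1`. -/

open Matrix
open scoped ComplexOrder

namespace Pool.Agent.LibSchG

open Pool.Agent.LibSchP Pool.Agent.LibSchA

variable {N : ℕ} {m : Type} [Fintype m] [DecidableEq m] {p a ρ c s x z : ℝ}
    {A B : Fin N → Matrix m m ℂ} {X Z : Fin N → ℝ} {W : Matrix (m ⊕ m) (m ⊕ m) ℂ}
    {ν : m ⊕ m → ℝ}

omit [DecidableEq m] in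
theorem G9b_fr_smul {n : Type} [Fintype n] (t : ℝ) (Y : Matrix (m ⊕ m) n ℂ) :
    fr ((t : ℂ) • Y) = t ^ 2 * fr Y := by
  unfold fr
  rw [Finset.mul_sum]
  refine Finset.sum_congr rfl fun i _ => ?_
  rw [Finset.mul_sum]
  refine Finset.sum_congr rfl fun j _ => ?_
  rw [Matrix.smul_apply, smul_eq_mul, norm_mul, Complex.norm_real, Real.norm_eq_abs, mul_pow,
    sq_abs]

omit [DecidableEq m] in
theorem G9b_col {N : ℕ} {l : Type} [Fintype l] (M : Matrix l (m ⊕ m) ℂ)
    (A B : Fin N → Matrix m m ℂ) (r : l) (q : Σ _ : Fin N, m) :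
    (M * LibSch.blk A B) r q = (M * fromRows (A q.1) (B q.1)) r q.2 := by
  rw [Matrix.mul_apply, Matrix.mul_apply]
  refine Finset.sum_congr rfl fun i _ => ?_
  rcases i with i | i <;> rfl

theorem G9b_mul {N : ℕ} (M U : Matrix (m ⊕ m) (m ⊕ m) ℂ) (A B : Fin N → Matrix m m ℂ)
    (h : ∀ k, M * (U * fromRows (A k) (B k)) = fromRows (A k) (B k)) :
    M * (U * LibSch.blk A B) = LibSch.blk A B := by
  ext r q
  rw [← Matrix.mul_assoc, G9b_col, Matrix.mul_assoc, h]
  obtain ⟨k, j⟩ := q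
  rcases r with r | r <;> rfl

omit [Fintype m] [DecidableEq m] in
theorem G9b_fromRows_smul (t : ℝ) (P Q : Matrix m m ℂ) :
    fromRows ((t : ℂ) • P) ((t : ℂ) • Q) = (t : ℂ) • fromRows P Q := by
  ext r j
  rcases r with r | r <;> rfl

/-- `cone_two` (for `u k = sn p (A k)`, `w k = sn p (B k)`; `det = x z > 0` by `H.D`) gives
`i, j, α, β`.  The two column matrix `S = (√α T_i, √β T_j) = M (√α Y_i, √β Y_j)` has by `young_p`,
`mul_Yc`, `col_p`, `pw_udg` and `pw p T = ρ (x^(p/2) + z^(p/2))`: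
`pw p S ≤ (1 - p/2) ρ (x^(p/2) + z^(p/2)) + (p/2) ρ (α (X_i² x^(p/2-1) + …) + β (…))`, and
`α X_i² + β X_j² = x`, `α Z_i² + β Z_j² = z` (rotate the three identities of `cone_two`), so
`pw p S ≤ ρ (x^(p/2) + z^(p/2))`.  `LibSchE.two_all` for `S` (columns indexed by `Fin 2`):
`pw p (comp S) ≤ pw p S`, and `pw p (comp S) = x^(p/2) + z^(p/2)` (`RDat` for the two columns
`√α v_i`, `√β v_j` with the same `c, s, x, z`, `mat_pw`; `sn_smul'`). -/
theorem main_degenerate (H : Min p a ρ c s x z A B X Z W ν)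
    (h3 : ∀ i j k : Fin N,
      LibSch.sn p (A i) * LibSch.sn p (B j) ≠ LibSch.sn p (A j) * LibSch.sn p (B i) →
      LibSch.sn p (A i) * LibSch.sn p (B k) ≠ LibSch.sn p (A k) * LibSch.sn p (B i) →
      LibSch.sn p (A j) * LibSch.sn p (B k) ≠ LibSch.sn p (A k) * LibSch.sn p (B j) → False) :
    1 ≤ ρ := by
  have ha := H.ha
  have ha' := H.ha'
  have hp := H.hp
  have hp0 : 0 < p := by rw [hp]; positivity
  have hp1 : 1 ≤ p := by rw [hp, le_div_iff₀ (by linarith)]; linarith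
  have hp2 : p ≤ 2 := by rw [hp, div_le_iff₀ (by linarith)]; linarith
  have hpa : 2 - p = a * p := by rw [hp]; field_simp; ring
  have hx : 0 < x := H.hz.trans H.hzx
  have hz := H.hz
  have D := H.D
  have hcs := D.hcs
  set u : Fin N → ℝ := fun k => LibSch.sn p (A k) with hu
  set w : Fin N → ℝ := fun k => LibSch.sn p (B k) with hw
  have hX' : ∀ k, X k = c * u k + s * w k := by
    intro k
    have e1 := D.hy₁ k
    have e2 := D.hy₂ k
    linear_combination (-(X k)) * hcs - c * e1 - s * e2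
  have hZ' : ∀ k, Z k = c * w k - s * u k := by
    intro k
    have e1 := D.hy₁ k
    have e2 := D.hy₂ k
    linear_combination (-(Z k)) * hcs + s * e1 - c * e2
  have hXs : ∑ l, X l ^ 2 = c ^ 2 * ∑ l, u l ^ 2 + 2 * c * s * ∑ l, u l * w l +
      s ^ 2 * ∑ l, w l ^ 2 := by
    rw [Finset.mul_sum, Finset.mul_sum, Finset.mul_sum, ← Finset.sum_add_distrib,
      ← Finset.sum_add_distrib]
    refine Finset.sum_congr rfl fun l _ => ?_
    rw [hX' l]
    ring
  have hZs : ∑ l, Z l ^ 2 = s ^ 2 * ∑ l, u l ^ 2 - 2 * c * s * ∑ l, u l * w l +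
      c ^ 2 * ∑ l, w l ^ 2 := by
    rw [Finset.mul_sum, Finset.mul_sum, Finset.mul_sum, ← Finset.sum_sub_distrib,
      ← Finset.sum_add_distrib]
    refine Finset.sum_congr rfl fun l _ => ?_
    rw [hZ' l]
    ring
  have hXZs : ∑ l, X l * Z l = -(c * s) * ∑ l, u l ^ 2 + (c ^ 2 - s ^ 2) * ∑ l, u l * w l +
      c * s * ∑ l, w l ^ 2 := by
    rw [Finset.mul_sum, Finset.mul_sum, Finset.mul_sum, ← Finset.sum_add_distrib,
      ← Finset.sum_add_distrib]
    refine Finset.sum_congr rfl fun l _ => ?_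
    rw [hX' l, hZ' l]
    ring
  rw [D.hX] at hXs
  rw [D.hZ] at hZs
  rw [D.hXZ] at hXZs
  have hdet : (∑ l, u l * w l) ^ 2 < (∑ l, u l ^ 2) * ∑ l, w l ^ 2 := by
    have h1 : x * z - 0 ^ 2 = ((∑ l, u l ^ 2) * ∑ l, w l ^ 2 - (∑ l, u l * w l) ^ 2) *
        (c ^ 2 + s ^ 2) ^ 2 := by
      rw [hXZs]
      nth_rewrite 1 [hXs]
      nth_rewrite 1 [hZs]
      ring
    rw [hcs] at h1
    have h2 : 0 < x * z := mul_pos hx hz
    nlinarith
  obtain ⟨i, j, α, β, hα, hβ, h11, h22, h12⟩ := cone_two u w hdet h3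
  rw [h11, h22, h12] at hXs hZs hXZs
  have hXe : α * X i ^ 2 + β * X j ^ 2 = x := by
    rw [hX' i, hX' j, hXs]; ring
  have hZe : α * Z i ^ 2 + β * Z j ^ 2 = z := by
    rw [hZ' i, hZ' j, hZs]; ring
  have hXZe : α * (X i * Z i) + β * (X j * Z j) = 0 := by
    rw [hX' i, hX' j, hZ' i, hZ' j, hXZs]; ring
  have hsα : √α ^ 2 = α := Real.sq_sqrt hα
  have hsβ : √β ^ 2 = β := Real.sq_sqrt hβ
  have hα0 := Real.sqrt_nonneg α
  have hβ0 := Real.sqrt_nonneg β
  -- the two columns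
  let A' : Fin 2 → Matrix m m ℂ := ![((√α : ℝ) : ℂ) • A i, ((√β : ℝ) : ℂ) • A j]
  let B' : Fin 2 → Matrix m m ℂ := ![((√α : ℝ) : ℂ) • B i, ((√β : ℝ) : ℂ) • B j]
  set U : Matrix (m ⊕ m) (m ⊕ m) ℂ := ud W (fun i => ν i ^ ((p - 2) / 4)) with hU
  set M : Matrix (m ⊕ m) (m ⊕ m) ℂ := ud W (fun i => ν i ^ ((2 - p) / 4)) with hM
  have hMU : ∀ k, M * (U * fromRows (A k) (B k)) = fromRows (A k) (B k) := fun k => mul_Yc H k
  have hMU' : ∀ k, M * (U * fromRows (A' k) (B' k)) = fromRows (A' k) (B' k) := by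
    intro k
    fin_cases k
    · show M * (U * fromRows (((√α : ℝ) : ℂ) • A i) (((√α : ℝ) : ℂ) • B i)) =
        fromRows (((√α : ℝ) : ℂ) • A i) (((√α : ℝ) : ℂ) • B i)
      rw [G9b_fromRows_smul, Matrix.mul_smul, Matrix.mul_smul, hMU]
    · show M * (U * fromRows (((√β : ℝ) : ℂ) • A j) (((√β : ℝ) : ℂ) • B j)) =
        fromRows (((√β : ℝ) : ℂ) • A j) (((√β : ℝ) : ℂ) • B j)
      rw [G9b_fromRows_smul, Matrix.mul_smul, Matrix.mul_smul, hMU]
  have hblk := G9b_mul M U A' B' hMU'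
  have hy := young_p ha hp M (U * LibSch.blk A' B')
  rw [hblk, fr_mul_blk] at hy
  -- the norm of `M`
  have hcomp : LibSch.pw p (LibSch.comp p A B) = x ^ (p / 2) + z ^ (p / 2) := by
    rw [comp_eq]
    exact mat_pw D p hp0
  have hpM : LibSch.pw (2 / a) M = ρ * (x ^ (p / 2) + z ^ (p / 2)) := by
    rw [hM, pw_udg (2 / a) (by positivity) W H.hW _ (fun i => Real.rpow_nonneg (H.hν i) _),
      ← hcomp, ← H.heq, pw_left p hp0 (LibSch.blk A B) W H.hW ν H.hν H.hT]
    refine Finset.sum_congr rfl fun i _ => ?_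
    rw [← Real.rpow_mul (H.hν i)]
    congr 1
    rw [hpa]
    field_simp
    ring
  have hpow : ∀ t : ℝ, 0 < t → t ^ (p / 2 - 1) * t = t ^ (p / 2) := by
    intro t ht
    have h1 := Real.rpow_add ht (p / 2 - 1) 1
    rw [Real.rpow_one, sub_add_cancel] at h1
    exact h1.symm
  have hfr : ∑ k, fr (U * fromRows (A' k) (B' k)) = ρ * (x ^ (p / 2) + z ^ (p / 2)) := by
    rw [Fin.sum_univ_two]
    have e1 : fr (U * fromRows (A' 0) (B' 0)) = α * fr (Yc p W ν (A i) (B i)) := by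
      show fr (U * fromRows (((√α : ℝ) : ℂ) • A i) (((√α : ℝ) : ℂ) • B i)) = _
      rw [G9b_fromRows_smul, Matrix.mul_smul, G9b_fr_smul, hsα]
      rfl
    have e2 : fr (U * fromRows (A' 1) (B' 1)) = β * fr (Yc p W ν (A j) (B j)) := by
      show fr (U * fromRows (((√β : ℝ) : ℂ) • A j) (((√β : ℝ) : ℂ) • B j)) = _
      rw [G9b_fromRows_smul, Matrix.mul_smul, G9b_fr_smul, hsβ]
      rfl
    rw [e1, e2, col_p H i, col_p H j]
    have e3 : α * (ρ * (X i ^ 2 * x ^ (p / 2 - 1) + Z i ^ 2 * z ^ (p / 2 - 1))) +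
        β * (ρ * (X j ^ 2 * x ^ (p / 2 - 1) + Z j ^ 2 * z ^ (p / 2 - 1))) =
        ρ * (x ^ (p / 2 - 1) * (α * X i ^ 2 + β * X j ^ 2) +
          z ^ (p / 2 - 1) * (α * Z i ^ 2 + β * Z j ^ 2)) := by ring
    rw [e3, hXe, hZe, hpow x hx, hpow z hz]
  rw [hpM, hfr] at hy
  have hy2 : LibSch.pw p (LibSch.blk A' B') ≤ ρ * (x ^ (p / 2) + z ^ (p / 2)) := by
    refine hy.trans (le_of_eq ?_)
    ring
  -- the compression
  have hcomp' : LibSch.pw p (LibSch.comp p A' B') = x ^ (p / 2) + z ^ (p / 2) := by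
    rw [comp_eq]
    have hA' : (fun k => LibSch.sn p (A' k)) = ![√α * u i, √β * u j] := by
      funext k
      fin_cases k
      · exact sn_smul' p hp0 _ hα0 (A i)
      · exact sn_smul' p hp0 _ hβ0 (A j)
    have hB' : (fun k => LibSch.sn p (B' k)) = ![√α * w i, √β * w j] := by
      funext k
      fin_cases k
      · exact sn_smul' p hp0 _ hα0 (B i)
      · exact sn_smul' p hp0 _ hβ0 (B j)
    rw [hA', hB']
    have D' : RDat c s x z ![√α * u i, √β * u j] ![√α * w i, √β * w j]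
        ![√α * X i, √β * X j] ![√α * Z i, √β * Z j] :=
      { hc := D.hc
        hs := D.hs
        hcs := hcs
        hy₁ := by
          intro k
          fin_cases k
          · show √α * u i = c * (√α * X i) - s * (√α * Z i)
            rw [D.hy₁ i]; ring
          · show √β * u j = c * (√β * X j) - s * (√β * Z j)
            rw [D.hy₁ j]; ring
        hy₂ := by
          intro k
          fin_cases k
          · show √α * w i = s * (√α * X i) + c * (√α * Z i)
            rw [D.hy₂ i]; ring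
          · show √β * w j = s * (√β * X j) + c * (√β * Z j)
            rw [D.hy₂ j]; ring
        hX := by
          rw [Fin.sum_univ_two]
          show (√α * X i) ^ 2 + (√β * X j) ^ 2 = x
          rw [mul_pow, mul_pow, hsα, hsβ]; exact hXe
        hZ := by
          rw [Fin.sum_univ_two]
          show (√α * Z i) ^ 2 + (√β * Z j) ^ 2 = z
          rw [mul_pow, mul_pow, hsα, hsβ]; exact hZe
        hXZ := by
          rw [Fin.sum_univ_two]
          show (√α * X i) * (√α * Z i) + (√β * X j) * (√β * Z j) = 0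
          rw [← hXZe]
          linear_combination (X i * Z i) * hsα + (X j * Z j) * hsβ
        hz := D.hz
        h₁ := by
          intro k
          fin_cases k
          · exact mul_nonneg hα0 (D.h₁ i)
          · exact mul_nonneg hβ0 (D.h₁ j)
        h₂ := by
          intro k
          fin_cases k
          · exact mul_nonneg hα0 (D.h₂ i)
          · exact mul_nonneg hβ0 (D.h₂ j) }
    exact mat_pw D' p hp0
  have htwo := (LibSchE.two_all p hp1 A' B').1 hp1 hp2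
  have hΦ : 0 < x ^ (p / 2) + z ^ (p / 2) :=
    add_pos (Real.rpow_pos_of_pos hx _) (Real.rpow_pos_of_pos hz _)
  have h4 : LibSch.pw p (LibSch.comp p A' B') ≤ LibSch.pw p (LibSch.blk A' B') := by
    have h5 := Real.rpow_le_rpow (sn_nonneg' p _) htwo hp0.le
    rwa [sn_pow p hp0, sn_pow p hp0] at h5
  rw [hcomp'] at h4
  have h6 : 1 * (x ^ (p / 2) + z ^ (p / 2)) ≤ ρ * (x ^ (p / 2) + z ^ (p / 2)) := by
    rw [one_mul]; exact h4.trans hy2
  exact le_of_mul_le_mul_right h6 hΦ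

end Pool.Agent.LibSchG
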