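import Pool.Agent.LibSchG.G0

/-! **G9c.**  The degenerate Gram matrices. -/

open Matrix
open scoped ComplexOrder

namespace Pool.Agent.LibSchG

open Pool.Agent.LibSchP Pool.Agent.LibSchA

/-- `LibSchA.final_p` (`comp_eq`, `mat_rp`, `mat_re₀`, `mat_re₁` as there): the entries
`x^(-p/4) c X_k - z^(-p/4) s Z_k` and `x^(-p/4) s X_k + z^(-p/4) c Z_k` are nonnegative.
`z = 0`: `Z = 0` and `0 ^ (-p/4) = 0`; `c = 0` or `s = 0`: the entries are
multiples of `y₁`, `y₂`; `z = x`: the entries are `x^(-p/4) y₁`, `x^(-p/4) y₂`. -/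
theorem special {N : ℕ} {m : Type} [Fintype m] [DecidableEq m] {p c s x z : ℝ}
    (h1 : 4 / 3 < p) (h2 : p < 2) (A B : Fin N → Matrix m m ℂ) {X Z : Fin N → ℝ}
    (D : RDat c s x z (fun k => LibSch.sn p (A k)) (fun k => LibSch.sn p (B k)) X Z)
    (h : z ≤ 0 ∨ c = 0 ∨ s = 0 ∨ z = x) :
    LibSch.pw p (LibSch.comp p A B) ≤ LibSch.pw p (LibSch.blk A B) := by
  have hp0 : 0 < p := by linarith
  have hx0 : 0 ≤ x := by rw [← D.hX]; exact Finset.sum_nonneg fun k _ => sq_nonneg _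
  have hz0 : 0 ≤ z := by rw [← D.hZ]; exact Finset.sum_nonneg fun k _ => sq_nonneg _
  have hxr : 0 ≤ x ^ (-p / 4) := Real.rpow_nonneg hx0 _
  have hzr : 0 ≤ z ^ (-p / 4) := Real.rpow_nonneg hz0 _
  have g₁ : ∀ k, 0 ≤ c * X k - s * Z k := fun k => by rw [← D.hy₁ k]; exact D.h₁ k
  have g₂ : ∀ k, 0 ≤ s * X k + c * Z k := fun k => by rw [← D.hy₂ k]; exact D.h₂ k
  have key : ∀ k, 0 ≤ x ^ (-p / 4) * (c * X k) - z ^ (-p / 4) * (s * Z k) ∧
      0 ≤ x ^ (-p / 4) * (s * X k) + z ^ (-p / 4) * (c * Z k) := by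
    intro k
    have e₁ := g₁ k
    have e₂ := g₂ k
    rcases h with h | h | h | h
    · have hz : z = 0 := le_antisymm h hz0
      have hZk : Z k = 0 := by
        have h3 := (Finset.sum_eq_zero_iff_of_nonneg (fun j _ => sq_nonneg (Z j))).1
          (D.hZ.trans hz) k (Finset.mem_univ k)
        exact pow_eq_zero_iff two_ne_zero |>.1 h3
      rw [hZk] at e₁ e₂ ⊢
      simp only [mul_zero, sub_zero, add_zero] at e₁ e₂ ⊢
      exact ⟨mul_nonneg hxr e₁, mul_nonneg hxr e₂⟩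
    · rw [h] at e₁ e₂ ⊢
      simp only [zero_mul, mul_zero, zero_sub, add_zero] at e₁ e₂ ⊢
      exact ⟨by have := mul_nonneg hzr e₁; linarith, mul_nonneg hxr e₂⟩
    · rw [h] at e₁ e₂ ⊢
      simp only [zero_mul, mul_zero, sub_zero, zero_add] at e₁ e₂ ⊢
      exact ⟨mul_nonneg hxr e₁, mul_nonneg hzr e₂⟩
    · rw [h]
      refine ⟨?_, ?_⟩
      · have := mul_nonneg hxr e₁; linarith
      · have := mul_nonneg hxr e₂; linarith
  have hf := LibSchA.final_p p h1 h2 A B (fun i k => by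
    rw [comp_eq, mat_rp D]
    fin_cases i
    · rw [show ((⟨0, by omega⟩ : Fin 2)) = 0 from rfl, mat_re₀]; exact (key k).1
    · rw [show ((⟨1, by omega⟩ : Fin 2)) = 1 from rfl, mat_re₁]; exact (key k).2)
  have h5 := Real.rpow_le_rpow (sn_nonneg' p _) hf hp0.le
  rwa [sn_pow p hp0, sn_pow p hp0] at h5

end Pool.Agent.LibSchG
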