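import Pool.Agent.LibSchG.G1c
import Pool.Agent.LibSchG.G9a
import Pool.Agent.LibSchG.G9b
import Pool.Agent.LibSchG.G9c

/-! **G9d.**  All `N`, square blocks, `4/3 < p < 2`. -/

open Matrix
open scoped ComplexOrder

namespace Pool.Agent.LibSchG

open Pool.Agent.LibSchP Pool.Agent.LibSchA

/-- by contradiction: `exists_min`, `rdat_exists`, `special`, otherwise the structure `Min`
(`ud_exists_nonneg` for `T Tᴴ`), `main_min` or `main_degenerate`. -/
theorem square_p {N : ℕ} {m : Type} [Fintype m] [DecidableEq m] {p a : ℝ} (ha : 0 < a)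
    (ha' : 2 * a < 1) (hp : p = 2 / (1 + a)) (hG : SColAll a) (A B : Fin N → Matrix m m ℂ) :
    LibSch.pw p (LibSch.comp p A B) ≤ LibSch.pw p (LibSch.blk A B) := by
  have h1 : 4 / 3 < p := by
    rw [hp, lt_div_iff₀ (by linarith)]
    linarith
  have h2 : p < 2 := by
    rw [hp, div_lt_iff₀ (by linarith)]
    linarith
  by_contra hcon
  rw [not_le] at hcon
  obtain ⟨A₁, B₁, ρ, hρ, hρ1, hpos, heq, hmin⟩ := exists_min p (by linarith) h2 A B hcon
  obtain ⟨c, s, x, z, X, Z, D⟩ := rdat_exists (fun k => LibSch.sn p (A₁ k))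
    (fun k => LibSch.sn p (B₁ k)) (fun k => sn_nonneg' p (A₁ k)) (fun k => sn_nonneg' p (B₁ k))
  by_cases hsp : z ≤ 0 ∨ c = 0 ∨ s = 0 ∨ z = x
  · have h3 := special h1 h2 A₁ B₁ D hsp
    rw [heq] at h3
    nlinarith
  · push Not at hsp
    obtain ⟨hz, hc, hs, hzx⟩ := hsp
    have hpsd : (LibSch.blk A₁ B₁ * (LibSch.blk A₁ B₁)ᴴ).PosSemidef :=
      Matrix.posSemidef_self_mul_conjTranspose _
    obtain ⟨W, hW, ν, hν, hT⟩ := ud_exists_nonneg _ hpsd
    have H : Min p a ρ c s x z A₁ B₁ X Z W ν :=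
      { ha := ha
        ha' := ha'
        hp := hp
        hρ := hρ
        hmin := hmin
        heq := heq
        D := D
        hc := lt_of_le_of_ne D.hc (Ne.symm hc)
        hs := lt_of_le_of_ne D.hs (Ne.symm hs)
        hz := hz
        hzx := lt_of_le_of_ne D.hz hzx
        hW := hW
        hν := hν
        hT := hT }
    have h4 : 1 ≤ ρ := by
      by_cases h5 : ∃ i j k : Fin N,
          LibSch.sn p (A₁ i) * LibSch.sn p (B₁ j) ≠ LibSch.sn p (A₁ j) * LibSch.sn p (B₁ i) ∧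
          LibSch.sn p (A₁ i) * LibSch.sn p (B₁ k) ≠ LibSch.sn p (A₁ k) * LibSch.sn p (B₁ i) ∧
          LibSch.sn p (A₁ j) * LibSch.sn p (B₁ k) ≠ LibSch.sn p (A₁ k) * LibSch.sn p (B₁ j)
      · obtain ⟨i, j, k, hij, hik, hjk⟩ := h5
        exact main_min hG H i j k hij hik hjk
      · exact main_degenerate H fun i j k hij hik hjk => h5 ⟨i, j, k, hij, hik, hjk⟩
    exact absurd h4 (not_le.2 hρ1)

end Pool.Agent.LibSchG
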