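import Pool.Agent.LibSchG.G0

/-! **G9e.**  From square blocks to all sizes. -/

open Matrix
open scoped ComplexOrder

namespace Pool.Agent.LibSchG

open Pool.Agent.LibSchP Pool.Agent.LibSchA

private theorem G9e_pad {m n m' n' : Type} [Fintype m] [Fintype n] [DecidableEq n] [Fintype m']
    [Fintype n'] [DecidableEq n'] (p : ℝ) (hp : 0 < p) (M : Matrix m n ℂ) :
    LibSch.pw p (fromBlocks M (0 : Matrix m n' ℂ) (0 : Matrix m' n ℂ) 0) = LibSch.pw p M := by
  rw [LibSch.PwBasic_pw, LibSch.PwBasic_pw]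
  have h : (fromBlocks M (0 : Matrix m n' ℂ) (0 : Matrix m' n ℂ) 0)ᴴ *
      fromBlocks M (0 : Matrix m n' ℂ) (0 : Matrix m' n ℂ) 0 =
      fromBlocks (Mᴴ * M) 0 0 (0 : Matrix n' n' ℂ) := by
    rw [fromBlocks_conjTranspose, fromBlocks_multiply]
    simp
  unfold LibSch.PwBasic_S
  rw [h, charpoly_fromBlocks_zero₁₂, charpoly_zero, Polynomial.roots_mul
    (mul_ne_zero (charpoly_monic _).ne_zero (pow_ne_zero _ Polynomial.X_ne_zero)),
    Polynomial.roots_X_pow, Multiset.map_add, Multiset.sum_add, Multiset.map_nsmul,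
    Multiset.sum_nsmul, Multiset.map_singleton, Multiset.sum_singleton, Complex.zero_re,
    Real.zero_rpow (by positivity), smul_zero, add_zero]

/-- If `f : m ↪ m'` and `g : n ↪ n'` are injective and `T'` is the extension of `T` by zeros
(`T' (f i) (g j) = T i j` and `T' = 0` elsewhere), then `pw p T' = pw p T` for `p > 0`. -/
theorem pw_extend {m m' n n' : Type} [Fintype m] [DecidableEq m] [Fintype m'] [DecidableEq m']
    [Fintype n] [DecidableEq n] [Fintype n'] [DecidableEq n'] (p : ℝ) (hp : 0 < p)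
    (T : Matrix m n ℂ) (T' : Matrix m' n' ℂ) (f : m → m') (g : n → n')
    (hf : Function.Injective f) (hg : Function.Injective g) (h : ∀ i j, T' (f i) (g j) = T i j)
    (hl : ∀ i j, i ∉ Set.range f → T' i j = 0) (hr : ∀ i j, j ∉ Set.range g → T' i j = 0) :
    LibSch.pw p T' = LibSch.pw p T := by
  classical
  let e₁ : m ⊕ {i // i ∉ Set.range f} ≃ m' :=
    ((Equiv.ofInjective f hf).sumCongr (Equiv.refl _)).trans (Equiv.sumCompl (· ∈ Set.range f))
  let e₂ : n ⊕ {j // j ∉ Set.range g} ≃ n' :=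
    ((Equiv.ofInjective g hg).sumCongr (Equiv.refl _)).trans (Equiv.sumCompl (· ∈ Set.range g))
  have h1 : T'.submatrix e₁ e₂ = fromBlocks T 0 0 0 := by
    ext i j
    rcases i with i | i <;> rcases j with j | j
    · exact h i j
    · exact hr _ _ j.2
    · exact hl _ _ i.2
    · exact hl _ _ i.2
  rw [← LibSch.pw_submatrix p T' e₁ e₂, h1, G9e_pad p hp]

end Pool.Agent.LibSchG
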