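import Pool.Agent.LibSchG.N3
import Pool.Agent.LibSchG.G0
import Pool.Agent.LibSchK.K6

/-! **N0.**  The interface between the scalar inequalities and the noncommutative step
(`MP_9d9785_an`, single column inequality).

`b = 2 a`, `ε = R diag(e₁, e₂) Rᵀ = [x₀, h₀; h₀, y₀]`, `R = !![c, -s; s, c]`, `e₁ > e₂ > 0`,
`T = e₁ + e₂`, `D = e₁ - e₂`, `S = 2 c s`, `C = c² - s²`, `t = (D / T)²`. -/

open Matrix
open scoped ComplexOrder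

namespace Pool.Agent.LibSchG

open Pool.Agent.LibSchP Pool.Agent.LibSchA Pool.Agent.LibSchE

/-- `w - w₀` at the base (`L = log (e₁ / e₂)`) -/
noncomputable def wW (a e₁ e₂ : ℝ) : ℝ :=
  SchK.wf (2 * a) (Real.log (e₁ / e₂) / 2) - (4 - (2 * a) ^ 2) / (3 * (2 * a))

/-- the slope `B < 0` of the tangent line `A + B t` of `t / (w - w₀)` at the base -/
noncomputable def bB (a e₁ e₂ : ℝ) : ℝ :=
  3 * (2 * a) / ((1 - (2 * a) ^ 2) * (4 - (2 * a) ^ 2)) * SchK.F1 (2 * a) (Real.log (e₁ / e₂) / 2)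

/-- the constant `A` of the tangent line `A + B t` -/
noncomputable def aA (a e₁ e₂ : ℝ) : ℝ :=
  ((e₁ - e₂) / (e₁ + e₂)) ^ 2 * (1 / wW a e₁ e₂ - bB a e₁ e₂)

noncomputable def x0 (e₁ e₂ c s : ℝ) : ℝ := c ^ 2 * e₁ + s ^ 2 * e₂
noncomputable def y0 (e₁ e₂ c s : ℝ) : ℝ := s ^ 2 * e₁ + c ^ 2 * e₂
noncomputable def h0 (e₁ e₂ c s : ℝ) : ℝ := c * s * (e₁ - e₂)

/-- the constant of the trial matrix: `c s (w - w₀)` -/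
noncomputable def cc (a e₁ e₂ c s : ℝ) : ℝ := c * s * wW a e₁ e₂

/-- `x₀ y₀` times the denominator of `γ` -/
noncomputable def dN (a e₁ e₂ c s : ℝ) : ℝ :=
  8 * ((2 * ((4 - (2 * a) ^ 2) / (3 * (2 * a))) * h0 e₁ e₂ c s +
      2 * cc a e₁ e₂ c s * (e₁ - e₂) * ((c ^ 2 - s ^ 2) ^ 2 + 2 * (2 * c * s) ^ 2) -
      8 * cc a e₁ e₂ c s ^ 2 * bB a e₁ e₂ * h0 e₁ e₂ c s) * (x0 e₁ e₂ c s * y0 e₁ e₂ c s) +
    2 * cc a e₁ e₂ c s * (c ^ 2 - s ^ 2) ^ 2 * (e₁ - e₂) * h0 e₁ e₂ c s ^ 2 +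
    2 * cc a e₁ e₂ c s ^ 2 * h0 e₁ e₂ c s *
      (aA a e₁ e₂ * (e₁ + e₂) ^ 2 - bB a e₁ e₂ * (c ^ 2 - s ^ 2) ^ 2 * (e₁ - e₂) ^ 2))

/-- the multiplier `γ = k₃ / d₃` of the defect -/
noncomputable def gD (a e₁ e₂ c s X Z : ℝ) : ℝ :=
  2 * L12 a e₁ e₂ c s X Z * (e₁ + e₂) * (e₁ * e₂) / dN a e₁ e₂ c s

/-- the negative spring `p = 8 γ x₀ h₀ (c s (w - w₀)) C (1 + 2 c s (w - w₀) S (A - B))` -/
noncomputable def pS (a e₁ e₂ c s X Z : ℝ) : ℝ :=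
  8 * gD a e₁ e₂ c s X Z * x0 e₁ e₂ c s * h0 e₁ e₂ c s * cc a e₁ e₂ c s * (c ^ 2 - s ^ 2) *
    (1 + 2 * cc a e₁ e₂ c s * (2 * c * s) * (aA a e₁ e₂ - bB a e₁ e₂))

/-- the kernel of the column `y = X u₁ + Z u₂`, `u₁ = (c, s)`, `u₂ = (-s, c)` -/
noncomputable def kF (a e₁ e₂ c s X Z x y : ℝ) : ℝ :=
  ker a e₁ e₂ (c * X) (-(s * Z)) (s * X) (c * Z) x y

/-- `ρ₁₁ = ⟨(D ε^(2a))[y yᵀ]⟩₁₁` -/
noncomputable def r1 (a e₁ e₂ c s X Z : ℝ) : ℝ :=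
  ker a e₁ e₂ (c * X) (-(s * Z)) (c * X) (-(s * Z)) 1 1

/-- `ρ₂₂` -/
noncomputable def r2 (a e₁ e₂ c s X Z : ℝ) : ℝ :=
  ker a e₁ e₂ (s * X) (c * Z) (s * X) (c * Z) 1 1

/-- **the scalar statement for one column** -/
def ColOK (a e₁ e₂ c s X Z : ℝ) : Prop :=
  ∃ M P pt : ℝ, M + P = kF a e₁ e₂ c s X Z 1 1 ∧ 0 ≤ pt ∧
    pS a e₁ e₂ c s X Z * (r1 a e₁ e₂ c s X Z * x0 e₁ e₂ c s / 2 + pt) ≤
      r1 a e₁ e₂ c s X Z * x0 e₁ e₂ c s / 2 * pt ∧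
    HS (kF a e₁ e₂ c s X Z) (h0 e₁ e₂ c s) pt M P

/-- the increasing columns with `c ≥ s` (the other case follows by the mirror `(c,s,X,Z) ↦
(s,c,X,-Z)`) -/
structure Inc (a e₁ e₂ c s X Z : ℝ) : Prop where
  ha : 0 < a
  ha' : 2 * a < 1
  he₂ : 0 < e₂
  he : e₂ < e₁
  hs : 0 < s
  hsc : s ≤ c
  hcs : c ^ 2 + s ^ 2 = 1
  hv₁ : 0 < c * X - s * Z
  hv₂ : 0 < s * X + c * Z
  hL : 0 ≤ L12 a e₁ e₂ c s X Z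

end Pool.Agent.LibSchG
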