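import Pool.Agent.LibSchE.E5

/-! **N3.**  From the scalar inequality of one column to matrices. -/

open Matrix
open scoped ComplexOrder

namespace Pool.Agent.LibSchG

open Pool.Agent.LibSchP Pool.Agent.LibSchA Pool.Agent.LibSchE

/-- the scalar hypothesis of one column: `F` the kernel, `M`, `P` its derivatives at `(1,1)` -/
def HS (F : ℝ → ℝ → ℝ) (h₀ pt M P : ℝ) : Prop :=
  ∀ x y h : ℝ, 0 < x → 0 < y →
    pt * (x - h) ^ 2 ≤ h₀ * (M * x ^ 2 + P * y ^ 2 + (M + P) * h ^ 2 - 2 * F x y * h)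

theorem quad_cases {A B C : ℝ} (h : ∀ t : ℝ, 0 ≤ A * t ^ 2 + 2 * B * t + C) :
    0 ≤ A ∧ 0 ≤ C ∧ B ^ 2 ≤ A * C := by
  have hd := discrim_le_zero (a := A) (b := 2 * B) (c := C) (fun t => by
    have := h t
    linarith [this, sq t])
  unfold discrim at hd
  have hC : 0 ≤ C := by simpa using h 0
  have hA : 0 ≤ A := by
    by_contra hA
    push Not at hA
    have h1 := h 1
    have h2 := h (-1)
    have hB : B ^ 2 ≤ A * C := by nlinarith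
    have hB0 : B ^ 2 ≤ 0 := hB.trans (by nlinarith)
    have hB1 : B = 0 := by
      have := sq_nonneg B
      exact pow_eq_zero_iff (n := 2) (by norm_num) |>.mp (le_antisymm hB0 this)
    rw [hB1] at h
    have h3 := h (1 + C / (-A))
    have h4 : 0 ≤ C / (-A) := div_nonneg hC (by linarith)
    have h5 : A * (C / (-A)) = -C := by
      rw [div_neg, mul_neg, mul_div_cancel₀ _ hA.ne]
    nlinarith [mul_nonneg h4 h4]
  exact ⟨hA, hC, by nlinarith⟩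

/-- the pair inequality for complex entries -/
theorem HS.pair {F : ℝ → ℝ → ℝ} {h₀ pt M P : ℝ} (H : HS F h₀ pt M P) {x y : ℝ} (hx : 0 < x)
    (hy : 0 < y) (g z : ℂ) :
    pt * ‖(x : ℂ) * g - z‖ ^ 2 + 2 * h₀ * (F x y * (z * star g).re) ≤
      h₀ * (M * x ^ 2 + P * y ^ 2) * ‖g‖ ^ 2 + h₀ * (M + P) * ‖z‖ ^ 2 := by
  obtain ⟨hA, hC, hB⟩ := quad_cases (A := h₀ * (M + P) - pt) (B := pt * x - h₀ * F x y)
    (C := h₀ * (M * x ^ 2 + P * y ^ 2) - pt * x ^ 2) (fun t => by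
      have := H x y t hx hy
      nlinarith [this])
  set A := h₀ * (M + P) - pt with hAe
  set B := pt * x - h₀ * F x y with hBe
  set C := h₀ * (M * x ^ 2 + P * y ^ 2) - pt * x ^ 2 with hCe
  have e1 : ‖(x : ℂ) * g - z‖ ^ 2 = x ^ 2 * ‖g‖ ^ 2 + ‖z‖ ^ 2 - 2 * (x * (z * star g).re) := by
    rw [← Complex.normSq_eq_norm_sq, ← Complex.normSq_eq_norm_sq, ← Complex.normSq_eq_norm_sq,
      Complex.normSq_sub, Complex.normSq_mul, Complex.normSq_ofReal]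
    have : ((x : ℂ) * g * (starRingEnd ℂ) z).re = x * (z * star g).re := by
      simp only [Complex.mul_re, Complex.mul_im, Complex.ofReal_re, Complex.ofReal_im,
        Complex.star_def, Complex.conj_re, Complex.conj_im]
      ring
    rw [this]
    ring
  have e2 : |(z * star g).re| ≤ ‖z‖ * ‖g‖ := by
    have := Complex.abs_re_le_norm (z * star g)
    rwa [norm_mul, norm_star] at this
  have e3 : |B * (z * star g).re| ≤ |B| * (‖z‖ * ‖g‖) := by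
    rw [abs_mul]
    exact mul_le_mul_of_nonneg_left e2 (abs_nonneg _)
  have e4 : 2 * (|B| * (‖z‖ * ‖g‖)) ≤ A * ‖z‖ ^ 2 + C * ‖g‖ ^ 2 := by
    have hB' : |B| ≤ √A * √C := by
      rw [← Real.sqrt_mul hA]
      exact Real.abs_le_sqrt hB
    have h1 : |B| * (‖z‖ * ‖g‖) ≤ (√A * ‖z‖) * (√C * ‖g‖) := by
      calc |B| * (‖z‖ * ‖g‖) ≤ (√A * √C) * (‖z‖ * ‖g‖) :=
            mul_le_mul_of_nonneg_right hB' (by positivity)
        _ = (√A * ‖z‖) * (√C * ‖g‖) := by ring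
    have h2 := two_mul_le_add_sq (√A * ‖z‖) (√C * ‖g‖)
    rw [mul_pow, mul_pow, Real.sq_sqrt hA, Real.sq_sqrt hC] at h2
    linarith
  have e5 := neg_le_of_abs_le e3
  rw [e1]
  have key : 0 ≤ A * ‖z‖ ^ 2 + 2 * (B * (z * star g).re) + C * ‖g‖ ^ 2 := by linarith
  rw [hAe, hBe, hCe] at key
  linarith

section ops

variable {m : Type} [Fintype m] [DecidableEq m]

theorem fr_unitary (U V X : Matrix m m ℂ) (hU : U ∈ unitaryGroup m ℂ)
    (hV : V ∈ unitaryGroup m ℂ) : fr (Uᴴ * X * V) = fr X := by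
  have hU' : Uᴴ ∈ unitaryGroup m ℂ := by
    have := Unitary.star_mem hU
    rwa [star_eq_conjTranspose] at this
  rw [← nf_sq, nf_mul_unitary V hV, nf_unitary_mul Uᴴ hU', nf_sq]

theorem row_sum (G : Matrix m m ℂ) (hG : G ∈ unitaryGroup m ℂ) (j : m) :
    ∑ l, ‖G j l‖ ^ 2 = 1 := by
  have h := mem_unitaryGroup_iff.mp hG
  rw [star_eq_conjTranspose] at h
  have h2 := congrFun (congrFun h j) j
  rw [mul_apply, one_apply_eq] at h2
  have h3 : ((∑ l, ‖G j l‖ ^ 2 : ℝ) : ℂ) = 1 := by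
    rw [← h2]
    push_cast
    refine Finset.sum_congr rfl fun l _ => ?_
    rw [conjTranspose_apply, Complex.star_def, Complex.mul_conj, Complex.normSq_eq_norm_sq]
    push_cast
    rfl
  exact_mod_cast h3

theorem col_sum (G : Matrix m m ℂ) (hG : G ∈ unitaryGroup m ℂ) (l : m) :
    ∑ j, ‖G j l‖ ^ 2 = 1 := by
  have h := mem_unitaryGroup_iff'.mp hG
  rw [star_eq_conjTranspose] at h
  have h2 := congrFun (congrFun h l) l
  rw [mul_apply, one_apply_eq] at h2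
  have h3 : ((∑ j, ‖G j l‖ ^ 2 : ℝ) : ℂ) = 1 := by
    rw [← h2]
    push_cast
    refine Finset.sum_congr rfl fun j _ => ?_
    rw [conjTranspose_apply, Complex.star_def, mul_comm, Complex.mul_conj,
      Complex.normSq_eq_norm_sq]
    push_cast
    rfl
  exact_mod_cast h3

/-- **the cross term**: `B = U θ Uᴴ`, `D = U' θ' U'ᴴ`, `|B|₂ = |D|₂ = 1`, any `Z`:
`2 h₀ Re ⟨K(B,D), Z⟩ + pt |B - Z|² ≤ h₀ (M + P) (1 + |Z|²)`. -/
theorem HS.cx_le {F : ℝ → ℝ → ℝ} {h₀ pt M P : ℝ} (H : HS F h₀ pt M P) (U U' : Matrix m m ℂ)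
    (hU : U ∈ unitaryGroup m ℂ) (hU' : U' ∈ unitaryGroup m ℂ) (θ θ' : m → ℝ)
    (hθ : ∀ j, 0 < θ j) (hθ' : ∀ j, 0 < θ' j) (hs : ∑ j, θ j ^ 2 = 1) (hs' : ∑ j, θ' j ^ 2 = 1)
    (Z : Matrix m m ℂ) :
    2 * (h₀ * cx F U U θ U' U' θ' Z) + pt * fr (th U θ - Z) ≤
      h₀ * (M + P) + h₀ * (M + P) * fr Z := by
  have hUU : Uᴴ * U = 1 := by
    have := mem_unitaryGroup_iff'.mp hU
    rwa [star_eq_conjTranspose] at this
  have hUc : Uᴴ ∈ unitaryGroup m ℂ := by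
    have := Unitary.star_mem hU
    rwa [star_eq_conjTranspose] at this
  set G := Uᴴ * U' with hG
  have hGu : G ∈ unitaryGroup m ℂ := mul_mem hUc hU'
  set z := Uᴴ * Z * U' with hz
  have e1 : fr (th U θ - Z) = ∑ j, ∑ l, ‖(θ j : ℂ) * G j l - z j l‖ ^ 2 := by
    rw [← fr_unitary U U' _ hU hU']
    have : Uᴴ * (th U θ - Z) * U' = dg θ * G - z := by
      rw [hG, hz, Matrix.mul_sub, Matrix.sub_mul]
      unfold th
      simp only [← Matrix.mul_assoc]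
      rw [hUU, Matrix.one_mul]
    rw [this]
    unfold fr
    refine Finset.sum_congr rfl fun j _ => Finset.sum_congr rfl fun l _ => ?_
    rw [Matrix.sub_apply]
    unfold dg
    rw [Matrix.diagonal_mul]
  have e2 : fr Z = ∑ j, ∑ l, ‖z j l‖ ^ 2 := by
    rw [← fr_unitary U U' _ hU hU']
    rfl
  have e3 : cx F U U θ U' U' θ' Z = ∑ j, ∑ l, F (θ j) (θ' l) * (z j l * star (G j l)).re := by
    unfold cx
    refine Finset.sum_congr rfl fun j _ => Finset.sum_congr rfl fun l _ => ?_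
    have : (U'ᴴ * U) l j = star (G j l) := by
      rw [hG, ← conjTranspose_apply, conjTranspose_mul, conjTranspose_conjTranspose]
    rw [this]
  have e4 : ∑ j, ∑ l, (M * θ j ^ 2 + P * θ' l ^ 2) * ‖G j l‖ ^ 2 = M + P := by
    have h1 : ∑ j, ∑ l, (M * θ j ^ 2 + P * θ' l ^ 2) * ‖G j l‖ ^ 2 =
        M * ∑ j, θ j ^ 2 * ∑ l, ‖G j l‖ ^ 2 + P * ∑ l, θ' l ^ 2 * ∑ j, ‖G j l‖ ^ 2 := by
      simp only [Finset.mul_sum]
      rw [Finset.sum_comm (f := fun l j => P * (θ' l ^ 2 * ‖G j l‖ ^ 2)), ← Finset.sum_add_distrib]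
      refine Finset.sum_congr rfl fun j _ => ?_
      rw [← Finset.sum_add_distrib]
      refine Finset.sum_congr rfl fun l _ => ?_
      ring
    rw [h1]
    simp only [row_sum G hGu, col_sum G hGu, mul_one, hs, hs']
  have key : ∑ j, ∑ l, (pt * ‖(θ j : ℂ) * G j l - z j l‖ ^ 2 +
      2 * h₀ * (F (θ j) (θ' l) * (z j l * star (G j l)).re)) ≤
      ∑ j, ∑ l, (h₀ * (M * θ j ^ 2 + P * θ' l ^ 2) * ‖G j l‖ ^ 2 +
        h₀ * (M + P) * ‖z j l‖ ^ 2) :=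
    Finset.sum_le_sum fun j _ => Finset.sum_le_sum fun l _ => H.pair (hθ j) (hθ' l) (G j l) (z j l)
  simp only [Finset.sum_add_distrib, ← Finset.mul_sum] at key
  rw [e1, e2, e3]
  have e5 : ∑ j, ∑ l, h₀ * (M * θ j ^ 2 + P * θ' l ^ 2) * ‖G j l‖ ^ 2 = h₀ * (M + P) := by
    rw [← e4, Finset.mul_sum]
    refine Finset.sum_congr rfl fun j _ => ?_
    rw [Finset.mul_sum]
    refine Finset.sum_congr rfl fun l _ => ?_
    ring
  rw [e5] at key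
  linarith

omit [DecidableEq m] in
/-- two springs in series -/
theorem series2 (X₀ X₁ X₂ : Matrix m m ℂ) {p al pt : ℝ} (hp : 0 ≤ p) (h : p * (al + pt) ≤ al * pt)
    (hal : 0 < al) (hpt : 0 ≤ pt) :
    p * fr (X₀ - X₂) ≤ al * fr (X₀ - X₁) + pt * fr (X₁ - X₂) := by
  have htri : nf (X₀ - X₂) ≤ nf (X₀ - X₁) + nf (X₁ - X₂) := by
    have e : X₀ - X₂ = (X₀ - X₁) + (X₁ - X₂) := by abel
    rw [e]
    exact nf_add_le _ _
  rw [← nf_sq, ← nf_sq, ← nf_sq]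
  set a := nf (X₀ - X₁) with ha
  set b := nf (X₁ - X₂) with hb
  set d := nf (X₀ - X₂) with hd
  have hd0 : 0 ≤ d := nf_nonneg _
  have h1 : d ^ 2 ≤ (a + b) ^ 2 := pow_le_pow_left₀ hd0 htri 2
  have h2 : p * d ^ 2 ≤ p * (a + b) ^ 2 := mul_le_mul_of_nonneg_left h1 hp
  refine h2.trans ?_
  have h0 : 0 < al + pt := by linarith
  have h3 : 0 ≤ (al * pt - p * (al + pt)) * (a + b) ^ 2 := mul_nonneg (by linarith) (sq_nonneg _)
  have h4 : (al + pt) * (al * a ^ 2 + pt * b ^ 2 - p * (a + b) ^ 2) =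
      (al * a - pt * b) ^ 2 + (al * pt - p * (al + pt)) * (a + b) ^ 2 := by ring
  have h5 : 0 ≤ (al + pt) * (al * a ^ 2 + pt * b ^ 2 - p * (a + b) ^ 2) := by
    rw [h4]
    positivity
  have h6 := nonneg_of_mul_nonneg_right h5 h0
  linarith

omit [DecidableEq m] in
theorem cx_smul_right (F : ℝ → ℝ → ℝ) (U V U' V' : Matrix m m ℂ) (θ θ' : m → ℝ) (t : ℝ)
    (E : Matrix m m ℂ) : cx F U V θ U' V' θ' ((t : ℂ) • E) = t * cx F U V θ U' V' θ' E := by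
  unfold cx
  rw [Finset.mul_sum]
  refine Finset.sum_congr rfl fun j _ => ?_
  rw [Finset.mul_sum]
  refine Finset.sum_congr rfl fun l _ => ?_
  rw [Matrix.mul_smul, Matrix.smul_mul, Matrix.smul_apply, smul_eq_mul, mul_assoc,
    Complex.re_ofReal_mul]
  ring

/-- **elimination of `E`**: the linear form of the column is bounded by the quadratic form with one
negative spring `p`. -/
theorem HS.final {F : ℝ → ℝ → ℝ} {h₀ pt M P x₀ y₀ r₁ r₂ p : ℝ} (H : HS F h₀ pt M P)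
    (hx₀ : 0 < x₀) (hy₀ : 0 < y₀) (hh₀ : 0 < h₀) (hr₁ : 0 < r₁) (hr₂ : 0 ≤ r₂) (hp : 0 ≤ p)
    (hpt : 0 ≤ pt) (hser : p * (r₁ * x₀ / 2 + pt) ≤ r₁ * x₀ / 2 * pt)
    (U U' : Matrix m m ℂ) (hU : U ∈ unitaryGroup m ℂ) (hU' : U' ∈ unitaryGroup m ℂ)
    (θ θ' : m → ℝ) (hθ : ∀ j, 0 < θ j) (hθ' : ∀ j, 0 < θ' j) (hs : ∑ j, θ j ^ 2 = 1)
    (hs' : ∑ j, θ' j ^ 2 = 1) (E₁₁ E₁₂ E₂₂ : Matrix m m ℂ) (h₁₁ : E₁₁.IsHermitian)
    (h₂₂ : E₂₂.IsHermitian) :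
    r₁ * pr U θ E₁₁ + r₂ * pr U' θ' E₂₂ + 2 * cx F U U θ U' U' θ' E₁₂ ≤
      (r₁ * x₀ + r₂ * y₀) / 2 + h₀ * (M + P) +
      (r₁ * x₀ / 2 * fr ((x₀ : ℂ)⁻¹ • E₁₁) + h₀ * (M + P) * fr ((h₀ : ℂ)⁻¹ • E₁₂) +
        r₂ * y₀ / 2 * fr ((y₀ : ℂ)⁻¹ • E₂₂) -
        p * fr ((x₀ : ℂ)⁻¹ • E₁₁ - (h₀ : ℂ)⁻¹ • E₁₂)) := by
  have hUU : Uᴴ * U = 1 := by
    have := mem_unitaryGroup_iff'.mp hU
    rwa [star_eq_conjTranspose] at this
  have hUU' : U'ᴴ * U' = 1 := by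
    have := mem_unitaryGroup_iff'.mp hU'
    rwa [star_eq_conjTranspose] at this
  have a1 := pr_square U θ E₁₁ h₁₁ x₀ hx₀
  have a2 := pr_square U' θ' E₂₂ h₂₂ y₀ hy₀
  rw [fr_th U hUU, hs] at a1
  rw [fr_th U' hUU', hs'] at a2
  set X := (x₀ : ℂ)⁻¹ • E₁₁ with hX
  set Y := (y₀ : ℂ)⁻¹ • E₂₂ with hY
  set Z := (h₀ : ℂ)⁻¹ • E₁₂ with hZ
  have f1 : fr E₁₁ = x₀ ^ 2 * fr X := by
    rw [← E3a_fr_smul, hX, smul_smul]
    rw [mul_inv_cancel₀ (by exact_mod_cast hx₀.ne'), one_smul]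
  have f2 : fr E₂₂ = y₀ ^ 2 * fr Y := by
    rw [← E3a_fr_smul, hY, smul_smul]
    rw [mul_inv_cancel₀ (by exact_mod_cast hy₀.ne'), one_smul]
  have f3 : cx F U U θ U' U' θ' E₁₂ = h₀ * cx F U U θ U' U' θ' Z := by
    rw [← cx_smul_right, hZ, smul_smul, mul_inv_cancel₀ (by exact_mod_cast hh₀.ne'), one_smul]
  rw [f1] at a1
  rw [f2] at a2
  have b1 : x₀ ^ 2 * fr X / x₀ = x₀ * fr X := by field_simp
  have b2 : y₀ ^ 2 * fr Y / y₀ = y₀ * fr Y := by field_simp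
  rw [b1] at a1
  rw [b2] at a2
  have c1 := H.cx_le U U' hU hU' θ θ' hθ hθ' hs hs' Z
  have c2 := series2 X (th U θ) Z hp hser (by positivity) hpt
  have c3 : 0 ≤ fr (Y - th U' θ') := fr_nonneg _
  rw [f3]
  have c4 : r₁ * pr U θ E₁₁ = r₁ * x₀ / 2 * fr X + r₁ * x₀ / 2 - r₁ * x₀ / 2 * fr (X - th U θ) := by
    linear_combination (r₁ / 2) * a1
  have c5 : r₂ * pr U' θ' E₂₂ = r₂ * y₀ / 2 * fr Y + r₂ * y₀ / 2 -
      r₂ * y₀ / 2 * fr (Y - th U' θ') := by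
    linear_combination (r₂ / 2) * a2
  have c6 : 0 ≤ r₂ * y₀ / 2 * fr (Y - th U' θ') := by positivity
  linarith

end ops

end Pool.Agent.LibSchG
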