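import Pool.Agent.LibSchG.G0
import Pool.Agent.LibSchMin.M4

/-! **N4.**  The noncommutative quadratic minorant of `DefE` with a scalar (and with a general
Hermitian) trial matrix. -/

open Matrix
open scoped ComplexOrder

namespace Pool.Agent.LibSchG

open Pool.Agent.LibSchP Pool.Agent.LibSchA

variable {m : Type} [Fintype m] [DecidableEq m]

theorem kk_eq_min (a x y : ℝ) : kk a x y = SchMin.kk (2 * a) x y := by
  unfold kk SchMin.kk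
  rw [show 4 / (2 * a) = 2 / a by
    rw [show (4 : ℝ) = 2 * 2 by norm_num, mul_div_mul_left _ _ (two_ne_zero)]]

theorem sg_eq_min : sg m = dg (SchMin.sg m m) := by
  rw [SchMin.dg_sg, sg]

theorem DefE_eq_min (a : ℝ) (W : Matrix (m ⊕ m) (m ⊕ m) ℂ) (μ : m ⊕ m → ℝ) :
    DefE a W μ = SchMin.DefE (2 * a) (SchMin.sg m m) W μ := by
  unfold DefE G2 SchMin.DefE
  rw [show 4 / (2 * a) = 2 / a by
    rw [show (4 : ℝ) = 2 * 2 by norm_num, mul_div_mul_left _ _ (two_ne_zero)], sg_eq_min]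
  simp only [kk_eq_min]

theorem blocks_ud (W : Matrix (m ⊕ m) (m ⊕ m) ℂ) (μ : m ⊕ m → ℝ) :
    fromBlocks (ud W μ).toBlocks₁₁ (ud W μ).toBlocks₁₂ (ud W μ).toBlocks₁₂ᴴ
      (ud W μ).toBlocks₂₂ = ud W μ := by
  have h : (ud W μ).toBlocks₂₁ = (ud W μ).toBlocks₁₂ᴴ := by
    have h1 : (ud W μ)ᴴ = ud W μ := ud_isHermitian W μ
    ext i j
    exact (congrFun (congrFun h1 (Sum.inr i)) (Sum.inl j)).symm
  rw [← h, fromBlocks_toBlocks]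

theorem herm11 (W : Matrix (m ⊕ m) (m ⊕ m) ℂ) (μ : m ⊕ m → ℝ) :
    (ud W μ).toBlocks₁₁.IsHermitian := by
  have h1 : (ud W μ)ᴴ = ud W μ := ud_isHermitian W μ
  ext i j
  exact congrFun (congrFun h1 (Sum.inl i)) (Sum.inl j)

theorem herm22 (W : Matrix (m ⊕ m) (m ⊕ m) ℂ) (μ : m ⊕ m → ℝ) :
    (ud W μ).toBlocks₂₂.IsHermitian := by
  have h1 : (ud W μ)ᴴ = ud W μ := ud_isHermitian W μ
  ext i j
  exact congrFun (congrFun h1 (Sum.inr i)) (Sum.inr j)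

/-- **minorant with a general Hermitian `Z`** -/
theorem minorant_gen {a : ℝ} (ha : 0 < a) (ha' : 2 * a < 1) {A B : ℝ}
    (hAB : SchMin.HAB (2 * a) A B) (W : Matrix (m ⊕ m) (m ⊕ m) ℂ)
    (hW : W ∈ unitaryGroup (m ⊕ m) ℂ) (μ : m ⊕ m → ℝ) (hμ : ∀ i, 0 ≤ μ i)
    (Z : Matrix (m ⊕ m) (m ⊕ m) ℂ) (hZ : Z.IsHermitian) :
    8 * ((4 - (2 * a) ^ 2) / (3 * (2 * a))) * fr (ud W μ).toBlocks₁₂ +
      4 * (2 * (trace (Z * SchMin.YY (ud W μ).toBlocks₁₁ (ud W μ).toBlocks₁₂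
          (ud W μ).toBlocks₂₂)).re -
        A * fr (ud W μ * Z + Z * ud W μ) - B * fr (ud W μ * Z - Z * ud W μ)) ≤ DefE a W μ := by
  have h := SchMin.minorant_block (b := 2 * a) (by linarith) ha' hAB (ud W μ).toBlocks₁₁
    (ud W μ).toBlocks₁₂ (ud W μ).toBlocks₂₂ (herm11 W μ) (herm22 W μ) W hW μ hμ (blocks_ud W μ) Z hZ
  rw [blocks_ud] at h
  rw [DefE_eq_min]
  exact h

/-- **minorant with the scalar `Z = (z₁, z₂; z₂, -z₁) ⊗ 1`** -/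
theorem minorant_sc {a : ℝ} (ha : 0 < a) (ha' : 2 * a < 1) {A B : ℝ}
    (hAB : SchMin.HAB (2 * a) A B) (W : Matrix (m ⊕ m) (m ⊕ m) ℂ)
    (hW : W ∈ unitaryGroup (m ⊕ m) ℂ) (μ : m ⊕ m → ℝ) (hμ : ∀ i, 0 ≤ μ i) (z₁ z₂ : ℝ) :
    8 * ((4 - (2 * a) ^ 2) / (3 * (2 * a))) * fr (ud W μ).toBlocks₁₂ +
      32 * z₁ * fr (ud W μ).toBlocks₁₂ -
      16 * z₂ * ((trace ((ud W μ).toBlocks₁₁ * (ud W μ).toBlocks₁₂)).re -
        (trace ((ud W μ).toBlocks₁₂ * (ud W μ).toBlocks₂₂)).re) -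
      8 * (A + B) * (z₁ ^ 2 + z₂ ^ 2) * (fr (ud W μ).toBlocks₁₁ + fr (ud W μ).toBlocks₂₂ +
        2 * fr (ud W μ).toBlocks₁₂) -
      8 * (A - B) * (z₁ ^ 2 * (fr (ud W μ).toBlocks₁₁ + fr (ud W μ).toBlocks₂₂) -
        2 * z₁ ^ 2 * fr (ud W μ).toBlocks₁₂ +
        2 * z₂ ^ 2 * (trace ((ud W μ).toBlocks₁₂ * (ud W μ).toBlocks₁₂)).re +
        2 * z₂ ^ 2 * (trace ((ud W μ).toBlocks₁₁ * (ud W μ).toBlocks₂₂)).re +
        4 * z₁ * z₂ * ((trace ((ud W μ).toBlocks₁₁ * (ud W μ).toBlocks₁₂)).re -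
          (trace ((ud W μ).toBlocks₁₂ * (ud W μ).toBlocks₂₂)).re)) ≤ DefE a W μ := by
  have h := SchMin.minorant_scalar (b := 2 * a) (by linarith) ha' hAB (ud W μ).toBlocks₁₁
    (ud W μ).toBlocks₁₂ (ud W μ).toBlocks₂₂ (herm11 W μ) (herm22 W μ) W hW μ hμ (blocks_ud W μ)
    z₁ (-z₂)
  rw [← DefE_eq_min] at h
  refine le_trans (le_of_eq ?_) h
  unfold SchMin.qD
  rw [trace_mul_comm (ud W μ).toBlocks₁₂ (ud W μ).toBlocks₂₂]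
  ring

end Pool.Agent.LibSchG
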