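import Pool.Agent.LibSchG.N0
import Pool.Agent.LibSchG.N4

/-! **N4b.**  The tangent data `aA`, `bB` of N0 satisfy `HAB`. -/

open Matrix
open scoped ComplexOrder

namespace Pool.Agent.LibSchG

theorem tanh_log {e₁ e₂ : ℝ} (he₂ : 0 < e₂) (he₁ : 0 < e₁) :
    Real.tanh (Real.log (e₁ / e₂) / 2) = (e₁ - e₂) / (e₁ + e₂) := by
  have h1 : Real.exp (Real.log (e₁ / e₂) / 2) ^ 2 = e₁ / e₂ := by
    rw [← Real.exp_nat_mul]
    rw [show ((2 : ℕ) : ℝ) * (Real.log (e₁ / e₂) / 2) = Real.log (e₁ / e₂) by push_cast; ring,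
      Real.exp_log (div_pos he₁ he₂)]
  have h2 : Real.exp (-(Real.log (e₁ / e₂) / 2)) = (Real.exp (Real.log (e₁ / e₂) / 2))⁻¹ :=
    Real.exp_neg _
  rw [Real.tanh_eq_sinh_div_cosh, Real.sinh_eq, Real.cosh_eq, h2]
  have hp := Real.exp_pos (Real.log (e₁ / e₂) / 2)
  generalize Real.exp (Real.log (e₁ / e₂) / 2) = y at *
  have he : e₁ = e₂ * y ^ 2 := by rw [h1]; field_simp
  have hs : e₂ * y ^ 2 + e₂ ≠ 0 := by positivity
  rw [he]
  field_simp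

theorem wW_eq {a : ℝ} (ha : 0 < a) (ha' : 2 * a < 1) {e₁ e₂ : ℝ} (he₂ : 0 < e₂) (he : e₂ < e₁) :
    1 / wW a e₁ e₂ * ((e₁ - e₂) / (e₁ + e₂)) ^ 2 =
      SchMin.cF (2 * a) * SchK.Ff (2 * a) (Real.log (e₁ / e₂) / 2) := by
  have hu : 0 < Real.log (e₁ / e₂) / 2 := by
    have := Real.log_pos ((one_lt_div he₂).2 he)
    linarith
  have hb0 : 0 < 2 * a := by linarith
  have h := SchK.wf_sub hb0 ha' hu
  have hF := SchK.F_pos hb0 ha' hu
  have ht := SchK.tanh_pos hu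
  have hb2 : (2 * a) ^ 2 < 1 := by nlinarith
  have hb3 : 0 < 1 - (2 * a) ^ 2 := by linarith
  have hb4 : 0 < 4 - (2 * a) ^ 2 := by linarith
  unfold wW
  rw [h, ← tanh_log he₂ (he₂.trans he), SchMin.cF]
  field_simp

theorem hab_base {a : ℝ} (ha : 0 < a) (ha' : 2 * a < 1) {e₁ e₂ : ℝ} (he₂ : 0 < e₂)
    (he : e₂ < e₁) : SchMin.HAB (2 * a) (aA a e₁ e₂) (bB a e₁ e₂) := by
  have hu : 0 < Real.log (e₁ / e₂) / 2 := by
    have := Real.log_pos ((one_lt_div he₂).2 he)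
    linarith
  have hb0 : 0 < 2 * a := by linarith
  have h := SchMin.hab_tangent hb0 ha' hu
  have e1 : aA a e₁ e₂ = SchMin.cF (2 * a) * (SchK.Ff (2 * a) (Real.log (e₁ / e₂) / 2) -
      SchK.F1 (2 * a) (Real.log (e₁ / e₂) / 2) * Real.tanh (Real.log (e₁ / e₂) / 2) ^ 2) := by
    unfold aA
    rw [mul_sub, mul_comm _ (1 / wW a e₁ e₂), wW_eq ha ha' he₂ he, tanh_log he₂ (he₂.trans he), bB,
      SchMin.cF]
    ring
  have e2 : bB a e₁ e₂ = SchMin.cF (2 * a) * SchK.F1 (2 * a) (Real.log (e₁ / e₂) / 2) := by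
    unfold bB SchMin.cF
    rfl
  rw [e1, e2]
  exact h

end Pool.Agent.LibSchG
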