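import Pool.Agent.LibSchG.N0

/-! **N5.**  The constraints and the quadratic minorant of the defect give the network form. -/

open Matrix
open scoped ComplexOrder

namespace Pool.Agent.LibSchG

open Pool.Agent.LibSchP Pool.Agent.LibSchA Pool.Agent.LibSchE

/-- the quadratic lower bound of the defect -/
noncomputable def qDef (w₀ z₁ z₂ A B T₁₁ T₁₂ T₂₂ ra rb rc rd : ℝ) : ℝ :=
  8 * w₀ * T₁₂ + 32 * z₁ * T₁₂ - 16 * z₂ * (ra - rb) -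
    8 * (A + B) * (z₁ ^ 2 + z₂ ^ 2) * (T₁₁ + T₂₂ + 2 * T₁₂) -
    8 * (A - B) * (z₁ ^ 2 * (T₁₁ + T₂₂) - 2 * z₁ ^ 2 * T₁₂ + 2 * z₂ ^ 2 * rd + 2 * z₂ ^ 2 * rc +
      4 * z₁ * z₂ * ra - 4 * z₁ * z₂ * rb)

/-- the algebra of the network: `α₁`, `α₂` are defined by the first and third row sums. -/
theorem net_alg {x h y r₁ r₂ r₁₂ γ w₀ z₁ z₂ A B α₁ α₂ T₁₁ T₁₂ T₂₂ ra rb rc rd : ℝ}
    (hx : x ≠ 0) (hh : h ≠ 0) (hy : y ≠ 0) (hγ : 0 ≤ γ) (hAB : B ≤ A)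
    (R₁ : (α₁ - γ * (8 * ((A + B) * (z₁ ^ 2 + z₂ ^ 2) + (A - B) * z₁ ^ 2))) * x +
      γ * (-8 * z₂ - 16 * (A - B) * z₁ * z₂) * h - γ * (8 * (A - B) * z₂ ^ 2) * y = r₁ / 2)
    (R₃ : (α₂ - γ * (8 * ((A + B) * (z₁ ^ 2 + z₂ ^ 2) + (A - B) * z₁ ^ 2))) * y -
      γ * (-8 * z₂ - 16 * (A - B) * z₁ * z₂) * h - γ * (8 * (A - B) * z₂ ^ 2) * x = r₂ / 2)
    (R₂ : γ * (-8 * z₂ - 16 * (A - B) * z₁ * z₂) * (x - y) + (α₁ + α₂ + γ * (8 * w₀ + 32 * z₁ -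
      16 * (A + B) * (z₁ ^ 2 + z₂ ^ 2) - 8 * (A - B) * (-2 * z₁ ^ 2 + 2 * z₂ ^ 2))) * h = r₁₂)
    (hrd : rd ≤ T₁₂) :
    r₁ * x / 2 * (T₁₁ / x ^ 2) + h * r₁₂ * (T₁₂ / h ^ 2) + r₂ * y / 2 * (T₂₂ / y ^ 2) -
      γ * (-8 * z₂ - 16 * (A - B) * z₁ * z₂) * x * h *
        (T₁₁ / x ^ 2 + T₁₂ / h ^ 2 - 2 * (ra / (x * h))) +
      γ * (-8 * z₂ - 16 * (A - B) * z₁ * z₂) * h * y *
        (T₁₂ / h ^ 2 + T₂₂ / y ^ 2 - 2 * (rb / (h * y))) +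
      γ * (8 * (A - B) * z₂ ^ 2) * x * y * (T₁₁ / x ^ 2 + T₂₂ / y ^ 2 - 2 * (rc / (x * y))) ≤
    α₁ * (T₁₁ + T₁₂) + α₂ * (T₁₂ + T₂₂) +
      γ * qDef w₀ z₁ z₂ A B T₁₁ T₁₂ T₂₂ ra rb rc rd := by
  have h1 : 0 ≤ γ * (16 * (A - B) * z₂ ^ 2) * (T₁₂ - rd) := by
    have : 0 ≤ A - B := by linarith
    have : 0 ≤ T₁₂ - rd := by linarith
    positivity
  have e : α₁ * (T₁₁ + T₁₂) + α₂ * (T₁₂ + T₂₂) +
      γ * qDef w₀ z₁ z₂ A B T₁₁ T₁₂ T₂₂ ra rb rc rd =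
      r₁ * x / 2 * (T₁₁ / x ^ 2) + h * r₁₂ * (T₁₂ / h ^ 2) + r₂ * y / 2 * (T₂₂ / y ^ 2) -
      γ * (-8 * z₂ - 16 * (A - B) * z₁ * z₂) * x * h *
        (T₁₁ / x ^ 2 + T₁₂ / h ^ 2 - 2 * (ra / (x * h))) +
      γ * (-8 * z₂ - 16 * (A - B) * z₁ * z₂) * h * y *
        (T₁₂ / h ^ 2 + T₂₂ / y ^ 2 - 2 * (rb / (h * y))) +
      γ * (8 * (A - B) * z₂ ^ 2) * x * y * (T₁₁ / x ^ 2 + T₂₂ / y ^ 2 - 2 * (rc / (x * y))) +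
      γ * (16 * (A - B) * z₂ ^ 2) * (T₁₂ - rd) := by
    have s1 : r₁ * x / 2 * (T₁₁ / x ^ 2) = r₁ / 2 * (T₁₁ / x) := by field_simp
    have s2 : r₂ * y / 2 * (T₂₂ / y ^ 2) = r₂ / 2 * (T₂₂ / y) := by field_simp
    rw [s1, s2, ← R₁, ← R₃, ← R₂]
    unfold qDef
    field_simp
    ring
  linarith

/-- the equation for `γ` (identity (b)) -/
theorem base_b {T D C S k w₀ A B x y h : ℝ} (hx : x = (T + C * D) / 2) (hy : y = (T - C * D) / 2)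
    (hh : h = S * D / 2) (hS : C ^ 2 + S ^ 2 = 1) :
    x * y * ((-8 * (-(k * C)) - 16 * (A - B) * (k * S) * (-(k * C))) * (x - y) +
      h * (8 * w₀ + 32 * (k * S) - 16 * (A + B) * ((k * S) ^ 2 + (-(k * C)) ^ 2) -
        8 * (A - B) * (-2 * (k * S) ^ 2 + 2 * (-(k * C)) ^ 2)) +
      2 * h * (8 * ((A + B) * ((k * S) ^ 2 + (-(k * C)) ^ 2) + (A - B) * (k * S) ^ 2))) +
    h * ((-8 * (-(k * C)) - 16 * (A - B) * (k * S) * (-(k * C))) * h * (x - y) +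
      8 * (A - B) * (-(k * C)) ^ 2 * (x ^ 2 + y ^ 2)) =
    4 * ((2 * w₀ * h + 2 * k * D * (C ^ 2 + 2 * S ^ 2) - 8 * k ^ 2 * B * h) * (x * y) +
      2 * k * C ^ 2 * D * h ^ 2 + 2 * k ^ 2 * h * (A * T ^ 2 - B * C ^ 2 * D ^ 2)) := by
  subst hx hy hh
  linear_combination (8 * (A - B) * k ^ 2 * S * D *
    (2 * ((T + C * D) / 2 * ((T - C * D) / 2)) + C ^ 2 * D ^ 2 / 2)) * hS

/-- the value of the minorant at the base (identity (c)) -/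
theorem base_c {T D C S k w₀ A B x y h : ℝ} (hx : x = (T + C * D) / 2) (hy : y = (T - C * D) / 2)
    (hh : h = S * D / 2) (hS : C ^ 2 + S ^ 2 = 1) :
    qDef w₀ (k * S) (-(k * C)) A B (x ^ 2) (h ^ 2) (y ^ 2) (x * h) (h * y) (x * y) (h ^ 2) =
      8 * w₀ * h ^ 2 + 16 * k * h * D - 8 * k ^ 2 * (A * T ^ 2 + B * D ^ 2) := by
  subst hx hy hh
  unfold qDef
  linear_combination (16 * k * (S * D / 2) * D -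
    8 * k ^ 2 * (A * T ^ 2 + B * (C ^ 2 + S ^ 2 + 1) * D ^ 2)) * hS

end Pool.Agent.LibSchG
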