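import Pool.Agent.LibSchG.N5
import Pool.Agent.LibSchK.K6
import Pool.Agent.LibSchE.E9a

/-! **N5b.**  The base data: `γ ≥ 0`, the row sums, the value at the base. -/

open Matrix
open scoped ComplexOrder

namespace Pool.Agent.LibSchG

open Pool.Agent.LibSchP Pool.Agent.LibSchA Pool.Agent.LibSchE

section base

variable {a e₁ e₂ c s X Z : ℝ}

/-- `ρ₊₊`, `ρ₊₋`, `ρ₋₋` -/
noncomputable def rP (a e₁ X : ℝ) : ℝ := 2 * a * e₁ ^ (2 * a - 1) * X ^ 2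
noncomputable def rQ (a e₁ e₂ X Z : ℝ) : ℝ := (e₁ ^ (2 * a) - e₂ ^ (2 * a)) / (e₁ - e₂) * (X * Z)

theorem ker_one (p₁ p₂ q₁ q₂ : ℝ) (he : e₂ < e₁) :
    ker a e₁ e₂ p₁ p₂ q₁ q₂ 1 1 = p₁ * q₁ * (2 * a * e₁ ^ (2 * a - 1)) +
      (p₁ * q₂ + p₂ * q₁) * ((e₁ ^ (2 * a) - e₂ ^ (2 * a)) / (e₁ - e₂)) +
      p₂ * q₂ * (2 * a * e₂ ^ (2 * a - 1)) := by
  unfold ker
  have h1 : dd (2 * a) (e₁ * 1) (e₁ * 1) = 2 * a * e₁ ^ (2 * a - 1) := by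
    unfold dd; simp
  have h2 : dd (2 * a) (e₂ * 1) (e₂ * 1) = 2 * a * e₂ ^ (2 * a - 1) := by
    unfold dd; simp
  have h3 : dd (2 * a) (e₁ * 1) (e₂ * 1) = (e₁ ^ (2 * a) - e₂ ^ (2 * a)) / (e₁ - e₂) := by
    unfold dd
    rw [if_neg (by simpa using he.ne'), mul_one, mul_one]
  have h4 : dd (2 * a) (e₂ * 1) (e₁ * 1) = (e₁ ^ (2 * a) - e₂ ^ (2 * a)) / (e₁ - e₂) := by
    unfold dd
    rw [if_neg (by simpa using he.ne), mul_one, mul_one, ← neg_sub e₁ e₂,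
      ← neg_sub (e₁ ^ (2 * a)), neg_div_neg_eq]
  rw [h1, h2, h3, h4]
  simp
  ring

theorem r1_eq (he : e₂ < e₁) : r1 a e₁ e₂ c s X Z =
    c ^ 2 * rP a e₁ X - 2 * (c * s) * rQ a e₁ e₂ X Z + s ^ 2 * rP a e₂ Z := by
  unfold r1 rP rQ
  rw [ker_one _ _ _ _ he]
  ring

theorem r2_eq (he : e₂ < e₁) : r2 a e₁ e₂ c s X Z =
    s ^ 2 * rP a e₁ X + 2 * (c * s) * rQ a e₁ e₂ X Z + c ^ 2 * rP a e₂ Z := by
  unfold r2 rP rQ
  rw [ker_one _ _ _ _ he]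
  ring

theorem r12_eq (he : e₂ < e₁) : kF a e₁ e₂ c s X Z 1 1 =
    c * s * rP a e₁ X + (c ^ 2 - s ^ 2) * rQ a e₁ e₂ X Z - c * s * rP a e₂ Z := by
  unfold kF rP rQ
  rw [ker_one _ _ _ _ he]
  ring

theorem L12_eq (he₂ : 0 < e₂) (he : e₂ < e₁) : L12 a e₁ e₂ c s X Z =
    c * s * (rP a e₁ X / (2 * e₁)) - c * s * (rP a e₂ Z / (2 * e₂)) +
      (c ^ 2 - s ^ 2) * (rQ a e₁ e₂ X Z / (e₁ + e₂)) := by
  have he₁ : 0 < e₁ := he₂.trans he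
  have hT : e₁ + e₂ ≠ 0 := by positivity
  have hD : e₁ - e₂ ≠ 0 := by linarith
  have h1 : e₁ ^ (2 * a - 1) = e₁ ^ (2 * a - 2) * e₁ := by
    rw [← Real.rpow_add_one he₁.ne']; ring_nf
  have h2 : e₂ ^ (2 * a - 1) = e₂ ^ (2 * a - 2) * e₂ := by
    rw [← Real.rpow_add_one he₂.ne']; ring_nf
  have h3 : e₁ ^ 2 - e₂ ^ 2 = (e₁ - e₂) * (e₁ + e₂) := by ring
  unfold L12 rP rQ
  rw [h1, h2, h3]
  field_simp

/-- identity (a) -/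
theorem base_a {T D C S x y h P Q R r₁ r₂ r₁₂ L : ℝ} (hx : x = (T + C * D) / 2)
    (hy : y = (T - C * D) / 2) (hh : h = S * D / 2) (hS : C ^ 2 + S ^ 2 = 1) (hT : T ≠ 0)
    (hTD : T + D ≠ 0) (hTD' : T - D ≠ 0)
    (h1 : r₁ = (1 + C) / 2 * P - S * Q + (1 - C) / 2 * R)
    (h2 : r₂ = (1 - C) / 2 * P + S * Q + (1 + C) / 2 * R)
    (h12 : r₁₂ = S / 2 * P + C * Q - S / 2 * R)
    (hL : L = S / 2 * (P / (T + D)) - S / 2 * (R / (T - D)) + C * (Q / T)) :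
    x * y * r₁₂ - h / 2 * (r₁ * y + r₂ * x) = L * T * ((T + D) / 2 * ((T - D) / 2)) := by
  have e : L * T * ((T + D) / 2 * ((T - D) / 2)) = S / 2 * P * T * (T - D) / 4 -
      S / 2 * R * T * (T + D) / 4 + C * Q * ((T + D) * (T - D)) / 4 := by
    rw [hL]
    field_simp
    ring
  rw [e]
  subst hx hy hh h1 h2 h12
  linear_combination (-(Q * C * D ^ 2) / 4) * hS

/-- `8 h₀² w = Dm` -/
theorem Dm_eq (ha : 0 < a) (he₂ : 0 < e₂) (he : e₂ < e₁) :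
    Dm a e₁ e₂ c s = 8 * h0 e₁ e₂ c s ^ 2 *
      ((4 - (2 * a) ^ 2) / (3 * (2 * a)) + wW a e₁ e₂) := by
  have he₁ : 0 < e₁ := he₂.trans he
  have hD : e₁ - e₂ ≠ 0 := by linarith
  unfold wW
  rw [add_sub_cancel]
  unfold Dm h0 kk SchK.wf SchK.Kf
  rw [if_neg he.ne']
  set u := Real.log (e₁ / e₂) / 2 with hu
  have hr : 0 < e₁ / e₂ := by positivity
  have h2u : Real.exp (2 * u) = e₁ / e₂ := by
    rw [hu, mul_div_cancel₀ _ (by norm_num : (2 : ℝ) ≠ 0), Real.exp_log hr]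
  have hexp : ∀ k : ℝ, Real.exp (k * u) = (e₁ / e₂) ^ (k / 2) := by
    intro k
    rw [Real.rpow_def_of_pos hr, hu]
    congr 1
    ring
  have hc : Real.cosh (2 * u) = (e₁ ^ 2 + e₂ ^ 2) / (2 * (e₁ * e₂)) := by
    rw [Real.cosh_eq, Real.exp_neg, h2u]
    field_simp
  have hs' : Real.sinh (2 * u) = (e₁ ^ 2 - e₂ ^ 2) / (2 * (e₁ * e₂)) := by
    rw [Real.sinh_eq, Real.exp_neg, h2u]
    field_simp
  have hb : Real.exp (2 * a * u) = e₁ ^ a / e₂ ^ a := by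
    rw [hexp, mul_div_cancel_left₀ _ (by norm_num : (2 : ℝ) ≠ 0),
      Real.div_rpow he₁.le he₂.le]
  have hp1 : 0 < e₁ ^ a := Real.rpow_pos_of_pos he₁ _
  have hp2 : 0 < e₂ ^ a := Real.rpow_pos_of_pos he₂ _
  have q1 : e₁ ^ (2 * a) = (e₁ ^ a) ^ 2 := by
    rw [← Real.rpow_natCast, ← Real.rpow_mul he₁.le]; ring_nf
  have q2 : e₂ ^ (2 * a) = (e₂ ^ a) ^ 2 := by
    rw [← Real.rpow_natCast, ← Real.rpow_mul he₂.le]; ring_nf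
  have hlt : e₂ ^ a < e₁ ^ a := Real.rpow_lt_rpow he₂.le he ha
  have hcb : Real.cosh (2 * a * u) = ((e₁ ^ a) ^ 2 + (e₂ ^ a) ^ 2) / (2 * (e₁ ^ a * e₂ ^ a)) := by
    rw [Real.cosh_eq, Real.exp_neg, hb]
    field_simp
  have hsb : Real.sinh (2 * a * u) = ((e₁ ^ a) ^ 2 - (e₂ ^ a) ^ 2) / (2 * (e₁ ^ a * e₂ ^ a)) := by
    rw [Real.sinh_eq, Real.exp_neg, hb]
    field_simp
  rw [hc, hs', hcb, hsb, q1, q2]
  generalize e₁ ^ a = p at *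
  generalize e₂ ^ a = q at *
  have hpq : p ^ 2 - q ^ 2 ≠ 0 := by
    have : 0 < (p - q) * (p + q) := mul_pos (by linarith) (by linarith)
    nlinarith
  have h5 : (e₁ ^ 2 + e₂ ^ 2) / (2 * (e₁ * e₂)) - 1 = (e₁ - e₂) ^ 2 / (2 * (e₁ * e₂)) := by
    field_simp
    ring
  rw [h5]
  field_simp
  ring

end base

end Pool.Agent.LibSchG
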