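import Pool.Agent.LibSchG.N5b

/-! **N5c.**  The network form is at most `a φ`. -/

open Matrix
open scoped ComplexOrder

namespace Pool.Agent.LibSchG

open Pool.Agent.LibSchP Pool.Agent.LibSchA Pool.Agent.LibSchE

section base

variable {a e₁ e₂ c s X Z : ℝ}

theorem tanh_base (he₂ : 0 < e₂) (he : e₂ < e₁) :
    Real.tanh (Real.log (e₁ / e₂) / 2) = (e₁ - e₂) / (e₁ + e₂) := by
  have he₁ : 0 < e₁ := he₂.trans he
  have hr : 0 < e₁ / e₂ := by positivity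
  set u := Real.log (e₁ / e₂) / 2 with hu
  have h1 : Real.exp u * Real.exp u = e₁ / e₂ := by
    rw [← Real.exp_add, hu, add_halves, Real.exp_log hr]
  have h2 := Real.exp_pos u
  rw [Real.tanh_eq_sinh_div_cosh, Real.sinh_eq, Real.cosh_eq, Real.exp_neg]
  have h3 : (Real.exp u - (Real.exp u)⁻¹) / 2 / ((Real.exp u + (Real.exp u)⁻¹) / 2) =
      (Real.exp u * Real.exp u - 1) / (Real.exp u * Real.exp u + 1) := by
    field_simp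
  rw [h3, h1]
  field_simp

theorem u_pos (he₂ : 0 < e₂) (he : e₂ < e₁) : 0 < Real.log (e₁ / e₂) / 2 := by
  have : 0 < Real.log (e₁ / e₂) := Real.log_pos ((one_lt_div he₂).2 he)
  linarith

theorem wW_pos (ha : 0 < a) (ha' : 2 * a < 1) (he₂ : 0 < e₂) (he : e₂ < e₁) :
    0 < wW a e₁ e₂ := by
  have hu := u_pos he₂ he
  unfold wW
  rw [SchK.wf_sub (b := 2 * a) (by linarith) ha' hu]
  have h1 := SchK.F_pos (b := 2 * a) (by linarith) ha' hu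
  have h2 := SchK.tanh_pos hu
  have h3 : 0 < 1 - (2 * a) ^ 2 := by nlinarith
  have h4 : 0 < 4 - (2 * a) ^ 2 := by linarith
  positivity

theorem bB_neg (ha : 0 < a) (ha' : 2 * a < 1) (he₂ : 0 < e₂) (he : e₂ < e₁) :
    bB a e₁ e₂ < 0 := by
  have hu := u_pos he₂ he
  unfold bB
  have h1 := SchK.F1_neg (b := 2 * a) (by linarith) ha' hu
  have h3 : 0 < 1 - (2 * a) ^ 2 := by nlinarith
  have h4 : 0 < 4 - (2 * a) ^ 2 := by linarith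
  exact mul_neg_of_pos_of_neg (by positivity) h1

theorem aA_pos (ha : 0 < a) (ha' : 2 * a < 1) (he₂ : 0 < e₂) (he : e₂ < e₁) :
    0 < aA a e₁ e₂ := by
  have h1 := wW_pos ha ha' he₂ he
  have h2 := bB_neg ha ha' he₂ he
  have h3 : 0 < e₁ - e₂ := by linarith
  have h4 : 0 < e₁ + e₂ := by linarith
  have h5 : 0 < 1 / wW a e₁ e₂ - bB a e₁ e₂ := by
    have : 0 < 1 / wW a e₁ e₂ := by positivity
    linarith
  unfold aA
  positivity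

/-- the tangent line at the base -/
theorem line_base (ha : 0 < a) (ha' : 2 * a < 1) (he₂ : 0 < e₂) (he : e₂ < e₁) :
    aA a e₁ e₂ * (e₁ + e₂) ^ 2 + bB a e₁ e₂ * (e₁ - e₂) ^ 2 = (e₁ - e₂) ^ 2 / wW a e₁ e₂ := by
  have h1 := wW_pos ha ha' he₂ he
  have h4 : 0 < e₁ + e₂ := by linarith
  unfold aA
  field_simp
  ring

end base

/-- the scalar data: positivity -/
structure SB (e₁ e₂ c s : ℝ) : Prop where
  he₂ : 0 < e₂
  he : e₂ < e₁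
  hs : 0 < s
  hsc : s ≤ c
  hcs : c ^ 2 + s ^ 2 = 1

section base

variable {a e₁ e₂ c s X Z : ℝ}

theorem Inc.SB (I : Inc a e₁ e₂ c s X Z) : SB e₁ e₂ c s := ⟨I.he₂, I.he, I.hs, I.hsc, I.hcs⟩

theorem SB.hc (I : SB e₁ e₂ c s) : 0 < c := I.hs.trans_le I.hsc

theorem SB.x0 (I : SB e₁ e₂ c s) : 0 < x0 e₁ e₂ c s := by
  have := I.hc; have := I.hs; have := I.he₂; have := I.he₂.trans I.he
  unfold LibSchG.x0
  positivity

theorem SB.y0 (I : SB e₁ e₂ c s) : 0 < y0 e₁ e₂ c s := by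
  have := I.hc; have := I.hs; have := I.he₂; have := I.he₂.trans I.he
  unfold LibSchG.y0
  positivity

theorem SB.h0 (I : SB e₁ e₂ c s) : 0 < h0 e₁ e₂ c s := by
  have := I.hc; have := I.hs
  have : 0 < e₁ - e₂ := by linarith [I.he]
  unfold LibSchG.h0
  positivity

theorem SB.hC (I : SB e₁ e₂ c s) : 0 ≤ c ^ 2 - s ^ 2 := by
  have := I.hs; have := I.hsc
  nlinarith

theorem dN_pos (ha : 0 < a) (ha' : 2 * a < 1) (I : SB e₁ e₂ c s) : 0 < dN a e₁ e₂ c s := by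
  have h1 := wW_pos ha ha' I.he₂ I.he
  have h2 := bB_neg ha ha' I.he₂ I.he
  have h3 := aA_pos ha ha' I.he₂ I.he
  have hc := I.hc
  have hs := I.hs
  have hx := I.x0
  have hy := I.y0
  have hh := I.h0
  have hD : 0 < e₁ - e₂ := by linarith [I.he]
  have hT : 0 < e₁ + e₂ := by linarith [I.he₂, I.he]
  have hk : 0 < cc a e₁ e₂ c s := by unfold cc; positivity
  have h4 : 0 < 4 - (2 * a) ^ 2 := by nlinarith
  unfold dN
  have t1 : 0 < 2 * ((4 - (2 * a) ^ 2) / (3 * (2 * a))) * LibSchG.h0 e₁ e₂ c s := by positivity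
  have t2 : 0 ≤ 2 * cc a e₁ e₂ c s * (e₁ - e₂) * ((c ^ 2 - s ^ 2) ^ 2 + 2 * (2 * c * s) ^ 2) := by
    positivity
  have t3 : 0 ≤ -(8 * cc a e₁ e₂ c s ^ 2 * bB a e₁ e₂ * LibSchG.h0 e₁ e₂ c s) := by
    have : 0 ≤ 8 * cc a e₁ e₂ c s ^ 2 * (-bB a e₁ e₂) * LibSchG.h0 e₁ e₂ c s := by
      have : 0 ≤ -bB a e₁ e₂ := by linarith
      positivity
    linarith
  have t4 : 0 ≤ 2 * cc a e₁ e₂ c s * (c ^ 2 - s ^ 2) ^ 2 * (e₁ - e₂) * LibSchG.h0 e₁ e₂ c s ^ 2 := by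
    positivity
  have t5 : 0 ≤ 2 * cc a e₁ e₂ c s ^ 2 * LibSchG.h0 e₁ e₂ c s *
      (aA a e₁ e₂ * (e₁ + e₂) ^ 2 - bB a e₁ e₂ * (c ^ 2 - s ^ 2) ^ 2 * (e₁ - e₂) ^ 2) := by
    have : 0 ≤ aA a e₁ e₂ * (e₁ + e₂) ^ 2 + (-bB a e₁ e₂) * (c ^ 2 - s ^ 2) ^ 2 * (e₁ - e₂) ^ 2 := by
      have : 0 ≤ -bB a e₁ e₂ := by linarith
      positivity
    have h6 : 0 ≤ aA a e₁ e₂ * (e₁ + e₂) ^ 2 - bB a e₁ e₂ * (c ^ 2 - s ^ 2) ^ 2 * (e₁ - e₂) ^ 2 := by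
      linarith
    positivity
  have t6 : 0 < (2 * ((4 - (2 * a) ^ 2) / (3 * (2 * a))) * LibSchG.h0 e₁ e₂ c s +
      2 * cc a e₁ e₂ c s * (e₁ - e₂) * ((c ^ 2 - s ^ 2) ^ 2 + 2 * (2 * c * s) ^ 2) -
      8 * cc a e₁ e₂ c s ^ 2 * bB a e₁ e₂ * LibSchG.h0 e₁ e₂ c s) *
      (LibSchG.x0 e₁ e₂ c s * LibSchG.y0 e₁ e₂ c s) := by
    refine mul_pos ?_ (mul_pos hx hy)
    linarith
  linarith

theorem Inc.gD (I : Inc a e₁ e₂ c s X Z) : 0 ≤ gD a e₁ e₂ c s X Z := by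
  have h1 := dN_pos I.ha I.ha' I.SB
  have h2 := I.hL
  have h3 : 0 < e₁ + e₂ := by linarith [I.he₂, I.he]
  have h4 : 0 < e₁ := I.he₂.trans I.he
  have h5 := I.he₂
  unfold LibSchG.gD
  positivity

theorem Inc.pS (I : Inc a e₁ e₂ c s X Z) : 0 ≤ pS a e₁ e₂ c s X Z := by
  have h0 := I.gD
  have h1 := wW_pos I.ha I.ha' I.he₂ I.he
  have h2 := bB_neg I.ha I.ha' I.he₂ I.he
  have h3 := aA_pos I.ha I.ha' I.he₂ I.he
  have hc := I.SB.hc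
  have hs := I.hs
  have hx := I.SB.x0
  have hh := I.SB.h0
  have hC := I.SB.hC
  have hk : 0 < cc a e₁ e₂ c s := by unfold cc; positivity
  have h4 : 0 ≤ aA a e₁ e₂ - bB a e₁ e₂ := by linarith
  unfold LibSchG.pS
  positivity

theorem phi_base (he₂ : 0 < e₂) (he : e₂ < e₁) (hcs : c ^ 2 + s ^ 2 = 1) :
    (r1 a e₁ e₂ c s X Z * x0 e₁ e₂ c s + r2 a e₁ e₂ c s X Z * y0 e₁ e₂ c s) / 2 +
      h0 e₁ e₂ c s * kF a e₁ e₂ c s X Z 1 1 = a * (X ^ 2 * e₁ ^ (2 * a) + Z ^ 2 * e₂ ^ (2 * a)) := by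
  have he₁ : 0 < e₁ := he₂.trans he
  rw [r1_eq he, r2_eq he, r12_eq he]
  unfold x0 y0 h0
  have h1 : rP a e₁ X * e₁ = 2 * a * e₁ ^ (2 * a) * X ^ 2 := by
    unfold rP
    have : e₁ ^ (2 * a) = e₁ ^ (2 * a - 1) * e₁ := by
      rw [← Real.rpow_add_one he₁.ne']; ring_nf
    rw [this]; ring
  have h2 : rP a e₂ Z * e₂ = 2 * a * e₂ ^ (2 * a) * Z ^ 2 := by
    unfold rP
    have : e₂ ^ (2 * a) = e₂ ^ (2 * a - 1) * e₂ := by
      rw [← Real.rpow_add_one he₂.ne']; ring_nf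
    rw [this]; ring
  have h3 : a * (X ^ 2 * e₁ ^ (2 * a) + Z ^ 2 * e₂ ^ (2 * a)) =
      (rP a e₁ X * e₁ + rP a e₂ Z * e₂) / 2 := by
    rw [h1, h2]; ring
  rw [h3]
  linear_combination ((rP a e₁ X * e₁ + rP a e₂ Z * e₂) / 2 * (c ^ 2 + s ^ 2 + 1)) * hcs

end base

end Pool.Agent.LibSchG
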