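import Pool.Agent.LibSchG.N5c

/-! **N5d.**  The network form is at most `a φ` (assembly). -/

open Matrix
open scoped ComplexOrder

namespace Pool.Agent.LibSchG

open Pool.Agent.LibSchP Pool.Agent.LibSchA Pool.Agent.LibSchE

variable {a e₁ e₂ c s X Z : ℝ}

/-- the trial parameters -/
noncomputable def zA (a e₁ e₂ c s : ℝ) : ℝ := cc a e₁ e₂ c s * (2 * c * s)
noncomputable def zB (a e₁ e₂ c s : ℝ) : ℝ := -(cc a e₁ e₂ c s * (c ^ 2 - s ^ 2))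

theorem net_base (I : Inc a e₁ e₂ c s X Z) {T₁₁ T₁₂ T₂₂ ra rb rc rd Df : ℝ} (hrd : rd ≤ T₁₂)
    (hM : qDef ((4 - (2 * a) ^ 2) / (3 * (2 * a))) (zA a e₁ e₂ c s) (zB a e₁ e₂ c s)
      (aA a e₁ e₂) (bB a e₁ e₂) T₁₁ T₁₂ T₂₂ ra rb rc rd ≤ Df)
    (c1 : T₁₁ + T₁₂ = c ^ 2 * e₁ ^ 2 + s ^ 2 * e₂ ^ 2)
    (c2 : T₁₂ + T₂₂ = s ^ 2 * e₁ ^ 2 + c ^ 2 * e₂ ^ 2) (c3 : Df ≤ Dm a e₁ e₂ c s)
    (n1 : 0 ≤ T₁₂ / h0 e₁ e₂ c s ^ 2 + T₂₂ / y0 e₁ e₂ c s ^ 2 -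
      2 * (rb / (h0 e₁ e₂ c s * y0 e₁ e₂ c s)))
    (n2 : 0 ≤ T₁₁ / x0 e₁ e₂ c s ^ 2 + T₂₂ / y0 e₁ e₂ c s ^ 2 -
      2 * (rc / (x0 e₁ e₂ c s * y0 e₁ e₂ c s))) :
    r1 a e₁ e₂ c s X Z * x0 e₁ e₂ c s / 2 * (T₁₁ / x0 e₁ e₂ c s ^ 2) +
      h0 e₁ e₂ c s * kF a e₁ e₂ c s X Z 1 1 * (T₁₂ / h0 e₁ e₂ c s ^ 2) +
      r2 a e₁ e₂ c s X Z * y0 e₁ e₂ c s / 2 * (T₂₂ / y0 e₁ e₂ c s ^ 2) -
      pS a e₁ e₂ c s X Z * (T₁₁ / x0 e₁ e₂ c s ^ 2 + T₁₂ / h0 e₁ e₂ c s ^ 2 -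
        2 * (ra / (x0 e₁ e₂ c s * h0 e₁ e₂ c s))) ≤
    a * (X ^ 2 * e₁ ^ (2 * a) + Z ^ 2 * e₂ ^ (2 * a)) := by
  have hx := I.SB.x0
  have hy := I.SB.y0
  have hh := I.SB.h0
  have hw := wW_pos I.ha I.ha' I.he₂ I.he
  have hb := bB_neg I.ha I.ha' I.he₂ I.he
  have hA := aA_pos I.ha I.ha' I.he₂ I.he
  have hline := line_base I.ha I.ha' I.he₂ I.he
  have hd := dN_pos I.ha I.ha' I.SB
  have hγ := I.gD
  have hc := I.SB.hc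
  have hs := I.hs
  have hT : 0 < e₁ + e₂ := by linarith [I.he₂, I.he]
  have he₁ : 0 < e₁ := I.he₂.trans I.he
  have he₂ := I.he₂
  have hS : (c ^ 2 - s ^ 2) ^ 2 + (2 * c * s) ^ 2 = 1 := by
    have : (c ^ 2 - s ^ 2) ^ 2 + (2 * c * s) ^ 2 = (c ^ 2 + s ^ 2) ^ 2 := by ring
    rw [this, I.hcs]; norm_num
  have hc2 : c ^ 2 = (1 + (c ^ 2 - s ^ 2)) / 2 := by linarith [I.hcs]
  have hs2 : s ^ 2 = (1 - (c ^ 2 - s ^ 2)) / 2 := by linarith [I.hcs]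
  have ex : x0 e₁ e₂ c s = ((e₁ + e₂) + (c ^ 2 - s ^ 2) * (e₁ - e₂)) / 2 := by
    unfold x0
    linear_combination ((e₁ + e₂) / 2) * I.hcs
  have ey : y0 e₁ e₂ c s = ((e₁ + e₂) - (c ^ 2 - s ^ 2) * (e₁ - e₂)) / 2 := by
    unfold y0
    linear_combination ((e₁ + e₂) / 2) * I.hcs
  have eh : h0 e₁ e₂ c s = 2 * c * s * (e₁ - e₂) / 2 := by
    unfold h0; ring
  have e1 := base_b (T := e₁ + e₂) (D := e₁ - e₂) (C := c ^ 2 - s ^ 2) (S := 2 * c * s)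
    (k := cc a e₁ e₂ c s) (w₀ := (4 - (2 * a) ^ 2) / (3 * (2 * a))) (A := aA a e₁ e₂)
    (B := bB a e₁ e₂) ex ey eh hS
  have e2 := base_c (T := e₁ + e₂) (D := e₁ - e₂) (C := c ^ 2 - s ^ 2) (S := 2 * c * s)
    (k := cc a e₁ e₂ c s) (w₀ := (4 - (2 * a) ^ 2) / (3 * (2 * a))) (A := aA a e₁ e₂)
    (B := bB a e₁ e₂) ex ey eh hS
  have hD : e₁ - e₂ ≠ 0 := by linarith [I.he]
  have e3 := base_a (T := e₁ + e₂) (D := e₁ - e₂) (C := c ^ 2 - s ^ 2) (S := 2 * c * s)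
    (P := rP a e₁ X) (Q := rQ a e₁ e₂ X Z) (R := rP a e₂ Z) (r₁ := r1 a e₁ e₂ c s X Z)
    (r₂ := r2 a e₁ e₂ c s X Z) (r₁₂ := kF a e₁ e₂ c s X Z 1 1) (L := L12 a e₁ e₂ c s X Z)
    ex ey eh hS hT.ne' (by have : e₁ + e₂ + (e₁ - e₂) = 2 * e₁ := by ring
                           rw [this]; positivity)
    (by have : e₁ + e₂ - (e₁ - e₂) = 2 * e₂ := by ring
        rw [this]; positivity)
    (by rw [r1_eq I.he, ← hc2, ← hs2]; ring) (by rw [r2_eq I.he, ← hc2, ← hs2]; ring)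
    (by rw [r12_eq I.he]; ring)
    (by rw [L12_eq I.he₂ I.he]
        have h1 : e₁ + e₂ + (e₁ - e₂) = 2 * e₁ := by ring
        have h2 : e₁ + e₂ - (e₁ - e₂) = 2 * e₂ := by ring
        rw [h1, h2]; ring)
  have hphi := phi_base (a := a) (X := X) (Z := Z) I.he₂ I.he I.hcs
  set x := x0 e₁ e₂ c s with hxd
  set y := y0 e₁ e₂ c s with hyd
  set h := h0 e₁ e₂ c s with hhd
  set k := cc a e₁ e₂ c s with hkd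
  set w₀ := (4 - (2 * a) ^ 2) / (3 * (2 * a)) with hw₀
  set A := aA a e₁ e₂ with hAd
  set B := bB a e₁ e₂ with hBd
  set γ := gD a e₁ e₂ c s X Z with hγd
  set r₁ := r1 a e₁ e₂ c s X Z with hr₁
  set r₂ := r2 a e₁ e₂ c s X Z with hr₂
  set r₁₂ := kF a e₁ e₂ c s X Z 1 1 with hr₁₂
  have hz1 : zA a e₁ e₂ c s = k * (2 * c * s) := rfl
  have hz2 : zB a e₁ e₂ c s = -(k * (c ^ 2 - s ^ 2)) := rfl
  rw [hz1, hz2] at hM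
  set C := c ^ 2 - s ^ 2 with hCd
  set S := 2 * c * s with hSd
  set z₁ := k * S with hz₁
  set z₂ := -(k * C) with hz₂
  -- the multipliers
  set κ₀ := 8 * ((A + B) * (z₁ ^ 2 + z₂ ^ 2) + (A - B) * z₁ ^ 2) with hκ
  set ν := -8 * z₂ - 16 * (A - B) * z₁ * z₂ with hν
  set π₀ := 8 * (A - B) * z₂ ^ 2 with hπ
  set α₁ := (r₁ / 2 - γ * ν * h + γ * π₀ * y) / x + γ * κ₀ with hα₁
  set α₂ := (r₂ / 2 + γ * ν * h + γ * π₀ * x) / y + γ * κ₀ with hα₂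
  have R₁ : (α₁ - γ * κ₀) * x + γ * ν * h - γ * π₀ * y = r₁ / 2 := by
    rw [hα₁]; field_simp; ring
  have R₃ : (α₂ - γ * κ₀) * y - γ * ν * h - γ * π₀ * x = r₂ / 2 := by
    rw [hα₂]; field_simp; ring
  have hdN : dN a e₁ e₂ c s = 8 * ((2 * w₀ * h + 2 * k * (e₁ - e₂) * (C ^ 2 + 2 * S ^ 2) -
      8 * k ^ 2 * B * h) * (x * y) + 2 * k * C ^ 2 * (e₁ - e₂) * h ^ 2 +
      2 * k ^ 2 * h * (A * (e₁ + e₂) ^ 2 - B * C ^ 2 * (e₁ - e₂) ^ 2)) := by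
    unfold dN
    rw [← hxd, ← hyd, ← hhd, ← hkd, ← hAd, ← hBd, ← hw₀]
  have hγe : γ * (dN a e₁ e₂ c s / 2) = L12 a e₁ e₂ c s X Z * (e₁ + e₂) *
      ((e₁ + e₂ + (e₁ - e₂)) / 2 * ((e₁ + e₂ - (e₁ - e₂)) / 2)) := by
    rw [hγd]
    unfold gD
    field_simp
    ring
  have R₂ : γ * ν * (x - y) + (α₁ + α₂ + γ * (8 * w₀ + 32 * z₁ -
      16 * (A + B) * (z₁ ^ 2 + z₂ ^ 2) - 8 * (A - B) * (-2 * z₁ ^ 2 + 2 * z₂ ^ 2))) * h =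
      r₁₂ := by
    have hxy : x * y ≠ 0 := by positivity
    apply mul_left_cancel₀ hxy
    have e4 : x * y * (γ * ν * (x - y) + (α₁ + α₂ + γ * (8 * w₀ + 32 * z₁ -
      16 * (A + B) * (z₁ ^ 2 + z₂ ^ 2) - 8 * (A - B) * (-2 * z₁ ^ 2 + 2 * z₂ ^ 2))) * h) =
      γ * (x * y * (ν * (x - y) + h * (8 * w₀ + 32 * z₁ - 16 * (A + B) * (z₁ ^ 2 + z₂ ^ 2) -
        8 * (A - B) * (-2 * z₁ ^ 2 + 2 * z₂ ^ 2)) + 2 * h * κ₀) +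
        h * (ν * h * (x - y) + π₀ * (x ^ 2 + y ^ 2))) + h / 2 * (r₁ * y + r₂ * x) := by
      rw [hα₁, hα₂]
      field_simp
      ring
    rw [e4, e1]
    have e5 : γ * (4 * ((2 * w₀ * h + 2 * k * (e₁ - e₂) * (C ^ 2 + 2 * S ^ 2) -
        8 * k ^ 2 * B * h) * (x * y) + 2 * k * C ^ 2 * (e₁ - e₂) * h ^ 2 +
        2 * k ^ 2 * h * (A * (e₁ + e₂) ^ 2 - B * C ^ 2 * (e₁ - e₂) ^ 2))) =
        γ * (dN a e₁ e₂ c s / 2) := by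
      rw [hdN]; ring
    rw [e5, hγe]
    linarith
  have hnet := net_alg (T₁₁ := T₁₁) (T₂₂ := T₂₂) (ra := ra) (rb := rb) (rc := rc) hx.ne' hh.ne'
    hy.ne' hγ (by linarith : B ≤ A) R₁ R₃ R₂ hrd
  -- the value at the base
  have hbase : α₁ * (x ^ 2 + h ^ 2) + α₂ * (h ^ 2 + y ^ 2) +
      γ * qDef w₀ z₁ z₂ A B (x ^ 2) (h ^ 2) (y ^ 2) (x * h) (h * y) (x * y) (h ^ 2) =
      (r₁ * x + r₂ * y) / 2 + h * r₁₂ := by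
    unfold qDef
    linear_combination x * R₁ + y * R₃ + h * R₂
  have hDm : Dm a e₁ e₂ c s =
      qDef w₀ z₁ z₂ A B (x ^ 2) (h ^ 2) (y ^ 2) (x * h) (h * y) (x * y) (h ^ 2) := by
    rw [e2, Dm_eq I.ha I.he₂ I.he, hline]
    have hk : k * (e₁ - e₂) = h * wW a e₁ e₂ := by
      rw [hkd, hhd]; unfold cc h0; ring
    have hk2 : k ^ 2 * ((e₁ - e₂) ^ 2 / wW a e₁ e₂) = h ^ 2 * wW a e₁ e₂ := by
      rw [← mul_div_assoc, ← mul_pow, hk]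
      field_simp
    rw [← hw₀, ← hhd]
    linear_combination (-16 * h) * hk + 8 * hk2
  have p1 : c ^ 2 * e₁ ^ 2 + s ^ 2 * e₂ ^ 2 = x ^ 2 + h ^ 2 := by
    rw [hxd, hhd]
    unfold x0 h0
    linear_combination (-(c ^ 2 * e₁ ^ 2 + s ^ 2 * e₂ ^ 2)) * I.hcs
  have p2 : s ^ 2 * e₁ ^ 2 + c ^ 2 * e₂ ^ 2 = h ^ 2 + y ^ 2 := by
    rw [hyd, hhd]
    unfold y0 h0
    linear_combination (-(s ^ 2 * e₁ ^ 2 + c ^ 2 * e₂ ^ 2)) * I.hcs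
  rw [p1] at c1
  rw [p2] at c2
  rw [c1, c2] at hnet
  have hq : γ * qDef w₀ z₁ z₂ A B T₁₁ T₁₂ T₂₂ ra rb rc rd ≤ γ *
      qDef w₀ z₁ z₂ A B (x ^ 2) (h ^ 2) (y ^ 2) (x * h) (h * y) (x * y) (h ^ 2) := by
    refine mul_le_mul_of_nonneg_left ?_ hγ
    rw [← hDm]
    exact hM.trans c3
  have hπ0 : 0 ≤ π₀ := by
    have : 0 ≤ A - B := by linarith
    positivity
  have hC := I.SB.hC
  have hk0 : 0 < k := by rw [hkd]; unfold cc; positivity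
  have hν0 : 0 ≤ ν := by
    have h1 : ν = 8 * (k * C) * (1 + 2 * (A - B) * z₁) := by
      rw [hν, hz₂]; ring
    have h2 : 0 ≤ A - B := by linarith
    rw [h1]
    positivity
  have m1 : 0 ≤ γ * ν * h * y * (T₁₂ / h ^ 2 + T₂₂ / y ^ 2 - 2 * (rb / (h * y))) :=
    mul_nonneg (by positivity) n1
  have m2 : 0 ≤ γ * π₀ * x * y * (T₁₁ / x ^ 2 + T₂₂ / y ^ 2 - 2 * (rc / (x * y))) :=
    mul_nonneg (by positivity) n2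
  have hp : pS a e₁ e₂ c s X Z = γ * ν * x * h := by
    unfold pS
    rw [← hγd, ← hxd, ← hhd, ← hkd, ← hAd, ← hBd, hν, hz₂, hz₁]
    ring
  rw [hp]
  linarith

end Pool.Agent.LibSchG
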