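import Pool.Agent.LibSchG.N5d

/-! **N6a.**  `ρ₁₁ > 0`, `ρ₂₂ ≥ 0`. -/

open Matrix Set
open scoped ComplexOrder

namespace Pool.Agent.LibSchG

open Pool.Agent.LibSchP Pool.Agent.LibSchA Pool.Agent.LibSchE

theorem sinh_lt {b x : ℝ} (hb : 0 < b) (hb1 : b < 1) (hx : 0 < x) :
    Real.sinh (b * x) < b * Real.sinh x := by
  have hmono : StrictMonoOn (fun x : ℝ => b * Real.sinh x - Real.sinh (b * x)) (Ici 0) := by
    apply strictMonoOn_of_deriv_pos (convex_Ici 0)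
    · fun_prop
    · intro y hy
      rw [interior_Ici] at hy
      have hy' : (0 : ℝ) < y := hy
      have hd : HasDerivAt (fun x : ℝ => b * Real.sinh x - Real.sinh (b * x))
          (b * Real.cosh y - Real.cosh (b * y) * (b * 1)) y := by
        have h1 := (Real.hasDerivAt_sinh y).const_mul b
        have h2 := (Real.hasDerivAt_sinh (b * y)).comp y ((hasDerivAt_id y).const_mul b)
        exact h1.sub h2
      rw [hd.deriv]
      have h3 : Real.cosh (b * y) < Real.cosh y := by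
        rw [Real.cosh_lt_cosh, abs_of_pos (by positivity), abs_of_pos hy']
        nlinarith
      nlinarith
  have h := hmono (self_mem_Ici) (mem_Ici.2 hx.le) hx
  simp at h
  linarith

section base

variable {a e₁ e₂ c s X Z : ℝ}

theorem dd_lt (ha : 0 < a) (ha' : 2 * a < 1) (he₂ : 0 < e₂) (he : e₂ < e₁) :
    ((e₁ ^ (2 * a) - e₂ ^ (2 * a)) / (e₁ - e₂)) ^ 2 <
      (2 * a * e₁ ^ (2 * a - 1)) * (2 * a * e₂ ^ (2 * a - 1)) := by
  have he₁ : 0 < e₁ := he₂.trans he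
  have hr : 0 < e₁ / e₂ := by positivity
  set u := Real.log (e₁ / e₂) / 2 with hu
  have hu0 := u_pos he₂ he
  rw [← hu] at hu0
  have h2u : Real.exp u * Real.exp u = e₁ / e₂ := by
    rw [← Real.exp_add, hu, add_halves, Real.exp_log hr]
  have hb : Real.exp (2 * a * u) = e₁ ^ a / e₂ ^ a := by
    rw [← Real.div_rpow he₁.le he₂.le, Real.rpow_def_of_pos hr, hu]
    congr 1
    ring
  have hlt := sinh_lt (b := 2 * a) (by linarith) ha' hu0
  have hp1 : 0 < e₁ ^ a := Real.rpow_pos_of_pos he₁ _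
  have hp2 : 0 < e₂ ^ a := Real.rpow_pos_of_pos he₂ _
  have q1 : e₁ ^ (2 * a) = (e₁ ^ a) ^ 2 := by
    rw [← Real.rpow_natCast, ← Real.rpow_mul he₁.le]; ring_nf
  have q2 : e₂ ^ (2 * a) = (e₂ ^ a) ^ 2 := by
    rw [← Real.rpow_natCast, ← Real.rpow_mul he₂.le]; ring_nf
  have w1 : e₁ ^ (2 * a - 1) = (e₁ ^ a) ^ 2 / e₁ := by
    rw [Real.rpow_sub_one he₁.ne', q1]
  have w2 : e₂ ^ (2 * a - 1) = (e₂ ^ a) ^ 2 / e₂ := by
    rw [Real.rpow_sub_one he₂.ne', q2]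
  have hlt2 : e₂ ^ a < e₁ ^ a := Real.rpow_lt_rpow he₂.le he ha
  rw [w1, w2, q1, q2]
  have s1 : Real.sinh (2 * a * u) ^ 2 = ((e₁ ^ a) ^ 2 - (e₂ ^ a) ^ 2) ^ 2 /
      (4 * ((e₁ ^ a) ^ 2 * (e₂ ^ a) ^ 2)) := by
    rw [Real.sinh_eq, Real.exp_neg, hb]
    field_simp
    ring
  have s2 : Real.sinh u ^ 2 = (e₁ - e₂) ^ 2 / (4 * (e₁ * e₂)) := by
    rw [Real.sinh_eq, Real.exp_neg]
    have h3 := Real.exp_pos u
    have : ((Real.exp u - (Real.exp u)⁻¹) / 2) ^ 2 =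
        (Real.exp u * Real.exp u - 1) ^ 2 / (4 * (Real.exp u * Real.exp u)) := by
      field_simp
      ring
    rw [this, h2u]
    field_simp
  have hs0 : 0 < Real.sinh (2 * a * u) := Real.sinh_pos_iff.2 (by positivity)
  have h4 : Real.sinh (2 * a * u) ^ 2 < (2 * a) ^ 2 * Real.sinh u ^ 2 := by
    rw [← mul_pow]
    exact pow_lt_pow_left₀ hlt hs0.le (by norm_num)
  rw [s1, s2] at h4
  have hD : 0 < e₁ - e₂ := by linarith
  rw [div_lt_iff₀ (by positivity)] at h4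
  rw [div_pow, div_lt_iff₀ (by positivity)]
  calc ((e₁ ^ a) ^ 2 - (e₂ ^ a) ^ 2) ^ 2 <
      (2 * a) ^ 2 * ((e₁ - e₂) ^ 2 / (4 * (e₁ * e₂))) * (4 * ((e₁ ^ a) ^ 2 * (e₂ ^ a) ^ 2)) := h4
    _ = 2 * a * ((e₁ ^ a) ^ 2 / e₁) * (2 * a * ((e₂ ^ a) ^ 2 / e₂)) * (e₁ - e₂) ^ 2 := by
      field_simp

/-- positive definiteness of the matrix of divided differences -/
theorem ker_pos (ha : 0 < a) (ha' : 2 * a < 1) (he₂ : 0 < e₂) (he : e₂ < e₁) {p q : ℝ}
    (h : p ≠ 0 ∨ q ≠ 0) : 0 < ker a e₁ e₂ p q p q 1 1 := by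
  have he₁ : 0 < e₁ := he₂.trans he
  rw [ker_one _ _ _ _ he]
  have h1 := dd_lt ha ha' he₂ he
  have hA : 0 < 2 * a * e₁ ^ (2 * a - 1) := by
    have := Real.rpow_pos_of_pos he₁ (2 * a - 1)
    positivity
  have hC : 0 < 2 * a * e₂ ^ (2 * a - 1) := by
    have := Real.rpow_pos_of_pos he₂ (2 * a - 1)
    positivity
  set A := 2 * a * e₁ ^ (2 * a - 1)
  set C := 2 * a * e₂ ^ (2 * a - 1)
  set B := (e₁ ^ (2 * a) - e₂ ^ (2 * a)) / (e₁ - e₂)
  have h2 : A * (p * p * A + (p * q + q * p) * B + q * q * C) =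
      (A * p + B * q) ^ 2 + (A * C - B ^ 2) * q ^ 2 := by ring
  have h3 : 0 < A * (p * p * A + (p * q + q * p) * B + q * q * C) := by
    rw [h2]
    by_cases hq : q = 0
    · have hp : p ≠ 0 := by
        rcases h with h | h
        · exact h
        · exact absurd hq h
      subst hq
      have : 0 < (A * p) ^ 2 := by positivity
      simpa using this
    · have h4 : 0 < (A * C - B ^ 2) * q ^ 2 := mul_pos (by linarith) (by positivity)
      have := sq_nonneg (A * p + B * q)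
      linarith
  exact (mul_pos_iff_of_pos_left hA).1 h3

theorem Inc.r1 (I : Inc a e₁ e₂ c s X Z) : 0 < r1 a e₁ e₂ c s X Z := by
  unfold LibSchG.r1
  apply ker_pos I.ha I.ha' I.he₂ I.he
  by_contra h
  push Not at h
  have := I.hv₁
  linarith [h.1, h.2]

theorem Inc.r2 (I : Inc a e₁ e₂ c s X Z) : 0 < r2 a e₁ e₂ c s X Z := by
  unfold LibSchG.r2
  apply ker_pos I.ha I.ha' I.he₂ I.he
  by_contra h
  push Not at h
  have := I.hv₂
  linarith [h.1, h.2]

end base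

end Pool.Agent.LibSchG
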