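import Pool.Agent.LibSchG.N6a

/-! **N6b.**  The tangent line of `t / (w - w₀)` at the base. -/

open Matrix Set
open scoped ComplexOrder

namespace Pool.Agent.LibSchG

open Pool.Agent.LibSchP Pool.Agent.LibSchA Pool.Agent.LibSchE

theorem tangent_line {a e₁ e₂ : ℝ} (ha : 0 < a) (ha' : 2 * a < 1) (he₂ : 0 < e₂) (he : e₂ < e₁)
    {u : ℝ} (hu : 0 < u) :
    3 * (2 * a) / ((1 - (2 * a) ^ 2) * (4 - (2 * a) ^ 2)) * SchK.Ff (2 * a) u ≤
      aA a e₁ e₂ + bB a e₁ e₂ * Real.tanh u ^ 2 := by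
  have h0 := u_pos he₂ he
  have hb0 : 0 < 2 * a := by linarith
  have ht := SchK.F_tangent hb0 ha' hu h0
  have h3 : 0 < 1 - (2 * a) ^ 2 := by nlinarith
  have h4 : 0 < 4 - (2 * a) ^ 2 := by linarith
  have hF := SchK.F_pos hb0 ha' h0
  have htn := SchK.tanh_pos h0
  have hw : wW a e₁ e₂ = (1 - (2 * a) ^ 2) * (4 - (2 * a) ^ 2) / (3 * (2 * a)) *
      Real.tanh (Real.log (e₁ / e₂) / 2) ^ 2 / SchK.Ff (2 * a) (Real.log (e₁ / e₂) / 2) := by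
    unfold wW
    exact SchK.wf_sub hb0 ha' h0
  have hA : aA a e₁ e₂ = 3 * (2 * a) / ((1 - (2 * a) ^ 2) * (4 - (2 * a) ^ 2)) *
      SchK.Ff (2 * a) (Real.log (e₁ / e₂) / 2) -
      bB a e₁ e₂ * Real.tanh (Real.log (e₁ / e₂) / 2) ^ 2 := by
    unfold aA
    rw [← tanh_base he₂ he, hw]
    field_simp
  rw [hA]
  unfold bB
  have hk : 0 ≤ 3 * (2 * a) / ((1 - (2 * a) ^ 2) * (4 - (2 * a) ^ 2)) := by positivity
  have h5 := mul_le_mul_of_nonneg_left ht hk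
  linarith

end Pool.Agent.LibSchG
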