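import Pool.Agent.LibSchG.N5d
import Pool.Agent.LibSchG.N6a
import Pool.Agent.LibSchG.N4b
import Pool.Agent.LibSchE.E9a

/-! **N7.**  The column inequality in the own gauge. -/

open Matrix
open scoped ComplexOrder

namespace Pool.Agent.LibSchG

open Pool.Agent.LibSchP Pool.Agent.LibSchA Pool.Agent.LibSchE

variable {m : Type} [Fintype m] [DecidableEq m]

/-- the statement of the tangent bound in the own gauge (N1) -/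
def TG (a e₁ e₂ c s X Z : ℝ) : Prop :=
  ∀ (m : Type) [Fintype m] [DecidableEq m] (W : Matrix (m ⊕ m) (m ⊕ m) ℂ),
    W ∈ unitaryGroup (m ⊕ m) ℂ → ∀ (μ : m ⊕ m → ℝ), (∀ i, 0 ≤ μ i) →
    ∀ (U U' : Matrix m m ℂ), U ∈ unitaryGroup m ℂ → U' ∈ unitaryGroup m ℂ →
    ∀ (θ θ' : m → ℝ), (∀ j, 0 < θ j) → (∀ j, 0 < θ' j) → ∑ j, θ j ^ 2 = 1 → ∑ j, θ' j ^ 2 = 1 →
    cE W (fun i => μ i ^ (2 * a)) (U * dg (fun j => (c * X - s * Z) * θ j ^ (1 - a)) * Uᴴ)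
        (U' * dg (fun j => (s * X + c * Z) * θ' j ^ (1 - a)) * U'ᴴ) ≤
      (1 - 2 * a) * (X ^ 2 * e₁ ^ (2 * a) + Z ^ 2 * e₂ ^ (2 * a)) +
        r1 a e₁ e₂ c s X Z * pr U θ (ud W μ).toBlocks₁₁ +
        r2 a e₁ e₂ c s X Z * pr U' θ' (ud W μ).toBlocks₂₂ +
        2 * cx (kF a e₁ e₂ c s X Z) U U θ U' U' θ' (ud W μ).toBlocks₁₂

/-- the statement of the column inequality in the own gauge -/
def OwnG (a e₁ e₂ c s X Z : ℝ) : Prop :=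
  ∀ (m : Type) [Fintype m] [DecidableEq m] (W : Matrix (m ⊕ m) (m ⊕ m) ℂ),
    W ∈ unitaryGroup (m ⊕ m) ℂ → ∀ (μ : m ⊕ m → ℝ), (∀ i, 0 ≤ μ i) →
    ∀ (U U' : Matrix m m ℂ), U ∈ unitaryGroup m ℂ → U' ∈ unitaryGroup m ℂ →
    ∀ (θ θ' : m → ℝ), (∀ j, 0 < θ j) → (∀ j, 0 < θ' j) → ∑ j, θ j ^ 2 = 1 → ∑ j, θ' j ^ 2 = 1 →
    fr (ud W μ).toBlocks₁₁ + fr (ud W μ).toBlocks₁₂ = c ^ 2 * e₁ ^ 2 + s ^ 2 * e₂ ^ 2 →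
    fr (ud W μ).toBlocks₁₂ + fr (ud W μ).toBlocks₂₂ = s ^ 2 * e₁ ^ 2 + c ^ 2 * e₂ ^ 2 →
    DefE a W μ ≤ Dm a e₁ e₂ c s →
    cE W (fun i => μ i ^ (2 * a)) (U * dg (fun j => (c * X - s * Z) * θ j ^ (1 - a)) * Uᴴ)
        (U' * dg (fun j => (s * X + c * Z) * θ' j ^ (1 - a)) * U'ᴴ) ≤
      X ^ 2 * e₁ ^ (2 * a) + Z ^ 2 * e₂ ^ (2 * a)

omit [DecidableEq m] in
theorem tr_inv (x y : ℝ) (A B : Matrix m m ℂ) (hA : A.IsHermitian) :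
    (trace (((x : ℂ)⁻¹ • A)ᴴ * ((y : ℂ)⁻¹ • B))).re = (trace (A * B)).re / (x * y) := by
  have h1 : ((x : ℂ)⁻¹) = ((x⁻¹ : ℝ) : ℂ) := by push_cast; rfl
  have h2 : ((y : ℂ)⁻¹) = ((y⁻¹ : ℝ) : ℂ) := by push_cast; rfl
  rw [h1, h2, conjTranspose_smul, hA.eq, Matrix.smul_mul, Matrix.mul_smul, trace_smul, trace_smul,
    Complex.star_def, Complex.conj_ofReal, smul_eq_mul, smul_eq_mul, Complex.re_ofReal_mul,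
    Complex.re_ofReal_mul]
  rw [div_eq_mul_inv, mul_inv]
  ring

theorem fr_inv (x : ℝ) (A : Matrix m m ℂ) : fr ((x : ℂ)⁻¹ • A) = fr A / x ^ 2 := by
  have h1 : ((x : ℂ)⁻¹) = ((x⁻¹ : ℝ) : ℂ) := by push_cast; rfl
  rw [h1, E3a_fr_smul, inv_pow, div_eq_inv_mul]

theorem tr_sq_le (A : Matrix m m ℂ) : (trace (A * A)).re ≤ fr A := by
  have h := E3a_fr_sub Aᴴ A
  have h0 := fr_nonneg (Aᴴ - A)
  have h1 : fr Aᴴ = fr A := by rw [← nf_sq, nf_conjTranspose, nf_sq]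
  rw [conjTranspose_conjTranspose, h1] at h
  linarith

theorem own_gauge {a e₁ e₂ c s X Z : ℝ} (I : Inc a e₁ e₂ c s X Z) (H : ColOK a e₁ e₂ c s X Z)
    (hT : TG a e₁ e₂ c s X Z) : OwnG a e₁ e₂ c s X Z := by
  intro m _ _ W hW μ hμ U U' hU hU' θ θ' hθ hθ' hs hs' k1 k2 k3
  obtain ⟨M, P, pt, hMP, hpt, hser, hHS⟩ := H
  have hE : (ud W μ).IsHermitian := ud_isHermitian W μ
  have h11 : (ud W μ).toBlocks₁₁.IsHermitian := E9a_h11 _ hE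
  have h22 : (ud W μ).toBlocks₂₂.IsHermitian := E9a_h22 _ hE
  have hx := I.SB.x0
  have hy := I.SB.y0
  have hh := I.SB.h0
  have t := hT m W hW μ hμ U U' hU hU' θ θ' hθ hθ' hs hs'
  have f := hHS.final hx hy hh I.r1 I.r2.le I.pS hpt hser U U' hU hU' θ θ' hθ hθ' hs hs'
    (ud W μ).toBlocks₁₁ (ud W μ).toBlocks₁₂ (ud W μ).toBlocks₂₂ h11 h22
  have hM := minorant_sc I.ha I.ha' (hab_base I.ha I.ha' I.he₂ I.he) W hW μ hμ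
    (zA a e₁ e₂ c s) (zB a e₁ e₂ c s)
  have hM' : qDef ((4 - (2 * a) ^ 2) / (3 * (2 * a))) (zA a e₁ e₂ c s) (zB a e₁ e₂ c s)
      (aA a e₁ e₂) (bB a e₁ e₂) (fr (ud W μ).toBlocks₁₁) (fr (ud W μ).toBlocks₁₂)
      (fr (ud W μ).toBlocks₂₂) (trace ((ud W μ).toBlocks₁₁ * (ud W μ).toBlocks₁₂)).re
      (trace ((ud W μ).toBlocks₁₂ * (ud W μ).toBlocks₂₂)).re
      (trace ((ud W μ).toBlocks₁₁ * (ud W μ).toBlocks₂₂)).re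
      (trace ((ud W μ).toBlocks₁₂ * (ud W μ).toBlocks₁₂)).re ≤ DefE a W μ := by
    refine le_trans (le_of_eq ?_) hM
    unfold qDef
    ring
  have n1 : 0 ≤ fr (ud W μ).toBlocks₁₂ / h0 e₁ e₂ c s ^ 2 + fr (ud W μ).toBlocks₂₂ /
      y0 e₁ e₂ c s ^ 2 - 2 * ((trace ((ud W μ).toBlocks₁₂ * (ud W μ).toBlocks₂₂)).re /
        (h0 e₁ e₂ c s * y0 e₁ e₂ c s)) := by
    have e := E3a_fr_sub ((y0 e₁ e₂ c s : ℂ)⁻¹ • (ud W μ).toBlocks₂₂)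
      ((h0 e₁ e₂ c s : ℂ)⁻¹ • (ud W μ).toBlocks₁₂)
    rw [tr_inv _ _ _ _ h22, fr_inv, fr_inv, trace_mul_comm] at e
    have e0 := fr_nonneg ((y0 e₁ e₂ c s : ℂ)⁻¹ • (ud W μ).toBlocks₂₂ -
      (h0 e₁ e₂ c s : ℂ)⁻¹ • (ud W μ).toBlocks₁₂)
    rw [e] at e0
    rw [mul_comm (y0 e₁ e₂ c s) (h0 e₁ e₂ c s)] at e0
    linarith
  have n2 : 0 ≤ fr (ud W μ).toBlocks₁₁ / x0 e₁ e₂ c s ^ 2 + fr (ud W μ).toBlocks₂₂ /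
      y0 e₁ e₂ c s ^ 2 - 2 * ((trace ((ud W μ).toBlocks₁₁ * (ud W μ).toBlocks₂₂)).re /
        (x0 e₁ e₂ c s * y0 e₁ e₂ c s)) := by
    have e := E3a_fr_sub ((x0 e₁ e₂ c s : ℂ)⁻¹ • (ud W μ).toBlocks₁₁)
      ((y0 e₁ e₂ c s : ℂ)⁻¹ • (ud W μ).toBlocks₂₂)
    rw [tr_inv _ _ _ _ h11, fr_inv, fr_inv] at e
    have e0 := fr_nonneg ((x0 e₁ e₂ c s : ℂ)⁻¹ • (ud W μ).toBlocks₁₁ -
      (y0 e₁ e₂ c s : ℂ)⁻¹ • (ud W μ).toBlocks₂₂)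
    rw [e] at e0
    linarith
  have n3 : fr ((x0 e₁ e₂ c s : ℂ)⁻¹ • (ud W μ).toBlocks₁₁ -
      (h0 e₁ e₂ c s : ℂ)⁻¹ • (ud W μ).toBlocks₁₂) = fr (ud W μ).toBlocks₁₁ / x0 e₁ e₂ c s ^ 2 +
      fr (ud W μ).toBlocks₁₂ / h0 e₁ e₂ c s ^ 2 -
      2 * ((trace ((ud W μ).toBlocks₁₁ * (ud W μ).toBlocks₁₂)).re /
        (x0 e₁ e₂ c s * h0 e₁ e₂ c s)) := by
    rw [E3a_fr_sub, tr_inv _ _ _ _ h11, fr_inv, fr_inv]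
  have b := net_base I (rd := (trace ((ud W μ).toBlocks₁₂ * (ud W μ).toBlocks₁₂)).re)
    (ra := (trace ((ud W μ).toBlocks₁₁ * (ud W μ).toBlocks₁₂)).re)
    (rb := (trace ((ud W μ).toBlocks₁₂ * (ud W μ).toBlocks₂₂)).re)
    (rc := (trace ((ud W μ).toBlocks₁₁ * (ud W μ).toBlocks₂₂)).re) (tr_sq_le _)
    hM' k1 k2 k3 n1 n2
  have p := phi_base (a := a) (X := X) (Z := Z) I.he₂ I.he I.hcs
  rw [fr_inv, fr_inv, fr_inv, n3, hMP] at f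
  linarith

end Pool.Agent.LibSchG
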