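import Pool.Agent.LibSchG.N7
import Pool.Agent.LibSchE.E6

/-! **N8.**  General columns: polar decomposition, gauge, density. -/

open Matrix Filter Topology
open scoped ComplexOrder

namespace Pool.Agent.LibSchG

open Pool.Agent.LibSchP Pool.Agent.LibSchA Pool.Agent.LibSchE

variable {m : Type} [Fintype m] [DecidableEq m]

theorem svd_unit {q v a : ℝ} (hq : 0 < q) (hv : 0 < v) (hqa : q * (1 - a) = 2)
    (A : Matrix m m ℂ) (hA : LibSch.pw q A = v ^ q) :
    ∃ V ∈ unitaryGroup m ℂ, ∃ U ∈ unitaryGroup m ℂ, ∃ θ : m → ℝ, (∀ j, 0 ≤ θ j) ∧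
      ∑ j, θ j ^ 2 = 1 ∧ A = V * (U * dg (fun j => v * θ j ^ (1 - a)) * Uᴴ) := by
  obtain ⟨V, hV, hp⟩ := polar_sq Aᴴ
  obtain ⟨U, hU, x, hx, hT⟩ := ud_exists_nonneg (Aᴴ * V) hp
  have hVV : V * Vᴴ = 1 := a2_uu' V hV
  have h1 : Vᴴ * A = ud U x := by
    have h := congrArg conjTranspose hT
    rw [conjTranspose_mul, conjTranspose_conjTranspose] at h
    rw [h]
    exact ud_isHermitian U x
  have h2 : A = V * ud U x := by
    rw [← h1, ← Matrix.mul_assoc, hVV, Matrix.one_mul]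
  have h3 : Aᴴ * A = ud U fun k => x k * x k := by
    rw [← ud_mul U hU, ← hT, Matrix.mul_assoc, hT, ← h2]
  have h4 := pw_ud q A U hU _ h3
  rw [hA] at h4
  have h5 : ∀ k, (x k * x k) ^ (q / 2) = x k ^ q := by
    intro k
    rw [← sq, ← Real.rpow_natCast, ← Real.rpow_mul (hx k)]
    congr 1
    push_cast
    ring
  refine ⟨V, hV, U, hU, fun j => (x j / v) ^ (q / 2), fun j => by
    have := hx j
    positivity, ?_, ?_⟩
  · have h6 : ∀ j, ((x j / v) ^ (q / 2)) ^ 2 = x j ^ q / v ^ q := by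
      intro j
      have h0 : 0 ≤ x j / v := div_nonneg (hx j) hv.le
      rw [← Real.div_rpow (hx j) hv.le, ← Real.rpow_natCast, ← Real.rpow_mul h0]
      congr 1
      push_cast
      ring
    simp only [h6]
    rw [← Finset.sum_div]
    simp only [h5] at h4
    rw [← h4]
    exact div_self (Real.rpow_pos_of_pos hv q).ne'
  · have h7 : ∀ j, v * ((x j / v) ^ (q / 2)) ^ (1 - a) = x j := by
      intro j
      have h0 : 0 ≤ x j / v := div_nonneg (hx j) hv.le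
      rw [← Real.rpow_mul h0, show q / 2 * (1 - a) = 1 by linarith, Real.rpow_one]
      field_simp
    simp only [h7]
    exact h2

/-- `fromBlocks V 0 0 V'` -/
def gg (V V' : Matrix m m ℂ) : Matrix (m ⊕ m) (m ⊕ m) ℂ := fromBlocks V 0 0 V'

omit [DecidableEq m] [Fintype m] in
theorem gg_ct (V V' : Matrix m m ℂ) : (gg V V')ᴴ = gg Vᴴ V'ᴴ := by
  unfold gg
  rw [fromBlocks_conjTranspose, conjTranspose_zero]

theorem gg_unit (V V' : Matrix m m ℂ) (hV : V ∈ unitaryGroup m ℂ) (hV' : V' ∈ unitaryGroup m ℂ) :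
    gg V V' * (gg V V')ᴴ = 1 := by
  rw [gg_ct]
  unfold gg
  rw [fromBlocks_multiply, a2_uu' V hV, a2_uu' V' hV']
  simp [fromBlocks_one]

theorem gg_unit' (V V' : Matrix m m ℂ) (hV : V ∈ unitaryGroup m ℂ) (hV' : V' ∈ unitaryGroup m ℂ) :
    (gg V V')ᴴ * gg V V' = 1 := by
  rw [gg_ct]
  unfold gg
  rw [fromBlocks_multiply, a2_uu V hV, a2_uu V' hV']
  simp [fromBlocks_one]

theorem ud_gg (V V' : Matrix m m ℂ) (W : Matrix (m ⊕ m) (m ⊕ m) ℂ) (κ : m ⊕ m → ℝ) :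
    ud ((gg V V')ᴴ * W) κ = (gg V V')ᴴ * ud W κ * gg V V' := by
  unfold ud
  rw [conjTranspose_mul, conjTranspose_conjTranspose]
  simp only [Matrix.mul_assoc]

theorem cE_gg {n : Type} [Fintype n] (V V' : Matrix m m ℂ) (W : Matrix (m ⊕ m) (m ⊕ m) ℂ)
    (κ : m ⊕ m → ℝ) (P P' : Matrix m n ℂ) :
    cE W κ (V * P) (V' * P') = cE ((gg V V')ᴴ * W) κ P P' := by
  have h : fromRows (V * P) (V' * P') = gg V V' * fromRows P P' := by
    unfold gg
    rw [fromBlocks_mul_fromRows]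
    simp
  unfold cE
  rw [ud_gg, h, conjTranspose_mul]
  simp only [Matrix.mul_assoc]

theorem blocks_gg (V V' : Matrix m m ℂ) (E : Matrix (m ⊕ m) (m ⊕ m) ℂ) :
    ((gg V V')ᴴ * E * gg V V').toBlocks₁₁ = Vᴴ * E.toBlocks₁₁ * V ∧
      ((gg V V')ᴴ * E * gg V V').toBlocks₁₂ = Vᴴ * E.toBlocks₁₂ * V' ∧
      ((gg V V')ᴴ * E * gg V V').toBlocks₂₂ = V'ᴴ * E.toBlocks₂₂ * V' := by
  have h : (gg V V')ᴴ * E * gg V V' = fromBlocks (Vᴴ * E.toBlocks₁₁ * V) (Vᴴ * E.toBlocks₁₂ * V')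
      (V'ᴴ * E.toBlocks₂₁ * V) (V'ᴴ * E.toBlocks₂₂ * V') := by
    rw [gg_ct]
    conv_lhs => rw [← fromBlocks_toBlocks E]
    unfold gg
    rw [fromBlocks_multiply, fromBlocks_multiply]
    simp
  rw [h, toBlocks_fromBlocks₁₁, toBlocks_fromBlocks₁₂, toBlocks_fromBlocks₂₂]
  exact ⟨rfl, rfl, rfl⟩

theorem DefE_gg (a : ℝ) (V V' : Matrix m m ℂ) (hV : V ∈ unitaryGroup m ℂ)
    (hV' : V' ∈ unitaryGroup m ℂ) (W : Matrix (m ⊕ m) (m ⊕ m) ℂ) (μ : m ⊕ m → ℝ) :
    DefE a ((gg V V')ᴴ * W) μ = DefE a W μ := by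
  have h : ((gg V V')ᴴ * W)ᴴ * sg m * ((gg V V')ᴴ * W) = Wᴴ * sg m * W := by
    have h1 : gg V V' * sg m * (gg V V')ᴴ = sg m := by
      have : gg V V' * sg m = sg m * gg V V' := by
        unfold gg sg
        rw [fromBlocks_multiply, fromBlocks_multiply]
        simp
      rw [this, Matrix.mul_assoc, gg_unit V V' hV hV', Matrix.mul_one]
    rw [conjTranspose_mul, conjTranspose_conjTranspose]
    calc Wᴴ * gg V V' * sg m * ((gg V V')ᴴ * W) = Wᴴ * (gg V V' * sg m * (gg V V')ᴴ) * W := by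
          simp only [Matrix.mul_assoc]
      _ = _ := by rw [h1]
  unfold DefE G2
  rw [h]

/-- smoothing of a probability vector -/
noncomputable def sm (θ : m → ℝ) (δ : ℝ) (j : m) : ℝ :=
  √((1 - δ) * θ j ^ 2 + δ / Fintype.card m)

omit [DecidableEq m] in
theorem sm_zero (θ : m → ℝ) (hθ : ∀ j, 0 ≤ θ j) : sm θ 0 = θ := by
  funext j
  unfold sm
  rw [sub_zero, one_mul, zero_div, add_zero, Real.sqrt_sq (hθ j)]

omit [DecidableEq m] in
theorem sm_pos [Nonempty m] (θ : m → ℝ) {δ : ℝ} (h0 : 0 < δ) (h1 : δ < 1) (j : m) :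
    0 < sm θ δ j := by
  unfold sm
  have hc : (0 : ℝ) < Fintype.card m := by exact_mod_cast Fintype.card_pos
  have : 0 ≤ (1 - δ) * θ j ^ 2 := mul_nonneg (by linarith) (sq_nonneg _)
  have : 0 < δ / Fintype.card m := div_pos h0 hc
  positivity

omit [DecidableEq m] in
theorem sm_sum [Nonempty m] (θ : m → ℝ) (hs : ∑ j, θ j ^ 2 = 1) {δ : ℝ} (h0 : 0 < δ)
    (h1 : δ < 1) : ∑ j, sm θ δ j ^ 2 = 1 := by
  have hc : (0 : ℝ) < Fintype.card m := by exact_mod_cast Fintype.card_pos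
  have h : ∀ j, sm θ δ j ^ 2 = (1 - δ) * θ j ^ 2 + δ / Fintype.card m := by
    intro j
    unfold sm
    have : 0 ≤ (1 - δ) * θ j ^ 2 := mul_nonneg (by linarith) (sq_nonneg _)
    have : 0 < δ / Fintype.card m := div_pos h0 hc
    rw [Real.sq_sqrt (by positivity)]
  simp only [h]
  rw [Finset.sum_add_distrib, ← Finset.mul_sum, hs, Finset.sum_const, Finset.card_univ,
    nsmul_eq_mul]
  field_simp
  ring

theorem cE_cont {a v v' : ℝ} (ha : a < 1) (W : Matrix (m ⊕ m) (m ⊕ m) ℂ) (κ : m ⊕ m → ℝ)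
    (U U' : Matrix m m ℂ) (θ θ' : m → ℝ) :
    Continuous fun δ : ℝ => cE W κ (U * dg (fun j => v * sm θ δ j ^ (1 - a)) * Uᴴ)
      (U' * dg (fun j => v' * sm θ' δ j ^ (1 - a)) * U'ᴴ) := by
  have h1 : ∀ (v : ℝ) (U : Matrix m m ℂ) (θ : m → ℝ),
      Continuous fun δ : ℝ => U * dg (fun j => v * sm θ δ j ^ (1 - a)) * Uᴴ := by
    intro v U θ
    refine Continuous.matrix_mul (Continuous.matrix_mul continuous_const ?_) continuous_const
    unfold dg
    refine Continuous.matrix_diagonal ?_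
    refine continuous_pi fun j => ?_
    refine Complex.continuous_ofReal.comp ?_
    refine continuous_const.mul ?_
    refine Continuous.rpow_const ?_ (fun _ => Or.inr (by linarith))
    unfold sm
    fun_prop
  have h2 : Continuous fun δ : ℝ =>
      fromRows (U * dg (fun j => v * sm θ δ j ^ (1 - a)) * Uᴴ)
        (U' * dg (fun j => v' * sm θ' δ j ^ (1 - a)) * U'ᴴ) := by
    refine continuous_matrix fun i j => ?_
    rcases i with i | i
    · simp only [fromRows_apply_inl]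
      exact (continuous_apply_apply i j).comp (h1 v U θ)
    · simp only [fromRows_apply_inr]
      exact (continuous_apply_apply i j).comp (h1 v' U' θ')
  unfold cE
  refine Complex.continuous_re.comp ?_
  refine Continuous.matrix_trace ?_
  exact Continuous.matrix_mul (Continuous.matrix_mul h2.matrix_conjTranspose continuous_const) h2

theorem own_to_scol {a e₁ e₂ c s X Z : ℝ} (I : Inc a e₁ e₂ c s X Z) (H : OwnG a e₁ e₂ c s X Z) :
    SCol a e₁ e₂ c s X Z := by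
  intro q m _ _ hq A B hA hB W hW μ hμ k1 k2 k3
  have ha := I.ha
  have ha' := I.ha'
  have h1a : 0 < 1 - a := by linarith
  have hq0 : 0 < q := by rw [hq]; positivity
  have hqa : q * (1 - a) = 2 := by rw [hq]; field_simp
  obtain ⟨V, hV, U, hU, θ, hθ, hs, eA⟩ := svd_unit hq0 I.hv₁ hqa A hA
  obtain ⟨V', hV', U', hU', θ', hθ', hs', eB⟩ := svd_unit hq0 I.hv₂ hqa B hB
  have hne : Nonempty m := by
    by_contra hne
    rw [not_nonempty_iff] at hne
    rw [Finset.univ_eq_empty, Finset.sum_empty] at hs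
    exact zero_ne_one hs
  rw [eA, eB, cE_gg]
  set W₁ := (gg V V')ᴴ * W with hW₁
  have hWu : W₁ ∈ unitaryGroup (m ⊕ m) ℂ := by
    rw [mem_unitaryGroup_iff', star_eq_conjTranspose, hW₁, conjTranspose_mul,
      conjTranspose_conjTranspose, Matrix.mul_assoc, ← Matrix.mul_assoc (gg V V'),
      gg_unit V V' hV hV', Matrix.one_mul, a2_uu W hW]
  obtain ⟨b1, b2, b3⟩ := blocks_gg V V' (ud W μ)
  rw [← ud_gg, ← hW₁] at b1 b2 b3
  have g1 : fr (ud W₁ μ).toBlocks₁₁ = fr (ud W μ).toBlocks₁₁ := by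
    rw [b1, fr_unitary V V _ hV hV]
  have g2 : fr (ud W₁ μ).toBlocks₁₂ = fr (ud W μ).toBlocks₁₂ := by
    rw [b2, fr_unitary V V' _ hV hV']
  have g3 : fr (ud W₁ μ).toBlocks₂₂ = fr (ud W μ).toBlocks₂₂ := by
    rw [b3, fr_unitary V' V' _ hV' hV']
  have g4 : DefE a W₁ μ = DefE a W μ := DefE_gg a V V' hV hV' W μ
  have key : ∀ δ : ℝ, 0 < δ → δ < 1 →
      cE W₁ (fun i => μ i ^ (2 * a)) (U * dg (fun j => (c * X - s * Z) * sm θ δ j ^ (1 - a)) * Uᴴ)
        (U' * dg (fun j => (s * X + c * Z) * sm θ' δ j ^ (1 - a)) * U'ᴴ) ≤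
      X ^ 2 * e₁ ^ (2 * a) + Z ^ 2 * e₂ ^ (2 * a) := by
    intro δ h0 h1
    refine H m W₁ hWu μ hμ U U' hU hU' _ _ (sm_pos θ h0 h1) (sm_pos θ' h0 h1) (sm_sum θ hs h0 h1)
      (sm_sum θ' hs' h0 h1) ?_ ?_ ?_
    · rw [g1, g2]; exact k1
    · rw [g2, g3]; exact k2
    · rw [g4]; exact k3
  have hc := (cE_cont (v := c * X - s * Z) (v' := s * X + c * Z) (by linarith : a < 1) W₁
    (fun i => μ i ^ (2 * a)) U U' θ θ').tendsto 0
  rw [sm_zero θ hθ, sm_zero θ' hθ'] at hc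
  have hc' := hc.mono_left (nhdsWithin_le_nhds (s := Set.Ioi 0))
  refine le_of_tendsto hc' ?_
  have : ∀ᶠ δ in 𝓝[>] (0 : ℝ), δ < 1 := by
    refine eventually_nhdsWithin_of_eventually_nhds ?_
    exact Iio_mem_nhds one_pos
  filter_upwards [self_mem_nhdsWithin, this] with δ h0 h1
  exact key δ h0 h1

end Pool.Agent.LibSchG
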