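import Pool.Agent.LibSchG.N8

/-! **N9.**  The mirror, and the assembly. -/

open Matrix
open scoped ComplexOrder

namespace Pool.Agent.LibSchG

open Pool.Agent.LibSchP Pool.Agent.LibSchA Pool.Agent.LibSchE

variable {m : Type} [Fintype m] [DecidableEq m]

/-- the swap of the two blocks -/
def sw (m : Type) [DecidableEq m] : Matrix (m ⊕ m) (m ⊕ m) ℂ := fromBlocks 0 1 1 0

theorem sw_ct : (sw m)ᴴ = sw m := by
  unfold sw
  rw [fromBlocks_conjTranspose]
  simp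

theorem sw_sw : sw m * sw m = 1 := by
  unfold sw
  rw [fromBlocks_multiply]
  simp [fromBlocks_one]

theorem ud_sw (W : Matrix (m ⊕ m) (m ⊕ m) ℂ) (κ : m ⊕ m → ℝ) :
    ud (sw m * W) κ = sw m * ud W κ * sw m := by
  unfold ud
  rw [conjTranspose_mul, sw_ct]
  simp only [Matrix.mul_assoc]

theorem cE_sw {n : Type} [Fintype n] (W : Matrix (m ⊕ m) (m ⊕ m) ℂ)
    (κ : m ⊕ m → ℝ) (A B : Matrix m n ℂ) : cE (sw m * W) κ B A = cE W κ A B := by
  have h : fromRows A B = sw m * fromRows B A := by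
    unfold sw
    rw [fromBlocks_mul_fromRows]
    simp
  unfold cE
  rw [ud_sw, h, conjTranspose_mul, sw_ct]
  simp only [Matrix.mul_assoc]

theorem blocks_sw (E : Matrix (m ⊕ m) (m ⊕ m) ℂ) :
    (sw m * E * sw m).toBlocks₁₁ = E.toBlocks₂₂ ∧ (sw m * E * sw m).toBlocks₁₂ = E.toBlocks₂₁ ∧
      (sw m * E * sw m).toBlocks₂₂ = E.toBlocks₁₁ := by
  have h : sw m * E * sw m = fromBlocks E.toBlocks₂₂ E.toBlocks₂₁ E.toBlocks₁₂ E.toBlocks₁₁ := by
    conv_lhs => rw [← fromBlocks_toBlocks E]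
    unfold sw
    rw [fromBlocks_multiply, fromBlocks_multiply]
    simp
  rw [h, toBlocks_fromBlocks₁₁, toBlocks_fromBlocks₁₂, toBlocks_fromBlocks₂₂]
  exact ⟨rfl, rfl, rfl⟩

theorem DefE_sw (a : ℝ) (W : Matrix (m ⊕ m) (m ⊕ m) ℂ) (μ : m ⊕ m → ℝ) :
    DefE a (sw m * W) μ = DefE a W μ := by
  have h : (sw m * W)ᴴ * sg m * (sw m * W) = -(Wᴴ * sg m * W) := by
    have h1 : sw m * sg m * sw m = -sg m := by
      unfold sw sg
      rw [fromBlocks_multiply, fromBlocks_multiply, fromBlocks_neg]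
      simp
    rw [conjTranspose_mul, sw_ct]
    calc Wᴴ * sw m * sg m * (sw m * W) = Wᴴ * (sw m * sg m * sw m) * W := by
          simp only [Matrix.mul_assoc]
      _ = _ := by rw [h1, Matrix.mul_neg, Matrix.neg_mul]
  unfold DefE G2
  rw [h]
  simp only [Matrix.neg_apply, norm_neg]

theorem scol_mirror {a e₁ e₂ c s X Z : ℝ} (H : SCol a e₁ e₂ s c X (-Z)) :
    SCol a e₁ e₂ c s X Z := by
  intro q m _ _ hq A B hA hB W hW μ hμ k1 k2 k3
  have hWu : sw m * W ∈ unitaryGroup (m ⊕ m) ℂ := by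
    rw [mem_unitaryGroup_iff', star_eq_conjTranspose, conjTranspose_mul, sw_ct, Matrix.mul_assoc,
      ← Matrix.mul_assoc (sw m), sw_sw, Matrix.one_mul, a2_uu W hW]
  obtain ⟨b1, b2, b3⟩ := blocks_sw (ud W μ)
  have h21 : (ud W μ).toBlocks₂₁ = (ud W μ).toBlocks₁₂ᴴ := by
    have h1 : (ud W μ)ᴴ = ud W μ := ud_isHermitian W μ
    ext i j
    exact (congrFun (congrFun h1 (Sum.inr i)) (Sum.inl j)).symm
  have h21' : fr (ud W μ).toBlocks₂₁ = fr (ud W μ).toBlocks₁₂ := by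
    rw [h21, ← nf_sq, nf_conjTranspose, nf_sq]
  have := H q m hq B A (by rw [hB]; ring_nf) (by rw [hA]; ring_nf) (sw m * W) hWu μ hμ
    (by rw [ud_sw, b1, b2, h21']; linarith) (by rw [ud_sw, b2, b3, h21']; linarith)
    (by
      rw [DefE_sw]
      refine k3.trans (le_of_eq ?_)
      unfold Dm
      ring)
  rw [cE_sw] at this
  simpa using this

/-- **the assembly**: the tangent bound and the scalar statement for the columns of `Inc` give the
single column inequality. -/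
theorem scolAll_of {a : ℝ} (ha : 0 < a) (ha' : 2 * a < 1)
    (hT : ∀ e₁ e₂ c s X Z : ℝ, Inc a e₁ e₂ c s X Z → TG a e₁ e₂ c s X Z)
    (hC : ∀ e₁ e₂ c s X Z : ℝ, Inc a e₁ e₂ c s X Z → ColOK a e₁ e₂ c s X Z) : SColAll a := by
  have key : ∀ e₁ e₂ c s X Z : ℝ, Inc a e₁ e₂ c s X Z → SCol a e₁ e₂ c s X Z :=
    fun e₁ e₂ c s X Z I => own_to_scol I (own_gauge I (hC _ _ _ _ _ _ I) (hT _ _ _ _ _ _ I))
  intro e₁ e₂ c s X Z he₂ he hc hs hcs hv₁ hv₂ hL
  rcases le_total s c with hsc | hsc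
  · exact key _ _ _ _ _ _ ⟨ha, ha', he₂, he, hs, hsc, hcs, hv₁, hv₂, hL⟩
  · refine scol_mirror (key _ _ _ _ _ _ ⟨ha, ha', he₂, he, hc, hsc, by linarith, ?_, ?_, ?_⟩)
    · linarith
    · linarith
    · refine hL.trans (le_of_eq ?_)
      unfold L12
      ring

end Pool.Agent.LibSchG
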