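import Pool.Agent.LibSchG.G9a
import Pool.Agent.LibSchG.G11

/-! **R1.**  The single column inequality with finitely many diagonal directions, `Rst a`, implies the
compression inequality (no second order quantities). -/

open Matrix Filter Topology
open scoped ComplexOrder

namespace Pool.Agent.LibSchG

open Pool.Agent.LibSchP Pool.Agent.LibSchA

/-- **the column inequality with two diagonal directions** `t, -t` and weights `cp, cm`:
`V = ⟨y, ε^(2a) y⟩` is approximated by `T`. -/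
def Rst (a : ℝ) : Prop :=
  ∀ e₁ e₂ c s X Z : ℝ, 0 < e₂ → e₂ < e₁ → 0 < c → 0 < s →
    c ^ 2 + s ^ 2 = 1 → 0 < c * X - s * Z → 0 < s * X + c * Z → 0 < L12 a e₁ e₂ c s X Z →
    ∀ η : ℝ, 0 < η → ∃ t cp cm τ T : ℝ, 0 < t ∧ t < η ∧ 0 ≤ cp ∧ 0 ≤ cm ∧ 0 < τ ∧
      |T - (X ^ 2 * e₁ ^ (2 * a) + Z ^ 2 * e₂ ^ (2 * a))| < η ∧
      e₁ ^ 2 + e₂ ^ 2 - cp * fm a e₁ e₂ c s t - cm * fm a e₁ e₂ c s (-t) = τ * T ∧
      ∀ (q : ℝ) (m : Type) [Fintype m] [DecidableEq m], q = 2 / (1 - a) →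
        ∀ (A B : Matrix m m ℂ), LibSch.pw q A = (c * X - s * Z) ^ q →
        LibSch.pw q B = (s * X + c * Z) ^ q →
        ∀ (W : Matrix (m ⊕ m) (m ⊕ m) ℂ), W ∈ unitaryGroup (m ⊕ m) ℂ → ∀ (μ : m ⊕ m → ℝ),
        (∀ i, 0 ≤ μ i) →
        1 / a * τ * cE W (fun i => μ i ^ (2 * a)) A B ≤
          ∑ i, μ i ^ 2 - cp * Fp a W μ t - cm * Fp a W μ (-t) + (1 / a - 1) * τ * T

/-- a quadratic form in two variables with three pairwise non parallel zeros vanishes -/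
theorem quad_three {α β γ x₁ z₁ x₂ z₂ x₃ z₃ : ℝ} (h₁ : α * x₁ ^ 2 + γ * (x₁ * z₁) + β * z₁ ^ 2 = 0)
    (h₂ : α * x₂ ^ 2 + γ * (x₂ * z₂) + β * z₂ ^ 2 = 0)
    (h₃ : α * x₃ ^ 2 + γ * (x₃ * z₃) + β * z₃ ^ 2 = 0) (h₁₂ : x₁ * z₂ - x₂ * z₁ ≠ 0)
    (h₁₃ : x₁ * z₃ - x₃ * z₁ ≠ 0) (h₂₃ : x₂ * z₃ - x₃ * z₂ ≠ 0) : α = 0 := by
  have h : α * ((x₁ * z₂ - x₂ * z₁) * (x₁ * z₃ - x₃ * z₁) * (x₂ * z₃ - x₃ * z₂)) = 0 := by
    linear_combination (x₂ * z₂ * z₃ ^ 2 - x₃ * z₃ * z₂ ^ 2) * h₁ -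
      (x₁ * z₁ * z₃ ^ 2 - x₃ * z₃ * z₁ ^ 2) * h₂ + (x₁ * z₁ * z₂ ^ 2 - x₂ * z₂ * z₁ ^ 2) * h₃
  exact (mul_eq_zero.1 h).resolve_right (mul_ne_zero (mul_ne_zero h₁₂ h₁₃) h₂₃)

/-- three pairwise non-parallel columns: some column is strictly increasing -/
theorem exists_pos {N : ℕ} {a e₁ e₂ c s x z : ℝ} {y₁ y₂ X Z : Fin N → ℝ} (ha : 0 < a)
    (ha' : 2 * a < 1) (he₂ : 0 < e₂) (he : e₂ < e₁) (hc : 0 < c) (hs : 0 < s)
    (D : RDat c s x z y₁ y₂ X Z) (hx : x = e₁ ^ (2 + 2 * a)) (hz : z = e₂ ^ (2 + 2 * a))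
    (i j l : Fin N) (hij : y₁ i * y₂ j ≠ y₁ j * y₂ i) (hil : y₁ i * y₂ l ≠ y₁ l * y₂ i)
    (hjl : y₁ j * y₂ l ≠ y₁ l * y₂ j) :
    ∃ k, 0 < c * (X k / e₁ ^ (2 * a)) - s * (Z k / e₂ ^ (2 * a)) ∧
      0 < s * (X k / e₁ ^ (2 * a)) + c * (Z k / e₂ ^ (2 * a)) ∧
      0 < L12 a e₁ e₂ c s (X k / e₁ ^ (2 * a)) (Z k / e₂ ^ (2 * a)) := by
  have he₁ : 0 < e₁ := he₂.trans he
  have hP : 0 < e₁ ^ (2 * a) := Real.rpow_pos_of_pos he₁ _
  have hR : 0 < e₂ ^ (2 * a) := Real.rpow_pos_of_pos he₂ _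
  have hPR : e₂ ^ (2 * a) < e₁ ^ (2 * a) := Real.rpow_lt_rpow he₂.le he (by linarith)
  have hsum := sum_L12 (a := a) he₁ he₂ D hx hz
  -- some column has positive `L12`
  have hex : ∃ k, 0 < L12 a e₁ e₂ c s (X k / e₁ ^ (2 * a)) (Z k / e₂ ^ (2 * a)) := by
    by_contra hcon
    push Not at hcon
    have hall := (Finset.sum_eq_zero_iff_of_nonpos fun k _ => hcon k).1 hsum
    have hf : ∀ X Z : ℝ, L12 a e₁ e₂ c s X Z = c * s * (a * e₁ ^ (2 * a - 2)) * X ^ 2 +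
        (c ^ 2 - s ^ 2) * ((e₁ ^ (2 * a) - e₂ ^ (2 * a)) / (e₁ ^ 2 - e₂ ^ 2)) * (X * Z) +
        (-(c * s * (a * e₂ ^ (2 * a - 2)))) * Z ^ 2 := by
      intro X Z
      unfold L12
      ring
    have hdet : ∀ i j : Fin N, y₁ i * y₂ j ≠ y₁ j * y₂ i →
        X i / e₁ ^ (2 * a) * (Z j / e₂ ^ (2 * a)) - X j / e₁ ^ (2 * a) * (Z i / e₂ ^ (2 * a)) ≠ 0 := by
      intro i j h h0
      have h1 : X i * Z j - X j * Z i = 0 := by
        have : X i / e₁ ^ (2 * a) * (Z j / e₂ ^ (2 * a)) -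
            X j / e₁ ^ (2 * a) * (Z i / e₂ ^ (2 * a)) =
            (X i * Z j - X j * Z i) / (e₁ ^ (2 * a) * e₂ ^ (2 * a)) := by
          field_simp
        rw [this, div_eq_zero_iff] at h0
        exact h0.resolve_right (mul_pos hP hR).ne'
      apply h
      rw [D.hy₁, D.hy₂, D.hy₁, D.hy₂]
      linear_combination (c ^ 2 + s ^ 2) * h1
    have h0 := quad_three ((hf _ _).symm.trans (hall i (Finset.mem_univ i)))
      ((hf _ _).symm.trans (hall j (Finset.mem_univ j)))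
      ((hf _ _).symm.trans (hall l (Finset.mem_univ l))) (hdet i j hij) (hdet i l hil)
      (hdet j l hjl)
    have h1 : 0 < c * s * (a * e₁ ^ (2 * a - 2)) := by
      have := Real.rpow_pos_of_pos he₁ (2 * a - 2)
      positivity
    exact h1.ne' h0
  obtain ⟨k, hk⟩ := hex
  have hk0 : c * (X k / e₁ ^ (2 * a)) - s * (Z k / e₂ ^ (2 * a)) ≠ 0 ∨
      s * (X k / e₁ ^ (2 * a)) + c * (Z k / e₂ ^ (2 * a)) ≠ 0 := by
    by_contra hno
    push Not at hno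
    obtain ⟨g1, g2⟩ := hno
    have gX : X k / e₁ ^ (2 * a) = 0 := by
      linear_combination c * g1 + s * g2 - (X k / e₁ ^ (2 * a)) * D.hcs
    have gZ : Z k / e₂ ^ (2 * a) = 0 := by
      linear_combination c * g2 - s * g1 - (Z k / e₂ ^ (2 * a)) * D.hcs
    rw [gX, gZ] at hk
    simp [L12] at hk
  set x1 := X k / e₁ ^ (2 * a) with hx1
  set z1 := Z k / e₂ ^ (2 * a) with hz1
  have hpos : 0 < (c * x1 - s * z1) * (s * x1 + c * z1) := by
    by_contra hcon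
    push Not at hcon
    have := L12_neg ha ha' he₂ he hc hs D.hcs hcon hk0
    linarith
  rcases pos_and_pos_or_neg_and_neg_of_mul_pos hpos with ⟨g1, g2⟩ | ⟨g1, g2⟩
  · exact ⟨k, g1, g2, hk⟩
  · exfalso
    have hv : 0 ≤ c * X k - s * Z k := by rw [← D.hy₁]; exact D.h₁ k
    have hXk : X k = e₁ ^ (2 * a) * x1 := by rw [hx1]; field_simp
    have hZk : Z k = e₂ ^ (2 * a) * z1 := by rw [hz1]; field_simp
    have e : c * X k - s * Z k =
        (c ^ 2 * e₁ ^ (2 * a) + s ^ 2 * e₂ ^ (2 * a)) * (c * x1 - s * z1) +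
        c * s * (e₁ ^ (2 * a) - e₂ ^ (2 * a)) * (s * x1 + c * z1) := by
      rw [hXk, hZk]
      linear_combination (-(c * e₁ ^ (2 * a) * x1) + s * e₂ ^ (2 * a) * z1) * D.hcs
    have m1 : (c ^ 2 * e₁ ^ (2 * a) + s ^ 2 * e₂ ^ (2 * a)) * (c * x1 - s * z1) < 0 :=
      mul_neg_of_pos_of_neg (by positivity) g1
    have m2 : c * s * (e₁ ^ (2 * a) - e₂ ^ (2 * a)) * (s * x1 + c * z1) < 0 :=
      mul_neg_of_pos_of_neg (mul_pos (mul_pos hc hs) (by linarith)) g2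
    linarith

theorem fm_zero {a c s e₁ e₂ : ℝ} (ha : 0 < a) (hc : 0 < c) (hs : 0 < s) (hcs : c ^ 2 + s ^ 2 = 1)
    (he₂ : 0 < e₂) (he : e₂ < e₁) : fm a e₁ e₂ c s 0 = e₁ ^ 2 + e₂ ^ 2 := by
  have he₁ : 0 < e₁ := he₂.trans he
  have hU := rot_mem c s hcs
  obtain ⟨P, hP⟩ : ∃ P, P = ud (Rot c s) ![e₁ ^ (2 * a), e₂ ^ (2 * a)] := ⟨_, rfl⟩
  have hPD : P.PosDef := by
    rw [hP]
    refine ud_posDef _ hU _ fun k => ?_
    fin_cases k
    · exact Real.rpow_pos_of_pos he₁ _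
    · exact Real.rpow_pos_of_pos he₂ _
  have hPR : LibSchTw.RSym P := by rw [hP]; exact LibSchTw.RSym_rot _ _ _ _
  have h3 := LibSchTw.FF_trace (1 / a) (one_div_pos.2 ha) P hPR hPD.posSemidef
  have hpw : ∀ e : ℝ, 0 < e → (e ^ (2 * a)) ^ (1 / a) = e ^ 2 := by
    intro e he
    rw [← Real.rpow_mul he.le, ← Real.rpow_natCast e 2]
    congr 1
    field_simp
    norm_num
  have h4 : (trace (rp (1 / a) P)).re = e₁ ^ 2 + e₂ ^ 2 := by
    rw [hP, rp_ud _ _ hU, LibSchTw.trace_ud_re _ hU, Complex.ofReal_re, Fin.sum_univ_two]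
    show (e₁ ^ (2 * a)) ^ (1 / a) + (e₂ ^ (2 * a)) ^ (1 / a) = _
    rw [hpw e₁ he₁, hpw e₂ he₂]
  rw [h4, hP, (LibSchTw.ud_rot_re _ _ _ _).1, (LibSchTw.ud_rot_re _ _ _ _).2.1,
    (LibSchTw.ud_rot_re _ _ _ _).2.2] at h3
  rw [fm, neg_zero, Real.exp_zero, one_mul, one_mul]
  exact h3

theorem Fp_zero {m : Type} [Fintype m] [DecidableEq m] {a : ℝ} (ha : 0 < a)
    {W : Matrix (m ⊕ m) (m ⊕ m) ℂ} (hW : W ∈ unitaryGroup (m ⊕ m) ℂ) {μ : m ⊕ m → ℝ}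
    (hμ : ∀ i, 0 ≤ μ i) : Fp a W μ 0 = ∑ i, μ i ^ 2 := by
  have hD : Dt m 0 = 1 := by
    unfold Dt dg
    rw [← Matrix.diagonal_one]
    congr 1
    funext k
    rcases k with k | k <;> simp
  rw [Fp, hD, Matrix.mul_one, pw_udg (2 / a) (by positivity) W hW _
    (fun i => Real.rpow_nonneg (hμ i) _)]
  refine Finset.sum_congr rfl fun i _ => ?_
  rw [← Real.rpow_mul (hμ i), ← Real.rpow_natCast (μ i) 2]
  congr 1
  field_simp
  norm_num

variable {N : ℕ} {m : Type} [Fintype m] [DecidableEq m] {p a ρ c s x z : ℝ}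
    {A B : Fin N → Matrix m m ℂ} {X Z : Fin N → ℝ} {W : Matrix (m ⊕ m) (m ⊕ m) ℂ}
    {ν : m ⊕ m → ℝ}

/-- **a minimiser with three pairwise non-parallel columns has `ρ ≥ 1`** (from `Rst a`): with
`σ = 1/a`, `λ = σ/(σ-1+ρ)`, `V₀ = ⟨v, ε^(-2a) v⟩`; by `key_p`, `key_zero` the right side of `Rst` is
`≤ (ρ + σ - 1) τ T`, so `⟨S, P S⟩ ≤ T/λ`, `T ≈ λ² V₀`, and
`ρ V₀ = fr Y_k ≥ 2 λ V₀ - ⟨S, P S⟩ ≥ λ V₀ - η`, i.e. `(ρ - 1)(ρ + σ) ≥ 0`. -/
theorem main_r (hG : Rst a) (H : Min p a ρ c s x z A B X Z W ν) (i j k : Fin N)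
    (hij : LibSch.sn p (A i) * LibSch.sn p (B j) ≠ LibSch.sn p (A j) * LibSch.sn p (B i))
    (hik : LibSch.sn p (A i) * LibSch.sn p (B k) ≠ LibSch.sn p (A k) * LibSch.sn p (B i))
    (hjk : LibSch.sn p (A j) * LibSch.sn p (B k) ≠ LibSch.sn p (A k) * LibSch.sn p (B j)) :
    1 ≤ ρ := by
  obtain ⟨hp1, hp2, hpa⟩ := g4b_hp H
  have hp0 : 0 < p := by linarith
  have ha := H.ha
  have ha' := H.ha'
  have hz0 := H.hz
  have hx0 : 0 < x := hz0.trans H.hzx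
  have hρ := H.hρ
  have hkey := key_p H i j k hij hik hjk
  have hkey0 := key_zero H
  set e₁ := x ^ (p / 4) with he₁
  set e₂ := z ^ (p / 4) with he₂
  have he₁0 : 0 < e₁ := Real.rpow_pos_of_pos hx0 _
  have he₂0 : 0 < e₂ := Real.rpow_pos_of_pos hz0 _
  have he : e₂ < e₁ := Real.rpow_lt_rpow hz0.le H.hzx (by positivity)
  have hexp : p / 4 * (2 + 2 * a) = 1 := by
    have : p * (1 + a) = 2 := by rw [H.hp]; field_simp
    linear_combination this / 2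
  have hx : x = e₁ ^ (2 + 2 * a) := by
    rw [he₁, ← Real.rpow_mul hx0.le, hexp, Real.rpow_one]
  have hz : z = e₂ ^ (2 + 2 * a) := by
    rw [he₂, ← Real.rpow_mul hz0.le, hexp, Real.rpow_one]
  obtain ⟨l, hy1, hy2, hL⟩ := exists_pos ha ha' he₂0 he H.hc H.hs H.D hx hz i j k hij hik hjk
  have hm : Nonempty m := by
    by_contra hm
    rw [not_nonempty_iff] at hm
    have h1 : ∀ T : Matrix m m ℂ, LibSch.sn p T = 0 := by
      intro T
      have : LibSch.pw p T = 0 := by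
        rw [pw_eq_zero' p hp0]
        ext i
        exact (hm.false i).elim
      rw [LibSch.sn, this, Real.zero_rpow (by positivity)]
    exact hij (by rw [h1, h1, h1, h1])
  set q := p / (p - 1) with hq
  have hpq : p.HolderConjugate q := Real.HolderConjugate.conjExponent (by linarith)
  have hqa : q = 2 / (1 - a) := by
    have h9 : p - 1 ≠ 0 := by linarith
    have h11 : 1 - a ≠ 0 := by linarith
    rw [hq, div_eq_div_iff h9 h11]
    linear_combination hpa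
  set σ := 1 / a with hσ
  have hσ2 : 2 < σ := by rw [hσ, lt_div_iff₀ ha]; linarith
  have hd : 0 < σ - 1 + ρ := by linarith
  set u := σ / (σ - 1 + ρ) with hu
  have hu0 : 0 < u := by positivity
  have hud : u * (σ - 1 + ρ) = σ := by rw [hu]; field_simp
  set X' := u * (X l / e₁ ^ (2 * a)) with hX'
  set Z' := u * (Z l / e₂ ^ (2 * a)) with hZ'
  have hy1' : 0 < c * X' - s * Z' := by
    have : c * X' - s * Z' = u * (c * (X l / e₁ ^ (2 * a)) - s * (Z l / e₂ ^ (2 * a))) := by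
      rw [hX', hZ']; ring
    rw [this]; positivity
  have hy2' : 0 < s * X' + c * Z' := by
    have : s * X' + c * Z' = u * (s * (X l / e₁ ^ (2 * a)) + c * (Z l / e₂ ^ (2 * a))) := by
      rw [hX', hZ']; ring
    rw [this]; positivity
  have hL' : 0 < L12 a e₁ e₂ c s X' Z' := by
    have : L12 a e₁ e₂ c s X' Z' =
        u ^ 2 * L12 a e₁ e₂ c s (X l / e₁ ^ (2 * a)) (Z l / e₂ ^ (2 * a)) := by
      rw [hX', hZ']; unfold L12; ring
    rw [this]; positivity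
  obtain ⟨A', hA', hAt⟩ := norming_eq p q hpq (A l) (c * X' - s * Z') hy1'.le
  obtain ⟨B', hB', hBt⟩ := norming_eq p q hpq (B l) (s * X' + c * Z') hy2'.le
  have hE1 : 0 < e₁ ^ (2 * a) := Real.rpow_pos_of_pos he₁0 _
  have hE2 : 0 < e₂ ^ (2 * a) := Real.rpow_pos_of_pos he₂0 _
  set V₀ := X l ^ 2 / e₁ ^ (2 * a) + Z l ^ 2 / e₂ ^ (2 * a) with hV₀
  have hval : X' ^ 2 * e₁ ^ (2 * a) + Z' ^ 2 * e₂ ^ (2 * a) = u ^ 2 * V₀ := by
    rw [hX', hZ', hV₀]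
    field_simp
  -- the affine bound
  have hMa : (fun i => (ν i ^ (p / 4)) ^ a) = fun i => ν i ^ ((2 - p) / 4) := by
    funext i
    rw [← Real.rpow_mul (H.hν i)]
    congr 1
    rw [hpa]
    ring
  have haff := col_affine (fromRows (A l) (B l)) (fromRows A' B') W H.hW
    (fun i => ν i ^ ((2 - p) / 4)) (fun i => ν i ^ ((p - 2) / 4)) (mul_Yc H l)
  have hfr := fr_root a W H.hW (fun i => ν i ^ (p / 4)) (fun i => Real.rpow_nonneg (H.hν i) _) A' B'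
  rw [hMa] at hfr
  rw [hfr] at haff
  have htr : (trace ((fromRows A' B')ᴴ * fromRows (A l) (B l))).re =
      (trace (A'ᴴ * A l)).re + (trace (B'ᴴ * B l)).re := by
    rw [Matrix.conjTranspose_fromRows_eq_fromCols_conjTranspose, Matrix.fromCols_mul_fromRows,
      Matrix.trace_add, Complex.add_re]
  have htr2 : (trace (A'ᴴ * A l)).re + (trace (B'ᴴ * B l)).re = u * V₀ := by
    rw [hAt, hBt, H.D.hy₁ l, H.D.hy₂ l, hX', hZ', hV₀]
    have hcs := H.D.hcs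
    field_simp
    linear_combination (X l ^ 2 * e₂ ^ (2 * a) + Z l ^ 2 * e₁ ^ (2 * a)) * hcs
  rw [htr, htr2] at haff
  have hcol := col_p H l
  have hVx : X l ^ 2 * x ^ (p / 2 - 1) + Z l ^ 2 * z ^ (p / 2 - 1) = V₀ := by
    have h1 : ∀ y : ℝ, 0 < y → y ^ (p / 2 - 1) = ((y ^ (p / 4)) ^ (2 * a))⁻¹ := by
      intro y hy
      rw [← Real.rpow_mul hy.le, ← Real.rpow_neg hy.le]
      congr 1
      linear_combination (-1 / 2) * hpa
    rw [h1 x hx0, h1 z hz0, ← he₁, ← he₂, hV₀]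
    simp only [div_eq_mul_inv]
  rw [hVx] at hcol
  have hV₀0 : 0 < V₀ := by
    by_contra hneg
    have h1 : 0 ≤ X l ^ 2 / e₁ ^ (2 * a) := by positivity
    have h2 : 0 ≤ Z l ^ 2 / e₂ ^ (2 * a) := by positivity
    have h3 : X l ^ 2 / e₁ ^ (2 * a) = 0 := by linarith [not_lt.1 hneg]
    have h4 : Z l ^ 2 / e₂ ^ (2 * a) = 0 := by linarith [not_lt.1 hneg]
    have h5 : X l = 0 := by
      rcases div_eq_zero_iff.1 h3 with h | h
      · exact pow_eq_zero_iff (two_ne_zero) |>.1 h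
      · exact absurd h hE1.ne'
    have h6 : Z l = 0 := by
      rcases div_eq_zero_iff.1 h4 with h | h
      · exact pow_eq_zero_iff (two_ne_zero) |>.1 h
      · exact absurd h hE2.ne'
    rw [h5, h6] at hy1
    simp at hy1
  -- the values at `t = 0`
  have hfm0 : fm a e₁ e₂ c s 0 = e₁ ^ 2 + e₂ ^ 2 :=
    fm_zero ha H.hc H.hs H.D.hcs he₂0 he
  have hFp0 : Fp a W (fun i => ν i ^ (p / 4)) 0 = ∑ i, (ν i ^ (p / 4)) ^ 2 :=
    Fp_zero ha H.hW fun i => Real.rpow_nonneg (H.hν i) _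
  obtain ⟨δ, hδ0, hδ⟩ := Metric.eventually_nhds_iff.1 hkey
  have hstep : ∀ η : ℝ, 0 < η → η < δ → u * V₀ - η / u ≤ ρ * V₀ := by
    intro η hη hηδ
    obtain ⟨t, cp, cm, τ, T, ht0, htη, hcp, hcm, hτ, hT, hEq, hAll⟩ :=
      hG e₁ e₂ c s X' Z' he₂0 he H.hc H.hs H.D.hcs hy1' hy2' hL' η hη
    have h1 := hAll q m hqa A' B' hA' hB' W H.hW (fun i => ν i ^ (p / 4))
      (fun i => Real.rpow_nonneg (H.hν i) _)
    have k1 : ρ * fm a e₁ e₂ c s t ≤ Fp a W (fun i => ν i ^ (p / 4)) t :=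
      hδ (by rw [Real.dist_eq, sub_zero, abs_of_pos ht0]; linarith)
    have k2 : ρ * fm a e₁ e₂ c s (-t) ≤ Fp a W (fun i => ν i ^ (p / 4)) (-t) :=
      hδ (by rw [Real.dist_eq, sub_zero, abs_neg, abs_of_pos ht0]; linarith)
    have k0 : ∑ i, (ν i ^ (p / 4)) ^ 2 = ρ * (e₁ ^ 2 + e₂ ^ 2) := by
      rw [← hFp0, ← hfm0, hkey0]
    have k3 := mul_le_mul_of_nonneg_left k1 hcp
    have k4 := mul_le_mul_of_nonneg_left k2 hcm
    rw [k0] at h1
    set Q := cE W (fun i => (ν i ^ (p / 4)) ^ (2 * a)) A' B' with hQ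
    have h2 : σ * τ * Q ≤ (σ - 1 + ρ) * τ * T := by
      have h3 : ρ * (e₁ ^ 2 + e₂ ^ 2) - cp * (ρ * fm a e₁ e₂ c s t) -
          cm * (ρ * fm a e₁ e₂ c s (-t)) = ρ * (τ * T) := by
        rw [← hEq]; ring
      have h3a : (σ - 1 + ρ) * τ * T = (σ - 1) * τ * T + ρ * (τ * T) := by ring
      rw [h3a, ← h3]
      linarith [h1, k3, k4]
    have h4 : σ * Q ≤ (σ - 1 + ρ) * T := by
      have h5 : τ * (σ * Q) ≤ τ * ((σ - 1 + ρ) * T) := by
        calc τ * (σ * Q) = σ * τ * Q := by ring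
          _ ≤ (σ - 1 + ρ) * τ * T := h2
          _ = τ * ((σ - 1 + ρ) * T) := by ring
      exact le_of_mul_le_mul_left h5 hτ
    have h6 : T ≤ u ^ 2 * V₀ + η := by
      rw [hval] at hT
      linarith [(abs_lt.1 hT).2]
    have h7 : 2 * (u * V₀) - Q ≤ ρ * V₀ := by
      rw [← hcol]; exact haff
    -- `u (σ - 1 + ρ) = σ`, `u ≥ ...`
    have h8 : u * Q ≤ T := by
      have h9 : (σ - 1 + ρ) * (u * Q) ≤ (σ - 1 + ρ) * T := by
        calc (σ - 1 + ρ) * (u * Q) = (u * (σ - 1 + ρ)) * Q := by ring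
          _ = σ * Q := by rw [hud]
          _ ≤ _ := h4
      exact le_of_mul_le_mul_left h9 hd
    have h10 : Q ≤ u * V₀ + η / u := by
      have h11 : u * Q ≤ u * (u * V₀ + η / u) := by
        have : u * (u * V₀ + η / u) = u ^ 2 * V₀ + η := by field_simp
        rw [this]
        exact h8.trans h6
      exact le_of_mul_le_mul_left h11 hu0
    linarith
  have hfin : u * V₀ ≤ ρ * V₀ := by
    by_contra hcon
    rw [not_le] at hcon
    have hg : 0 < u * (u * V₀ - ρ * V₀) := mul_pos hu0 (by linarith)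
    obtain ⟨η, hη0, hη⟩ := exists_between (lt_min hδ0 hg)
    rw [lt_min_iff] at hη
    have h1 := hstep η hη0 hη.1
    have h2 : η / u < u * V₀ - ρ * V₀ := by
      rw [div_lt_iff₀ hu0]
      linarith [hη.2]
    linarith
  have hur : u ≤ ρ := le_of_mul_le_mul_right hfin hV₀0
  have h10 : σ ≤ ρ * (σ - 1 + ρ) := by
    calc σ = u * (σ - 1 + ρ) := hud.symm
      _ ≤ ρ * (σ - 1 + ρ) := mul_le_mul_of_nonneg_right hur hd.le
  by_contra hlt
  rw [not_le] at hlt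
  have h11 : ρ * (σ - 1 + ρ) < 1 * σ := mul_lt_mul'' hlt (by linarith) hρ.le hd.le
  linarith

end Pool.Agent.LibSchG
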