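import Pool.Agent.LibSchG.R1
import Pool.Agent.LibSchG.G12

/-! **R2.**  All `N`, all exponents, from `Rst`. -/

open Matrix
open scoped ComplexOrder

namespace Pool.Agent.LibSchG

open Pool.Agent.LibSchP Pool.Agent.LibSchA

/-- square blocks, `4/3 < p < 2`: by contradiction, as `square_p` -/
theorem square_r {N : ℕ} {m : Type} [Fintype m] [DecidableEq m] {p a : ℝ} (ha : 0 < a)
    (ha' : 2 * a < 1) (hp : p = 2 / (1 + a)) (hG : Rst a) (A B : Fin N → Matrix m m ℂ) :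
    LibSch.pw p (LibSch.comp p A B) ≤ LibSch.pw p (LibSch.blk A B) := by
  have h1 : 4 / 3 < p := by
    rw [hp, lt_div_iff₀ (by linarith)]
    linarith
  have h2 : p < 2 := by
    rw [hp, div_lt_iff₀ (by linarith)]
    linarith
  by_contra hcon
  rw [not_le] at hcon
  obtain ⟨A₁, B₁, ρ, hρ, hρ1, hpos, heq, hmin⟩ := exists_min p (by linarith) h2 A B hcon
  obtain ⟨c, s, x, z, X, Z, D⟩ := rdat_exists (fun k => LibSch.sn p (A₁ k))
    (fun k => LibSch.sn p (B₁ k)) (fun k => sn_nonneg' p (A₁ k)) (fun k => sn_nonneg' p (B₁ k))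
  by_cases hsp : z ≤ 0 ∨ c = 0 ∨ s = 0 ∨ z = x
  · have h3 := special h1 h2 A₁ B₁ D hsp
    rw [heq] at h3
    nlinarith
  · push Not at hsp
    obtain ⟨hz, hc, hs, hzx⟩ := hsp
    have hpsd : (LibSch.blk A₁ B₁ * (LibSch.blk A₁ B₁)ᴴ).PosSemidef :=
      Matrix.posSemidef_self_mul_conjTranspose _
    obtain ⟨W, hW, ν, hν, hT⟩ := ud_exists_nonneg _ hpsd
    have H : Min p a ρ c s x z A₁ B₁ X Z W ν :=
      { ha := ha
        ha' := ha'
        hp := hp
        hρ := hρ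
        hmin := hmin
        heq := heq
        D := D
        hc := lt_of_le_of_ne D.hc (Ne.symm hc)
        hs := lt_of_le_of_ne D.hs (Ne.symm hs)
        hz := hz
        hzx := lt_of_le_of_ne D.hz hzx
        hW := hW
        hν := hν
        hT := hT }
    have h4 : 1 ≤ ρ := by
      by_cases h5 : ∃ i j k : Fin N,
          LibSch.sn p (A₁ i) * LibSch.sn p (B₁ j) ≠ LibSch.sn p (A₁ j) * LibSch.sn p (B₁ i) ∧
          LibSch.sn p (A₁ i) * LibSch.sn p (B₁ k) ≠ LibSch.sn p (A₁ k) * LibSch.sn p (B₁ i) ∧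
          LibSch.sn p (A₁ j) * LibSch.sn p (B₁ k) ≠ LibSch.sn p (A₁ k) * LibSch.sn p (B₁ j)
      · obtain ⟨i, j, k, hij, hik, hjk⟩ := h5
        exact main_r hG H i j k hij hik hjk
      · exact main_degenerate H fun i j k hij hik hjk => h5 ⟨i, j, k, hij, hik, hjk⟩
    exact absurd h4 (not_le.2 hρ1)

variable {N : ℕ} {m₁ m₂ : Type} {n : Fin N → Type} [Fintype m₁] [DecidableEq m₁] [Fintype m₂]
    [DecidableEq m₂] [∀ k, Fintype (n k)] [∀ k, DecidableEq (n k)]

/-- `4/3 < p < 2` -/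
theorem all_p_r {p : ℝ} (h1 : 4 / 3 < p) (h2 : p < 2) (hG : Rst (2 / p - 1))
    (A : ∀ k, Matrix m₁ (n k) ℂ) (B : ∀ k, Matrix m₂ (n k) ℂ) :
    LibSch.sn p (LibSch.comp p A B) ≤ LibSch.sn p (LibSch.blk A B) := by
  have hp0 : 0 < p := by linarith
  have ha : 0 < 2 / p - 1 := by
    rw [sub_pos, lt_div_iff₀ hp0]; linarith
  have ha' : 2 * (2 / p - 1) < 1 := by
    have : 2 / p < 3 / 2 := by rw [div_lt_div_iff₀ hp0 (by norm_num)]; linarith
    linarith
  refine all_sizes hp0 (fun N m _ _ A B => square_r ha ha' ?_ hG A B) A B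
  field_simp
  ring

/-- **all `N`, all `p ≥ 1`** -/
theorem all_N_r (hG : ∀ a : ℝ, 0 < a → 2 * a < 1 → Rst a) (p : ℝ)
    (A : ∀ k, Matrix m₁ (n k) ℂ) (B : ∀ k, Matrix m₂ (n k) ℂ) : LibSch.Holds p A B := by
  have hp : ∀ p : ℝ, 1 ≤ p → p < 2 → ∀ (A : ∀ k, Matrix m₁ (n k) ℂ)
      (B : ∀ k, Matrix m₂ (n k) ℂ),
      LibSch.sn p (LibSch.comp p A B) ≤ LibSch.sn p (LibSch.blk A B) := by
    intro p h1 h2 A B
    rcases le_or_gt p (4 / 3) with h | h
    · exact LibSchN.final p h1 h A B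
    · have hp0 : 0 < p := by linarith
      refine all_p_r h h2 (hG _ ?_ ?_) A B
      · rw [sub_pos, lt_div_iff₀ hp0]; linarith
      · have : 2 / p < 3 / 2 := by rw [div_lt_div_iff₀ hp0 (by norm_num)]; linarith
        linarith
  rcases lt_trichotomy p 2 with h2 | h2 | h2
  · exact ⟨fun h1 _ => hp p h1 h2 A B, fun h3 => absurd h3 (not_le.2 h2)⟩
  · subst h2
    exact LibSchQ.h1_holds_two A B
  · refine ⟨fun _ h3 => absurd h3 (not_le.2 h2), fun _ => ?_⟩
    have h3 : 1 < p := by linarith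
    have h4 := Real.HolderConjugate.conjExponent h3
    have h5 : p.conjExponent < 2 := by
      unfold Real.conjExponent
      rw [div_lt_iff₀ (by linarith)]
      linarith
    exact duality h4.symm (fun A B => hp _ h4.symm.lt.le h5 A B) A B

/-- the statement in explicit form -/
theorem explicit_r (hG : ∀ a : ℝ, 0 < a → 2 * a < 1 → Rst a) :
  ∀ (p : ℝ) (N m₁ m₂ : ℕ) (n : Fin N → ℕ)
    (T : Matrix (Fin m₁ ⊕ Fin m₂) (Σ k : Fin N, Fin (n k)) ℂ)
    (a b : Fin N → ℝ) (nT nC : ℝ),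
    (∀ k : Fin N, a k =
      (∑ j, ((Matrix.isHermitian_conjTranspose_mul_self
        (Matrix.of fun (r : Fin m₁) (c : Fin (n k)) => T (Sum.inl r) ⟨k, c⟩)).eigenvalues j)
          ^ (p / 2)) ^ (1 / p)) →
    (∀ k : Fin N, b k =
      (∑ j, ((Matrix.isHermitian_conjTranspose_mul_self
        (Matrix.of fun (r : Fin m₂) (c : Fin (n k)) => T (Sum.inr r) ⟨k, c⟩)).eigenvalues j)
          ^ (p / 2)) ^ (1 / p)) →
    nT = (∑ j, ((Matrix.isHermitian_conjTranspose_mul_self T).eigenvalues j) ^ (p / 2)) ^ (1 / p) →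
    nC = (∑ j, ((Matrix.isHermitian_conjTranspose_mul_self
        (Matrix.of fun (i : Fin 2) (k : Fin N) => ((![a k, b k] i : ℝ) : ℂ))).eigenvalues j)
          ^ (p / 2)) ^ (1 / p) →
    ((1 ≤ p → p ≤ 2 → nC ≤ nT) ∧ (2 ≤ p → nT ≤ nC)) := by
  intro p N m₁ m₂ n T a b nT nC ha hb hT hC
  set A : ∀ k, Matrix (Fin m₁) (Fin (n k)) ℂ := fun k => Matrix.of fun r c => T (Sum.inl r) ⟨k, c⟩
    with hA
  set B : ∀ k, Matrix (Fin m₂) (Fin (n k)) ℂ := fun k => Matrix.of fun r c => T (Sum.inr r) ⟨k, c⟩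
    with hB
  have hTb : LibSch.blk A B = T := by
    ext i c
    rcases i with i | i <;> rfl
  have ha' : ∀ k, a k = LibSch.sn p (A k) := ha
  have hb' : ∀ k, b k = LibSch.sn p (B k) := hb
  have hT' : nT = LibSch.sn p (LibSch.blk A B) := by rw [hTb]; exact hT
  have hCb : (Matrix.of fun (i : Fin 2) (k : Fin N) => ((![a k, b k] i : ℝ) : ℂ)) =
      LibSch.comp p A B := by
    ext i k
    simp only [LibSch.comp, Matrix.of_apply, ha', hb']
  have hC' : nC = LibSch.sn p (LibSch.comp p A B) := by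
    rw [← hCb]; exact hC
  have h := all_N_r hG p A B
  rw [hT', hC']
  exact h

end Pool.Agent.LibSchG
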