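import Pool.Agent.LibSchG.R2
import Pool.Agent.LibRest.V96

/-! **R3.**  `Rst a` for all `0 < a < 1/2`. -/

open Matrix
open scoped ComplexOrder

namespace Pool.Agent.LibSchG

theorem rst_true : ∀ a : ℝ, 0 < a → 2 * a < 1 → Rst a := by
  intro a ha ha' e₁ e₂ c s X Z he₂ he hc hs hcs hy₁ hy₂ hL η hη
  obtain ⟨t, cp, cm, τ, T, h1, h2, h3, h4, h5, h6, h7, h8⟩ :=
    LibRest.rst_all ha ha' e₁ e₂ c s X Z he₂ he hc hs hcs hy₁ hy₂ hL η hη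
  exact ⟨t, cp, cm, τ, T, h1, h2, h3, h4, h5, h6, h7,
    fun q m _ _ hq A B hA hB W hW μ hμ => h8 q m A B hq hA hB W hW μ hμ⟩

end Pool.Agent.LibSchG
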